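import Pool.Agent.L5helper31.TG.Defs

set_option autoImplicit false

open MeasureTheory Finset

namespace Pool.Agent.L5helper31.TG

namespace Circ

/-- the real vector of an integral vector -/
def cst {n : ℕ} (l : Fin n → ℤ) : Fin n → ℝ := fun i => (l i : ℝ)

theorem cst_inj {n : ℕ} : Function.Injective (cst (n := n)) := by
  intro a b h
  funext i
  have := congrFun h i
  simpa [cst] using this

theorem dot_smul' {n : ℕ} (l : Fin n → ℤ) (t : ℝ) (x : Fin n → ℝ) :
    dot l (t • x) = t * dot l x := by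
  simp only [dot, Finset.mul_sum, Pi.smul_apply, smul_eq_mul]
  exact sum_congr rfl fun i _ => by ring

theorem dot_eq {n : ℕ} (l : Fin n → ℤ) (f : (Fin n → ℝ) →ₗ[ℝ] ℝ) :
    dot l (fun i => f (Pi.single i 1)) = f (cst l) := by
  have h : cst l = ∑ i, (l i : ℝ) • (Pi.single i (1 : ℝ) : Fin n → ℝ) := by
    funext j
    simp [cst, Finset.sum_apply, Pi.single_apply]
  rw [h, map_sum]
  exact sum_congr rfl fun i _ => by rw [map_smul, smul_eq_mul]

theorem exists_neg' {n : ℕ} (L : Finset (Fin n → ℤ)) (hb : Bornology.IsBounded (polytope L))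
    (x : Fin n → ℝ) (hx : x ≠ 0) : ∃ l ∈ L, dot l x < 0 := by
  by_contra hcon
  push Not at hcon
  obtain ⟨R, hR⟩ := hb.exists_norm_le
  have hx' : 0 < ‖x‖ := norm_pos_iff.mpr hx
  have h1 : ∀ t : ℝ, 0 ≤ t → t • x ∈ polytope L := by
    intro t ht l hl
    rw [dot_smul']
    have := mul_nonneg ht (hcon l hl)
    linarith
  have h2 := hR _ (h1 ((|R| + 1) / ‖x‖) (by positivity))
  rw [norm_smul, Real.norm_of_nonneg (by positivity), div_mul_cancel₀ _ hx'.ne'] at h2
  linarith [le_abs_self R]

theorem zero_mem' {n : ℕ} (hn : 1 ≤ n) (L : Finset (Fin n → ℤ))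
    (hb : Bornology.IsBounded (polytope L)) :
    (0 : Fin n → ℝ) ∈ convexHull ℝ (cst '' (L : Set (Fin n → ℤ))) := by
  by_contra hcon
  have hfin : (cst '' (L : Set (Fin n → ℤ))).Finite := L.finite_toSet.image _
  have hcomp := hfin.isCompact_convexHull ℝ
  obtain ⟨f, u, hf, hu⟩ := geometric_hahn_banach_closed_point (convex_convexHull ℝ _)
    hcomp.isClosed hcon
  rw [map_zero] at hu
  have key : ∀ l ∈ L, dot l (fun i => f (Pi.single i 1)) < 0 := by
    intro l hl
    have h := dot_eq l (f : (Fin n → ℝ) →ₗ[ℝ] ℝ)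
    have h' : dot l (fun i => f (Pi.single i 1)) = f (cst l) := h
    rw [h']
    exact (hf _ (subset_convexHull ℝ _ ⟨l, hl, rfl⟩)).trans hu
  obtain ⟨l0, hl0, -⟩ := exists_neg' L hb (Pi.single (⟨0, hn⟩ : Fin n) (1 : ℝ)) (by
    intro h
    have := congrFun h ⟨0, hn⟩
    simp at this)
  have hv : ((-1 : ℝ) • (fun i => f (Pi.single i 1) : Fin n → ℝ)) ≠ 0 := by
    intro h
    have h1 := key l0 hl0
    have h2 := dot_smul' l0 (-1) (fun i => f (Pi.single i 1))
    rw [h] at h2
    have h3 : dot l0 (0 : Fin n → ℝ) = 0 := by simp [dot]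
    rw [h3] at h2
    linarith
  obtain ⟨l, hl, hlt⟩ := exists_neg' L hb _ hv
  rw [dot_smul'] at hlt
  linarith [key l hl]

theorem span_top' {n : ℕ} (L : Finset (Fin n → ℤ)) (hb : Bornology.IsBounded (polytope L)) :
    Submodule.span ℝ (cst '' (L : Set (Fin n → ℤ))) = ⊤ := by
  by_contra hcon
  obtain ⟨f, hf, hle⟩ := Submodule.exists_le_ker_of_lt_top _ (lt_top_iff_ne_top.mpr hcon)
  have hv : (fun i => f (Pi.single i 1) : Fin n → ℝ) ≠ 0 := by
    intro h
    apply hf
    refine LinearMap.pi_ext' fun i => ?_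
    ext
    have := congrFun h i
    simpa using this
  obtain ⟨l, hl, hlt⟩ := exists_neg' L hb _ hv
  rw [dot_eq] at hlt
  have : cst l ∈ LinearMap.ker f := hle (Submodule.subset_span ⟨l, hl, rfl⟩)
  rw [LinearMap.mem_ker] at this
  linarith

/-- a vector of `L` is minus a nonnegative combination of a basis contained in `L` -/
theorem exists_basis' {n : ℕ} (hn : 1 ≤ n) (L : Finset (Fin n → ℤ))
    (hb : Bornology.IsBounded (polytope L)) :
    ∃ M : Fin n → (Fin n → ℤ), (∀ i, M i ∈ L) ∧ LinearIndependent ℝ (fun i => cst (M i)) ∧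
      ∃ l ∈ L, ∃ c : Fin n → ℝ, (∀ i, 0 ≤ c i) ∧ cst l = -∑ i, c i • cst (M i) := by
  classical
  obtain ⟨ι, _, z, w, hz, hai, hw, hw1, hw0⟩ :=
    eq_pos_convex_span_of_mem_convexHull (zero_mem' hn L hb)
  have hne : Nonempty ι := by
    by_contra h
    rw [not_nonempty_iff] at h
    simp at hw1
  obtain ⟨i0⟩ := hne
  -- linear independence without `i0`
  have hli : LinearIndependent ℝ (fun i : {i : ι // i ≠ i0} => z i) := by
    rw [Fintype.linearIndependent_iff]
    intro g hg
    let c : ι → ℝ := fun i => if h : i ≠ i0 then g ⟨i, h⟩ else 0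
    have hc0 : c i0 = 0 := by simp [c]
    have hcg : ∀ i : {i : ι // i ≠ i0}, c i = g i := by
      intro i
      simp only [c]
      rw [dif_pos i.2]
    have hcs : ∑ i, c i • z i = 0 := by
      rw [← Fintype.sum_subtype_add_sum_subtype (fun i => i ≠ i0) (fun i => c i • z i)]
      have h1 : ∑ i : {i : ι // i ≠ i0}, c i • z i = 0 := by
        rw [← hg]
        exact sum_congr rfl fun i _ => by rw [hcg]
      have h2 : ∑ i : {i : ι // ¬ i ≠ i0}, c i • z i = 0 := by
        refine sum_eq_zero fun i _ => ?_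
        have : (i : ι) = i0 := not_not.mp i.2
        rw [this, hc0, zero_smul]
      rw [h1, h2, add_zero]
    let S : ℝ := ∑ i, c i
    have h := affineIndependent_iff.mp hai univ (fun i => c i - S * w i) (by
      rw [sum_sub_distrib, ← mul_sum, hw1, mul_one, sub_self]) (by
      have : ∀ i, (c i - S * w i) • z i = c i • z i - S • (w i • z i) := by
        intro i
        rw [sub_smul, mul_smul]
      rw [sum_congr rfl fun i _ => this i, sum_sub_distrib, hcs, ← smul_sum, hw0]
      simp)
    have hS : S = 0 := by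
      have h0 := h i0 (mem_univ _)
      simp only [hc0, zero_sub, neg_eq_zero, mul_eq_zero] at h0
      exact h0.resolve_right (hw i0).ne'
    intro i
    have h1 := h i (mem_univ _)
    simp only [hS, zero_mul, sub_zero] at h1
    rw [← hcg, h1]
  have hzs : Set.range (fun i : {i : ι // i ≠ i0} => z i) ⊆ cst '' (L : Set (Fin n → ℤ)) := by
    rintro _ ⟨i, rfl⟩
    exact hz ⟨i, rfl⟩
  obtain ⟨b, hb1, hb2, hb3, hb4⟩ := exists_linearIndepOn_id_extension hli.linearIndepOn_id hzs
  have hsp : ⊤ ≤ Submodule.span ℝ (Set.range (fun x : b => (x : Fin n → ℝ))) := by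
    rw [Subtype.range_coe, ← span_top' L hb]
    exact Submodule.span_le.mpr hb3
  let B : Module.Basis b ℝ (Fin n → ℝ) := Module.Basis.mk hb4 hsp
  let e : Fin n ≃ b := (Pi.basisFun ℝ (Fin n)).indexEquiv B
  have hbL : ∀ i : Fin n, ∃ l ∈ L, cst l = (e i : Fin n → ℝ) := by
    intro i
    obtain ⟨l, hl, h⟩ := hb1 (e i).2
    exact ⟨l, hl, h⟩
  choose M hM hMe using hbL
  have hli2 : LinearIndependent ℝ (fun i => cst (M i)) := by
    have h1 : LinearIndependent ℝ (fun i => ((e i : b) : Fin n → ℝ)) :=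
      LinearIndependent.comp hb4 e e.injective
    have h2 : (fun i => cst (M i)) = (fun i => ((e i : b) : Fin n → ℝ)) := funext hMe
    rw [h2]
    exact h1
  obtain ⟨l, hl, hlz⟩ := hz ⟨i0, rfl⟩
  let σ : {i : ι // i ≠ i0} → Fin n := fun i => e.symm ⟨z i, hb2 ⟨i, rfl⟩⟩
  have hσ : ∀ i, cst (M (σ i)) = z i := by
    intro i
    rw [hMe]
    simp only [σ, Equiv.apply_symm_apply]
  refine ⟨M, hM, hli2, l, hl, fun j => ∑ i : {i : ι // i ≠ i0}, if σ i = j then w i / w i0 else 0,
    fun j => sum_nonneg fun i _ => ?_, ?_⟩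
  · split_ifs
    · exact (div_pos (hw _) (hw _)).le
    · exact le_rfl
  · have h1 : ∑ j, (∑ i : {i : ι // i ≠ i0}, if σ i = j then w i / w i0 else 0) • cst (M j) =
        ∑ i : {i : ι // i ≠ i0}, (w i / w i0) • z i := by
      simp only [sum_smul]
      rw [sum_comm]
      refine sum_congr rfl fun i _ => ?_
      rw [sum_eq_single (σ i)]
      · rw [if_pos rfl, hσ]
      · intro j _ hj
        rw [if_neg (Ne.symm hj), zero_smul]
      · intro h
        exact absurd (mem_univ _) h
    rw [h1, hlz]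
    have h2 := Fintype.sum_subtype_add_sum_subtype (fun i => i ≠ i0) (fun i => w i • z i)
    have h3 : ∑ i : {i : ι // ¬ i ≠ i0}, w i • z i = w i0 • z i0 := by
      rw [Fintype.sum_eq_single (⟨i0, not_not.mpr rfl⟩ : {i : ι // ¬ i ≠ i0})]
      intro x hx
      exact absurd (Subtype.ext (not_not.mp x.2)) hx
    rw [h3, hw0] at h2
    have h4 : ∑ i : {i : ι // i ≠ i0}, (w i / w i0) • z i =
        (w i0)⁻¹ • ∑ i : {i : ι // i ≠ i0}, w i • z i := by
      rw [smul_sum]
      refine sum_congr rfl fun i _ => ?_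
      rw [smul_smul, div_eq_inv_mul]
    rw [h4, eq_neg_of_add_eq_zero_left h2, smul_neg, neg_neg, smul_smul,
      inv_mul_cancel₀ (hw i0).ne', one_smul]

theorem cast_det {n : ℕ} (M : Fin n → (Fin n → ℤ)) :
    (((Matrix.of M).det : ℤ) : ℝ) = (Matrix.of fun i => cst (M i)).det := by
  have h := RingHom.map_det (Int.castRingHom ℝ) (Matrix.of M)
  exact h

end Circ

open Circ in
/-- TG5. The vectors span, and there is a basis and a subset of it with the sum in `-L`. -/
theorem circuit {n : ℕ} (hn : 1 ≤ n) (L : Finset (Fin n → ℤ))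
    (hb : Bornology.IsBounded (polytope L)) (h0 : (0 : Fin n → ℤ) ∉ L)
    (hu : ∀ M : Fin n → (Fin n → ℤ), (∀ i, M i ∈ L) → |(Matrix.of M).det| ≤ 1) :
    ∃ M : Fin n → (Fin n → ℤ), (∀ i, M i ∈ L) ∧ (Matrix.of M).det ≠ 0 ∧
      ∃ J : Finset (Fin n), J.Nonempty ∧ -∑ i ∈ J, M i ∈ L := by
  classical
  obtain ⟨M, hM, hli, l, hl, c, hc, hlc⟩ := exists_basis' hn L hb
  have hunit : IsUnit (Matrix.of fun i => cst (M i)) :=
    Matrix.linearIndependent_rows_iff_isUnit.mp hli
  have hdet0 : (Matrix.of fun i => cst (M i)).det ≠ 0 :=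
    ((Matrix.isUnit_iff_isUnit_det _).mp hunit).ne_zero
  have hdM : (Matrix.of M).det ≠ 0 := by
    intro h
    rw [← cast_det, h] at hdet0
    simp at hdet0
  have hd1 : (Matrix.of M).det * (Matrix.of M).det = 1 := by
    have h1 := hu M hM
    have h2 : |(Matrix.of M).det| = 1 := le_antisymm h1 (Int.one_le_abs hdM)
    rw [← abs_mul_abs_self, h2, one_mul]
  have hci : ∀ i, c i = 0 ∨ c i = 1 := by
    intro i
    have h1 := hu (Function.update M i l) (by
      intro j
      by_cases h : j = i
      · subst h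
        rw [Function.update_self]
        exact hl
      · rw [Function.update_of_ne h]
        exact hM j)
    have h2 : (((Matrix.of (Function.update M i l)).det : ℤ) : ℝ) =
        -c i * ((Matrix.of M).det : ℤ) := by
      rw [cast_det, cast_det]
      have h3 := Matrix.det_updateRow_sum (Matrix.of fun i => cst (M i)) i (fun k => -c k)
      have h4 : ∑ k, (-c k) • (Matrix.of fun i => cst (M i)) k = cst l := by
        rw [hlc, ← sum_neg_distrib]
        exact sum_congr rfl fun k _ => by
          rw [neg_smul]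
          rfl
      rw [h4, smul_eq_mul] at h3
      rw [← h3]
      congr 1
      funext a b
      by_cases h : a = i
      · subst h
        rw [Matrix.updateRow_self]
        show cst (Function.update M a l a) b = _
        rw [Function.update_self]
      · rw [Matrix.updateRow_ne h]
        show cst (Function.update M i l a) b = _
        rw [Function.update_of_ne h]
        rfl
    set D : ℤ := (Matrix.of (Function.update M i l)).det with hD
    set E : ℤ := (Matrix.of M).det with hE
    have hk : c i = ((-(D * E) : ℤ) : ℝ) := by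
      push_cast
      rw [h2]
      have : (E : ℝ) * E = 1 := by exact_mod_cast hd1
      linear_combination (-c i) * this
    have hE1 : |E| ≤ 1 := hu M hM
    have hk1 : |(-(D * E))| ≤ 1 := by
      rw [abs_neg, abs_mul]
      calc |D| * |E| ≤ 1 * 1 := mul_le_mul h1 hE1 (abs_nonneg _) zero_le_one
        _ = 1 := one_mul _
    have hk0 : 0 ≤ -(D * E) := by
      have := hc i
      rw [hk] at this
      exact_mod_cast this
    rw [abs_of_nonneg hk0] at hk1
    have : -(D * E) = 0 ∨ -(D * E) = 1 := by omega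
    rcases this with h | h
    · left
      rw [hk, h]
      simp
    · right
      rw [hk, h]
      simp
  have hl2 : l = -∑ i ∈ univ.filter (fun i => c i = 1), M i := by
    apply cst_inj
    rw [hlc]
    funext j
    have h1 : cst (-∑ i ∈ univ.filter (fun i => c i = 1), M i) j =
        -∑ i ∈ univ.filter (fun i => c i = 1), cst (M i) j := by
      simp [cst, Finset.sum_apply]
    rw [h1, Pi.neg_apply, Finset.sum_apply, sum_filter]
    congr 1
    refine sum_congr rfl fun i _ => ?_
    rcases hci i with h | h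
    · rw [if_neg (by rw [h]; norm_num), h]
      simp
    · rw [if_pos h, h]
      simp
  refine ⟨M, hM, hdM, univ.filter (fun i => c i = 1), ?_, hl2 ▸ hl⟩
  rw [Finset.nonempty_iff_ne_empty]
  intro h
  rw [h, sum_empty, neg_zero] at hl2
  exact h0 (hl2 ▸ hl)

end Pool.Agent.L5helper31.TG
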