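import Pool.Agent.L5helper71.AffOrb

/-!
# The law of the survivors among the orbit of an affine map, for random residue classes

The probabilistic part is `exp_law` and `exp_mean` of helper2 (`Pool.Agent.L5helper2.RS`).
-/

set_option autoImplicit false

namespace Pool.Agent.L5helper71.AO

open Finset Filter Topology MeasureTheory Pool.Agent.L5helper2.RS

/-- the growth of the sequence -/
lemma growth {v : ℕ → ℤ} {β : ℕ} (hβ : 2 ≤ β) {E : ℤ} (hE : 0 < E)
    (hv : ∀ m, v (m + 1) - v m = E * β ^ (m + 1)) :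
    ∃ K : ℝ, 1 ≤ K ∧ ∀ᶠ m : ℕ in atTop, (β : ℝ) ^ m / 2 ≤ v m ∧ (v m : ℝ) ≤ K * (β : ℝ) ^ m := by
  have hβ1 : (1 : ℝ) < β := by exact_mod_cast (by omega : 1 < β)
  have hβ0 : (0 : ℝ) < β := by linarith
  have hE1 : (1 : ℝ) ≤ E := by exact_mod_cast hE
  refine ⟨|(v 0 : ℝ)| + E * β + 1, by have := abs_nonneg (v 0 : ℝ); nlinarith, ?_⟩
  have hinf : Tendsto (fun m : ℕ => (β : ℝ) ^ m) atTop atTop := tendsto_pow_atTop_atTop_of_one_lt hβ1
  filter_upwards [hinf.eventually_ge_atTop (2 * |(v 0 : ℝ)|), eventually_ge_atTop 1] with m hm hm1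
  have e : (v m : ℝ) = v 0 + E * β * G β m := by
    have h1 := diff hv 0 m
    rw [Nat.zero_add, pow_one] at h1
    have h2 : v m = v 0 + E * β * G β m := by linarith
    rw [h2]
    push_cast
    ring
  have hG1 : (β : ℝ) ^ m ≤ β * G β m := by
    obtain ⟨l, rfl⟩ : ∃ l, m = l + 1 := ⟨m - 1, by omega⟩
    have h2 : ((β : ℝ)) ^ l ≤ G β (l + 1) := by exact_mod_cast G_ge (β := β) l
    rw [pow_succ, mul_comm]
    exact mul_le_mul_of_nonneg_left h2 hβ0.le
  have hG2 : (G β m : ℝ) ≤ (β : ℝ) ^ m := by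
    have := G_le hβ m
    exact_mod_cast (by omega : G β m ≤ β ^ m)
  have ha := neg_abs_le (v 0 : ℝ)
  have hb := le_abs_self (v 0 : ℝ)
  have hp1 : (1 : ℝ) ≤ (β : ℝ) ^ m := one_le_pow₀ hβ1.le
  have hg0 : (0 : ℝ) ≤ G β m := Nat.cast_nonneg _
  rw [e]
  constructor
  · have h3 : (β : ℝ) ^ m ≤ E * β * G β m := by
      have h4 : β * (G β m : ℝ) ≤ E * (β * G β m) := le_mul_of_one_le_left (by positivity) hE1
      linarith
    linarith
  · have h3 : E * β * (G β m : ℝ) ≤ E * β * (β : ℝ) ^ m := mul_le_mul_of_nonneg_left hG2 (by positivity)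
    have h4 : |(v 0 : ℝ)| ≤ |(v 0 : ℝ)| * (β : ℝ) ^ m := le_mul_of_one_le_right (abs_nonneg _) hp1
    nlinarith

/-- the level of the sieve -/
def lv (v : ℕ → ℤ) (m : ℕ) : ℕ := max m (Nat.sqrt (v m).toNat)

lemma lv_ge (v : ℕ → ℤ) (m : ℕ) : m ≤ lv v m := le_max_left _ _

lemma lv_mono {v : ℕ → ℤ} (hv : Monotone v) : Monotone (lv v) := by
  intro a b hab
  unfold lv
  have h1 := Int.toNat_le_toNat (hv hab)
  exact max_le_max hab (Nat.sqrt_le_sqrt h1)

lemma mono_of {v : ℕ → ℤ} {β : ℕ} {E : ℤ} (hE : 0 < E)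
    (hv : ∀ m, v (m + 1) - v m = E * β ^ (m + 1)) : Monotone v := by
  refine monotone_nat_of_le_succ fun m => ?_
  have h1 := hv m
  have h2 : (0 : ℤ) ≤ E * β ^ (m + 1) := by positivity
  linarith

lemma lv_eq {v : ℕ → ℤ} {β : ℕ} (hβ : 2 ≤ β) {E : ℤ} (hE : 0 < E)
    (hv : ∀ m, v (m + 1) - v m = E * β ^ (m + 1)) :
    ∀ᶠ m : ℕ in atTop, lv v m = Nat.sqrt (v m).toNat := by
  have hβ1 : (1 : ℝ) < β := by exact_mod_cast (by omega : 1 < β)
  obtain ⟨K, _, hK⟩ := growth hβ hE hv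
  have h1 := tendsto_pow_const_div_const_pow_of_one_lt 2 hβ1
  filter_upwards [hK, h1.eventually (gt_mem_nhds (by norm_num : (0 : ℝ) < 1 / 2))] with m hm hm2
  have hp : (0 : ℝ) < (β : ℝ) ^ m := by positivity
  rw [div_lt_iff₀ hp] at hm2
  have h2 : (m : ℝ) ^ 2 ≤ v m := by linarith [hm.1]
  have h3 : (m : ℤ) ^ 2 ≤ v m := by exact_mod_cast h2
  have h4 : m * m ≤ (v m).toNat := by
    have : ((m * m : ℕ) : ℤ) ≤ v m := by
      push_cast
      nlinarith
    generalize m * m = k at this ⊢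
    omega
  unfold lv
  exact max_eq_right (Nat.le_sqrt.2 h4)

/-- the limit in the theorem of Mertens -/
lemma mertens {v : ℕ → ℤ} {β : ℕ} (hβ : 2 ≤ β) {E : ℤ} (hE : 0 < E)
    (hv : ∀ m, v (m + 1) - v m = E * β ^ (m + 1)) :
    Tendsto (fun m : ℕ => (m : ℝ) * Vp (lv v m)) atTop
      (𝓝 (2 * Real.exp (-Real.eulerMascheroniConstant) / Real.log β)) := by
  have hβ1 : (1 : ℝ) < β := by exact_mod_cast (by omega : 1 < β)
  have hβ0 : (0 : ℝ) < β := by linarith
  obtain ⟨L, hL⟩ : ∃ L : ℝ, L = Real.log β := ⟨_, rfl⟩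
  have hL0 : 0 < L := by rw [hL]; exact Real.log_pos hβ1
  obtain ⟨K, hK1, hK⟩ := growth hβ hE hv
  have hz : Tendsto (lv v) atTop atTop := tendsto_atTop_mono (lv_ge v) tendsto_id
  have h1 := Vp_mertens.comp hz
  have h2 : Tendsto (fun m : ℕ => Real.log (lv v m) / m) atTop (𝓝 (L / 2)) := by
    obtain ⟨A, hA⟩ : ∃ A : ℝ, A = Real.log 2 / 2 + Real.log 2 := ⟨_, rfl⟩
    obtain ⟨B, hB⟩ : ∃ B : ℝ, B = Real.log K / 2 := ⟨_, rfl⟩
    have hlo : Tendsto (fun m : ℕ => L / 2 - A / (m : ℝ)) atTop (𝓝 (L / 2)) := by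
      have := (tendsto_const_nhds (x := A)).div_atTop (tendsto_natCast_atTop_atTop (R := ℝ))
      simpa using this.const_sub (L / 2)
    have hhi : Tendsto (fun m : ℕ => L / 2 + B / (m : ℝ)) atTop (𝓝 (L / 2)) := by
      have := (tendsto_const_nhds (x := B)).div_atTop (tendsto_natCast_atTop_atTop (R := ℝ))
      simpa using this.const_add (L / 2)
    have hev : ∀ᶠ m : ℕ in atTop, 1 ≤ m ∧ Real.log (lv v m) ≤ (m * L + Real.log K) / 2 ∧
        (m * L - Real.log 2) / 2 - Real.log 2 ≤ Real.log (lv v m) := by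
      filter_upwards [hK, lv_eq hβ hE hv, eventually_ge_atTop 1] with m hm hm2 hm1
      have hp : (0 : ℝ) < (β : ℝ) ^ m := by positivity
      have hs1 : 1 ≤ lv v m := hm1.trans (lv_ge v m)
      obtain ⟨s, hs⟩ : ∃ s : ℕ, s = lv v m := ⟨_, rfl⟩
      have hv0 : (0 : ℝ) < v m := lt_of_lt_of_le (by positivity) hm.1
      have hvz : (0 : ℤ) < v m := by exact_mod_cast hv0
      have hvn : (((v m).toNat : ℕ) : ℝ) = v m := by
        have : (((v m).toNat : ℕ) : ℤ) = v m := Int.toNat_of_nonneg hvz.le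
        exact_mod_cast this
      rw [← hs] at hm2 hs1 ⊢
      have hlo1 : (s : ℝ) ^ 2 ≤ v m := by
        have h3 : s ^ 2 ≤ (v m).toNat := by
          rw [hm2]
          exact Nat.sqrt_le' _
        rw [← hvn]
        exact_mod_cast h3
      have hhi1 : (v m : ℝ) ≤ (2 * s) ^ 2 := by
        have h3 : (v m).toNat < (s + 1) ^ 2 := by
          rw [hm2]
          exact Nat.lt_succ_sqrt' _
        have h4 : (s + 1) ^ 2 ≤ (2 * s) ^ 2 := Nat.pow_le_pow_left (by omega) 2
        rw [← hvn]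
        exact_mod_cast (h3.le.trans h4)
      have hs0 : (0 : ℝ) < s := by exact_mod_cast hs1
      refine ⟨hm1, ?_, ?_⟩
      · have h5 : Real.log ((s : ℝ) ^ 2) ≤ Real.log (K * (β : ℝ) ^ m) :=
          Real.log_le_log (by positivity) (hlo1.trans hm.2)
        rw [Real.log_pow, Real.log_mul (by positivity) (by positivity), Real.log_pow, ← hL] at h5
        push_cast at h5
        linarith
      · have h5 : Real.log ((β : ℝ) ^ m / 2) ≤ Real.log ((2 * s : ℝ) ^ 2) :=
          Real.log_le_log (by positivity) (hm.1.trans hhi1)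
        rw [Real.log_pow, Real.log_mul (by norm_num) (by positivity), Real.log_div (by positivity) (by norm_num),
          Real.log_pow, ← hL] at h5
        push_cast at h5
        linarith
    refine tendsto_of_tendsto_of_tendsto_of_le_of_le' hlo hhi ?_ ?_
    · filter_upwards [hev] with m hm
      have hm0 : (0 : ℝ) < m := by exact_mod_cast hm.1
      rw [le_div_iff₀ hm0, sub_mul, div_mul_cancel₀ _ hm0.ne', hA]
      linarith [hm.2.2]
    · filter_upwards [hev] with m hm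
      have hm0 : (0 : ℝ) < m := by exact_mod_cast hm.1
      rw [div_le_iff₀ hm0, add_mul, div_mul_cancel₀ _ hm0.ne', hB]
      linarith [hm.2.1]
  have h3 := h1.div h2 (by positivity)
  have e : Real.exp (-Real.eulerMascheroniConstant) / (L / 2) =
      2 * Real.exp (-Real.eulerMascheroniConstant) / Real.log β := by
    rw [← hL]
    field_simp
  rw [e] at h3
  refine h3.congr' ?_
  filter_upwards [eventually_ge_atTop 2] with m hm
  have hm0 : (0 : ℝ) < m := by exact_mod_cast (by omega : 0 < m)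
  have hz2 : (2 : ℝ) ≤ lv v m := by exact_mod_cast hm.trans (lv_ge v m)
  have hlog : Real.log (lv v m) ≠ 0 := (Real.log_pos (by linarith)).ne'
  simp only [Function.comp, Pi.div_apply]
  field_simp

/-- a shift of the argument and a bounded error -/
lemma shift_tendsto {A B g : ℕ → ℝ} {K L : ℝ} (hg : Tendsto g atTop atTop)
    (hr : Tendsto (fun n => g n / g (n + 1)) atTop (𝓝 1)) (hAB : ∀ n, |A (n + 1) - B n| ≤ K)
    (hB : Tendsto (fun n => B n / g n) atTop (𝓝 L)) : Tendsto (fun n => A n / g n) atTop (𝓝 L) := by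
  rw [← tendsto_add_atTop_iff_nat 1]
  have hg1 : Tendsto (fun n => g (n + 1)) atTop atTop := hg.comp (tendsto_add_atTop_nat 1)
  have h1 : Tendsto (fun n => (A (n + 1) - B n) / g (n + 1)) atTop (𝓝 0) := by
    refine squeeze_zero_norm' ?_ ((tendsto_const_nhds (x := K)).div_atTop hg1)
    filter_upwards [hg1.eventually_gt_atTop 0] with n hn
    rw [norm_div, Real.norm_eq_abs, Real.norm_of_nonneg hn.le]
    exact div_le_div_of_nonneg_right (hAB n) hn.le
  have h2 := h1.add (hB.mul hr)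
  rw [zero_add, mul_one] at h2
  refine h2.congr' ?_
  filter_upwards [hg.eventually_gt_atTop 0, hg1.eventually_gt_atTop 0] with n hn hn1
  field_simp
  ring

open Classical in
/-- two sets which agree from `m0` on -/
lemma count_agree {S T : ℕ → Prop} {m0 : ℕ} (h : ∀ m, m0 ≤ m → (S m ↔ T m)) (n : ℕ) :
    |(#((Icc 1 n).filter S) : ℝ) - #((Icc 1 n).filter T)| ≤ m0 := by
  have key : ∀ {S T : ℕ → Prop}, (∀ m, m0 ≤ m → (S m ↔ T m)) → #((Icc 1 n).filter S) ≤ #((Icc 1 n).filter T) + m0 := by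
    intro S T h
    calc #((Icc 1 n).filter S) ≤ #((Icc 1 n).filter T ∪ range m0) := by
          refine card_le_card fun m hm => ?_
          rw [mem_filter] at hm
          rw [mem_union, mem_filter, mem_range]
          by_cases hm0 : m0 ≤ m
          · exact Or.inl ⟨hm.1, (h m hm0).1 hm.2⟩
          · exact Or.inr (by omega)
      _ ≤ _ := (card_union_le _ _).trans (by rw [card_range])
  have h1 := key h
  have h2 := key (fun m hm => (h m hm).symm)
  have h1' : (#((Icc 1 n).filter S) : ℝ) ≤ #((Icc 1 n).filter T) + m0 := by exact_mod_cast h1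
  have h2' : (#((Icc 1 n).filter T) : ℝ) ≤ #((Icc 1 n).filter S) + m0 := by exact_mod_cast h2
  rw [abs_le]
  constructor <;> linarith

open Classical in
/-- the shift by one -/
lemma count_shift (R : ℕ → Prop) (n : ℕ) :
    |(#((Icc 1 (n + 1)).filter R) : ℝ) - #((Icc 1 n).filter (fun m => R (m + 1)))| ≤ 1 := by
  have h1 : #((Icc 1 (n + 1)).filter R) ≤ #((Icc 1 n).filter (fun m => R (m + 1))) + 1 := by
    calc #((Icc 1 (n + 1)).filter R) ≤ #(((Icc 1 n).filter (fun m => R (m + 1))).image (· + 1) ∪ {1}) := by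
          refine card_le_card fun m hm => ?_
          rw [mem_filter, mem_Icc] at hm
          rw [mem_union, mem_image, mem_singleton]
          by_cases hm1 : m = 1
          · exact Or.inr hm1
          · refine Or.inl ⟨m - 1, ?_, by omega⟩
            rw [mem_filter, mem_Icc]
            refine ⟨by omega, ?_⟩
            rw [Nat.sub_add_cancel hm.1.1]
            exact hm.2
      _ ≤ #(((Icc 1 n).filter (fun m => R (m + 1))).image (· + 1)) + 1 :=
          (card_union_le _ _).trans (by rw [card_singleton])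
      _ ≤ _ := Nat.add_le_add_right card_image_le 1
  have h2 : #((Icc 1 n).filter (fun m => R (m + 1))) ≤ #((Icc 1 (n + 1)).filter R) := by
    refine card_le_card_of_injOn (· + 1) ?_ (fun a _ b _ hab => by simpa using hab)
    intro m hm
    rw [mem_coe, mem_filter, mem_Icc] at hm
    rw [mem_coe, mem_filter, mem_Icc]
    have h0 : 1 ≤ m + 1 ∧ m + 1 ≤ n + 1 := ⟨by omega, by omega⟩
    exact ⟨h0, hm.2⟩
  have h1' : (#((Icc 1 (n + 1)).filter R) : ℝ) ≤ #((Icc 1 n).filter (fun m => R (m + 1))) + 1 := by exact_mod_cast h1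
  have h2' : (#((Icc 1 n).filter (fun m => R (m + 1))) : ℝ) ≤ #((Icc 1 (n + 1)).filter R) := by exact_mod_cast h2
  rw [abs_le]
  constructor <;> linarith

lemma log_ratio : Tendsto (fun n : ℕ => Real.log n / Real.log ((n + 1 : ℕ) : ℝ)) atTop (𝓝 1) := by
  have h1 : Tendsto (fun n : ℕ => Real.log ((n + 1 : ℕ) : ℝ)) atTop atTop :=
    (Real.tendsto_log_atTop.comp tendsto_natCast_atTop_atTop).comp (tendsto_add_atTop_nat 1)
  have h2 : Tendsto (fun n : ℕ => Real.log 2 / Real.log ((n + 1 : ℕ) : ℝ)) atTop (𝓝 0) :=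
    (tendsto_const_nhds).div_atTop h1
  have h3 : Tendsto (fun n : ℕ => 1 - Real.log 2 / Real.log ((n + 1 : ℕ) : ℝ)) atTop (𝓝 1) := by
    simpa using h2.const_sub 1
  refine tendsto_of_tendsto_of_tendsto_of_le_of_le' h3 tendsto_const_nhds ?_ ?_
  · filter_upwards [eventually_ge_atTop 1] with n hn
    have hn0 : (1 : ℝ) ≤ n := by exact_mod_cast hn
    have hl : 0 < Real.log ((n + 1 : ℕ) : ℝ) := Real.log_pos (by push_cast; linarith)
    rw [sub_le_iff_le_add, ← add_div, le_div_iff₀ hl, one_mul, ← Real.log_mul (by positivity) (by norm_num)]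
    refine Real.log_le_log (by positivity) ?_
    push_cast
    linarith
  · filter_upwards [eventually_ge_atTop 1] with n hn
    have hn0 : (1 : ℝ) ≤ n := by exact_mod_cast hn
    have hl : 0 < Real.log ((n + 1 : ℕ) : ℝ) := Real.log_pos (by push_cast; linarith)
    rw [div_le_iff₀ hl, one_mul]
    refine Real.log_le_log (by linarith) ?_
    push_cast
    linarith

lemma nat_ratio : Tendsto (fun n : ℕ => (n : ℝ) / ((n + 1 : ℕ) : ℝ)) atTop (𝓝 1) := by
  have := tendsto_natCast_div_add_atTop (1 : ℝ)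
  refine this.congr fun n => ?_
  push_cast
  rfl

variable {Ω : Type} [MeasurableSpace Ω] {P : Measure Ω} {X : Ix 1 → Ω → ℕ}

open Classical in
/-- **the law for an orbit** -/
theorem aff_law (h : RSys P (pp (k := 1)) X) {x : ℕ → ℤ} {β : ℕ} (hβ : 2 ≤ β) {D : ℤ} (hD : 0 < D)
    (hx : ∀ m, x (m + 1) - x m = D * β ^ m) :
    ∃ κ : Ω → ℝ, Integrable κ P ∧ ∫ ω, κ ω ∂P = 1 ∧ ∀ᵐ ω ∂P, 0 ≤ κ ω ∧
      (∃ δ : ℕ → ℝ,
        (∀ w : ℕ, Tendsto (fun n : ℕ => (#((Icc 1 n).filter (fun m => Sv X x w ω m)) : ℝ) / n) atTop (𝓝 (δ w))) ∧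
        Tendsto (fun w : ℕ => δ w / Vp w) atTop (𝓝 (κ ω))) ∧
      Tendsto (fun n : ℕ =>
        (#((Icc 1 n).filter (fun m => Sv X x (Nat.sqrt (x m).toNat) ω m)) : ℝ) / Real.log n) atTop
        (𝓝 (2 * Real.exp (-Real.eulerMascheroniConstant) / Real.log β * κ ω)) := by
  obtain ⟨v, hvd⟩ : ∃ v : ℕ → ℤ, v = fun m => x (m + 1) := ⟨_, rfl⟩
  have hv : ∀ m, v (m + 1) - v m = D * β ^ (m + 1) := by
    intro m
    rw [hvd]
    exact hx (m + 1)
  have hβ1 : (1 : ℝ) < β := by exact_mod_cast (by omega : 1 < β)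
  obtain ⟨C, hC⟩ := data hβ hD.ne' hv
  obtain ⟨Q, hQ1, hQd, hQl, hQ⟩ := exists_per hC
  have hlaw := exp_law h hC hQ1 hQd hQl hQ (lv_mono (mono_of hD hv)) (lv_ge v)
    (div_pos (mul_pos (by norm_num) (Real.exp_pos _)) (Real.log_pos hβ1)) (mertens hβ hD hv)
  have hex : ∀ ω, ∃ κ : ℝ, (∃ κ' : ℝ, Tendsto (fun w => RR X v Q w ω) atTop (𝓝 κ')) →
      Tendsto (fun w => RR X v Q w ω) atTop (𝓝 κ) := by
    intro ω
    by_cases h : ∃ κ' : ℝ, Tendsto (fun w => RR X v Q w ω) atTop (𝓝 κ')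
    · obtain ⟨κ', h'⟩ := h
      exact ⟨κ', fun _ => h'⟩
    · exact ⟨0, fun h' => absurd h' h⟩
  choose κ hκ using hex
  have hκt : ∀ᵐ ω ∂P, Tendsto (fun w => RR X v Q w ω) atTop (𝓝 (κ ω)) := by
    filter_upwards [hlaw] with ω hω
    obtain ⟨κ', _, h2, _⟩ := hω
    exact hκ ω ⟨κ', h2⟩
  obtain ⟨hint, hmean⟩ := exp_mean h hC hQ1 hQd hQ hκt
  refine ⟨κ, hint, hmean, ?_⟩
  have hsh : ∀ (ω : Ω) (w m : ℕ), Sv X x w ω (m + 1) ↔ Sv X v w ω m := by
    intro ω w m
    rw [sv_iff, sv_iff, hvd]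
  filter_upwards [hlaw, hκt] with ω hω hω2
  obtain ⟨κ', h1, h2, h3⟩ := hω
  have hk : κ' = κ ω := tendsto_nhds_unique h2 hω2
  rw [hk] at h1 h3
  refine ⟨h1, ⟨fun w => dens (Sv X v w ω) (Q w), fun w => ?_, ?_⟩, ?_⟩
  · have h4 := per_tendsto (hQ1 w) (sv_per (X := X) (v := v) hQ (le_refl w) ω)
    refine shift_tendsto (g := fun n : ℕ => (n : ℝ)) (K := 1) tendsto_natCast_atTop_atTop nat_ratio (fun n => ?_) h4
    have h5 := count_shift (fun m => Sv X x w ω m) n
    simp only [hsh] at h5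
    exact h5
  · exact hω2
  · obtain ⟨m0, hm0⟩ := eventually_atTop.1 (lv_eq hβ hD hv)
    refine shift_tendsto (g := fun n : ℕ => Real.log (n : ℝ)) (K := 1 + m0)
      (Real.tendsto_log_atTop.comp tendsto_natCast_atTop_atTop) log_ratio (fun n => ?_) h3
    have h5 := count_shift (fun m => Sv X x (Nat.sqrt (x m).toNat) ω m) n
    have h6 := count_agree (S := fun m => Sv X x (Nat.sqrt (x (m + 1)).toNat) ω (m + 1))
      (T := fun m => Sv X v (lv v m) ω m) (m0 := m0) (fun m hm => by rw [hsh, hm0 m hm, hvd]) n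
    exact (abs_sub_le _ _ _).trans (add_le_add h5 h6)

end Pool.Agent.L5helper71.AO
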