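import Pool.Agent.L5helper2.RS.E9

/-!
# Orbits of affine maps `x ↦ β x + c` as sequences of exponential growth

The arithmetic data (`Pool.Agent.L5helper2.RS.ExpData`, helper2) of the sequences with
`v (m + 1) - v m = E β ^ (m + 1)`.
-/

set_option autoImplicit false

namespace Pool.Agent.L5helper71.AO

open Finset Filter Topology Pool.Agent.L5helper2.RS

/-- `1 + β + ⋯ + β ^ (k - 1)` -/
def G (β : ℕ) (k : ℕ) : ℕ := ∑ i ∈ range k, β ^ i

lemma G_succ (β k : ℕ) : G β (k + 1) = G β k + β ^ k := by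
  unfold G
  rw [sum_range_succ]

lemma G_add (β k l : ℕ) : G β (k + l) = G β k + β ^ k * G β l := by
  induction l with
  | zero => simp [G]
  | succ l ih =>
    rw [← Nat.add_assoc, G_succ, ih, G_succ, pow_add]
    ring

lemma G_mul {β p t : ℕ} (h : p ∣ G β t) (q : ℕ) : p ∣ G β (t * q) := by
  induction q with
  | zero => simp [G]
  | succ q ih =>
    rw [Nat.mul_succ, G_add]
    exact dvd_add ih (dvd_mul_of_dvd_right h _)

lemma G_pos {β k : ℕ} (hk : 1 ≤ k) : 0 < G β k := by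
  obtain ⟨l, rfl⟩ : ∃ l, k = l + 1 := ⟨k - 1, by omega⟩
  unfold G
  rw [sum_range_succ']
  simp

lemma G_le {β : ℕ} (hβ : 2 ≤ β) (k : ℕ) : G β k + 1 ≤ β ^ k := by
  induction k with
  | zero => simp [G]
  | succ k ih =>
    rw [G_succ, pow_succ]
    have : β ^ k * 2 ≤ β ^ k * β := Nat.mul_le_mul_left _ hβ
    omega

lemma G_ge {β : ℕ} (k : ℕ) : β ^ k ≤ G β (k + 1) := by
  rw [G_succ]
  omega

lemma G_geom (β : ℕ) (hβ : 1 ≤ β) (k : ℕ) : (β - 1) * G β k + 1 = β ^ k := by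
  obtain ⟨b, rfl⟩ : ∃ b, β = b + 1 := ⟨β - 1, by omega⟩
  induction k with
  | zero => simp [G]
  | succ k ih =>
    rw [G_succ, pow_succ]
    simp only [Nat.add_sub_cancel] at ih ⊢
    rw [← ih]
    ring

open Classical in
/-- the rank of apparition -/
noncomputable def rk (β p : ℕ) : ℕ := if h : ∃ t, 1 ≤ t ∧ p ∣ G β t then Nat.find h else 0

lemma rk_spec {β p : ℕ} (hp : p.Prime) (hpb : ¬ p ∣ β) {n : ℕ} (hn : 1 ≤ n) (h : p ∣ G β n) :
    0 < rk β p ∧ rk β p ∣ n := by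
  classical
  have hex : ∃ t, 1 ≤ t ∧ p ∣ G β t := ⟨n, hn, h⟩
  obtain ⟨t, ht⟩ : ∃ t, t = rk β p := ⟨_, rfl⟩
  have e : rk β p = Nat.find hex := by
    unfold rk
    rw [dif_pos hex]
  have h1 : 1 ≤ t ∧ p ∣ G β t := by
    rw [ht, e]
    exact Nat.find_spec hex
  have hmin : ∀ s, s < t → ¬ (1 ≤ s ∧ p ∣ G β s) := by
    intro s hs
    rw [ht, e] at hs
    exact Nat.find_min hex hs
  rw [← ht]
  refine ⟨h1.1, ?_⟩
  have h2 := G_mul h1.2 (n / t)
  have h3 : G β n = G β (t * (n / t)) + β ^ (t * (n / t)) * G β (n % t) := by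
    rw [← G_add, Nat.div_add_mod]
  have h4 : p ∣ β ^ (t * (n / t)) * G β (n % t) := by
    rw [h3] at h
    exact (Nat.dvd_add_right h2).1 h
  have h6 : p ∣ G β (n % t) :=
    (hp.dvd_mul.1 h4).resolve_left (fun h5 => hpb (hp.dvd_of_dvd_pow h5))
  have h7 : n % t < t := Nat.mod_lt _ h1.1
  have h8 : ¬ 1 ≤ n % t := fun h' => hmin _ h7 ⟨h', h6⟩
  exact Nat.dvd_of_mod_eq_zero (by omega)

lemma rk_dvd {β p : ℕ} (h : 0 < rk β p) : p ∣ G β (rk β p) := by
  classical
  unfold rk at h ⊢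
  split_ifs at h ⊢ with h1
  · exact (Nat.find_spec h1).2
  · exact absurd h (lt_irrefl 0)

/-- the number of the primes with a given rank -/
lemma rk_card {β : ℕ} (hβ : 2 ≤ β) {t : ℕ} (ht : 1 ≤ t) (s : Finset ℕ) (hs : ∀ p ∈ s, p.Prime ∧ rk β p = t) :
    #s ≤ β * t := by
  have h1 : ∏ p ∈ s, p ∣ G β t := by
    refine Finset.prod_primes_dvd _ (fun p hp => (hs p hp).1.prime) fun p hp => ?_
    have := hs p hp
    have h2 := rk_dvd (β := β) (p := p) (by omega)
    rwa [this.2] at h2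
  have h2 : ∏ p ∈ s, p ≤ G β t := Nat.le_of_dvd (G_pos ht) h1
  have h3 : 2 ^ #s ≤ ∏ p ∈ s, p := by
    calc 2 ^ #s = ∏ _p ∈ s, 2 := by rw [prod_const]
      _ ≤ _ := prod_le_prod' fun p hp => (hs p hp).1.two_le
  have h4 : 2 ^ #s ≤ 2 ^ (β * t) := by
    calc 2 ^ #s ≤ G β t := h3.trans h2
      _ ≤ β ^ t := (Nat.le_succ _).trans (G_le hβ t)
      _ ≤ (2 ^ β) ^ t := Nat.pow_le_pow_left (Nat.lt_two_pow_self).le t
      _ = 2 ^ (β * t) := by rw [pow_mul]
  exact (Nat.pow_le_pow_iff_right (by norm_num)).1 h4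

lemma rk_sum {β : ℕ} (hβ : 2 ≤ β) : ∃ C : ℝ, ∀ s : Finset ℕ, (∀ p ∈ s, p.Prime ∧ 0 < rk β p) →
    ∑ p ∈ s, (p : ℝ) ^ (-(5 / 8) : ℝ) * (1 / rk β p) ≤ C := by
  have hs1 : Summable (fun n : ℕ => (n : ℝ) ^ (-(9 / 8) : ℝ)) := Real.summable_nat_rpow.2 (by norm_num)
  have hs2 : Summable (fun n : ℕ => (n : ℝ) ^ (-(5 / 4) : ℝ)) := Real.summable_nat_rpow.2 (by norm_num)
  refine ⟨∑' n : ℕ, (n : ℝ) ^ (-(9 / 8) : ℝ) + β * ∑' n : ℕ, (n : ℝ) ^ (-(5 / 4) : ℝ), fun s hs => ?_⟩
  rw [← sum_filter_add_sum_filter_not s (fun p => p ≤ rk β p ^ 2)]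
  refine add_le_add ?_ ?_
  · have h1 : ∀ p ∈ s.filter (fun p => p ≤ rk β p ^ 2), (p : ℝ) ^ (-(5 / 8) : ℝ) * (1 / rk β p) ≤
        (p : ℝ) ^ (-(9 / 8) : ℝ) := by
      intro p hp
      rw [mem_filter] at hp
      have hp0 : (0 : ℝ) < p := by exact_mod_cast (hs p hp.1).1.pos
      have hr0 : (0 : ℝ) < rk β p := by exact_mod_cast (hs p hp.1).2
      have h2 : (p : ℝ) ^ ((1 : ℝ) / 2) ≤ rk β p := by
        rw [← Real.sqrt_eq_rpow, Real.sqrt_le_left hr0.le]
        exact_mod_cast hp.2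
      have h3 : 1 / (rk β p : ℝ) ≤ (p : ℝ) ^ (-(1 / 2) : ℝ) := by
        rw [Real.rpow_neg hp0.le, one_div]
        exact inv_anti₀ (by positivity) h2
      calc (p : ℝ) ^ (-(5 / 8) : ℝ) * (1 / rk β p) ≤ (p : ℝ) ^ (-(5 / 8) : ℝ) * (p : ℝ) ^ (-(1 / 2) : ℝ) :=
            mul_le_mul_of_nonneg_left h3 (by positivity)
        _ = _ := by
          rw [← Real.rpow_add hp0]
          norm_num
    refine (sum_le_sum h1).trans (hs1.sum_le_tsum _ fun n _ => by positivity)
  · obtain ⟨s', hs'⟩ : ∃ s', s' = s.filter (fun p => ¬ p ≤ rk β p ^ 2) := ⟨_, rfl⟩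
    rw [← hs', ← sum_fiberwise_of_maps_to (s := s') (t := s'.image (rk β)) (g := rk β)
      (fun p hp => mem_image_of_mem _ hp)]
    have h1 : ∀ t ∈ s'.image (rk β), ∑ p ∈ s'.filter (fun p => rk β p = t), (p : ℝ) ^ (-(5 / 8) : ℝ) * (1 / rk β p) ≤
        β * (t : ℝ) ^ (-(5 / 4) : ℝ) := by
      intro t ht
      rw [mem_image] at ht
      obtain ⟨p0, hp0, hpt⟩ := ht
      have ht1 : 1 ≤ t := by
        rw [hs', mem_filter] at hp0
        have := (hs p0 hp0.1).2
        omega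
      have ht0 : (0 : ℝ) < t := by exact_mod_cast ht1
      have h2 : ∀ p ∈ s'.filter (fun p => rk β p = t), (p : ℝ) ^ (-(5 / 8) : ℝ) * (1 / rk β p) ≤
          (t : ℝ) ^ (-(5 / 4) : ℝ) * (1 / t) := by
        intro p hp
        rw [mem_filter, hs', mem_filter] at hp
        rw [hp.2]
        refine mul_le_mul_of_nonneg_right ?_ (by positivity)
        have h3 : (t : ℝ) ^ (2 : ℕ) ≤ p := by
          have h4 := hp.1.2
          rw [hp.2] at h4
          exact_mod_cast (not_le.1 h4).le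
        calc (p : ℝ) ^ (-(5 / 8) : ℝ) ≤ ((t : ℝ) ^ (2 : ℕ)) ^ (-(5 / 8) : ℝ) :=
              Real.rpow_le_rpow_of_nonpos (by positivity) h3 (by norm_num)
          _ = (t : ℝ) ^ (-(5 / 4) : ℝ) := by
            rw [← Real.rpow_natCast, ← Real.rpow_mul ht0.le]
            norm_num
      refine (sum_le_sum h2).trans ?_
      rw [sum_const, nsmul_eq_mul]
      have h3 : #(s'.filter (fun p => rk β p = t)) ≤ β * t := by
        refine rk_card hβ ht1 _ fun p hp => ?_
        rw [mem_filter, hs', mem_filter] at hp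
        exact ⟨(hs p hp.1.1).1, hp.2⟩
      have h4 : (#(s'.filter (fun p => rk β p = t)) : ℝ) ≤ β * t := by exact_mod_cast h3
      calc (#(s'.filter (fun p => rk β p = t)) : ℝ) * ((t : ℝ) ^ (-(5 / 4) : ℝ) * (1 / t)) ≤
            (β * t) * ((t : ℝ) ^ (-(5 / 4) : ℝ) * (1 / t)) := mul_le_mul_of_nonneg_right h4 (by positivity)
        _ = _ := by field_simp
    refine (sum_le_sum h1).trans ?_
    rw [← mul_sum]
    exact mul_le_mul_of_nonneg_left (hs2.sum_le_tsum _ fun n _ => by positivity) (by positivity)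

/-- differences of the sequence -/
lemma diff {v : ℕ → ℤ} {β : ℕ} {E : ℤ} (hv : ∀ m, v (m + 1) - v m = E * β ^ (m + 1)) (m t : ℕ) :
    v (m + t) - v m = E * β ^ (m + 1) * G β t := by
  induction t with
  | zero => simp [G]
  | succ t ih =>
    have h1 := hv (m + t)
    rw [G_succ]
    push_cast
    have e : v (m + (t + 1)) - v m = (v (m + t + 1) - v (m + t)) + (v (m + t) - v m) := by
      rw [Nat.add_assoc]
      ring
    rw [e, h1, ih]
    ring

theorem data {v : ℕ → ℤ} {β : ℕ} (hβ : 2 ≤ β) {E : ℤ} (hE : E ≠ 0)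
    (hv : ∀ m, v (m + 1) - v m = E * β ^ (m + 1)) :
    ∃ C : ℝ, ExpData v (rk β) (E.natAbs * β) C := by
  obtain ⟨C, hC⟩ := rk_sum hβ
  have hEn : 0 < E.natAbs := Int.natAbs_pos.2 hE
  refine ⟨C, ?_, hC, ?_⟩
  · intro p hp hpw m m' hm' hlt hd
    obtain ⟨k, rfl⟩ : ∃ k, m = m' + k := ⟨m - m', by omega⟩
    rw [diff hv] at hd
    have hpz : Prime (p : ℤ) := Nat.prime_iff_prime_int.1 hp
    have hpE : ¬ p ∣ E.natAbs := by
      intro h
      have := Nat.le_of_dvd hEn h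
      have : E.natAbs ≤ E.natAbs * β := Nat.le_mul_of_pos_right _ (by omega)
      omega
    have hpb : ¬ p ∣ β := by
      intro h
      have := Nat.le_of_dvd (by omega) h
      have : β ≤ E.natAbs * β := Nat.le_mul_of_pos_left _ hEn
      omega
    have h1 : p ∣ G β k := by
      rcases hpz.dvd_or_dvd hd with h1 | h1
      · exfalso
        rcases hpz.dvd_or_dvd h1 with h2 | h2
        · exact hpE (Int.natCast_dvd.1 h2)
        · refine hpb ?_
          have h3 : p ∣ β ^ (m' + 1) := by exact_mod_cast h2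
          exact hp.dvd_of_dvd_pow h3
      · exact_mod_cast h1
    have hk : 1 ≤ k := by omega
    obtain ⟨h4, h5⟩ := rk_spec hp hpb hk h1
    exact ⟨h4, Or.inr (by rwa [Nat.add_sub_cancel_left])⟩
  · intro p hp
    have hp1 := hp.two_le
    have h4 : p ≤ p ^ 4 := Nat.le_self_pow (by norm_num) p
    by_cases hb : p ∣ β
    · refine ⟨1, le_rfl, by omega, fun m => ?_⟩
      rw [diff hv]
      refine dvd_mul_of_dvd_left (dvd_mul_of_dvd_right ?_ _) _
      exact dvd_pow (by exact_mod_cast hb) (by omega)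
    by_cases hb1 : p ∣ β - 1
    · refine ⟨p, by omega, h4, fun m => ?_⟩
      rw [diff hv]
      refine dvd_mul_of_dvd_right ?_ _
      have : p ∣ G β p := by
        have : Fact p.Prime := ⟨hp⟩
        rw [← ZMod.natCast_eq_zero_iff]
        unfold G
        push_cast
        have h5 : ((β : ℕ) : ZMod p) = 1 := by
          have h6 : ((β - 1 : ℕ) : ZMod p) = 0 := (ZMod.natCast_eq_zero_iff _ _).2 hb1
          rw [Nat.cast_sub (by omega), Nat.cast_one, sub_eq_zero] at h6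
          exact h6
        rw [h5]
        simp
      exact_mod_cast this
    · refine ⟨p - 1, by omega, by omega, fun m => ?_⟩
      rw [diff hv]
      refine dvd_mul_of_dvd_right ?_ _
      have : p ∣ G β (p - 1) := by
        have : Fact p.Prime := ⟨hp⟩
        have h5 : p ∣ (β - 1) * G β (p - 1) := by
          have h6 := G_geom β (by omega) (p - 1)
          have h7 : ((β : ℕ) : ZMod p) ^ (p - 1) = 1 := by
            apply ZMod.pow_card_sub_one_eq_one
            intro h8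
            exact hb ((ZMod.natCast_eq_zero_iff _ _).1 h8)
          rw [← ZMod.natCast_eq_zero_iff]
          have h8 := congrArg (Nat.cast : ℕ → ZMod p) h6
          push_cast at h8 ⊢
          rw [h7] at h8
          linear_combination h8
        exact (hp.dvd_mul.1 h5).resolve_left hb1
      exact_mod_cast this

end Pool.Agent.L5helper71.AO
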