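import Pool.Agent.TH125.Gal.Pub
import Pool.Agent.H281R3.HT.Defs

/-!
# Tate classes and motivated classes on products: definitions
-/

open CategoryTheory AlgebraicGeometry

universe u

namespace Pool.Agent.L5helper71.Cat

section Alg

variable {K A B Γ : Type} [Field K] [Ring A] [Algebra K A] [Ring B] [Algebra K B] [Group Γ]

/-- The set `S` is a subspace. -/
def IsSubspace (K : Type) [Field K] {A : Type} [Ring A] [Algebra K A] (S : A → Prop) : Prop :=
  ∃ V : Submodule K A, ∀ c, c ∈ V ↔ S c

/-- Products of elements of `S` and of `S'` belong to `S''`. -/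
def MulIn (S S' S'' : A → Prop) : Prop := ∀ a b, S a → S' b → S'' (a * b)

/-- The homomorphism `f` maps `S` into `S'`. -/
def MapIn (f : A →ₐ[K] B) (S : A → Prop) (S' : B → Prop) : Prop := ∀ a, S a → S' (f a)

/-- The linear map `f` maps `S` into `S'`. -/
def PushIn (f : A →ₗ[K] B) (S : A → Prop) (S' : B → Prop) : Prop := ∀ a, S a → S' (f a)

/-- The elements `x` of `V` with `w ^ m * x` in `S` belong to `S'`. -/
def LiftIn (V : Submodule K A) (w : A) (m : ℕ) (S S' : A → Prop) : Prop :=
  ∀ x ∈ V, S (w ^ m * x) → S' x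

/-- The linear map `f` maps some element of `U` to `1`. -/
def OneFrom (U : Submodule K A) (f : A →ₗ[K] B) : Prop := ∃ a ∈ U, f a = 1

/-- For all `j`, every element `c` of `gr (2 * j)` which is multiplied by `χ g ^ j` by all `g` in a
subgroup of finite index satisfies `P j c`. -/
def TateSatisfy (χ : Γ →* Kˣ) (gr : ℕ → Submodule K A) (P : ℕ → A → Prop)
    (ρ : Γ →* (A ≃ₐ[K] A)) : Prop :=
  ∀ j, ∀ c ∈ gr (2 * j), (∃ Δ : Subgroup Γ, Δ.FiniteIndex ∧
    ∀ g ∈ Δ, ρ g c = (χ g : K) ^ j • c) → P j c

end Alg

open Pool.Agent.H914 Pool.Agent.H914.VarClass Pool.Agent.H914.VarClass.Obj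
  Pool.Agent.H914.WeilCohomology Pool.Agent.H281R3.HT Pool.Agent.TH125.Gal

variable {k : Type u} [Field k] {𝒱 : VarClass k} {ops : CycleOps 𝒱}

/-- Properties of cohomology classes of codimension `j` on `X`. -/
abbrev Property (W : WeilCohomology.{u, 0} ops) := ∀ X : 𝒱.Obj, ℕ → W.H X → Prop

variable {W : WeilCohomology.{u, 0} ops}

/-- The classes with the property `P` form subspaces, which contain the classes of algebraic cycles and
are stable under products, pull-backs and push-forwards; and if `D` is a divisor on `X` with the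
hard Lefschetz property and `x` is a class of degree `2 j ≤ dim X` such that `D ^ (dim X - 2 j) x` has
the property, then `x` has the property. -/
structure IsSystem (P : Property W) : Prop where
  lin : ∀ X j, IsSubspace W.K (P X j)
  cl : ∀ (X : 𝒱.Obj) (j : ℕ) (z : X.Cycles), X.IsCyc j z → P X j (W.cl X z)
  mul : ∀ X i j, MulIn (P X i) (P X j) (P X (i + j))
  map : ∀ (X Y : 𝒱.Obj) (f : X ⟶ Y) (j : ℕ), MapIn (W.map f) (P Y j) (P X j)
  push : ∀ (X Y : 𝒱.Obj) (f : X ⟶ Y) (j l : ℕ), l + X.dim = j + Y.dim →
    PushIn (W.push f) (P X j) (P Y l)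
  lift : ∀ (X : 𝒱.Obj) (D : X.Cycles) (j : ℕ), X.IsCyc 1 D → HardLefschetz W X D →
    2 * j ≤ X.dim → LiftIn (W.gr X (2 * j)) (W.cl X D) (X.dim - 2 * j) (P X (X.dim - j)) (P X j)

/-- The motivated classes of codimension `j` on `X` (André), with coefficients in the coefficient
field: the classes which have all properties as in `IsSystem`. -/
def IsMotivated (W : WeilCohomology.{u, 0} ops) (X : 𝒱.Obj) (j : ℕ) (c : W.H X) : Prop :=
  ∀ P : Property W, IsSystem P → P X j c

variable {Γ : Type} [Group Γ]

/-- All Tate classes of `A` are motivated: for all `j`, every class in `H^(2j)(A)` which is multiplied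
by `χ g ^ j` by all `g` in a subgroup of finite index of `Γ` is motivated. -/
def TateMotivated (χ : Γ →* W.Kˣ) (A : GVar W Γ) : Prop :=
  TateSatisfy χ (W.gr A.X) (IsMotivated W A.X) A.act

/-- `T` is the product of `A` and `B`, with an action on the cohomology which is compatible with the
projections. -/
inductive IsProduct (A B : GVar W Γ) : GVar W Γ → Prop
  | mk (υ : Γ →* (W.H (A.X.prod B.X) ≃ₐ[W.K] W.H (A.X.prod B.X))) :
      Intertwines (W.map (fst A.X B.X)) A.act υ → Intertwines (W.map (snd A.X B.X)) B.act υ →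
      IsProduct A B ⟨A.X.prod B.X, υ⟩

/-- `T` is a product `A_1 × (A_2 × ( ⋯ × Z))` of finitely many (zero or more) varieties `A_j` in the
class `M` and of `Z`. -/
inductive Product (M : GVar W Γ → Prop) (Z : GVar W Γ) : GVar W Γ → Prop
  | base : Product M Z Z
  | mul {A T T'} : M A → Product M Z T → IsProduct A T T' → Product M Z T'

/-- The variety `B` is dominated by `A`: there is a morphism `g` from `A` to `B`, compatible with the
actions of `Γ`, such that `1` is the direct image of a combination of classes of algebraic cycles. -/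
def Dominates (A B : GVar W Γ) : Prop :=
  ∃ g : A.X ⟶ B.X, OneFrom (algSpan W A.X) (W.push g) ∧ Intertwines (W.map g) B.act A.act

/-- All Tate classes on all products of copies of `Z` are motivated. -/
def BaseMotivated (χ : Γ →* W.Kˣ) (Z : GVar W Γ) : Prop :=
  ∀ T, Product (fun A => A = Z) Z T → TateMotivated χ T

/-- All Tate classes on all varieties dominated by products of copies of `Z` and of the `X i`
are motivated. -/
def AllMotivated (χ : Γ →* W.Kˣ) {ι : Type} (X : ι → GVar W Γ) (Z : GVar W Γ) : Prop :=
  ∀ T, Product (fun A => A = Z ∨ ∃ i, A = X i) Z T → ∀ B, Dominates T B → TateMotivated χ B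

end Pool.Agent.L5helper71.Cat
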