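import Pool.Agent.V11219.DomDefs
import Pool.Agent.R920.MT.Defs

/-!
# Tate classes and motivated classes: definitions
-/

open CategoryTheory AlgebraicGeometry

universe u

namespace Pool.Agent.L5helper71.Mot

open Pool.Agent.H914 Pool.Agent.H914.VarClass Pool.Agent.H914.VarClass.Obj
  Pool.Agent.H914.WeilCohomology Pool.Agent.H281R3.HT Pool.Agent.TH125.Gal
  Pool.Agent.V11219.Min Pool.Agent.V11219.Cls Pool.Agent.R920.MT

variable {k : Type u} [Field k] {𝒱 : VarClass k} {ops : CycleOps 𝒱}
  {W : WeilCohomology.{u, 0} ops} {Γ : Type} [Group Γ]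

/-- All Tate classes of `A` are motivated: for all `j`, every class in `H^(2j)(A)` which is multiplied
by `χ g ^ j` by all `g` in a subgroup of finite index of `Γ` is motivated (a combination, with
coefficients in the coefficient field, of motivated cycles of codimension `j`). -/
def TateAreMotivated (χ : CharOf W Γ) (A : GVar W Γ) : Prop :=
  ∀ j, ∀ c ∈ W.gr A.X (2 * j), PotSemi χ A.act j c → IsMotivated W A.X j c

/-- All Tate classes of all varieties dominated by `A` are motivated. -/
def DominatedMotivated (χ : CharOf W Γ) (A : GVar W Γ) : Prop :=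
  ∀ B : GVar W Γ, DominatesVar A B → TateAreMotivated χ B

/-- `Z'` is `Z`, or the product of `m + 1` copies of `Z` and of `Z`, with an action which is compatible
with the projections. -/
def IsPowerOf (Z Z' : GVar W Γ) : Prop := Z' = Z ∨ ∃ m, IsPowProd Z m Z Z'

/-- All Tate classes of all powers of `Z` are motivated. -/
def PowersMotivated (χ : CharOf W Γ) (Z : GVar W Γ) : Prop :=
  ∀ Z', IsPowerOf Z Z' → TateAreMotivated χ Z'

end Pool.Agent.L5helper71.Mot
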