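import Mathlib
import Pool.Agent.L5helper71.MotDefs
import Pool.Agent.V11219.DomMain
import Pool.Agent.R920.MT.Main

/-!
# Tate classes and motivated classes
-/

open CategoryTheory AlgebraicGeometry

universe u

namespace Pool.Agent.L5helper71.Mot

open Pool.Agent.H914 Pool.Agent.H914.VarClass Pool.Agent.H914.VarClass.Obj
  Pool.Agent.H914.WeilCohomology Pool.Agent.H281R3.HT Pool.Agent.TH125.Gal
  Pool.Agent.V11219.Min Pool.Agent.V11219.Cls Pool.Agent.R920.MT Pool.Agent.TH118.SG

open Pool.Agent.Y133.Half (ClassPred)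

variable {k : Type u} [Field k] {𝒱 : VarClass k} {ops : CycleOps 𝒱}
  {W : WeilCohomology.{u, 0} ops} {Γ : Type} [Group Γ] {χ : CharOf W Γ}

/-- The spaces spanned by the motivated classes form a system of classes. -/
theorem motSystem (W : WeilCohomology.{u, 0} ops) :
    ClassSystem W (motPred W).sys.C where
  alg := by
    intro A
    refine Submodule.span_le.2 ?_
    intro c hc
    obtain ⟨j, hj⟩ := Set.mem_iUnion.1 hc
    obtain ⟨z, hz, rfl⟩ := hj
    exact ClassPred.sp_of ((motPred W).cl hz)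
  mul := fun A a ha b hb => (motPred W).sys.mul ha hb
  map := fun A B f b hb => (motPred W).sys.map f hb
  push := fun A B f a ha => (motPred W).sys.push f ha

theorem tateIn_iff (A : GVar W Γ) :
    TateIn χ (motPred W).sys.C A ↔ TateAreMotivated χ A := by
  constructor
  · intro h j c hc hs
    exact ClassPred.of_sp (Q := motPred W) (h j c hc hs) hc
  · intro h j c hc hs
    exact ClassPred.sp_of (Q := motPred W) (h j c hc hs)

theorem dominatedTate_iff' (A : GVar W Γ) :
    DominatedTate χ (motPred W).sys.C A ↔ DominatedMotivated χ A :=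
  forall_congr' fun _ => imp_congr_right fun _ => tateIn_iff _

variable {ι : Type} {X : ι → GVar W Γ} {Z Z' : GVar W Γ}

theorem IsPowerOf.trivAct (h : IsPowerOf Z Z') {g : Γ} (hg : TrivAct Z.act g) :
    TrivAct Z'.act g := by
  rcases h with rfl | ⟨m, hP⟩
  · exact hg
  · obtain ⟨υ, h1, h2⟩ := hP
    rw [Pool.Agent.TH125.Gal.trivAct]
    exact act_one (isPowAct h1 h2) (Pool.Agent.TH125.Gal.trivAct.1 hg) (Pool.Agent.TH125.Gal.trivAct.1 hg)

theorem isDefect_mono {K A : Type} [Field K] [Ring A] [Algebra K A] {T : Submodule K A}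
    {ρ : Act K A Γ} {N N' : Set Γ} (hN : N ⊆ N') {g : Γ} {d : ℕ} (h : IsDefect T ρ N g d) :
    IsDefect T ρ N' g d := by
  rcases h with h | ⟨g', hg', h⟩
  · exact Or.inl h
  · exact Or.inr ⟨g', hN hg', h⟩

theorem smallVar_mono {A : GVar W Γ} {N N' : Set Γ} (hN : N ⊆ N') (h : SmallVar A N) :
    SmallVar A N' := by
  rcases h with ⟨g, hg, hc⟩ | ⟨⟨g, hg, hc⟩, hall⟩
  · refine Or.inl ⟨g, hN hg, ?_⟩
    rcases hc with hc | hc
    · refine Or.inl fun p hp => ?_
      obtain ⟨d, hd, hpd⟩ := hc p hp
      exact ⟨d, isDefect_mono hN hd, hpd⟩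
    · exact Or.inr (isDefect_mono hN hc)
  · refine Or.inr ⟨⟨g, hN hg, hc⟩, fun p hp => ?_⟩
    obtain ⟨g, hg, d, hd, hpd⟩ := hall p hp
    exact ⟨g, hN hg, d, isDefect_mono hN hd, hpd⟩

/-- The family stays a family over the powers of the base. -/
theorem family_power (h : Family χ X Z) (hZ : IsPowerOf Z Z') : Family χ X Z' where
  good := h.good
  galois := h.galois
  irreducible := h.irreducible
  distinct := h.distinct
  small := fun i => smallVar_mono (fun _ hg => ⟨hg.1, hZ.trivAct hg.2.1, hg.2.2⟩) (h.small i)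

/-- **Tate classes and motivated classes: simultaneous semistable degenerations.** -/
theorem motivated_sst [IsAlgClosed W.K] [Finite ι] (h : Family χ X Z) (hZ : IsPowerOf Z Z')
    {S : Set ι} {T : GVar W Γ} (hT : Tower X Z' S T) :
    DominatedMotivated χ T ↔ TateAreMotivated χ Z' := by
  rw [← dominatedTate_iff', ← tateIn_iff]
  exact dom_sst (motSystem W) (family_power h hZ) hT

end Pool.Agent.L5helper71.Mot
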