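import Mathlib
import Pool.Agent.L5helper71.CatDefs
import Pool.Agent.L5helper71.MotMain

/-!
# Isomorphisms of products and transport of actions
-/

open CategoryTheory AlgebraicGeometry

universe u

namespace Pool.Agent.L5helper71.Cat

open Pool.Agent.H914 Pool.Agent.H914.VarClass Pool.Agent.H914.VarClass.Obj
  Pool.Agent.H914.WeilCohomology Pool.Agent.H281R3.HT Pool.Agent.TH125.Gal
  Pool.Agent.V11219.Min Pool.Agent.V11219.Cls Pool.Agent.TH118.SG

variable {k : Type u} [Field k] {𝒱 : VarClass k} {ops : CycleOps 𝒱}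
  {W : WeilCohomology.{u, 0} ops}

theorem prod_ext {V X Y : 𝒱.Obj} {f g : V ⟶ X.prod Y} (h1 : f ≫ fst X Y = g ≫ fst X Y)
    (h2 : f ≫ snd X Y = g ≫ snd X Y) : f = g := by
  refine SmVar.Hom.ext ?_
  refine Limits.pullback.hom_ext ?_ ?_
  · exact congrArg SmVar.Hom.hom h1
  · exact congrArg SmVar.Hom.hom h2

/-- The associativity of products. -/
theorem exists_assoc (A B C : 𝒱.Obj) : ∃ e : (A.prod B).prod C ≅ A.prod (B.prod C),
    e.hom ≫ fst A (B.prod C) = fst (A.prod B) C ≫ fst A B ∧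
    e.hom ≫ (snd A (B.prod C) ≫ fst B C) = fst (A.prod B) C ≫ snd A B ∧
    e.hom ≫ (snd A (B.prod C) ≫ snd B C) = snd (A.prod B) C := by
  refine ⟨{ hom := Obj.lift (fst _ _ ≫ fst _ _) (Obj.lift (fst _ _ ≫ snd _ _) (snd _ _))
            inv := Obj.lift (Obj.lift (fst _ _) (snd _ _ ≫ fst _ _)) (snd _ _ ≫ snd _ _)
            hom_inv_id := ?_
            inv_hom_id := ?_ }, ?_, ?_, ?_⟩
  · refine prod_ext (prod_ext ?_ ?_) ?_ <;> simp
  · refine prod_ext ?_ (prod_ext ?_ ?_) <;> simp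
  · simp
  · simp
  · simp

/-- The exchange of the first two factors. -/
theorem exists_swap (P A Y : 𝒱.Obj) : ∃ e : P.prod (A.prod Y) ≅ A.prod (P.prod Y),
    e.hom ≫ fst A (P.prod Y) = snd P (A.prod Y) ≫ fst A Y ∧
    e.hom ≫ (snd A (P.prod Y) ≫ fst P Y) = fst P (A.prod Y) ∧
    e.hom ≫ (snd A (P.prod Y) ≫ snd P Y) = snd P (A.prod Y) ≫ snd A Y := by
  refine ⟨{ hom := Obj.lift (snd _ _ ≫ fst _ _) (Obj.lift (fst _ _) (snd _ _ ≫ snd _ _))
            inv := Obj.lift (snd _ _ ≫ fst _ _) (Obj.lift (fst _ _) (snd _ _ ≫ snd _ _))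
            hom_inv_id := ?_
            inv_hom_id := ?_ }, ?_, ?_, ?_⟩
  · refine prod_ext ?_ (prod_ext ?_ ?_) <;> simp
  · refine prod_ext ?_ (prod_ext ?_ ?_) <;> simp
  · simp
  · simp
  · simp

/-- An isomorphism of the second factors. -/
theorem exists_congr (P : 𝒱.Obj) {Y Y' : 𝒱.Obj} (e : Y ≅ Y') :
    ∃ f : P.prod Y ≅ P.prod Y', f.hom ≫ fst P Y' = fst P Y ∧
      f.hom ≫ snd P Y' = snd P Y ≫ e.hom := by
  refine ⟨{ hom := Obj.lift (fst _ _) (snd _ _ ≫ e.hom)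
            inv := Obj.lift (fst _ _) (snd _ _ ≫ e.inv)
            hom_inv_id := ?_
            inv_hom_id := ?_ }, ?_, ?_⟩
  · refine prod_ext ?_ ?_ <;> simp
  · refine prod_ext ?_ ?_ <;> simp
  · simp
  · simp

theorem map_bij (W : WeilCohomology.{u, 0} ops) {V X : 𝒱.Obj} (e : V ≅ X) :
    Function.Bijective (W.map e.hom) := by
  constructor
  · intro a b h
    have h1 := congrArg (W.map e.inv) h
    rwa [← W.map_comp, ← W.map_comp, e.inv_hom_id, W.map_id, W.map_id] at h1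
  · intro b
    refine ⟨W.map e.inv b, ?_⟩
    rw [← W.map_comp, e.hom_inv_id, W.map_id]

variable {Γ : Type} [Group Γ]

/-- Transport of an action of algebras along an isomorphism. -/
theorem exists_transp_alg {K A B : Type} [Field K] [Ring A] [Algebra K A] [Ring B] [Algebra K B]
    (f : A →ₐ[K] B) (hf : Function.Bijective f) (ρ : Γ →* (A ≃ₐ[K] A)) :
    ∃ ω : Γ →* (B ≃ₐ[K] B), Intertwines f ρ ω := by
  refine ⟨((AlgEquiv.autCongr (AlgEquiv.ofBijective f hf)).toMonoidHom).comp ρ, fun γ x => ?_⟩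
  have h : (AlgEquiv.ofBijective f hf).symm (f x) = x :=
    (AlgEquiv.ofBijective f hf).symm_apply_apply x
  change (AlgEquiv.ofBijective f hf) (ρ γ ((AlgEquiv.ofBijective f hf).symm (f x))) = _
  rw [h]
  rfl

/-- Transport of the action along an isomorphism. -/
theorem exists_transp {V X : 𝒱.Obj} (e : V ≅ X) (ρ : Γ →* (W.H X ≃ₐ[W.K] W.H X)) :
    ∃ ω : Γ →* (W.H V ≃ₐ[W.K] W.H V), Intertwines (W.map e.hom) ρ ω :=
  exists_transp_alg (W.map e.hom) (map_bij W e) ρ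

/-- Compositions. -/
theorem inter_comp {V T Y : 𝒱.Obj} {f : V ⟶ T} {p : T ⟶ Y} {q : V ⟶ Y} (hq : f ≫ p = q)
    {ρ : Γ →* (W.H Y ≃ₐ[W.K] W.H Y)} {υ : Γ →* (W.H T ≃ₐ[W.K] W.H T)}
    {ω : Γ →* (W.H V ≃ₐ[W.K] W.H V)} (h : Intertwines (W.map f) υ ω)
    (hp : Intertwines (W.map p) ρ υ) : Intertwines (W.map q) ρ ω := by
  subst hq
  intro γ a
  rw [W.map_comp, h, hp]
  exact (W.map_comp _ _ _).symm

/-- Cancellation of an isomorphism. -/
theorem inter_cancel {V T Y : 𝒱.Obj} {f : V ⟶ T} {e : T ≅ Y}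
    {ρ : Γ →* (W.H Y ≃ₐ[W.K] W.H Y)} {υ : Γ →* (W.H T ≃ₐ[W.K] W.H T)}
    {ω : Γ →* (W.H V ≃ₐ[W.K] W.H V)} (h : Intertwines (W.map (f ≫ e.hom)) ρ ω)
    (hp : Intertwines (W.map e.hom) ρ υ) : Intertwines (W.map f) υ ω := by
  intro γ a
  obtain ⟨c, rfl⟩ := (map_bij W e).2 a
  have h1 := h γ c
  rw [W.map_comp, W.map_comp] at h1
  rw [h1, hp]

/-- Isomorphic varieties with actions. -/
def Eqv (A B : GVar W Γ) : Prop :=
  ∃ e : A.X ≅ B.X, A.X.dim = B.X.dim ∧ Intertwines (W.map e.hom) B.act A.act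

theorem Eqv.refl (A : GVar W Γ) : Eqv A A :=
  ⟨Iso.refl _, rfl, fun γ x => by
    change A.act γ (W.map (𝟙 A.X) x) = W.map (𝟙 A.X) (A.act γ x)
    rw [W.map_id, W.map_id]⟩

theorem Eqv.trans {A B C : GVar W Γ} (h : Eqv A B) (h' : Eqv B C) : Eqv A C := by
  obtain ⟨e, hd, he⟩ := h
  obtain ⟨e', hd', he'⟩ := h'
  exact ⟨e.trans e', hd.trans hd', inter_comp (Iso.trans_hom e e').symm he he'⟩

/-- Isomorphic varieties dominate each other. -/
theorem Eqv.dominates {A B : GVar W Γ} (h : Eqv A B) : DominatesVar A B := by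
  obtain ⟨e, hd, he⟩ := h
  refine ⟨e.hom, ?_, fun γ x => he γ x⟩
  have h0 := W.push_mem e.hom (W.one_mem A.X)
  rw [hd, sub_self, mul_zero, add_zero, grZ_natCast, W.gr_zero] at h0
  obtain ⟨c, hc⟩ := Submodule.mem_span_singleton.1 h0
  by_cases hc0 : c = 0
  · -- then the cohomology is zero
    have h1 : ∀ a : W.H A.X, a = 0 := by
      intro a
      refine W.nondeg a fun b => ?_
      obtain ⟨a', rfl⟩ := (map_bij W e).2 a
      obtain ⟨b', rfl⟩ := (map_bij W e).2 b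
      have h2 := W.tr_push e.hom 1 (a' * b')
      rw [one_mul, ← hc, hc0, zero_smul, zero_mul, map_zero, map_mul (W.map e.hom)] at h2
      exact h2.symm
    refine ⟨1, one_mem_algSpan _, ?_⟩
    refine (map_bij W e).1 ?_
    rw [h1 (W.map e.hom _), h1 (W.map e.hom 1)]
  · refine ⟨c⁻¹ • 1, Submodule.smul_mem _ _ (one_mem_algSpan _), ?_⟩
    rw [map_smul, ← hc, smul_smul, inv_mul_cancel₀ hc0, one_smul]

/-- Restriction of an action along an injective homomorphism with stable image. -/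
theorem exists_restrict {K A B : Type} [Field K] [Ring A] [Algebra K A] [Ring B] [Algebra K B]
    (f : A →ₐ[K] B) (hf : Function.Injective f) (ω : Γ →* (B ≃ₐ[K] B))
    (hst : ∀ γ a, ∃ a', ω γ (f a) = f a') :
    ∃ τ : Γ →* (A ≃ₐ[K] A), Intertwines f τ ω := by
  choose t ht using hst
  have hmul : ∀ γ δ a, t (γ * δ) a = t γ (t δ a) := by
    intro γ δ a
    apply hf
    rw [← ht, ← ht, ← ht, map_mul]
    rfl
  have hone : ∀ a, t 1 a = a := by
    intro a
    apply hf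
    rw [← ht, map_one]
    rfl
  let F : Γ → (A →ₐ[K] A) := fun γ =>
    { toFun := t γ
      map_one' := by apply hf; rw [← ht]; simp
      map_mul' := fun a b => by apply hf; rw [← ht, map_mul f, map_mul (ω γ), ht, ht, map_mul f]
      map_zero' := by apply hf; rw [← ht]; simp
      map_add' := fun a b => by apply hf; rw [← ht, map_add f, map_add (ω γ), ht, ht, map_add f]
      commutes' := fun r => by apply hf; rw [← ht, AlgHom.commutes, AlgEquiv.commutes] }
  refine ⟨{ toFun := fun γ => AlgEquiv.ofAlgHom (F γ) (F γ⁻¹) ?_ ?_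
            map_one' := ?_
            map_mul' := ?_ }, fun γ a => ht γ a⟩
  · ext a
    change t γ (t γ⁻¹ a) = a
    rw [← hmul, mul_inv_cancel, hone]
  · ext a
    change t γ⁻¹ (t γ a) = a
    rw [← hmul, inv_mul_cancel, hone]
  · ext a
    exact hone a
  · intro γ δ
    ext a
    exact hmul γ δ a

theorem snd_inj {P Y : 𝒱.Obj} (h : ∃ a : W.H P, W.tr P a ≠ 0) :
    Function.Injective (W.map (snd P Y)) := by
  obtain ⟨a, ha⟩ := h
  rw [injective_iff_map_eq_zero]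
  intro b hb
  have h1 := W.push_snd (Y := Y) a b
  rw [hb, mul_zero, map_zero] at h1
  exact (smul_eq_zero.1 h1.symm).resolve_left ha

end Pool.Agent.L5helper71.Cat
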