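import Mathlib
import Pool.Agent.L5helper71.CatIso

/-!
# Products with isomorphic varieties, exchange of factors
-/

open CategoryTheory AlgebraicGeometry

universe u

namespace Pool.Agent.L5helper71.Cat

open Pool.Agent.H914 Pool.Agent.H914.VarClass Pool.Agent.H914.VarClass.Obj
  Pool.Agent.H914.WeilCohomology Pool.Agent.H281R3.HT Pool.Agent.TH125.Gal
  Pool.Agent.V11219.Min Pool.Agent.V11219.Cls Pool.Agent.TH118.SG

variable {k : Type u} [Field k] {𝒱 : VarClass k} {ops : CycleOps 𝒱}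
  {W : WeilCohomology.{u, 0} ops} {Γ : Type} [Group Γ]

/-- Products with isomorphic varieties. -/
theorem prod_congr {A T T₁ T' : GVar W Γ} (hP : IsProduct A T T') (e : Eqv T₁ T) :
    ∃ T₂, IsProduct A T₁ T₂ ∧ Eqv T₂ T' := by
  obtain ⟨υ, h1, h2⟩ := hP
  obtain ⟨e, hd, he⟩ := e
  obtain ⟨f, q1, q2⟩ := exists_congr A.X e
  obtain ⟨ω, hω⟩ := exists_transp f υ
  have c1 : Intertwines (W.map (fst A.X T₁.X)) A.act ω := inter_comp q1 hω h1
  have c2 : Intertwines (W.map (snd A.X T₁.X ≫ e.hom)) T.act ω := inter_comp q2 hω h2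
  have c3 : Intertwines (W.map (snd A.X T₁.X)) T₁.act ω := inter_cancel c2 he
  have hdim : (A.X.prod T₁.X).dim = (A.X.prod T.X).dim := by
    rw [dim_prod, dim_prod, hd]
  exact ⟨⟨A.X.prod T₁.X, ω⟩, IsProduct.mk ω c1 c3, f, hdim, hω⟩

/-- Injectivity of the projection which forgets the middle factor. -/
theorem exists_forget {P : 𝒱.Obj} (htr : ∃ a : W.H P, W.tr P a ≠ 0) (A Y : 𝒱.Obj) :
    ∃ π : A.prod (P.prod Y) ⟶ A.prod Y, π ≫ fst A Y = fst A (P.prod Y) ∧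
      π ≫ snd A Y = snd A (P.prod Y) ≫ snd P Y ∧ Function.Injective (W.map π) := by
  refine ⟨Obj.lift (fst _ _) (snd _ _ ≫ snd _ _), Obj.lift_fst _ _, Obj.lift_snd _ _, ?_⟩
  obtain ⟨e, e1, e2, e3⟩ := exists_swap P A Y
  rw [injective_iff_map_eq_zero]
  intro z hz
  refine (injective_iff_map_eq_zero _).1 (snd_inj htr) z ?_
  have h1 : e.hom ≫ (Obj.lift (fst _ _) (snd _ _ ≫ snd _ _) : A.prod (P.prod Y) ⟶ A.prod Y) =
      snd P (A.prod Y) := by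
    refine prod_ext ?_ ?_
    · rw [Category.assoc, Obj.lift_fst, e1]
    · rw [Category.assoc, Obj.lift_snd, e3]
  rw [← h1, W.map_comp, hz, map_zero]

/-- A subset of the cohomology of a product is stable under an action if the action is compatible with
the projections. -/
theorem exists_descend {V : 𝒱.Obj} {A Y : GVar W Γ} (π : V ⟶ A.X.prod Y.X)
    (hπ : Function.Injective (W.map π)) {ω : Γ →* (W.H V ≃ₐ[W.K] W.H V)}
    (g1 : Intertwines (W.map (π ≫ fst A.X Y.X)) A.act ω)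
    (g2 : Intertwines (W.map (π ≫ snd A.X Y.X)) Y.act ω) :
    ∃ τ : Γ →* (W.H (A.X.prod Y.X) ≃ₐ[W.K] W.H (A.X.prod Y.X)), Intertwines (W.map π) τ ω ∧
      Intertwines (W.map (fst A.X Y.X)) A.act τ ∧ Intertwines (W.map (snd A.X Y.X)) Y.act τ := by
  have k1 : ∀ γ a, ω γ (W.map π (W.map (fst A.X Y.X) a)) =
      W.map π (W.map (fst A.X Y.X) (A.act γ a)) := by
    intro γ a
    have h := g1 γ a
    rwa [W.map_comp, W.map_comp] at h
  have k2 : ∀ γ a, ω γ (W.map π (W.map (snd A.X Y.X) a)) =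
      W.map π (W.map (snd A.X Y.X) (Y.act γ a)) := by
    intro γ a
    have h := g2 γ a
    rwa [W.map_comp, W.map_comp] at h
  have hst : ∀ γ z, ∃ z', ω γ (W.map π z) = W.map π z' := by
    intro γ z
    refine W.kunneth_induction (p := fun z => ∃ z', ω γ (W.map π z) = W.map π z') ?_ ?_ z
    · rintro a b ⟨a', ha⟩ ⟨b', hb⟩
      exact ⟨a' + b', by rw [map_add, map_add, ha, hb, map_add]⟩
    · intro i j a _ b _
      refine ⟨W.map (fst A.X Y.X) (A.act γ a) * W.map (snd A.X Y.X) (Y.act γ b), ?_⟩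
      rw [map_mul (W.map π), map_mul (W.map π), map_mul (ω γ), k1, k2]
  obtain ⟨τ, hτ⟩ := exists_restrict (W.map π) hπ ω hst
  refine ⟨τ, hτ, fun γ a => ?_, fun γ b => ?_⟩
  · apply hπ
    rw [← hτ, k1]
  · apply hπ
    rw [← hτ, k2]

/-- A factor is moved behind a power. -/
theorem pull_core {ι : Type} {P X : 𝒱.Obj} {A Y : GVar W Γ} {pr : ι → (P ⟶ X)}
    {ρ : Γ →* (W.H X ≃ₐ[W.K] W.H X)} (htr : ∃ a : W.H P, W.tr P a ≠ 0)
    {υ : Γ →* (W.H (P.prod Y.X) ≃ₐ[W.K] W.H (P.prod Y.X))}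
    (h1 : ∀ p, Intertwines (W.map (fst P Y.X ≫ pr p)) ρ υ)
    (h2 : Intertwines (W.map (snd P Y.X)) Y.act υ)
    {ω : Γ →* (W.H (A.X.prod (P.prod Y.X)) ≃ₐ[W.K] W.H (A.X.prod (P.prod Y.X)))}
    (g1 : Intertwines (W.map (fst A.X (P.prod Y.X))) A.act ω)
    (g2 : Intertwines (W.map (snd A.X (P.prod Y.X))) υ ω) :
    ∃ τ : Γ →* (W.H (A.X.prod Y.X) ≃ₐ[W.K] W.H (A.X.prod Y.X)),
      Intertwines (W.map (fst A.X Y.X)) A.act τ ∧ Intertwines (W.map (snd A.X Y.X)) Y.act τ ∧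
      ∀ Q' : GVar W Γ, Eqv Q' ⟨A.X.prod Y.X, τ⟩ →
        ∃ σ : Γ →* (W.H (P.prod Q'.X) ≃ₐ[W.K] W.H (P.prod Q'.X)),
          (∀ p, Intertwines (W.map (fst P Q'.X ≫ pr p)) ρ σ) ∧
          Intertwines (W.map (snd P Q'.X)) Q'.act σ ∧
          Eqv ⟨P.prod Q'.X, σ⟩ ⟨A.X.prod (P.prod Y.X), ω⟩ := by
  obtain ⟨π, p1, p2, hπ⟩ := exists_forget (W := W) htr A.X Y.X
  have c1 : Intertwines (W.map (π ≫ fst A.X Y.X)) A.act ω := by rw [p1]; exact g1
  have c2 : Intertwines (W.map (π ≫ snd A.X Y.X)) Y.act ω := inter_comp p2.symm g2 h2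
  obtain ⟨τ, hτ, t1, t2⟩ := exists_descend π hπ c1 c2
  refine ⟨τ, t1, t2, ?_⟩
  rintro Q' ⟨e, hd, he⟩
  obtain ⟨f, q1, q2⟩ := exists_congr P e
  obtain ⟨s, s1, s2, s3⟩ := exists_swap P A.X Y.X
  obtain ⟨σ, hσ⟩ := exists_transp (f.trans s) ω
  have r1 : (f.trans s).hom ≫ (snd A.X (P.prod Y.X) ≫ fst P Y.X) = fst P Q'.X := by
    rw [Iso.trans_hom, Category.assoc, s2, q1]
  have r2 : (f.trans s).hom ≫ π = snd P Q'.X ≫ e.hom := by
    refine prod_ext ?_ ?_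
    · rw [Category.assoc, p1, Iso.trans_hom, Category.assoc, s1, ← Category.assoc, q2]
    · rw [Category.assoc, p2, Iso.trans_hom, Category.assoc, s3, ← Category.assoc, q2]
  refine ⟨σ, fun p => ?_, ?_, f.trans s, ?_, hσ⟩
  · have d1 : Intertwines (W.map (snd A.X (P.prod Y.X) ≫ (fst P Y.X ≫ pr p))) ρ ω :=
      inter_comp rfl g2 (h1 p)
    refine inter_comp ?_ hσ d1
    rw [← Category.assoc (snd A.X (P.prod Y.X)), ← Category.assoc, r1]
  · have d2 : Intertwines (W.map (snd P Q'.X ≫ e.hom)) τ σ := inter_comp r2 hσ hτ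
    exact inter_cancel d2 he
  · have hd' : Q'.X.dim = (A.X.prod Y.X).dim := hd
    change (P.prod Q'.X).dim = (A.X.prod (P.prod Y.X)).dim
    rw [dim_prod, dim_prod, dim_prod, hd', dim_prod]
    omega

/-- A factor is multiplied to its own power. -/
theorem merge_core {ι : Type} {P X : 𝒱.Obj} {Y : GVar W Γ} {pr : ι → (P ⟶ X)}
    {ρ : Γ →* (W.H X ≃ₐ[W.K] W.H X)}
    {υ : Γ →* (W.H (P.prod Y.X) ≃ₐ[W.K] W.H (P.prod Y.X))}
    (h1 : ∀ p, Intertwines (W.map (fst P Y.X ≫ pr p)) ρ υ)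
    (h2 : Intertwines (W.map (snd P Y.X)) Y.act υ)
    {ω : Γ →* (W.H (X.prod (P.prod Y.X)) ≃ₐ[W.K] W.H (X.prod (P.prod Y.X)))}
    (g1 : Intertwines (W.map (fst X (P.prod Y.X))) ρ ω)
    (g2 : Intertwines (W.map (snd X (P.prod Y.X))) υ ω) :
    ∃ σ : Γ →* (W.H ((X.prod P).prod Y.X) ≃ₐ[W.K] W.H ((X.prod P).prod Y.X)),
      Intertwines (W.map (fst (X.prod P) Y.X ≫ fst X P)) ρ σ ∧
      (∀ p, Intertwines (W.map (fst (X.prod P) Y.X ≫ (snd X P ≫ pr p))) ρ σ) ∧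
      Intertwines (W.map (snd (X.prod P) Y.X)) Y.act σ ∧
      Eqv (⟨(X.prod P).prod Y.X, σ⟩ : GVar W Γ) ⟨X.prod (P.prod Y.X), ω⟩ := by
  obtain ⟨f, q1, q2, q3⟩ := exists_assoc X P Y.X
  obtain ⟨σ, hσ⟩ := exists_transp f ω
  refine ⟨σ, inter_comp q1 hσ g1, fun p => ?_, ?_, f, ?_, hσ⟩
  · have d1 : Intertwines (W.map (snd X (P.prod Y.X) ≫ (fst P Y.X ≫ pr p))) ρ ω :=
      inter_comp rfl g2 (h1 p)
    refine inter_comp ?_ hσ d1
    rw [← Category.assoc (snd X (P.prod Y.X)), ← Category.assoc, q2, Category.assoc]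
  · have d2 : Intertwines (W.map (snd X (P.prod Y.X) ≫ snd P Y.X)) Y.act ω :=
      inter_comp rfl g2 h2
    exact inter_comp q3 hσ d2
  · change ((X.prod P).prod Y.X).dim = (X.prod (P.prod Y.X)).dim
    rw [dim_prod, dim_prod, dim_prod, dim_prod]
    omega

end Pool.Agent.L5helper71.Cat
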