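import Mathlib
import Pool.Agent.L5helper71.CatProd

/-!
# Products in arbitrary order and towers
-/

open CategoryTheory AlgebraicGeometry

universe u

namespace Pool.Agent.L5helper71.Cat

open Pool.Agent.H914 Pool.Agent.H914.VarClass Pool.Agent.H914.VarClass.Obj
  Pool.Agent.H914.WeilCohomology Pool.Agent.H281R3.HT Pool.Agent.TH125.Gal
  Pool.Agent.V11219.Min Pool.Agent.V11219.Cls Pool.Agent.TH118.SG

variable {k : Type u} [Field k] {𝒱 : VarClass k} {ops : CycleOps 𝒱}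
  {W : WeilCohomology.{u, 0} ops} {Γ : Type} [Group Γ]

theorem exists_tr_power {X : 𝒱.Obj} (hne : (1 : W.H X) ≠ 0) (n : ℕ) :
    ∃ a : W.H (power ops X n), W.tr (power ops X n) a ≠ 0 := by
  obtain ⟨x, hx⟩ := exists_tr hne
  refine ⟨mono (Pool.Agent.W552.prj ops n fun _ => (⟨X, 0⟩ : Polarized 𝒱)) fun _ => x, ?_⟩
  have h3 := tr_mono (W := W) (⟨X, 0⟩ : Polarized 𝒱) x n
  intro h4
  have h5 : W.tr X x ^ (n + 1) = 0 := h3.symm.trans h4
  exact pow_ne_zero _ hx h5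

/-- A factor is moved behind a power. -/
theorem pull_out {A X₁ Y Y' T₂ : GVar W Γ} {n : ℕ} (hne : (1 : W.H X₁.X) ≠ 0)
    (hY : IsPowProd X₁ n Y Y') (hP : IsProduct A Y' T₂) :
    ∃ Q, IsProduct A Y Q ∧ ∀ Q', Eqv Q' Q → ∃ T₃, IsPowProd X₁ n Q' T₃ ∧ Eqv T₃ T₂ := by
  obtain ⟨υ, h1, h2⟩ := hY
  obtain ⟨ω, g1, g2⟩ := hP
  obtain ⟨τ, t1, t2, hall⟩ := pull_core (A := A) (Y := Y) (pr := powerPrj ops X₁.X n)
    (ρ := X₁.act) (exists_tr_power hne n) h1 h2 g1 g2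
  refine ⟨⟨A.X.prod Y.X, τ⟩, IsProduct.mk τ t1 t2, fun Q' hQ => ?_⟩
  obtain ⟨σ, s1, s2, s3⟩ := hall Q' hQ
  exact ⟨_, IsPowProd.mk σ s1 s2, s3⟩

/-- A factor is multiplied to its own power. -/
theorem merge {X₁ Y Y' T₂ : GVar W Γ} {n : ℕ}
    (hY : IsPowProd X₁ n Y Y') (hP : IsProduct X₁ Y' T₂) :
    ∃ T₃, IsPowProd X₁ (n + 1) Y T₃ ∧ Eqv T₃ T₂ := by
  obtain ⟨υ, h1, h2⟩ := hY
  obtain ⟨ω, g1, g2⟩ := hP
  obtain ⟨σ, s1, s2, s3, s4⟩ := merge_core (X := X₁.X) (Y := Y) (pr := powerPrj ops X₁.X n)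
    (ρ := X₁.act) h1 h2 g1 g2
  refine ⟨⟨(power ops X₁.X (n + 1)).prod Y.X, σ⟩,
    IsPowProd.mk (X := X₁) (n := n + 1) (Z := Y) σ (fun p => ?_) s3, s4⟩
  refine Fin.cases ?_ (fun i => ?_) p
  · exact s1
  · exact s2 i

/-- One factor. -/
theorem single {X₁ Y T₂ : GVar W Γ} (hP : IsProduct X₁ Y T₂) : IsPowProd X₁ 0 Y T₂ := by
  obtain ⟨ω, g1, g2⟩ := hP
  refine IsPowProd.mk (X := X₁) (n := 0) (Z := Y) ω (fun p => ?_) g2
  refine Fin.cases ?_ (fun i => i.elim0) p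
  have h : fst X₁.X Y.X = fst (power ops X₁.X 0) Y.X ≫ powerPrj ops X₁.X 0 0 :=
    (Category.comp_id (fst X₁.X Y.X)).symm
  rw [← h]
  exact g1

variable {ι : Type} {X : ι → GVar W Γ} {Z : GVar W Γ}

/-- A new factor in the base. -/
theorem insertZ (hne : ∀ i, (1 : W.H (X i).X) ≠ 0) {A : GVar W Γ} {Z' : GVar W Γ} {S : Set ι}
    {T : GVar W Γ} (hT : Tower X Z' S T) : ∀ T₂, IsProduct A T T₂ →
    ∃ Z₂ T₃, IsProduct A Z' Z₂ ∧ Tower X Z₂ S T₃ ∧ Eqv T₃ T₂ := by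
  induction hT with
  | base =>
    intro T₂ hP
    exact ⟨T₂, T₂, hP, Tower.base, Eqv.refl _⟩
  | step i n hT hi hY ih =>
    intro T₂ hP
    obtain ⟨Q, hQ, hall⟩ := pull_out (hne i) hY hP
    obtain ⟨Z₂, T₃, h1, h2, h3⟩ := ih Q hQ
    obtain ⟨T₄, h4, h5⟩ := hall T₃ h3
    exact ⟨Z₂, T₄, h1, Tower.step i n h2 hi h4, h5⟩

/-- A new factor from the family. -/
theorem insertX (hne : ∀ i, (1 : W.H (X i).X) ≠ 0) (i : ι) {Z' : GVar W Γ} {S : Set ι}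
    {T : GVar W Γ} (hT : Tower X Z' S T) : ∀ T₂, IsProduct (X i) T T₂ →
    ∃ S₂ T₃, S₂ ⊆ insert i S ∧ Tower X Z' S₂ T₃ ∧ Eqv T₃ T₂ := by
  induction hT with
  | base =>
    intro T₂ hP
    exact ⟨insert i ∅, T₂, Set.Subset.refl _,
      Tower.step i 0 Tower.base (Set.notMem_empty i) (single hP), Eqv.refl _⟩
  | @step S Y Y' j n hT hj hY ih =>
    intro T₂ hP
    by_cases hij : i = j
    · subst hij
      obtain ⟨T₃, h3, h4⟩ := merge hY hP
      exact ⟨insert i S, T₃, Set.subset_insert _ _, Tower.step i (n + 1) hT hj h3, h4⟩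
    · obtain ⟨Q, hQ, hall⟩ := pull_out (hne j) hY hP
      obtain ⟨S₂, T₃, h1, h2, h3⟩ := ih Q hQ
      obtain ⟨T₄, h4, h5⟩ := hall T₃ h3
      refine ⟨insert j S₂, T₄, ?_, Tower.step j n h2 (fun h => ?_) h4, h5⟩
      · rw [Set.insert_comm]
        exact Set.insert_subset_insert h1
      · rcases h1 h with h | h
        · exact hij h.symm
        · exact hj h

/-- Products in arbitrary order are isomorphic to towers. -/
theorem exists_tower (hne : ∀ i, (1 : W.H (X i).X) ≠ 0) {T : GVar W Γ}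
    (hT : Product (fun A => A = Z ∨ ∃ i, A = X i) Z T) :
    ∃ Z' S T', Product (fun A => A = Z) Z Z' ∧ Tower X Z' S T' ∧ Eqv T' T := by
  induction hT with
  | base => exact ⟨Z, ∅, Z, Product.base, Tower.base, Eqv.refl _⟩
  | @mul A T T' hA hT hP ih =>
    obtain ⟨Z₁, S, T₁, hZ₁, hT₁, he⟩ := ih
    obtain ⟨T₂, hP₂, he₂⟩ := prod_congr hP he
    rcases hA with rfl | ⟨i, rfl⟩
    · obtain ⟨Z₂, T₃, h1, h2, h3⟩ := insertZ hne hT₁ T₂ hP₂
      exact ⟨Z₂, S, T₃, Product.mul rfl hZ₁ h1, h2, h3.trans he₂⟩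
    · obtain ⟨S₂, T₃, -, h2, h3⟩ := insertX hne i hT₁ T₂ hP₂
      exact ⟨Z₁, S₂, T₃, hZ₁, h2, h3.trans he₂⟩

/-- Products of varieties with trivial action. -/
theorem IsProduct.trivAct {A B T : GVar W Γ} (hP : IsProduct A B T) {g : Γ}
    (hA : TrivAct A.act g) (hB : TrivAct B.act g) : TrivAct T.act g := by
  obtain ⟨ω, g1, g2⟩ := hP
  intro z
  change ω g z = z
  refine W.kunneth_induction (p := fun z => ω g z = z) ?_ ?_ z
  · intro a b ha hb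
    rw [map_add, ha, hb]
  · intro i j a _ b _
    rw [map_mul (ω g), g1, g2, hA, hB]

theorem Product.trivAct {Z' : GVar W Γ} (h : Product (fun A => A = Z) Z Z') {g : Γ}
    (hg : TrivAct Z.act g) : TrivAct Z'.act g := by
  induction h with
  | base => exact hg
  | mul hA _ hP ih =>
    subst hA
    exact hP.trivAct hg ih

theorem Product.mono {M M' : GVar W Γ → Prop} (hM : ∀ A, M A → M' A) {T : GVar W Γ}
    (h : Product M Z T) : Product M' Z T := by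
  induction h with
  | base => exact Product.base
  | mul hA _ hP ih => exact Product.mul (hM _ hA) ih hP

/-- Domination is transitive. -/
theorem dominates_trans {A B C : GVar W Γ} (h : DominatesVar A B) (h' : DominatesVar B C) :
    DominatesVar A C := by
  obtain ⟨f, ⟨a, ha, ha1⟩, hf⟩ := h
  obtain ⟨g, ⟨b, hb, hb1⟩, hg⟩ := h'
  refine ⟨f ≫ g, ⟨a * W.map f b, ?_, ?_⟩, fun γ x => ?_⟩
  · exact Pool.Agent.TH125.Gal.algSpan_mul ha (algSpan_map f hb)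
  · rw [W.push_comp, push_mul_map', ha1, one_mul, hb1]
  · rw [W.map_comp, hf, hg, W.map_comp]

end Pool.Agent.L5helper71.Cat
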