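import Mathlib
import Pool.Agent.L5helper71.CatTower

/-!
# Tate classes and motivated classes on products in arbitrary order
-/

open CategoryTheory AlgebraicGeometry

universe u

namespace Pool.Agent.L5helper71.Cat

open Pool.Agent.H914 Pool.Agent.H914.VarClass Pool.Agent.H914.VarClass.Obj
  Pool.Agent.H914.WeilCohomology Pool.Agent.H281R3.HT Pool.Agent.TH125.Gal
  Pool.Agent.V11219.Min Pool.Agent.V11219.Cls Pool.Agent.TH118.SG

variable {k : Type u} [Field k] {𝒱 : VarClass k} {ops : CycleOps 𝒱}
  {W : WeilCohomology.{u, 0} ops} {Γ : Type} [Group Γ] {χ : Γ →* W.Kˣ}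
  {ι : Type} {X : ι → GVar W Γ} {Z : GVar W Γ}

theorem isSystem_iff (P : Property W) : IsSystem P ↔ Pool.Agent.R920.MT.IsSystem P := by
  constructor
  · intro h
    exact ⟨fun X j => h.lin X j, h.cl, fun X i j a b ha hb => h.mul X i j a b ha hb,
      fun X Y f j a ha => h.map X Y f j a ha, fun X Y f j l a hl ha => h.push X Y f j l hl a ha,
      fun X D j h1 h2 h3 x hx hp => h.lift X D j h1 h2 h3 x hx hp⟩
  · intro h
    exact ⟨fun X j => h.lin X j, h.cl, fun X i j a b ha hb => h.mul X i j a b ha hb,
      fun X Y f j a ha => h.map X Y f j a ha, fun X Y f j l hl a ha => h.push X Y f j l a hl ha,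
      fun X D j h1 h2 h3 x hx hp => h.lift X D j h1 h2 h3 x hx hp⟩

theorem isMotivated_iff (X : 𝒱.Obj) (j : ℕ) (c : W.H X) :
    IsMotivated W X j c ↔ Pool.Agent.R920.MT.IsMotivated W X j c :=
  forall_congr' fun P => by rw [isSystem_iff]

theorem tateMotivated_iff (A : GVar W Γ) :
    TateMotivated χ A ↔ TateIn χ (Pool.Agent.R920.MT.motPred W).sys.C A := by
  rw [Mot.tateIn_iff]
  constructor
  · intro h j c hc hs
    exact (isMotivated_iff _ _ _).1 (h j c hc hs)
  · intro h j c hc hs
    exact (isMotivated_iff _ _ _).2 (h j c hc hs)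

/-- The criterion: reduction from products in arbitrary order to towers. -/
theorem allMotivated_iff (hne : ∀ i, (1 : W.H (X i).X) ≠ 0)
    (key : ∀ Z', Product (fun A => A = Z) Z Z' → ∀ S T, Tower X Z' S T →
      (TateIn χ (Pool.Agent.R920.MT.motPred W).sys.C T ↔
        TateIn χ (Pool.Agent.R920.MT.motPred W).sys.C Z')) :
    AllMotivated χ X Z ↔ BaseMotivated χ Z := by
  constructor
  · intro h T hT
    refine h T (hT.mono fun A hA => Or.inl hA) T ?_
    exact dominates_refl T
  · intro h T hT B hB
    obtain ⟨Z', S, T', hZ', hT', he⟩ := exists_tower hne hT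
    have h1 : TateIn χ (Pool.Agent.R920.MT.motPred W).sys.C T' :=
      (key Z' hZ' S T' hT').2 ((tateMotivated_iff Z').1 (h Z' hZ'))
    rw [tateMotivated_iff]
    have hB' : DominatesVar T B := hB
    exact h1.dominated (Mot.motSystem W) (dominates_trans he.dominates hB')

/-- The family stays a family over the powers of the base. -/
theorem family_product (h : Family χ X Z) {Z' : GVar W Γ}
    (hZ : Product (fun A => A = Z) Z Z') : Family χ X Z' where
  good := h.good
  galois := h.galois
  irreducible := h.irreducible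
  distinct := h.distinct
  small := fun i => Mot.smallVar_mono (fun _ hg => ⟨hg.1, hZ.trivAct hg.2.1, hg.2.2⟩) (h.small i)

/-- **Simultaneous semistable degenerations.** -/
theorem all_sst [IsAlgClosed W.K] [Finite ι] (h : Family χ X Z) :
    AllMotivated χ X Z ↔ BaseMotivated χ Z := by
  refine allMotivated_iff (fun i => ?_) ?_
  · exact one_ne_of (h.vars.gal i) (h.vars.conv i (Set.Subset.refl _))
  · intro Z' hZ' S T hT
    rw [← dominatedTate_iff (Mot.motSystem W)]
    exact dom_sst (Mot.motSystem W) (family_product h hZ') hT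

end Pool.Agent.L5helper71.Cat
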