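import Pool.Agent.R563.RRam.LOff

/-!
# A concentration inequality for sums of independent variables with finitely many values

`∑ i, g i (a i)`, where `a i` is uniformly distributed in the finite set `F i`.
-/

set_option autoImplicit false

namespace Pool.Agent.L5helper71.GL

open Finset

/-- the proportion of the pairs on which `g` differs by at least `h` -/
noncomputable def prop {A : Type} (S : Finset A) (P : A → A → Prop) : ℝ := by
  classical
  exact #((S ×ˢ S).filter (fun p => P p.1 p.2)) / (#S : ℝ) ^ 2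

variable {A : Type} {r : ℕ}

lemma prop_nonneg (S : Finset A) (P : A → A → Prop) : 0 ≤ prop S P := by
  unfold prop
  positivity

lemma prop_mono (S : Finset A) {P P' : A → A → Prop} (h : ∀ x ∈ S, ∀ y ∈ S, P x y → P' x y) :
    prop S P ≤ prop S P' := by
  classical
  unfold prop
  refine div_le_div_of_nonneg_right ?_ (by positivity)
  have : #((S ×ˢ S).filter (fun p => P p.1 p.2)) ≤ #((S ×ˢ S).filter (fun p => P' p.1 p.2)) := by
    refine card_le_card fun p hp => ?_
    rw [mem_filter, mem_product] at hp ⊢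
    exact ⟨hp.1, h _ hp.1.1 _ hp.1.2 hp.2⟩
  exact_mod_cast this

/-- choose one of two tuples at each place -/
def ch (p : Fin r → A × A) (τ : Fin r → Bool) : Fin r → A := fun i => if τ i then (p i).1 else (p i).2

open Classical in
lemma double_count (F : Fin r → Finset A) (E : Finset (Fin r → A)) (hE : E ⊆ Fintype.piFinset F)
    (τ : Fin r → Bool) :
    #E * ∏ i, #(F i) ≤ #((Fintype.piFinset (fun i => F i ×ˢ F i)).filter (fun p => ch p τ ∈ E)) := by
  have h1 : #E * ∏ i, #(F i) = #(E ×ˢ Fintype.piFinset F) := by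
    rw [card_product, Fintype.card_piFinset]
  rw [h1]
  refine card_le_card_of_injOn (fun q : (Fin r → A) × (Fin r → A) =>
    fun i => if τ i then (q.1 i, q.2 i) else (q.2 i, q.1 i)) ?_ ?_
  · rintro ⟨a, b⟩ hab
    rw [mem_coe, mem_product] at hab
    have ha := Fintype.mem_piFinset.1 (hE hab.1)
    have hb := Fintype.mem_piFinset.1 hab.2
    rw [mem_coe, mem_filter]
    constructor
    · rw [Fintype.mem_piFinset]
      intro i
      by_cases hi : τ i = true
      · simp only [hi, if_true, mem_product]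
        exact ⟨ha i, hb i⟩
      · simp only [hi, mem_product]
        exact ⟨hb i, ha i⟩
    · have : ch (fun i => if τ i = true then (a i, b i) else (b i, a i)) τ = a := by
        funext i
        unfold ch
        by_cases hi : τ i = true <;> simp [hi]
      show ch (fun i => if τ i = true then (a i, b i) else (b i, a i)) τ ∈ E
      rw [this]
      exact hab.1
  · rintro ⟨a, b⟩ _ ⟨a', b'⟩ _ h
    have h2 : ∀ i, a i = a' i ∧ b i = b' i := by
      intro i
      have h3 := congrFun h i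
      by_cases hi : τ i = true
      · simp only [hi, if_true, Prod.mk.injEq] at h3
        exact h3
      · simp only [hi, Bool.false_eq_true, if_false, Prod.mk.injEq] at h3
        exact ⟨h3.2, h3.1⟩
    exact Prod.ext (funext fun i => (h2 i).1) (funext fun i => (h2 i).2)

open Classical in
lemma exp_sum (F : Fin r → Finset A) (P : Fin r → A → A → Prop) :
    ∑ p ∈ Fintype.piFinset (fun i => F i ×ˢ F i), (1 / 2 : ℝ) ^ #(univ.filter (fun i => P i (p i).1 (p i).2)) ≤
      (∏ i, (#(F i) : ℝ)) ^ 2 * Real.exp (-(∑ i, prop (F i) (P i)) / 2) := by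
  have h1 : ∀ p : Fin r → A × A, (1 / 2 : ℝ) ^ #(univ.filter (fun i => P i (p i).1 (p i).2)) =
      ∏ i, (if P i (p i).1 (p i).2 then (1 / 2 : ℝ) else 1) := by
    intro p
    rw [prod_ite, prod_const, prod_const_one, mul_one]
  simp only [h1]
  rw [← prod_univ_sum (fun i => F i ×ˢ F i) (fun i q => if P i q.1 q.2 then (1 / 2 : ℝ) else 1)]
  have h2 : ∀ i, ∑ q ∈ F i ×ˢ F i, (if P i q.1 q.2 then (1 / 2 : ℝ) else 1) ≤
      (#(F i) : ℝ) ^ 2 * Real.exp (-(prop (F i) (P i)) / 2) := by
    intro i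
    rcases (F i).eq_empty_or_nonempty with h0 | h0
    · rw [h0]
      simp
    have hn : (0 : ℝ) < #(F i) := by exact_mod_cast h0.card_pos
    have e : ∑ q ∈ F i ×ˢ F i, (if P i q.1 q.2 then (1 / 2 : ℝ) else 1) =
        (#(F i) : ℝ) ^ 2 * (1 - prop (F i) (P i) / 2) := by
      have e1 : ∀ q : A × A, (if P i q.1 q.2 then (1 / 2 : ℝ) else 1) = 1 - (if P i q.1 q.2 then (1 / 2 : ℝ) else 0) := by
        intro q
        split_ifs <;> norm_num
      simp only [e1]
      rw [sum_sub_distrib, sum_const, card_product, ← sum_filter, sum_const]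
      unfold prop
      field_simp
      simp only [nsmul_eq_mul, Nat.cast_mul]
      ring
    rw [e]
    refine mul_le_mul_of_nonneg_left ?_ (by positivity)
    have := Real.add_one_le_exp (-(prop (F i) (P i)) / 2)
    linarith
  refine (prod_le_prod (fun i _ => sum_nonneg fun q _ => by split_ifs <;> norm_num) fun i _ => h2 i).trans ?_
  rw [prod_mul_distrib, prod_pow, ← Real.exp_sum, ← sum_div, sum_neg_distrib]

lemma w_bound {Q : ℝ} (hQ : 0 < Q) (b : ℕ) :
    (if b = 0 then 1 else 1 / √(b : ℝ)) ≤ 2 / √Q + (2 : ℝ) ^ (Q / 4) * (1 / 2 : ℝ) ^ b := by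
  have hsQ : 0 < √Q := Real.sqrt_pos.2 hQ
  by_cases hb : Q / 4 ≤ b
  · have hb0 : (0 : ℝ) < b := by linarith
    have hb1 : b ≠ 0 := by
      intro h
      rw [h] at hb0
      simp at hb0
    rw [if_neg hb1]
    have h1 : √Q / 2 ≤ √(b : ℝ) := by
      apply Real.le_sqrt_of_sq_le
      rw [div_pow, Real.sq_sqrt hQ.le]
      linarith
    have h2 : 1 / √(b : ℝ) ≤ 2 / √Q := by
      rw [div_le_div_iff₀ (Real.sqrt_pos.2 hb0) hsQ]
      linarith
    have h3 : (0 : ℝ) ≤ (2 : ℝ) ^ (Q / 4) * (1 / 2 : ℝ) ^ b := by positivity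
    linarith
  · rw [not_le] at hb
    have h1 : (if b = 0 then (1 : ℝ) else 1 / √(b : ℝ)) ≤ 1 := by
      split_ifs with h
      · exact le_rfl
      · rw [div_le_one (Real.sqrt_pos.2 (by exact_mod_cast Nat.pos_of_ne_zero h))]
        rw [Real.one_le_sqrt]
        exact_mod_cast Nat.one_le_iff_ne_zero.2 h
    have h2 : (1 : ℝ) ≤ (2 : ℝ) ^ (Q / 4) * (1 / 2 : ℝ) ^ b := by
      have e : (2 : ℝ) ^ (Q / 4) * (1 / 2 : ℝ) ^ b = (2 : ℝ) ^ (Q / 4 - b) := by
        rw [Real.rpow_sub (by norm_num), Real.rpow_natCast, one_div, inv_pow]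
        ring
      rw [e]
      exact Real.one_le_rpow (by norm_num) (by linarith)
    have h3 : 0 ≤ 2 / √Q := by positivity
    linarith

lemma exp_bound {Q : ℝ} (hQ : 0 < Q) : (2 : ℝ) ^ (Q / 4) * Real.exp (-Q / 2) ≤ 1 / √Q := by
  have hsQ : 0 < √Q := Real.sqrt_pos.2 hQ
  have h1 : (2 : ℝ) ^ (Q / 4) * Real.exp (-Q / 2) ≤ Real.exp (-(8 / 25 * Q)) := by
    rw [Real.rpow_def_of_pos (by norm_num), ← Real.exp_add]
    apply Real.exp_le_exp.2
    have := Real.log_two_lt_d9
    nlinarith
  refine h1.trans ?_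
  rw [Real.exp_neg, ← one_div]
  refine one_div_le_one_div_of_le hsQ ?_
  have h2 := Real.add_one_le_exp (8 / 25 * Q)
  refine le_trans ?_ h2
  rw [Real.sqrt_le_left (by positivity)]
  nlinarith [sq_nonneg (8 / 25 * Q - 1)]

open Classical in
/-- **The concentration inequality** -/
theorem conc (F : Fin r → Finset A) (g : Fin r → A → ℝ) {h Q R : ℝ} (hh : 0 < h) (hQ : 0 < Q) (hR : 0 ≤ R)
    (hQF : Q ≤ ∑ i, prop (F i) (fun x y => h ≤ |g i x - g i y|)) (c : ℝ) :
    (#((Fintype.piFinset F).filter (fun a => |∑ i, g i (a i) - c| ≤ R)) : ℝ) * √Q ≤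
      3 * (2 * R / h + 1) * ∏ i, (#(F i) : ℝ) := by
  obtain ⟨E, hEd⟩ : ∃ E : Finset (Fin r → A), E = (Fintype.piFinset F).filter (fun a => |∑ i, g i (a i) - c| ≤ R) :=
    ⟨_, rfl⟩
  rw [← hEd]
  have hsQ : 0 < √Q := Real.sqrt_pos.2 hQ
  obtain ⟨N, hN⟩ : ∃ N : ℝ, N = ∏ i, (#(F i) : ℝ) := ⟨_, rfl⟩
  have hN0 : 0 ≤ N := by
    rw [hN]
    exact prod_nonneg fun i _ => Nat.cast_nonneg _
  rw [← hN]
  obtain ⟨T2, hT2⟩ : ∃ T2 : Finset (Fin r → A × A), T2 = Fintype.piFinset (fun i => F i ×ˢ F i) := ⟨_, rfl⟩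
  obtain ⟨b, hb⟩ : ∃ b : (Fin r → A × A) → ℕ, b = fun p => #(univ.filter (fun i => h ≤ |g i (p i).1 - g i (p i).2|)) :=
    ⟨_, rfl⟩
  have hK : 0 ≤ 2 * R / h + 1 := by positivity
  -- one pair of tuples
  have hone : ∀ p : Fin r → A × A, (#(univ.filter (fun τ : Fin r → Bool => ch p τ ∈ E)) : ℝ) ≤
      (2 * R / h + 1) * 2 ^ r * (if b p = 0 then 1 else 1 / √(b p : ℝ)) := by
    intro p
    by_cases hb0 : b p = 0
    · rw [if_pos hb0, mul_one]
      have h1 : #(univ.filter (fun τ : Fin r → Bool => ch p τ ∈ E)) ≤ 2 ^ r := by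
        refine (card_le_univ _).trans ?_
        rw [Fintype.card_fun, Fintype.card_bool, Fintype.card_fin]
      have h2 : (#(univ.filter (fun τ : Fin r → Bool => ch p τ ∈ E)) : ℝ) ≤ 2 ^ r := by exact_mod_cast h1
      refine h2.trans (le_mul_of_one_le_left (by positivity) ?_)
      have : 0 ≤ 2 * R / h := by positivity
      linarith
    · rw [if_neg hb0]
      have h1 := Pool.Agent.R563.RRam.LOff.lo (Fin r) (fun i => (g i (p i).1 - g i (p i).2) / 2) (h / 2) (b p) (by positivity)
        (Nat.pos_of_ne_zero hb0) (by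
          rw [hb]
          refine card_le_card fun i hi => ?_
          rw [mem_filter] at hi ⊢
          refine ⟨hi.1, ?_⟩
          rw [abs_div, abs_of_pos (by norm_num : (0 : ℝ) < 2)]
          exact div_le_div_of_nonneg_right hi.2 (by norm_num)) R (c - ∑ i, (g i (p i).1 + g i (p i).2) / 2) hR
      have h2 : #(univ.filter (fun τ : Fin r → Bool => ch p τ ∈ E)) ≤
          #(univ.filter (fun τ : Fin r → Bool => |∑ v, (if τ v then (g v (p v).1 - g v (p v).2) / 2 else
            -((g v (p v).1 - g v (p v).2) / 2)) - (c - ∑ i, (g i (p i).1 + g i (p i).2) / 2)| ≤ R)) := by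
        refine card_le_card fun τ hτ => ?_
        rw [mem_filter] at hτ ⊢
        refine ⟨hτ.1, ?_⟩
        have h3 := hτ.2
        rw [hEd, mem_filter] at h3
        have e : ∑ v, (if τ v then (g v (p v).1 - g v (p v).2) / 2 else -((g v (p v).1 - g v (p v).2) / 2)) -
            (c - ∑ i, (g i (p i).1 + g i (p i).2) / 2) = ∑ i, g i (ch p τ i) - c := by
          have e1 : ∑ i, g i (ch p τ i) = ∑ v, (if τ v then (g v (p v).1 - g v (p v).2) / 2 else
              -((g v (p v).1 - g v (p v).2) / 2)) + ∑ i, (g i (p i).1 + g i (p i).2) / 2 := by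
            rw [← sum_add_distrib]
            refine sum_congr rfl fun i _ => ?_
            unfold ch
            by_cases hi : τ i = true
            · simp only [hi, if_true]
              ring
            · simp only [hi]
              simp only [Bool.false_eq_true, if_false]
              ring
          rw [e1]
          ring
        rw [e]
        exact h3.2
      rw [Fintype.card_fin] at h1
      have h3 : (#(univ.filter (fun τ : Fin r → Bool => ch p τ ∈ E)) : ℝ) ≤ 1 * (R / (h / 2) + 1) / √(b p : ℝ) * 2 ^ r :=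
        le_trans (by exact_mod_cast h2) h1
      refine h3.trans (le_of_eq ?_)
      have e : R / (h / 2) = 2 * R / h := by
        field_simp
      rw [e]
      ring
  -- double counting
  have h1 : (2 : ℝ) ^ r * (#E * N) ≤ ∑ p ∈ T2, (#(univ.filter (fun τ : Fin r → Bool => ch p τ ∈ E)) : ℝ) := by
    have h2 : ∀ τ : Fin r → Bool, (#E : ℝ) * N ≤ #(T2.filter (fun p => ch p τ ∈ E)) := by
      intro τ
      have := double_count F E (by rw [hEd]; exact filter_subset _ _) τ
      rw [← hT2] at this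
      rw [hN]
      exact_mod_cast this
    have h3 : ∑ τ : Fin r → Bool, (#(T2.filter (fun p => ch p τ ∈ E)) : ℝ) =
        ∑ p ∈ T2, (#(univ.filter (fun τ : Fin r → Bool => ch p τ ∈ E)) : ℝ) := by
      simp only [card_filter]
      push_cast
      exact sum_comm
    rw [← h3]
    calc (2 : ℝ) ^ r * (#E * N) = ∑ _τ : Fin r → Bool, (#E : ℝ) * N := by
          rw [sum_const, card_univ, Fintype.card_fun, Fintype.card_bool, Fintype.card_fin, nsmul_eq_mul]
          push_cast
          ring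
      _ ≤ _ := sum_le_sum fun τ _ => h2 τ
  have h2 : ∑ p ∈ T2, (#(univ.filter (fun τ : Fin r → Bool => ch p τ ∈ E)) : ℝ) ≤
      (2 * R / h + 1) * 2 ^ r * (3 / √Q * N ^ 2) := by
    refine (sum_le_sum fun p _ => hone p).trans ?_
    rw [← mul_sum]
    refine mul_le_mul_of_nonneg_left ?_ (by positivity)
    refine (sum_le_sum fun p _ => w_bound hQ (b p)).trans ?_
    rw [sum_add_distrib, sum_const, ← mul_sum]
    have h3 : ∑ p ∈ T2, (1 / 2 : ℝ) ^ b p ≤ N ^ 2 * Real.exp (-Q / 2) := by
      have h4 := exp_sum F (fun i x y => h ≤ |g i x - g i y|)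
      rw [← hN, ← hT2] at h4
      rw [hb]
      refine h4.trans (mul_le_mul_of_nonneg_left (Real.exp_le_exp.2 ?_) (by positivity))
      linarith
    have h5 : (#T2 : ℝ) = N ^ 2 := by
      rw [hT2, Fintype.card_piFinset, hN, ← prod_pow]
      push_cast
      refine prod_congr rfl fun i _ => ?_
      rw [card_product]
      push_cast
      ring
    rw [nsmul_eq_mul, h5]
    have h6 := exp_bound hQ
    have h7 : (2 : ℝ) ^ (Q / 4) * ∑ p ∈ T2, (1 / 2 : ℝ) ^ b p ≤ N ^ 2 * (1 / √Q) := by
      calc (2 : ℝ) ^ (Q / 4) * ∑ p ∈ T2, (1 / 2 : ℝ) ^ b p ≤ (2 : ℝ) ^ (Q / 4) * (N ^ 2 * Real.exp (-Q / 2)) :=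
            mul_le_mul_of_nonneg_left h3 (by positivity)
        _ = N ^ 2 * ((2 : ℝ) ^ (Q / 4) * Real.exp (-Q / 2)) := by ring
        _ ≤ _ := mul_le_mul_of_nonneg_left h6 (by positivity)
    have h8 : N ^ 2 * (2 / √Q) + N ^ 2 * (1 / √Q) = 3 / √Q * N ^ 2 := by ring
    linarith
  rcases hN0.eq_or_lt with hN1 | hN1
  · -- the empty product
    have hE0 : #E = 0 := by
      rw [card_eq_zero, hEd, filter_eq_empty_iff]
      intro a ha
      exfalso
      rw [hN, eq_comm, prod_eq_zero_iff] at hN1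
      obtain ⟨i, -, hi⟩ := hN1
      have : F i = ∅ := card_eq_zero.1 (by exact_mod_cast hi)
      have h9 := Fintype.mem_piFinset.1 ha i
      rw [this] at h9
      exact notMem_empty _ h9
    rw [hE0, ← hN1]
    simp
  · have h3 := h1.trans h2
    have h4 : (2 : ℝ) ^ r * N * (#E * √Q) ≤ (2 : ℝ) ^ r * N * (3 * (2 * R / h + 1) * N) := by
      have h5 := mul_le_mul_of_nonneg_right h3 hsQ.le
      have e : (2 * R / h + 1) * 2 ^ r * (3 / √Q * N ^ 2) * √Q = (2 : ℝ) ^ r * N * (3 * (2 * R / h + 1) * N) := by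
        field_simp
      rw [e] at h5
      linarith
    exact le_of_mul_le_mul_left h4 (by positivity)

end Pool.Agent.L5helper71.GL
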