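import Pool.Agent.L5helper71.GaConc

/-!
# Products of gamma values at rational numbers of the unit interval: sizes and relations
-/

set_option autoImplicit false

namespace Pool.Agent.L5helper71.GL

open Finset

/-- `log Γ` decreases with slope at least `1/5` on `(0, 1]` -/
lemma gamma_slope {x y : ℝ} (hx : 0 < x) (hxy : x ≤ y) (hy : y ≤ 1) :
    (y - x) / 5 ≤ Real.log (Real.Gamma x) - Real.log (Real.Gamma y) := by
  rcases hxy.eq_or_lt with h | h
  · rw [h]
    simp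
  have hc := Real.convexOn_log_Gamma
  have hy0 : 0 < y := hx.trans h
  have h1 := hc.slope_mono_adjacent (x := x) (y := y) (z := 3 / 2) hx (by norm_num [Set.mem_Ioi]) h (by linarith)
  have h2 := hc.secant_mono (a := 3 / 2) (x := y) (y := 1) (by norm_num [Set.mem_Ioi]) hy0 (by norm_num [Set.mem_Ioi])
    (by linarith) (by norm_num) hy
  simp only [Function.comp] at h1 h2
  have h32 : Real.Gamma (3 / 2) = √Real.pi / 2 := by
    have := Real.Gamma_add_one (s := 1 / 2) (by norm_num)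
    rw [Real.Gamma_one_half_eq] at this
    rw [show (3 / 2 : ℝ) = 1 / 2 + 1 by norm_num, this]
    ring
  have hlog : Real.log (Real.Gamma (3 / 2)) ≤ -(1 / 10) := by
    rw [h32]
    have hp : √Real.pi ≤ 9 / 5 := by
      rw [Real.sqrt_le_left (by norm_num)]
      have := Real.pi_lt_d2
      norm_num at this ⊢
      linarith
    have hp0 : 0 < √Real.pi := Real.sqrt_pos.2 Real.pi_pos
    have h3 := Real.log_le_sub_one_of_pos (x := √Real.pi / 2) (by positivity)
    linarith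
  rw [Real.Gamma_one, Real.log_one] at h2
  have h3 : (Real.log (Real.Gamma y) - Real.log (Real.Gamma x)) / (y - x) ≤ -(1 / 5) := by
    have e : (Real.log (Real.Gamma y) - Real.log (Real.Gamma (3 / 2))) / (y - 3 / 2) =
        (Real.log (Real.Gamma (3 / 2)) - Real.log (Real.Gamma y)) / (3 / 2 - y) := by
      rw [← neg_sub (3 / 2 : ℝ) y, ← neg_sub (Real.log (Real.Gamma (3 / 2))) (Real.log (Real.Gamma y)), neg_div_neg_eq]
    rw [e] at h2
    have h4 := h1.trans h2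
    refine h4.trans ?_
    rw [div_le_iff_of_neg (by norm_num)]
    linarith
  rw [div_le_iff₀ (by linarith)] at h3
  linarith

lemma gamma_diff {x y : ℝ} (hx : 0 < x) (hy : 0 < y) (hx1 : x ≤ 1) (hy1 : y ≤ 1) :
    |x - y| / 5 ≤ |Real.log (Real.Gamma x) - Real.log (Real.Gamma y)| := by
  rcases le_total x y with h | h
  · have h1 := gamma_slope hx h hy1
    rw [abs_sub_comm, abs_of_nonneg (by linarith : 0 ≤ y - x)]
    exact h1.trans (le_abs_self _)
  · have h1 := gamma_slope hy h hx1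
    rw [abs_of_nonneg (by linarith : 0 ≤ x - y), abs_sub_comm]
    exact h1.trans (le_abs_self _)

/-- algebraic numbers of height at most `H` -/
def AlgH (H : ℕ) (α : ℂ) : Prop :=
  ∃ P : Polynomial ℤ, P ≠ 0 ∧ (∀ i, |P.coeff i| ≤ H) ∧ Polynomial.aeval α P = 0

lemma algH_le {H : ℕ} {α : ℂ} (h : AlgH H α) : ‖α‖ ≤ H + 1 := by
  obtain ⟨P, hP, hc, hr⟩ := h
  obtain ⟨p, hp⟩ : ∃ p : Polynomial ℂ, p = P.map (Int.castRingHom ℂ) := ⟨_, rfl⟩
  have hinj : Function.Injective (Int.castRingHom ℂ) := Int.cast_injective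
  have hp0 : p ≠ 0 := by
    rw [hp]
    exact (Polynomial.map_ne_zero_iff hinj).2 hP
  have hroot : p.IsRoot α := by
    rw [hp, Polynomial.IsRoot.def, Polynomial.eval_map]
    simpa [Polynomial.aeval_def] using hr
  have h1 := hroot.norm_lt_cauchyBound hp0
  have h2 : (p.cauchyBound : ℝ) ≤ H + 1 := by
    have h3 : p.cauchyBound ≤ (H : NNReal) + 1 := by
      unfold Polynomial.cauchyBound
      refine add_le_add ?_ le_rfl
      have hl : (1 : NNReal) ≤ ‖p.leadingCoeff‖₊ := by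
        rw [hp, Polynomial.leadingCoeff_map_of_injective hinj]
        have h4 : (1 : ℝ) ≤ ‖(Int.castRingHom ℂ) P.leadingCoeff‖ := by
          rw [eq_intCast, Complex.norm_intCast]
          have h5 : P.leadingCoeff ≠ 0 := Polynomial.leadingCoeff_ne_zero.2 hP
          exact_mod_cast Int.one_le_abs h5
        exact_mod_cast h4
      refine (div_le_self (by positivity) hl).trans (Finset.sup_le fun i _ => ?_)
      have h4 : ‖p.coeff i‖ ≤ (H : ℝ) := by
        rw [hp, Polynomial.coeff_map, eq_intCast, Complex.norm_intCast]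
        exact_mod_cast hc i
      exact_mod_cast h4
    exact_mod_cast h3
  have h3 : ‖α‖ < (p.cauchyBound : ℝ) := by exact_mod_cast h1
  linarith

lemma algH_inv {H : ℕ} {α : ℂ} (h : AlgH H α) (hα : α ≠ 0) : AlgH H α⁻¹ := by
  obtain ⟨P, hP, hc, hr⟩ := h
  refine ⟨P.reverse, ?_, fun i => ?_, ?_⟩
  · rwa [Ne, Polynomial.reverse_eq_zero]
  · rw [Polynomial.coeff_reverse]
    exact hc _
  · have : Invertible α := invertibleOfNonzero hα
    have h1 := Polynomial.eval₂_reverse_eq_zero_iff (Int.castRingHom ℂ) α P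
    rw [invOf_eq_inv] at h1
    rw [Polynomial.aeval_def]
    exact h1.2 (by simpa [Polynomial.aeval_def] using hr)

lemma algH_ge {H : ℕ} {α : ℂ} (h : AlgH H α) (hα : α ≠ 0) : 1 / ((H : ℝ) + 1) ≤ ‖α‖ := by
  have h1 := algH_le (algH_inv h hα)
  rw [norm_inv] at h1
  have h2 : 0 < ‖α‖ := norm_pos_iff.2 hα
  rw [div_le_iff₀ (by positivity)]
  rw [inv_le_iff_one_le_mul₀ h2] at h1
  linarith

/-- well separated positive numbers -/
lemma sep_sum {ι : Type} {T : ι → ℝ} {ρ : ℝ} (hρ : 1 < ρ) (s : Finset ι) (hT : ∀ m ∈ s, 0 < T m)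
    (hsep : ∀ m ∈ s, ∀ m' ∈ s, m ≠ m' → T m ≤ T m' → ρ * T m ≤ T m') :
    ∀ B : ℝ, 0 ≤ B → (∀ m ∈ s, T m ≤ B) → ∑ m ∈ s, T m ≤ B * ρ / (ρ - 1) := by
  classical
  have hρ0 : 0 < ρ - 1 := by linarith
  induction s using Finset.induction_on_max_value T with
  | empty =>
    intro B hB _
    rw [sum_empty]
    positivity
  | insert a s ha hmax ih =>
    intro B hB hBs
    rw [sum_insert ha]
    have hTa : 0 < T a := hT a (mem_insert_self _ _)
    have h1 := ih (fun m hm => hT m (mem_insert_of_mem hm))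
      (fun m hm m' hm' => hsep m (mem_insert_of_mem hm) m' (mem_insert_of_mem hm')) (T a / ρ) (by positivity)
      (fun m hm => by
        rw [le_div_iff₀ (by linarith), mul_comm]
        exact hsep m (mem_insert_of_mem hm) a (mem_insert_self _ _) (fun h => ha (h ▸ hm)) (hmax m hm))
    have h2 : T a / ρ * ρ / (ρ - 1) = T a / (ρ - 1) := by
      field_simp
    rw [h2] at h1
    have h3 : T a + T a / (ρ - 1) = T a * ρ / (ρ - 1) := by
      field_simp
      ring
    have h4 : T a * ρ / (ρ - 1) ≤ B * ρ / (ρ - 1) := by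
      refine div_le_div_of_nonneg_right ?_ hρ0.le
      exact mul_le_mul_of_nonneg_right (hBs a (mem_insert_self _ _)) (by linarith)
    linarith

/-- the largest term dominates -/
lemma dominate {ι : Type} {T : ι → ℝ} {K : ℝ} (hK : 1 ≤ K) (s : Finset ι) (hT : ∀ m ∈ s, 0 < T m)
    (hsep : ∀ m ∈ s, ∀ m' ∈ s, m ≠ m' → T m ≤ T m' → (1 + 2 * K ^ 2) * T m ≤ T m') (c : ι → ℂ)
    (hc : ∀ m ∈ s, c m ≠ 0 → 1 / K ≤ ‖c m‖ ∧ ‖c m‖ ≤ K) {m : ι} (hm : m ∈ s) :
    ‖c m‖ * T m / 2 ≤ ‖∑ m' ∈ s, c m' * (T m' : ℂ)‖ := by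
  classical
  obtain ⟨s', hs'⟩ : ∃ s' : Finset ι, s' = s.filter (fun m => c m ≠ 0) := ⟨_, rfl⟩
  by_cases hcm : c m = 0
  · rw [hcm]
    simp
  have hms : m ∈ s' := by
    rw [hs', mem_filter]
    exact ⟨hm, hcm⟩
  have hsum : ∑ m' ∈ s, c m' * (T m' : ℂ) = ∑ m' ∈ s', c m' * (T m' : ℂ) := by
    rw [hs', sum_filter_of_ne]
    intro x _ hx h0
    rw [h0, zero_mul] at hx
    exact hx rfl
  rw [hsum]
  obtain ⟨M, hM, hmax⟩ := exists_max_image s' T ⟨m, hms⟩
  have hsub : ∀ x ∈ s', x ∈ s ∧ c x ≠ 0 := by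
    intro x hx
    rw [hs', mem_filter] at hx
    exact hx
  have hTM : 0 < T M := hT M (hsub M hM).1
  have hcM := hc M (hsub M hM).1 (hsub M hM).2
  have hK0 : 0 < K := by linarith
  -- the other terms
  have hρ : (1 : ℝ) < 1 + 2 * K ^ 2 := by nlinarith
  have h1 : ∑ x ∈ s'.erase M, T x ≤ T M / (2 * K ^ 2) := by
    have h2 := sep_sum hρ (s'.erase M) (fun x hx => hT x (hsub x (mem_of_mem_erase hx)).1)
      (fun x hx y hy => hsep x (hsub x (mem_of_mem_erase hx)).1 y (hsub y (mem_of_mem_erase hy)).1)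
      (T M / (1 + 2 * K ^ 2)) (by positivity) (fun x hx => by
        rw [le_div_iff₀ (by positivity), mul_comm]
        exact hsep x (hsub x (mem_of_mem_erase hx)).1 M (hsub M hM).1 (ne_of_mem_erase hx)
          (hmax x (mem_of_mem_erase hx)))
    refine h2.trans (le_of_eq ?_)
    have hne : (1 + 2 * K ^ 2 : ℝ) ≠ 0 := by positivity
    rw [div_mul_cancel₀ _ hne]
    congr 1
    ring
  have h2 : ‖∑ x ∈ s'.erase M, c x * (T x : ℂ)‖ ≤ T M / (2 * K) := by
    calc ‖∑ x ∈ s'.erase M, c x * (T x : ℂ)‖ ≤ ∑ x ∈ s'.erase M, ‖c x * (T x : ℂ)‖ := norm_sum_le _ _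
      _ ≤ ∑ x ∈ s'.erase M, K * T x := by
          refine sum_le_sum fun x hx => ?_
          have hx' := hsub x (mem_of_mem_erase hx)
          rw [norm_mul, Complex.norm_real, Real.norm_of_nonneg (hT x hx'.1).le]
          exact mul_le_mul_of_nonneg_right (hc x hx'.1 hx'.2).2 (hT x hx'.1).le
      _ = K * ∑ x ∈ s'.erase M, T x := by rw [mul_sum]
      _ ≤ K * (T M / (2 * K ^ 2)) := mul_le_mul_of_nonneg_left h1 hK0.le
      _ = T M / (2 * K) := by field_simp
  have h3 : ‖c M‖ * T M ≤ ‖∑ x ∈ s', c x * (T x : ℂ)‖ + T M / (2 * K) := by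
    have h4 : c M * (T M : ℂ) = ∑ x ∈ s', c x * (T x : ℂ) - ∑ x ∈ s'.erase M, c x * (T x : ℂ) := by
      rw [← add_sum_erase _ _ hM]
      ring
    calc ‖c M‖ * T M = ‖c M * (T M : ℂ)‖ := by
          rw [norm_mul, Complex.norm_real, Real.norm_of_nonneg hTM.le]
      _ = ‖∑ x ∈ s', c x * (T x : ℂ) - ∑ x ∈ s'.erase M, c x * (T x : ℂ)‖ := by rw [h4]
      _ ≤ ‖∑ x ∈ s', c x * (T x : ℂ)‖ + ‖∑ x ∈ s'.erase M, c x * (T x : ℂ)‖ := norm_sub_le _ _
      _ ≤ _ := by linarith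
  have h4 : T M / (2 * K) ≤ ‖c M‖ * T M / 2 := by
    have h5 := mul_le_mul_of_nonneg_right hcM.1 hTM.le
    have e : T M / (2 * K) = 1 / K * T M / 2 := by field_simp
    rw [e]
    linarith
  have h5 : ‖c M‖ * T M / 2 ≤ ‖∑ x ∈ s', c x * (T x : ℂ)‖ := by linarith
  by_cases hmM : m = M
  · rw [hmM]
    exact h5
  · have hcm2 := hc m hm hcm
    have h6 := hsep m hm M (hsub M hM).1 hmM (hmax m hms)
    have h7 : ‖c m‖ * T m ≤ ‖c M‖ * T M := by
      have hTm := hT m hm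
      calc ‖c m‖ * T m ≤ K * T m := mul_le_mul_of_nonneg_right hcm2.2 hTm.le
        _ ≤ 1 / K * ((1 + 2 * K ^ 2) * T m) := by
            have e : 1 / K * ((1 + 2 * K ^ 2) * T m) = T m / K + 2 * (K * T m) := by
              field_simp
            rw [e]
            have : 0 ≤ T m / K := by positivity
            have : 0 ≤ K * T m := by positivity
            linarith
        _ ≤ 1 / K * T M := mul_le_mul_of_nonneg_left h6 (by positivity)
        _ ≤ _ := mul_le_mul_of_nonneg_right hcM.1 hTM.le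
    linarith

variable {r : ℕ}

lemma gpos {x : ℚ} (h : 0 < x ∧ x < 1) : 0 < Real.Gamma (x : ℝ) :=
  Real.Gamma_pos_of_pos (by exact_mod_cast h.1)

/-- the logarithm of the product -/
lemma log_prod {F : Fin r → Finset ℚ} (hF : ∀ i, ∀ x ∈ F i, 0 < x ∧ x < 1) {a : Fin r → ℚ}
    (ha : a ∈ Fintype.piFinset F) (e : Fin r → ℤ) :
    0 < ∏ i, Real.Gamma (a i : ℝ) ^ e i ∧
    Real.log (∏ i, Real.Gamma (a i : ℝ) ^ e i) = ∑ i, (e i : ℝ) * Real.log (Real.Gamma (a i : ℝ)) := by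
  have h1 : ∀ i, 0 < Real.Gamma (a i : ℝ) := fun i => gpos (hF i _ (Fintype.mem_piFinset.1 ha i))
  refine ⟨prod_pos fun i _ => zpow_pos (h1 i) _, ?_⟩
  rw [Real.log_prod (fun i _ => (zpow_pos (h1 i) _).ne')]
  refine sum_congr rfl fun i _ => ?_
  rw [Real.log_zpow]

/-- the proportion of the distant pairs -/
noncomputable def fr (S : Finset ℚ) (η : ℝ) : ℝ := prop S (fun x y => η ≤ |(x : ℝ) - y|)

lemma fr_sum {F : Fin r → Finset ℚ} (hF : ∀ i, ∀ x ∈ F i, 0 < x ∧ x < 1) {η : ℝ} (e : Fin r → ℤ) :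
    ∑ i ∈ univ.filter (fun i => e i ≠ 0), fr (F i) η ≤
      ∑ i, prop (F i) (fun x y => η / 5 ≤ |(e i : ℝ) * Real.log (Real.Gamma (x : ℝ)) - (e i : ℝ) * Real.log (Real.Gamma (y : ℝ))|) := by
  rw [← sum_filter_add_sum_filter_not univ (fun i => e i ≠ 0)
    (fun i => prop (F i) (fun x y => η / 5 ≤ |(e i : ℝ) * Real.log (Real.Gamma (x : ℝ)) - (e i : ℝ) * Real.log (Real.Gamma (y : ℝ))|))]
  have h1 : 0 ≤ ∑ i ∈ univ.filter (fun i => ¬ e i ≠ 0), prop (F i) (fun x y => η / 5 ≤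
      |(e i : ℝ) * Real.log (Real.Gamma (x : ℝ)) - (e i : ℝ) * Real.log (Real.Gamma (y : ℝ))|) :=
    sum_nonneg fun i _ => prop_nonneg _ _
  have h2 : ∑ i ∈ univ.filter (fun i => e i ≠ 0), fr (F i) η ≤
      ∑ i ∈ univ.filter (fun i => e i ≠ 0), prop (F i) (fun x y => η / 5 ≤
        |(e i : ℝ) * Real.log (Real.Gamma (x : ℝ)) - (e i : ℝ) * Real.log (Real.Gamma (y : ℝ))|) := by
    refine sum_le_sum fun i hi => prop_mono _ fun x hx y hy hxy => ?_
    rw [mem_filter] at hi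
    have hx' := hF i x hx
    have hy' := hF i y hy
    have h3 := gamma_diff (x := (x : ℝ)) (y := (y : ℝ)) (by exact_mod_cast hx'.1) (by exact_mod_cast hy'.1)
      (by exact_mod_cast hx'.2.le) (by exact_mod_cast hy'.2.le)
    rw [← mul_sub, abs_mul]
    have h4 : (1 : ℝ) ≤ |(e i : ℝ)| := by exact_mod_cast Int.one_le_abs hi.2
    have h5 : |Real.log (Real.Gamma (x : ℝ)) - Real.log (Real.Gamma (y : ℝ))| ≤
        |(e i : ℝ)| * |Real.log (Real.Gamma (x : ℝ)) - Real.log (Real.Gamma (y : ℝ))| :=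
      le_mul_of_one_le_left (abs_nonneg _) h4
    have h6 : η / 5 ≤ |(x : ℝ) - y| / 5 := div_le_div_of_nonneg_right hxy (by norm_num)
    linarith
  linarith

open Classical in
/-- few products in a window of the logarithmic scale -/
theorem window {F : Fin r → Finset ℚ} (hF : ∀ i, ∀ x ∈ F i, 0 < x ∧ x < 1) {η Q R : ℝ} (hη : 0 < η) (hη1 : η ≤ 1)
    (hQ : 0 < Q) (hR : 0 ≤ R) (e : Fin r → ℤ) (hQF : Q ≤ ∑ i ∈ univ.filter (fun i => e i ≠ 0), fr (F i) η) (c : ℝ) :
    (#((Fintype.piFinset F).filter (fun a => |Real.log (∏ i, Real.Gamma (a i : ℝ) ^ e i) - c| ≤ R)) : ℝ) * √Q ≤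
      30 * (1 + R) / η * ∏ i, (#(F i) : ℝ) := by
  have h1 := conc F (fun i x => (e i : ℝ) * Real.log (Real.Gamma (x : ℝ))) (h := η / 5) (by positivity) hQ hR
    (hQF.trans (fr_sum hF e)) c
  have h2 : (Fintype.piFinset F).filter (fun a => |Real.log (∏ i, Real.Gamma (a i : ℝ) ^ e i) - c| ≤ R) =
      (Fintype.piFinset F).filter (fun a => |∑ i, (e i : ℝ) * Real.log (Real.Gamma (a i : ℝ)) - c| ≤ R) := by
    refine filter_congr fun a ha => ?_
    rw [(log_prod hF ha e).2]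
  rw [h2]
  refine h1.trans (mul_le_mul_of_nonneg_right ?_ (prod_nonneg fun i _ => Nat.cast_nonneg _))
  have e1 : 3 * (2 * R / (η / 5) + 1) = (30 * R + 3 * η) / η := by
    field_simp
    ring
  rw [e1]
  refine div_le_div_of_nonneg_right ?_ hη.le
  linarith

end Pool.Agent.L5helper71.GL
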