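import Mathlib
import Pool.Agent.L5helper71.CatDefs
import Pool.Agent.N171.BqPub

/-!
# Varieties whose transcendental cohomology is the Tate module of the Jacobian of `y ^ 2 = f (x)`:
# the family
-/

open CategoryTheory AlgebraicGeometry Polynomial

universe u

namespace Pool.Agent.L5helper71.Cat

open Pool.Agent.TH125.Gal Pool.Agent.H914 Pool.Agent.H914.VarClass
  Pool.Agent.H914.VarClass.Obj Pool.Agent.H914.WeilCohomology Pool.Agent.H281R3.HT
  Pool.Agent.N171.Bq

variable {k : Type u} [Field k] {𝒱 : VarClass k} {ops : CycleOps 𝒱}
  {W : WeilCohomology.{u, 0} ops} [Algebra ℚ_[2] W.K]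
  {K F : Type} [Field K] [Field F] [Algebra K F] {ι : Type}

/-- The variety `A` has odd dimension, homological and numerical equivalence coincide for `A`, the
Galois group acts on its cohomology with the formal properties of a Galois action, and its
transcendental cohomology is not zero and in the middle degree, and it is a Tate twist of the 2-adic
Tate module of the Jacobian of the curve `y ^ 2 = f (x)`. -/
structure JacobianVar (f : K[X]) [Branch f] (A : GVar W (F ≃ₐ[K] F)) : Prop where
  odd : Odd A.X.dim
  homEqNum : HomEqNum W A.X
  galois : IsGaloisAct (twistChar K F W.K) (W.gr A.X) A.X.dim (W.tr A.X) (algClasses W A.X) A.act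
  tate : IsTwistOf (twistChar K F W.K) (IsActionOf (F := F) f) A.act (transcendental W A.X)
    (W.gr A.X A.X.dim)

end Pool.Agent.L5helper71.Cat
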