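import Mathlib
import Pool.Agent.L5helper71.MotMain
import Pool.Agent.N171.Bq1
import Pool.Agent.V11219.ClsStep

/-!
# Tate classes and systems of classes: the step for twists by powers of the character, and towers over
varieties with large Galois groups
-/

open CategoryTheory AlgebraicGeometry Finset Function

set_option linter.unusedSectionVars false

namespace Pool.Agent.L5helper71.Mot

universe u

open Pool.Agent.TH125.Gal Pool.Agent.TH118.SG Pool.Agent.V11219.IsoF Pool.Agent.V11219.Loc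
  Pool.Agent.V11219.Sst Pool.Agent.V11219.Cls Pool.Agent.N171.Ht

open Pool.Agent.H914 Pool.Agent.H914.VarClass Pool.Agent.H914.VarClass.Obj
  Pool.Agent.H914.WeilCohomology Pool.Agent.H281R3.HT Pool.Agent.W552

section

variable {k : Type u} [Field k] {𝒱 : VarClass k} {ops : CycleOps 𝒱}
  {W : WeilCohomology.{u, 0} ops} {P : Polarized 𝒱} {n : ℕ} {Z : 𝒱.Obj}
  {Γ : Type} [Group Γ] {χ : Γ →* W.Kˣ} {ρ : Γ →* (W.H P.X ≃ₐ[W.K] W.H P.X)}
  {τ : Γ →* (W.H Z ≃ₐ[W.K] W.H Z)}
  {υ : Γ →* (W.H ((nest ops n fun _ => P).X.prod Z) ≃ₐ[W.K]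
    W.H ((nest ops n fun _ => P).X.prod Z))}
  {C : Classes W}

/-- The step for systems of classes. -/
theorem step_clsP (hC : ClassSystem W C) (hDX : HomEqNum W P.X)
    (hmid : transcendental W P.X ≤ W.gr P.X P.X.dim)
    (hG : IsGalois W χ P.X ρ) (hP : IsPowAct W P n Z ρ τ υ) (hodd : Odd P.X.dim)
    (hfull : FullP χ hG τ) (hT : TateIn χ C (⟨Z, τ⟩ : GVar W Γ)) :
    TateIn χ C (⟨(nest ops n fun _ => P).X.prod Z, υ⟩ : GVar W Γ) := by
  obtain ⟨s⟩ := exists_SB hDX
  obtain ⟨b, hb⟩ := exists_monoBasis (ops := ops) P s.e n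
  intro j c hcj ⟨Δ, hΔ, hc⟩
  have h1 := mem_TgtP hb hDX hmid hG hP hodd hfull hΔ hc
  obtain ⟨N, m, i, φ, hm, hφ, hexp⟩ := exists_expansion s n Z
  obtain ⟨Δ', hΔ', hfix⟩ := exists_fix hG s
  have h2 := hexp c h1
  -- uniqueness
  have huni : ∀ (x : Fin N → W.H Z) (l : Fin N),
      ctr (φ l) (∑ l', W.map (fst _ Z) (m l') * W.map (snd _ Z) (x l')) = x l := by
    intro x l
    rw [map_sum, Finset.sum_eq_single l]
    · rw [ctr_apply, hφ, if_pos rfl, one_smul]
    · intro l' _ hl
      rw [ctr_apply, hφ, if_neg hl, zero_smul]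
    · intro h
      exact absurd (Finset.mem_univ _) h
  set x : Fin N → W.H Z := fun l => ctr (φ l) c with hx
  -- degrees
  have hdeg : ∀ l, x l = if 2 * i l ≤ 2 * j then
      proj (W.isInternal Z) (2 * j - 2 * i l) (x l) else 0 := by
    intro l
    have h3 : c = ∑ l', W.map (fst _ Z) (m l') * W.map (snd _ Z)
        (if 2 * i l' ≤ 2 * j then proj (W.isInternal Z) (2 * j - 2 * i l') (x l') else 0) := by
      conv_lhs => rw [← proj_same (W.isInternal _) hcj, h2]
      rw [map_sum]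
      refine Finset.sum_congr rfl fun l' _ => ?_
      obtain ⟨S, hS⟩ := hm l'
      rw [proj_ext (hS.gr hmid)]
      by_cases h : 2 * i l' ≤ 2 * j
      · rw [if_pos h, if_pos h]
      · rw [if_neg h, if_neg h, map_zero, mul_zero]
    conv_lhs => rw [hx]
    beta_reduce
    rw [h3]
    exact huni _ l
  -- semi-invariance
  have hact : ∀ g ∈ Δ ⊓ Δ', ∀ l, (χ g : W.K) ^ i l • τ g (x l) = (χ g : W.K) ^ j • x l := by
    intro g hg l
    have h3 : υ g c = ∑ l', W.map (fst _ Z) (m l') * W.map (snd _ Z)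
        ((χ g : W.K) ^ i l' • τ g (x l')) := by
      conv_lhs => rw [h2]
      rw [map_sum]
      refine Finset.sum_congr rfl fun l' _ => ?_
      obtain ⟨S, hS⟩ := hm l'
      rw [map_mul, mq_act hmid hG hP (hfix g hg.2) hS, (hP g).2, map_smul, smul_mul_assoc,
        mul_smul_comm]
    have h4 := huni (fun l' => (χ g : W.K) ^ i l' • τ g (x l')) l
    rw [← h3, hc g hg.1, map_smul] at h4
    exact h4.symm
  have hcls : ∀ l, x l ∈ C Z := by
    intro l
    by_cases h : 2 * i l ≤ 2 * j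
    · have h3 := hdeg l
      rw [if_pos h] at h3
      have h4 : x l ∈ W.gr Z (2 * (j - i l)) := by
        rw [h3, show 2 * (j - i l) = 2 * j - 2 * i l by omega]
        exact proj_mem _ _ _
      refine hT (j - i l) (x l) h4 ⟨Δ ⊓ Δ', inferInstance, fun g hg => ?_⟩
      have h6 := hact g hg l
      have h7 : (χ g : W.K) ^ j = (χ g : W.K) ^ i l * (χ g : W.K) ^ (j - i l) := by
        rw [← pow_add]
        congr 1
        omega
      rw [h7, mul_smul] at h6
      exact smul_right_injective _ (pow_ne_zero _ (Units.ne_zero (χ g))) h6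
    · have h3 := hdeg l
      rw [if_neg h] at h3
      rw [h3]
      exact Submodule.zero_mem _
  have h8 : c ∈ C ((nest ops n fun _ => P).X.prod Z) := by
    rw [h2]
    refine Submodule.sum_mem _ fun l _ => ?_
    obtain ⟨S, hS⟩ := hm l
    exact hC.mul _ _ (hC.map _ _ _ _ (hC.alg _ (hS.alg hDX hmid))) _ (hC.map _ _ _ _ (hcls l))
  exact h8

end

section

variable {k : Type u} [Field k] {𝒱 : VarClass k} {ops : CycleOps 𝒱}
  {W : WeilCohomology.{u, 0} ops} {Γ : Type} [Group Γ] {χ : Γ →* W.Kˣ} {G : Set (GVar W Γ)}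
  {ι : Type} {X : ι → GVar W Γ} {D : ∀ i, (X i).X.Cycles} {Z : GVar W Γ}
  [Fintype ι] [DecidableEq ι] {C : Classes W}

theorem kp_tower (h : KSys χ G X D Z) {S : Set ι} {T : GVar W Γ} (hT : Tower X Z S T) :
    ∀ i, i ∉ S → KP h.gal T.X T.act i := by
  induction hT with
  | base => exact fun i _ => h.base h.gal i
  | @step S A A' j n hT hj hP ih =>
    obtain ⟨υ, h1, h2⟩ := hP
    intro i hi
    rw [Set.mem_insert_iff, not_or] at hi
    exact KP.step h.gal hi.1 (ih i hi.2) (homEqNum_of_pol (h.pol j)) (isPowAct h1 h2)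

/-- **Systems of classes, large Galois groups.** -/
theorem cls_kSys (hC : ClassSystem W C) (h : KSys χ G X D Z) {S : Set ι} {T : GVar W Γ}
    (hT : Tower X Z S T) : TateIn χ C T ↔ TateIn χ C Z := by
  induction hT with
  | base => exact Iff.rfl
  | @step S A A' i n hT hi hP ih =>
    have hK := kp_tower h hT
    obtain ⟨υ, h1, h2⟩ := hP
    have hDX := homEqNum_of_pol (h.pol i)
    have hfull : FullP (P := ⟨(X i).X, 0⟩) χ (h.gal i) A.act :=
      fullP_of h.gal (hK i hi) 0 (h.middle i) (h.odd i)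
    rw [← ih]
    constructor
    · exact conv_cls (P := ⟨(X i).X, 0⟩) hC hDX (h.one_ne i) (isPowAct h1 h2)
    · exact step_clsP (P := ⟨(X i).X, 0⟩) hC hDX (h.middle i) (h.gal i)
        (isPowAct h1 h2) (h.odd i) hfull

/-- **Tate classes and motivated classes, large Galois groups.** -/
theorem motivated_kSys (h : KSys χ G X D Z) {S : Set ι} {T : GVar W Γ} (hT : Tower X Z S T) :
    DominatedMotivated χ T ↔ TateAreMotivated χ Z := by
  rw [← dominatedTate_iff', ← tateIn_iff, dominatedTate_iff (motSystem W)]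
  exact cls_kSys (motSystem W) h hT

end

end Pool.Agent.L5helper71.Mot
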