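import Mathlib
import Pool.Agent.L5helper71.MotKP
import Pool.Agent.L5helper71.CatMain
import Pool.Agent.L5helper71.LrgDefs

/-!
# Systems without polarizations, and the family of Jacobians with large Galois groups
-/

open CategoryTheory AlgebraicGeometry Finset Function Polynomial

set_option linter.unusedSectionVars false
set_option linter.unusedVariables false

namespace Pool.Agent.L5helper71.Cat

universe u

open Pool.Agent.TH125.Gal Pool.Agent.TH118.SG Pool.Agent.V11219.IsoF Pool.Agent.V11219.Loc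
  Pool.Agent.V11219.Sst Pool.Agent.V11219.Cls Pool.Agent.N171.Ht

open Pool.Agent.H914 Pool.Agent.H914.VarClass Pool.Agent.H914.VarClass.Obj
  Pool.Agent.H914.WeilCohomology Pool.Agent.H281R3.HT Pool.Agent.W552

section

variable {k : Type u} [Field k] {𝒱 : VarClass k} {ops : CycleOps 𝒱}
  {W : WeilCohomology.{u, 0} ops} {Γ : Type} [Group Γ] {χ : Γ →* W.Kˣ}
  {ι : Type} {X : ι → GVar W Γ} {Z : GVar W Γ}
  [Fintype ι] [DecidableEq ι] {C : Classes W}

/-- Varieties for which the symplectic Lie algebras kill all the equivariant forms with values in the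
cohomology of the base. -/
structure PSys (χ : Γ →* W.Kˣ) (X : ι → GVar W Γ) (Z : GVar W Γ) : Prop where
  gal : ∀ i, IsGalois W χ (X i).X (X i).act
  homEqNum : ∀ i, HomEqNum W (X i).X
  odd : ∀ i, Odd (X i).X.dim
  middle : ∀ i, transcendental W (X i).X ≤ W.gr (X i).X (X i).X.dim
  one_ne : ∀ i, (1 : W.H (X i).X) ≠ 0
  base : ∀ i, KP gal Z.X Z.act i

theorem pSys_tower (h : PSys χ X Z) {S : Set ι} {T : GVar W Γ} (hT : Tower X Z S T) :
    ∀ i, i ∉ S → KP h.gal T.X T.act i := by
  induction hT with
  | base => exact fun i _ => h.base i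
  | @step S A A' j n hT hj hP ih =>
    obtain ⟨υ, h1, h2⟩ := hP
    intro i hi
    rw [Set.mem_insert_iff, not_or] at hi
    exact KP.step h.gal hi.1 (ih i hi.2) (h.homEqNum j) (isPowAct h1 h2)

/-- **Systems of classes, large Galois groups.** -/
theorem cls_pSys (hC : ClassSystem W C) (h : PSys χ X Z) {S : Set ι} {T : GVar W Γ}
    (hT : Tower X Z S T) : TateIn χ C T ↔ TateIn χ C Z := by
  induction hT with
  | base => exact Iff.rfl
  | @step S A A' i n hT hi hP ih =>
    have hK := pSys_tower h hT
    obtain ⟨υ, h1, h2⟩ := hP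
    have hDX := h.homEqNum i
    have hfull : FullP (P := ⟨(X i).X, 0⟩) χ (h.gal i) A.act :=
      fullP_of h.gal (hK i hi) 0 (h.middle i) (h.odd i)
    rw [← ih]
    constructor
    · exact conv_cls (P := ⟨(X i).X, 0⟩) hC hDX (h.one_ne i) (isPowAct h1 h2)
    · exact Mot.step_clsP (P := ⟨(X i).X, 0⟩) hC hDX (h.middle i) (h.gal i)
        (isPowAct h1 h2) (h.odd i) hfull

end

end Pool.Agent.L5helper71.Cat
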