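import Mathlib
import Pool.Agent.L5helper71.LrgSys
import Pool.Agent.N171.Bq1

/-!
# The family of Jacobians with large Galois groups
-/

open CategoryTheory AlgebraicGeometry Finset Function Polynomial

set_option linter.unusedSectionVars false
set_option linter.unusedVariables false

namespace Pool.Agent.L5helper71.Cat

universe u

open Pool.Agent.TH125.Gal Pool.Agent.TH118.SG Pool.Agent.V11219.Loc Pool.Agent.N171.Ht
  Pool.Agent.N171.Al Pool.Agent.N171.Bg Pool.Agent.N171.Bk Pool.Agent.N171.Pm Pool.Agent.N171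
  Pool.Agent.N171.Bkp

open Pool.Agent.H914 Pool.Agent.H914.VarClass Pool.Agent.H914.VarClass.Obj
  Pool.Agent.H914.WeilCohomology Pool.Agent.H281R3.HT

open TensorProduct Pool.Agent.H204R3.GP

variable {k : Type u} [Field k] {𝒱 : VarClass k} {ops : CycleOps 𝒱}
  {W : WeilCohomology.{u, 0} ops} [Algebra ℚ_[2] W.K]
  {K F : Type} [Field K] [Field F] [Algebra K F] {ι : Type} [Fintype ι]
  [DecidableEq ι] {f : ι → K[X]} [∀ i, Bq.Branch (f i)]
  {X : ι → GVar W (F ≃ₐ[K] F)} {Z : GVar W (F ≃ₐ[K] F)}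

/-- The Lie algebras kill the forms with values in the cohomology of the base. -/
theorem kp_large [IsAlgClosed F] (hs : Bq.Large F f) (h : ∀ i, JacobianVar (f i) (X i))
    (hZ : Bq.FreeOf Z.act f) (hG : ∀ i, IsGalois W (Ht.twistChar K F W.K) (X i).X (X i).act)
    (i : ι) : KP hG Z.X Z.act i := by
  classical
  have hsp : ∀ i, ((f i).map (algebraMap K F)).Splits := fun i => IsAlgClosed.splits _
  have hm : ∀ i, ((f i).map (algebraMap K F)).Monic := fun i => (Branch.monic (f := f i)).map _
  have hnd : ∀ i, ((f i).aroots F).Nodup := fun i => nodup_roots (Branch.sep (f := f i)).map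
  have hcard : ∀ i, Fintype.card ((f i).rootSet F) = (f i).natDegree := fun i =>
    card_rootSet_eq_natDegree (Branch.sep (f := f i)) (hsp i)
  have h2 : (2 : F) ≠ 0 := by
    have h1 : (2 : F) = algebraMap K F 2 := by rw [map_ofNat]
    rw [h1, Ne, map_eq_zero]
    exact Branch.two (f := f i)
  have hyp : ∀ i, Hyp (fun x : (f i).rootSet F => (x : F)) := fun i =>
    { inj := Subtype.val_injective
      odd := by
        rw [hcard]
        exact Branch.odd (f := f i)
      two := h2 }
  have hα : ∀ i, (f i).map (algebraMap K F) = fP (fun x : (f i).rootSet F => (x : F)) := by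
    intro i
    rw [(hsp i).eq_prod_roots_of_monic (hm i), fP]
    have h1 : ∏ x ∈ ((f i).aroots F).toFinset, (Polynomial.X - C x) =
        ∏ x : (f i).rootSet F, (Polynomial.X - C (x : F)) :=
      Finset.prod_subtype _ (fun x => Iff.rfl) _
    rw [← h1, Finset.prod, Multiset.toFinset_val, Multiset.Nodup.dedup (hnd i)]
  obtain ⟨hfin, B, halt, hndB, hkill⟩ := exists_forms (K := K) (F := F)
    (fun i => (f i).map (algebraMap K F)) (fun i => rf_fix (f i))
    (fun i (x : (f i).rootSet F) => (x : F)) hα h2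
    (fun i => by rw [hcard]; exact (by norm_num : 6 ≤ 7).trans (Branch.seven (f := f i)))
    (fun i π hπ => by
      obtain ⟨s, hs⟩ := hs.alt i π (by convert! hπ)
      exact ⟨s, hs⟩) (fun i j hij => by
      obtain ⟨s, hs, x, hx, hsx⟩ := hs.moves i j hij
      exact ⟨s, fun k => hs k k.2, ⟨x, hx⟩, hsx⟩)
  have hJ := fun i => twist (h i).tate
  choose c ε hr hsp' hc using hJ
  obtain ⟨d, e, he, hl⟩ := hZ
  obtain ⟨t, ht, ht4⟩ := latK (C := W.K) (H := W.H Z.X)
    (A := ⟨⟨fun s => (Z.act s).toLinearMap,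
      (congrArg AlgEquiv.toLinearMap (map_one Z.act)).trans rfl⟩,
      fun s s' => (congrArg AlgEquiv.toLinearMap (map_mul Z.act s s')).trans rfl⟩) he
  have ht2 : ∀ s, Htp.PresLat e (Z.act s) 1 → ∃ M, t s = 1 + (2 : ℤ_[2]) • M := by
    intro s hs
    obtain ⟨M, hM⟩ := lat_lev (ht s) hs
    exact ⟨M, by rw [hM, pow_one]⟩
  refine kp_base (latData_P hG ε hr hsp' c hc) (piB_self B halt) (piB_nd B hndB) piP_sum piP_self
    piP_ne (piB_piP B) e t ht (hkill d t fun i => ?_) (hkill 1 1 fun i => ?_) i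
    (h i).tate.2.1 (h i).odd
  · rcases hl i with h1 | ⟨s, hs, x, hx, hsx⟩
    · exact Or.inl (by rw [hcard]; exact h1)
    · exact Or.inr ⟨s, ht2 s hs, ⟨x, hx⟩, hsx⟩
  · refine Or.inl ?_
    rw [hcard]
    have h1 : (7).factorial ≤ (f i).natDegree.factorial :=
      Nat.factorial_le (Branch.seven (f := f i))
    refine lt_of_lt_of_le ?_ h1
    decide

end Pool.Agent.L5helper71.Cat
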