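import Mathlib
import Pool.Agent.L5helper71.LrgBase
import Pool.Agent.H914R2.ExtOp

/-!
# Lattices in the cohomology of products
-/

open CategoryTheory AlgebraicGeometry Finset Function Polynomial

set_option linter.unusedSectionVars false
set_option linter.unusedVariables false

namespace Pool.Agent.L5helper71.Cat

universe u

open Pool.Agent.H914 Pool.Agent.H914.VarClass Pool.Agent.H914.VarClass.Obj
  Pool.Agent.H914.WeilCohomology Pool.Agent.H281R3.HT Pool.Agent.TH125.Gal Pool.Agent.N171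

open TensorProduct

section alg

variable {K F : Type} [Field K] [Field F] [Algebra K F] {C : Type} [Field C] [Algebra ℚ_[2] C]
  {ι : Type}

/-- There is a stable lattice on which the `s i` act trivially modulo two. -/
def LatGood {A : Type} [Ring A] [Algebra C A] (ρ : (F ≃ₐ[K] F) →* (A ≃ₐ[C] A))
    (s : ι → (F ≃ₐ[K] F)) : Prop :=
  ∃ (d : ℕ) (e : Module.Basis (Fin d) C A), (∀ g, Bq.PresLat e (ρ g) 0) ∧
    ∀ i, Bq.PresLat e (ρ (s i)) 1

/-- The entries of the tensor product. -/
theorem presLat_tensor {A B : Type} [AddCommGroup A] [Module C A] [AddCommGroup B] [Module C B]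
    {d d' : ℕ} {e : Module.Basis (Fin d) C A} {e' : Module.Basis (Fin d') C B} {ρ : A → A}
    {ρ' : B → B} {n : ℕ} (h : Bq.PresLat e ρ n) (h' : Bq.PresLat e' ρ' n)
    {H : Type} [AddCommGroup H] [Module C H] (κ : (A ⊗[C] B) ≃ₗ[C] H) {σ : H → H}
    (hσ : ∀ i j, σ (κ (e i ⊗ₜ e' j)) = κ (ρ (e i) ⊗ₜ ρ' (e' j))) :
    Bq.PresLat (((e.tensorProduct e').map κ).reindex finProdFinEquiv) σ n := by
  intro m m'
  obtain ⟨⟨i, j⟩, rfl⟩ := finProdFinEquiv.surjective m
  obtain ⟨⟨i', j'⟩, rfl⟩ := finProdFinEquiv.surjective m'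
  obtain ⟨z, hz⟩ := h i i'
  obtain ⟨z', hz'⟩ := h' j j'
  refine ⟨(if i = i' then 1 else 0) * z' + z * (if j = j' then 1 else 0) + 2 ^ n * z * z', ?_⟩
  have h1 : (((e.tensorProduct e').map κ).reindex finProdFinEquiv) (finProdFinEquiv (i, j)) =
      κ (e i ⊗ₜ e' j) := by
    rw [Module.Basis.reindex_apply, Equiv.symm_apply_apply, Module.Basis.map_apply,
      Module.Basis.tensorProduct_apply]
  rw [h1, hσ, Module.Basis.repr_reindex_apply, Equiv.symm_apply_apply]
  have h2 : ((e.tensorProduct e').map κ).repr (κ (ρ (e i) ⊗ₜ ρ' (e' j))) (i', j') =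
      e.repr (ρ (e i)) i' * e'.repr (ρ' (e' j)) j' := by
    rw [Module.Basis.map_repr, LinearEquiv.trans_apply, LinearEquiv.symm_apply_apply,
      Module.Basis.tensorProduct_repr_tmul_apply, smul_eq_mul, mul_comm]
  rw [h2, hz, hz', ← map_mul]
  congr 1
  have h3 : (finProdFinEquiv (i, j) = finProdFinEquiv (i', j')) ↔ (i = i' ∧ j = j') := by
    rw [finProdFinEquiv.injective.eq_iff, Prod.mk.injEq]
  have h4 : (if finProdFinEquiv (i, j) = finProdFinEquiv (i', j') then (1 : ℤ_[2]) else 0) =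
      (if i = i' then 1 else 0) * (if j = j' then 1 else 0) := by
    by_cases hi : i = i'
    · by_cases hj : j = j'
      · rw [if_pos (h3.2 ⟨hi, hj⟩), if_pos hi, if_pos hj, mul_one]
      · rw [if_neg (fun h => hj (h3.1 h).2), if_neg hj, mul_zero]
    · rw [if_neg (fun h => hi (h3.1 h).1), if_neg hi, zero_mul]
  rw [h4]
  ring

/-- The pigeonhole principle. -/
theorem exists_good [IsAlgClosed F] {A : Type} [Ring A] [Algebra C A]
    {ρ : (F ≃ₐ[K] F) →* (A ≃ₐ[C] A)} {f : ι → K[X]} (hs : Bq.Large F f) (h : Bq.FreeOf ρ f)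
    (hcard : ∀ i, Nat.card ((f i).rootSet F) = (f i).natDegree) :
    ∃ s : ι → (F ≃ₐ[K] F), LatGood ρ s ∧ ∀ i, ∃ x ∈ (f i).rootSet F, s i x ≠ x := by
  classical
  obtain ⟨d, e, he, hl⟩ := h
  obtain ⟨t, ht, -⟩ := Ht.latK (C := C) (H := A)
    (A := ⟨⟨fun s => (ρ s).toLinearMap,
      (congrArg AlgEquiv.toLinearMap (map_one ρ)).trans rfl⟩,
      fun s s' => (congrArg AlgEquiv.toLinearMap (map_mul ρ s s')).trans rfl⟩) he
  have key : ∀ i, ∃ s : F ≃ₐ[K] F, Bq.PresLat e (ρ s) 1 ∧ ∃ x ∈ (f i).rootSet F, s x ≠ x := by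
    intro i
    rcases hl i with h1 | h1
    swap
    · exact h1
    choose s hs' using hs.alt i
    let φ : alternatingGroup ((f i).rootSet F) → Matrix (Fin d) (Fin d) (ZMod 2) :=
      fun π => (t (s π.1 (by
        have := π.2
        rw [Equiv.Perm.mem_alternatingGroup] at this
        convert! this))).map PadicInt.toZMod
    have hc : Fintype.card (Matrix (Fin d) (Fin d) (ZMod 2)) <
        Fintype.card (alternatingGroup ((f i).rootSet F)) := by
      have e1 : Fintype.card (Matrix (Fin d) (Fin d) (ZMod 2)) = 2 ^ (d ^ 2) := by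
        have e3 : Fintype.card (Fin d → Fin d → ZMod 2) = 2 ^ (d ^ 2) := by
          rw [Fintype.card_fun, Fintype.card_fun, ZMod.card, Fintype.card_fin, ← pow_mul, sq]
        rw [← e3]
        exact Fintype.card_congr (Equiv.refl _)
      have hc1 : Fintype.card ((f i).rootSet F) = (f i).natDegree := by
        rw [← Nat.card_eq_fintype_card, hcard]
      have hnt : Nontrivial ((f i).rootSet F) := by
        rw [← Fintype.one_lt_card_iff_nontrivial, hc1]
        by_contra hn
        have h2 : (f i).natDegree.factorial ≤ 1 := by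
          have h3 : (f i).natDegree ≤ 1 := by omega
          exact (Nat.factorial_le h3).trans (by simp)
        have h4 : 1 ≤ 2 ^ (d ^ 2 + 1) := Nat.one_le_two_pow
        omega
      have e2 := two_mul_card_alternatingGroup (α := (f i).rootSet F)
      rw [Fintype.card_perm, hc1] at e2
      rw [pow_succ] at h1
      rw [e1]
      omega
    obtain ⟨π, π', hne, hφ⟩ := Fintype.exists_ne_map_eq_of_card_lt φ hc
    have hπ : Equiv.Perm.sign π.1 = 1 := Equiv.Perm.mem_alternatingGroup.1 π.2
    have hπ' : Equiv.Perm.sign π'.1 = 1 := Equiv.Perm.mem_alternatingGroup.1 π'.2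
    set a := s π.1 (by convert! hπ) with ha
    set b := s π'.1 (by convert! hπ') with hb
    have hab : (t a).map PadicInt.toZMod = (t b).map (PadicInt.toZMod (p := 2)) := hφ
    refine ⟨a⁻¹ * b, ?_, ?_⟩
    · have h3 : (t (a⁻¹ * b)).map (PadicInt.toZMod (p := 2)) = 1 := by
        have h4 : (t (a⁻¹ * b)).map (PadicInt.toZMod (p := 2)) =
            (t a⁻¹).map (PadicInt.toZMod (p := 2)) * (t b).map (PadicInt.toZMod (p := 2)) := by
          rw [map_mul, Matrix.map_mul]
        rw [h4, ← hab, ← Matrix.map_mul, ← map_mul, inv_mul_cancel, map_one]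
        exact Matrix.map_one _ (map_zero _) (map_one _)
      intro p q
      have h5 : PadicInt.toZMod (t (a⁻¹ * b) q p - (if p = q then 1 else 0)) = (0 : ZMod 2) := by
        have h6 := congrFun (congrFun h3 q) p
        rw [Matrix.map_apply, Matrix.one_apply] at h6
        rw [map_sub, h6]
        by_cases hpq : p = q
        · rw [if_pos hpq, if_pos hpq.symm, map_one, sub_self]
        · rw [if_neg hpq, if_neg (Ne.symm hpq), map_zero, sub_self]
      have h7 : t (a⁻¹ * b) q p - (if p = q then 1 else 0) ∈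
          RingHom.ker (PadicInt.toZMod (p := 2)) := h5
      rw [PadicInt.ker_toZMod, PadicInt.maximalIdeal_eq_span_p, Ideal.mem_span_singleton] at h7
      obtain ⟨z, hz⟩ := h7
      refine ⟨z, ?_⟩
      have h8 : t (a⁻¹ * b) q p = (if p = q then 1 else 0) + 2 ^ 1 * z := by
        rw [pow_one]
        have : ((2 : ℕ) : ℤ_[2]) = 2 := by norm_num
        rw [this] at hz
        rw [← hz]
        ring
      have h9 : e.repr (ρ (a⁻¹ * b) (e p)) q = Bq.incl C (t (a⁻¹ * b) q p) := by
        have h10 : ρ (a⁻¹ * b) (e p) = ∑ j, Bq.incl C (t (a⁻¹ * b) j p) • e j :=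
          ht (a⁻¹ * b) p
        rw [h10, map_sum, Finsupp.finsetSum_apply, Finset.sum_eq_single q]
        · rw [map_smul, Finsupp.smul_apply, Module.Basis.repr_self, Finsupp.single_eq_same,
            smul_eq_mul, mul_one]
        · intro k _ hk
          rw [map_smul, Finsupp.smul_apply, Module.Basis.repr_self,
            Finsupp.single_eq_of_ne hk.symm, smul_zero]
        · intro h
          exact absurd (Finset.mem_univ _) h
      rw [h9, h8]
    · have h3 : ∃ x, π.1 x ≠ π'.1 x := by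
        by_contra hcon
        push Not at hcon
        exact hne (Subtype.ext (Equiv.ext hcon))
      obtain ⟨x, hx⟩ := h3
      refine ⟨x, x.2, fun h4 => hx ?_⟩
      have h5 : a (x : F) = (π.1 x : F) := hs' π.1 _ x
      have h6 : b (x : F) = (π'.1 x : F) := hs' π'.1 _ x
      have h7 : b (x : F) = a (x : F) := by
        have h8 : (a⁻¹ * b) (x : F) = a⁻¹ (b x) := rfl
        rw [h8] at h4
        have h9 := congrArg a h4
        have h10 : a (a⁻¹ (b (x : F))) = b (x : F) := by
          have : a (a⁻¹ (b (x : F))) = (a * a⁻¹) (b (x : F)) := rfl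
          rw [this, mul_inv_cancel]
          rfl
        rw [h10] at h9
        exact h9
      apply Subtype.ext
      rw [← h5, ← h6, h7]
  choose s hs1 hs2 using key
  exact ⟨s, ⟨d, e, he, hs1⟩, hs2⟩

end alg

variable {k : Type u} [Field k] {𝒱 : VarClass k} {ops : CycleOps 𝒱}
  {W : WeilCohomology.{u, 0} ops} [Algebra ℚ_[2] W.K]
  {K F : Type} [Field K] [Field F] [Algebra K F] {ι : Type}
  {Z : GVar W (F ≃ₐ[K] F)}

theorem LatGood.prod {A B T : GVar W (F ≃ₐ[K] F)} {s : ι → (F ≃ₐ[K] F)}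
    (hA : LatGood A.act s) (hB : LatGood B.act s) (hT : IsProduct A B T) :
    LatGood T.act s := by
  obtain ⟨d, e, h0, h1⟩ := hA
  obtain ⟨d', e', h0', h1'⟩ := hB
  obtain ⟨ω, g1, g2⟩ := hT
  have hκ : ∀ g i j, ω g (kappa W A.X B.X (e i ⊗ₜ e' j)) =
      kappa W A.X B.X (A.act g (e i) ⊗ₜ B.act g (e' j)) := by
    intro g i j
    rw [kappa_tmul, kappa_tmul, map_mul (ω g), g1, g2]
  exact ⟨d * d', ((e.tensorProduct e').map (kappa W A.X B.X)).reindex finProdFinEquiv,
    fun g => presLat_tensor (h0 g) (h0' g) _ (hκ g),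
    fun i => presLat_tensor (h1 i) (h1' i) _ (hκ (s i))⟩

theorem LatGood.product {Z' : GVar W (F ≃ₐ[K] F)} {s : ι → (F ≃ₐ[K] F)}
    (hZ : LatGood Z.act s) (h : Product (fun A => A = Z) Z Z') : LatGood Z'.act s := by
  induction h with
  | base => exact hZ
  | mul hA _ hP ih =>
    subst hA
    exact hZ.prod ih hP

theorem freeOf_product [IsAlgClosed F] {f : ι → K[X]} (hs : Bq.Large F f)
    (h : Bq.FreeOf Z.act f) (hcard : ∀ i, Nat.card ((f i).rootSet F) = (f i).natDegree)
    {Z' : GVar W (F ≃ₐ[K] F)} (hZ' : Product (fun A => A = Z) Z Z') : Bq.FreeOf Z'.act f := by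
  obtain ⟨s, h1, h2⟩ := exists_good hs h hcard
  obtain ⟨d, e, h3, h4⟩ := h1.product hZ'
  exact ⟨d, e, h3, fun i => Or.inr ⟨s i, h4 i, h2 i⟩⟩

end Pool.Agent.L5helper71.Cat
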