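import Mathlib
import Pool.Agent.L5helper71.LrgLat

/-!
# Tate classes and motivated classes for Jacobians with large Galois groups
-/

open CategoryTheory AlgebraicGeometry Finset Function Polynomial

namespace Pool.Agent.L5helper71.Cat

universe u

open Pool.Agent.H914 Pool.Agent.H914.VarClass Pool.Agent.H914.VarClass.Obj
  Pool.Agent.H914.WeilCohomology Pool.Agent.H281R3.HT Pool.Agent.TH125.Gal Pool.Agent.N171
  Pool.Agent.V11219.Cls

variable {k : Type u} [Field k] {𝒱 : VarClass k} {ops : CycleOps 𝒱}
  {W : WeilCohomology.{u, 0} ops} [Algebra ℚ_[2] W.K]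
  {K F : Type} [Field K] [Field F] [Algebra K F] {ι : Type}
  {f : ι → K[X]} [∀ i, Bq.Branch (f i)] {X : ι → GVar W (F ≃ₐ[K] F)} {Z : GVar W (F ≃ₐ[K] F)}

/-- **Large Galois groups.** -/
theorem all_large [IsAlgClosed F] [Finite ι] (hs : Bq.Large F f)
    (h : ∀ i, JacobianVar (f i) (X i)) (hZ : Bq.FreeOf Z.act f) :
    AllMotivated (Bq.twistChar K F W.K) X Z ↔ BaseMotivated (Bq.twistChar K F W.K) Z := by
  classical
  have := Fintype.ofFinite ι
  have hne : ∀ i, (1 : W.H (X i).X) ≠ 0 := by
    intro i h3
    apply (h i).tate.1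
    rw [eq_bot_iff]
    intro t _
    rw [Submodule.mem_bot, ← one_mul t, h3, zero_mul]
  have hcard : ∀ i, Nat.card ((f i).rootSet F) = (f i).natDegree := by
    intro i
    have h1 := card_rootSet_eq_natDegree (K := F) (Bq.Branch.sep (f := f i)) (IsAlgClosed.splits _)
    rw [Nat.card_eq_fintype_card]
    convert! h1
  refine allMotivated_iff hne fun Z' hZ' S T hT => ?_
  have hgal : ∀ i, IsGalois W (Ht.twistChar K F W.K) (X i).X (X i).act := fun i =>
    isGalois (h i).galois
  have hsys : PSys (Ht.twistChar K F W.K) X Z' :=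
    { gal := hgal
      homEqNum := fun i => (h i).homEqNum
      odd := fun i => (h i).odd
      middle := fun i => (h i).tate.2.1
      one_ne := hne
      base := kp_large hs h (freeOf_product hs hZ hcard hZ') hgal }
  exact cls_pSys (Mot.motSystem W) hsys hT

end Pool.Agent.L5helper71.Cat
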