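import Mathlib
import Pool.Agent.W301.LinG

set_option autoImplicit false

/-!
An explicit bound for the number of nondegenerate points in a fibre of a polynomial map.
-/

namespace Pool.Agent.L5helper71.Nf

open MvPolynomial Pool.Agent.W301.Lin

section

variable {ι : Type} [Fintype ι] [DecidableEq ι]

/-- the values of a relation -/
noncomputable def relv (b : ℕ) (Q : ι → MvPolynomial ι ℂ) (h : MvPolynomial ι ℂ)
    (p : Fin (b + 1) × (ι → Fin (b + 1)) → ℂ) : MvPolynomial ι ℂ :=
  ∑ x, p x • ((∏ i, Q i ^ (x.2 i : ℕ)) * h ^ (x.1 : ℕ))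

lemma relv_degree (b D : ℕ) (Q : ι → MvPolynomial ι ℂ) (h : MvPolynomial ι ℂ)
    (hQ : ∀ i, (Q i).totalDegree ≤ D) (hh : h.totalDegree ≤ 1)
    (p : Fin (b + 1) × (ι → Fin (b + 1)) → ℂ) :
    (relv b Q h p).totalDegree ≤ Fintype.card ι * b * D + b := by
  unfold relv
  refine totalDegree_finsetSum_le ?_
  intro x _
  refine (totalDegree_smul_le _ _).trans ?_
  refine (totalDegree_mul _ _).trans ?_
  refine add_le_add ?_ ?_
  · refine (totalDegree_finset_prod _ _).trans ?_
    calc ∑ i, (Q i ^ (x.2 i : ℕ)).totalDegree ≤ ∑ _i : ι, b * D := by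
          refine Finset.sum_le_sum fun i _ => ?_
          refine (totalDegree_pow _ _).trans ?_
          exact Nat.mul_le_mul (by have := (x.2 i).2; omega) (hQ i)
      _ = Fintype.card ι * b * D := by
        rw [Finset.sum_const, Finset.card_univ, smul_eq_mul, mul_assoc]
  · refine (totalDegree_pow _ _).trans ?_
    have := x.1.2
    nlinarith

/-- a relation of small degree -/
lemma exists_rel (D : ℕ) (Q : ι → MvPolynomial ι ℂ) (h : MvPolynomial ι ℂ)
    (hQ : ∀ i, (Q i).totalDegree ≤ D) (hh : h.totalDegree ≤ 1) (b : ℕ)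
    (hb : (Fintype.card ι * D + 1) ^ Fintype.card ι ≤ b) :
    ∃ p : Fin (b + 1) × (ι → Fin (b + 1)) → ℂ, p ≠ 0 ∧ relv b Q h p = 0 := by
  set N := Fintype.card ι with hN
  set M := N * b * D + b with hM
  let Ψ : (Fin (b + 1) × (ι → Fin (b + 1)) → ℂ) →ₗ[ℂ] ((ι → Fin (M + 1)) → ℂ) :=
    { toFun := fun p e => (relv b Q h p).coeff (Finsupp.equivFunOnFinite.symm fun i => (e i : ℕ))
      map_add' := by
        intro p q
        funext e
        simp only [relv, Pi.add_apply, add_smul, Finset.sum_add_distrib, coeff_add]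
      map_smul' := by
        intro a p
        funext e
        simp only [relv, Pi.smul_apply, smul_eq_mul, RingHom.id_apply, mul_smul, ← Finset.smul_sum,
          coeff_smul] }
  have hker : LinearMap.ker Ψ ≠ ⊥ := by
    refine LinearMap.ker_ne_bot_of_finrank_lt ?_
    rw [Module.finrank_fintype_fun_eq_card, Module.finrank_fintype_fun_eq_card, Fintype.card_prod,
      Fintype.card_fin, Fintype.card_pi, Fintype.card_pi]
    simp only [Fintype.card_fin, Finset.prod_const, Finset.card_univ]
    rw [← hN]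
    have h1 : M + 1 ≤ (N * D + 1) * (b + 1) := by
      rw [hM]
      nlinarith
    calc (M + 1) ^ N ≤ ((N * D + 1) * (b + 1)) ^ N := Nat.pow_le_pow_left h1 N
      _ = (N * D + 1) ^ N * (b + 1) ^ N := by rw [mul_pow]
      _ ≤ b * (b + 1) ^ N := Nat.mul_le_mul_right _ hb
      _ < (b + 1) * (b + 1) ^ N := by
        have : 0 < (b + 1) ^ N := by positivity
        nlinarith
  obtain ⟨p, hp, hp0⟩ := (Submodule.ne_bot_iff _).1 hker
  refine ⟨p, hp0, ?_⟩
  ext m
  rw [coeff_zero]
  by_cases hm : ∀ i, m i ≤ M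
  · have h2 := congrFun (LinearMap.mem_ker.1 hp) (fun i => ⟨m i, Nat.lt_succ_of_le (hm i)⟩)
    have h3 : (Finsupp.equivFunOnFinite.symm fun i => (((⟨m i, Nat.lt_succ_of_le (hm i)⟩ :
        Fin (M + 1)) : ℕ))) = m := by
      ext i
      rfl
    change (relv b Q h p).coeff (Finsupp.equivFunOnFinite.symm fun i =>
      (((⟨m i, Nat.lt_succ_of_le (hm i)⟩ : Fin (M + 1)) : ℕ))) = 0 at h2
    rwa [h3] at h2
  · push Not at hm
    obtain ⟨i, hi⟩ := hm
    apply coeff_eq_zero_of_totalDegree_lt
    have h4 := relv_degree b D Q h hQ hh p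
    have h5 : m i ≤ ∑ i ∈ m.support, m i := by
      refine Finset.single_le_sum (f := fun i => m i) (fun _ _ => Nat.zero_le _) ?_
      rw [Finsupp.mem_support_iff]
      omega
    refine lt_of_le_of_lt h4 (lt_of_lt_of_le hi h5)

/-- a linear form which separates the points of a finite set -/
lemma exists_form (S : Finset (ι → ℂ)) :
    ∃ h : MvPolynomial ι ℂ, h.totalDegree ≤ 1 ∧
      Set.InjOn (fun z : ι → ℂ => eval z h) (S : Set (ι → ℂ)) := by
  classical
  set P : MvPolynomial ι ℂ := ∏ x ∈ S ×ˢ S with x.1 ≠ x.2, ∑ i, C (x.1 i - x.2 i) * X i with hP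
  have hP0 : P ≠ 0 := by
    rw [hP, Finset.prod_ne_zero_iff]
    rintro ⟨x, y⟩ hxy
    rw [Finset.mem_filter] at hxy
    intro h0
    apply hxy.2
    funext i
    have h1 := congrArg (fun q => eval (Pi.single i (1 : ℂ)) q) h0
    simp only [map_sum, map_mul, eval_C, eval_X, map_zero] at h1
    rw [Finset.sum_eq_single i] at h1
    · simp only [Pi.single_eq_same, mul_one] at h1
      exact sub_eq_zero.1 h1
    · intro j _ hj
      rw [Pi.single_eq_of_ne hj, mul_zero]
    · intro h; exact absurd (Finset.mem_univ i) h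
  obtain ⟨w, -, hw⟩ := exists_mem_nhds P hP0 0 Set.univ Filter.univ_mem
  rw [hP, map_prod, Finset.prod_ne_zero_iff] at hw
  refine ⟨∑ i, C (w i) * X i, ?_, ?_⟩
  · refine totalDegree_finsetSum_le ?_
    intro i _
    refine (totalDegree_mul _ _).trans ?_
    rw [totalDegree_C, totalDegree_X]
  · intro x hx y hy hxy
    by_contra hne
    have h1 := hw (x, y) (by
      rw [Finset.mem_filter, Finset.mem_product]
      exact ⟨⟨hx, hy⟩, hne⟩)
    apply h1
    simp only [map_sum, map_mul, eval_C, eval_X] at hxy ⊢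
    rw [← sub_eq_zero, ← Finset.sum_sub_distrib] at hxy
    rw [← hxy]
    refine Finset.sum_congr rfl fun i _ => ?_
    ring

/-- an explicit bound for the number of nondegenerate points in a fibre -/
theorem fibre_bound (D : ℕ) (Q : ι → MvPolynomial ι ℂ) (hQ : ∀ i, (Q i).totalDegree ≤ D)
    (c : ι → ℂ) (S : Finset (ι → ℂ))
    (hS : ∀ z ∈ S, pmap Q z = c ∧ (Matrix.of fun i j => eval z (pderiv j (Q i))).det ≠ 0) :
    S.card ≤ (Fintype.card ι * D + 1) ^ Fintype.card ι := by
  classical
  set b := (Fintype.card ι * D + 1) ^ Fintype.card ι with hb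
  obtain ⟨h, hh, hinj⟩ := exists_form S
  obtain ⟨p, hp0, hp⟩ := exists_rel D Q h hQ hh b le_rfl
  -- a nonzero coefficient
  obtain ⟨⟨j, α⟩, hjα⟩ := Function.ne_iff.1 hp0
  set ℓ : MvPolynomial ι ℂ := ∑ β : ι → Fin (b + 1), monomial
    (Finsupp.equivFunOnFinite.symm fun i => (β i : ℕ)) (p (j, β)) with hℓ
  have hℓ0 : ℓ ≠ 0 := by
    intro h0
    apply hjα
    have h1 := congrArg (coeff (Finsupp.equivFunOnFinite.symm fun i => (α i : ℕ))) h0
    rw [hℓ, coeff_sum, coeff_zero, Finset.sum_eq_single α] at h1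
    · rwa [coeff_monomial, if_pos rfl] at h1
    · intro β _ hβ
      rw [coeff_monomial, if_neg]
      intro h2
      apply hβ
      funext i
      have h3 := DFunLike.congr_fun h2 i
      simp only [Finsupp.equivFunOnFinite_symm_apply_apply] at h3
      exact Fin.ext h3
    · intro h; exact absurd (Finset.mem_univ _) h
  -- disjoint neighbourhoods
  obtain ⟨V, hV, hdisj⟩ := ((S.image fun z => eval z h).finite_toSet).t2_separation
  have hcont : Continuous fun z : ι → ℂ => eval z h := MvPolynomial.continuous_eval h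
  set U : (ι → ℂ) → Set (ι → ℂ) := fun z => (fun z : ι → ℂ => eval z h) ⁻¹' (V (eval z h)) with hU
  have h1 : ∀ z ∈ S, pmap Q '' U z ∈ nhds c := by
    intro z hz
    have h2 := pmap_nhds Q z (hS z hz).2
    rw [(hS z hz).1] at h2
    rw [← h2]
    exact Filter.image_mem_map (((hV _).2.preimage hcont).mem_nhds (hV _).1)
  have h2 : (⋂ z ∈ S, pmap Q '' U z) ∈ nhds c := (Filter.biInter_finset_mem S).2 h1
  obtain ⟨c', hc', hPc'⟩ := exists_mem_nhds _ hℓ0 c _ h2
  have h3 : ∀ z : S, ∃ z' ∈ U z.1, pmap Q z' = c' := by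
    intro z
    have := Set.mem_iInter₂.1 hc' z.1 z.2
    exact this
  choose g hgU hg using h3
  -- the polynomial in one variable
  set pc : Polynomial ℂ := ∑ x : Fin (b + 1) × (ι → Fin (b + 1)),
    Polynomial.monomial (x.1 : ℕ) (p x * ∏ i, c' i ^ (x.2 i : ℕ)) with hpc
  have hpcj : pc.coeff j = eval c' ℓ := by
    rw [hpc, Polynomial.finset_sum_coeff, Fintype.sum_prod_type, Finset.sum_eq_single j, hℓ,
      map_sum]
    · refine Finset.sum_congr rfl fun β _ => ?_
      rw [Polynomial.coeff_monomial, if_pos rfl, eval_monomial,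
        Finsupp.prod_fintype _ _ (fun _ => pow_zero _)]
      rfl
    · intro j' _ hj'
      refine Finset.sum_eq_zero fun β _ => ?_
      rw [Polynomial.coeff_monomial, if_neg]
      intro h4
      exact hj' (Fin.ext h4)
    · intro h; exact absurd (Finset.mem_univ _) h
  have hpc0 : pc ≠ 0 := by
    intro h0
    apply hPc'
    rw [← hpcj, h0, Polynomial.coeff_zero]
  have hpcd : pc.natDegree ≤ b := by
    rw [hpc]
    refine Polynomial.natDegree_sum_le_of_forall_le _ _ fun x _ => ?_
    refine (Polynomial.natDegree_monomial_le _).trans ?_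
    have := x.1.2
    omega
  have hroot : ∀ z : S, pc.eval (eval (g z) h) = 0 := by
    intro z
    have h4 := congrArg (eval (g z)) hp
    rw [map_zero] at h4
    rw [← h4, hpc, Polynomial.eval_finset_sum, relv, map_sum]
    refine Finset.sum_congr rfl fun x _ => ?_
    rw [Polynomial.eval_monomial, smul_eval, map_mul, map_prod, map_pow, mul_assoc]
    congr 2
    refine Finset.prod_congr rfl fun i _ => ?_
    rw [map_pow, ← hg z]
    rfl
  have hginj : Function.Injective fun z : S => eval (g z) h := by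
    intro z1 z2 h4
    by_contra hne
    have h5 : (z1 : ι → ℂ) ≠ z2 := fun h => hne (Subtype.ext h)
    have h6 : eval (z1 : ι → ℂ) h ≠ eval (z2 : ι → ℂ) h := fun h7 => h5 (hinj z1.2 z2.2 h7)
    have m1 : eval (z1 : ι → ℂ) h ∈ ((S.image fun z => eval z h : Finset ℂ) : Set ℂ) := by
      rw [Finset.mem_coe, Finset.mem_image]
      exact ⟨z1, z1.2, rfl⟩
    have m2 : eval (z2 : ι → ℂ) h ∈ ((S.image fun z => eval z h : Finset ℂ) : Set ℂ) := by
      rw [Finset.mem_coe, Finset.mem_image]
      exact ⟨z2, z2.2, rfl⟩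
    have h7 := hdisj m1 m2 h6
    have h8 : eval (g z1) h ∈ V (eval (z1 : ι → ℂ) h) := hgU z1
    have h9 : eval (g z2) h ∈ V (eval (z2 : ι → ℂ) h) := hgU z2
    exact Set.disjoint_left.1 h7 h8 (by rw [show eval (g z1) h = eval (g z2) h from h4]; exact h9)
  calc S.card = (Finset.univ.image fun z : S => eval (g z) h).card := by
        rw [Finset.card_image_of_injective _ hginj, Finset.card_univ, Fintype.card_coe]
    _ ≤ pc.roots.toFinset.card := by
        apply Finset.card_le_card
        intro y hy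
        obtain ⟨z, _, rfl⟩ := Finset.mem_image.1 hy
        rw [Multiset.mem_toFinset, Polynomial.mem_roots hpc0, Polynomial.IsRoot.def]
        exact hroot z
    _ ≤ pc.roots.card := Multiset.toFinset_card_le _
    _ ≤ pc.natDegree := Polynomial.card_roots' _
    _ ≤ b := hpcd

end

end Pool.Agent.L5helper71.Nf
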