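import Mathlib
import Pool.Agent.W301.LinI1
import Pool.Agent.L5helper71.NfBez

set_option autoImplicit false

/-!
The count of the fields of degree `n` with explicit constants.
-/

namespace Pool.Agent.L5helper71.Nf

open MvPolynomial Module NumberField Pool.Agent.W301.Lin

/-- the number of the exponents of degree at most `D` -/
lemma exists_expo (ρ : Type) [Fintype ρ] (D : ℕ) : ∃ F : Finset (ρ →₀ ℕ),
    (∀ a : ρ →₀ ℕ, ∑ l, a l ≤ D → a ∈ F) ∧ F.card ≤ (Fintype.card ρ + 1) ^ D := by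
  classical
  induction D with
  | zero =>
    refine ⟨{0}, fun a ha => ?_, by simp⟩
    rw [Finset.mem_singleton]
    ext l
    have := Finset.single_le_sum (f := fun l => a l) (fun _ _ => Nat.zero_le _) (Finset.mem_univ l)
    simp only [Finsupp.coe_zero, Pi.zero_apply]
    omega
  | succ D ih =>
    obtain ⟨F, hF, hc⟩ := ih
    refine ⟨((Finset.univ : Finset (Option ρ)) ×ˢ F).image
      (fun x => x.2 + x.1.elim 0 (fun l => Finsupp.single l 1)), ?_, ?_⟩
    · intro a ha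
      rw [Finset.mem_image]
      by_cases h0 : ∑ l, a l ≤ D
      · exact ⟨(none, a), by simp [hF a h0], by simp⟩
      · have h1 : ∃ l, a l ≠ 0 := by
          by_contra h
          push Not at h
          apply h0
          rw [Finset.sum_eq_zero fun l _ => h l]
          exact Nat.zero_le _
        obtain ⟨l, hl⟩ := h1
        have h2 : a - Finsupp.single l 1 + Finsupp.single l 1 = a := by
          ext l'
          rw [Finsupp.add_apply, Finsupp.tsub_apply]
          by_cases h : l = l'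
          · subst h
            rw [Finsupp.single_eq_same]
            omega
          · rw [Finsupp.single_eq_of_ne (Ne.symm h)]
            omega
        refine ⟨(some l, a - Finsupp.single l 1), ?_, h2⟩
        rw [Finset.mem_product]
        refine ⟨Finset.mem_univ _, hF _ ?_⟩
        have h3 : ∑ l', a l' = ∑ l', (a - Finsupp.single l 1 : ρ →₀ ℕ) l' + 1 := by
          conv_lhs => rw [← h2]
          simp only [Finsupp.add_apply, Finset.sum_add_distrib]
          congr 1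
          rw [Finset.sum_eq_single l]
          · rw [Finsupp.single_eq_same]
          · intro l' _ h
            rw [Finsupp.single_eq_of_ne h]
          · intro h; exact absurd (Finset.mem_univ _) h
        show ∑ l', (a - Finsupp.single l 1 : ρ →₀ ℕ) l' ≤ D
        omega
    · refine Finset.card_image_le.trans ?_
      rw [Finset.card_product, Finset.card_univ, Fintype.card_option, pow_succ, mul_comm]
      exact Nat.mul_le_mul_right _ hc

lemma card_expo (r u d : ℕ) :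
    (finite_Expo r u (d + 1) (2 * u + 1)).toFinset.card ≤ (r + u + 1) ^ (d + 2 * u + 2) := by
  classical
  obtain ⟨F, hF, hc⟩ := exists_expo (Fin r ⊕ Fin u) (d + 2 * u + 2)
  rw [Fintype.card_sum, Fintype.card_fin, Fintype.card_fin] at hc
  refine (Finset.card_le_card ?_).trans hc
  intro a ha
  rw [Set.Finite.mem_toFinset] at ha
  apply hF
  rw [Fintype.sum_sum_type]
  have h1 := ha.1
  have h2 := ha.2
  omega

lemma Qs_degree {n r u d : ℕ} (s : (Fin n × (Fin r ⊕ Fin u)) → (Fin r ⊕ Fin u →₀ ℕ))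
    (hs : ∀ i, s i ∈ Expo r u (d + 1) (2 * u + 1)) (i : Fin n × (Fin r ⊕ Fin u)) :
    (Qs s i).totalDegree ≤ d + 2 * u + 2 := by
  unfold Qs
  refine totalDegree_finsetSum_le fun a _ => ?_
  refine (totalDegree_rename_le _ _).trans ?_
  refine (totalDegree_monomial_le _ _).trans ?_
  rw [Finsupp.sum_fintype _ _ (fun _ => rfl), Fintype.sum_sum_type]
  have h1 : ∑ l, (s i) (Sum.inl l) ≤ d + 1 := (hs i).1
  have h2 : ∑ l, (s i) (Sum.inr l) ≤ 2 * u + 1 := (hs i).2
  simp only [id]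
  omega

/-- the nondegenerate points with given power sums -/
lemma sel_bound {n r u d : ℕ} (s : (Fin n × (Fin r ⊕ Fin u)) → (Fin r ⊕ Fin u →₀ ℕ))
    (hs : ∀ i, s i ∈ Expo r u (d + 1) (2 * u + 1)) (c : Fin n × (Fin r ⊕ Fin u) → ℂ)
    (S : Finset (Fin n × (Fin r ⊕ Fin u) → ℂ)) (hS : ∀ z ∈ S, z ∈ Zset s c) :
    S.card ≤ (n * (r + u) * (d + 2 * u + 2) + 1) ^ (n * (r + u)) := by
  classical
  have h := fibre_bound (d + 2 * u + 2) (Qs s) (Qs_degree s hs) c S (by
    intro z hz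
    obtain ⟨h1, h2⟩ := hS z hz
    constructor
    · funext i
      rw [pmap, eval_Qs]
      exact h1 i
    · convert! h2 using 3
      ext i j
      rw [eval_pderiv_Qs])
  rwa [Fintype.card_prod, Fintype.card_sum, Fintype.card_fin, Fintype.card_fin,
    Fintype.card_fin] at h

/-- the count in terms of the box -/
theorem card_FS (n r d u m t k0 : ℕ) (hn0 : 0 < n) (hr : 0 < r) (ht : t ≤ n)
    (hrd : (r + 1) * n ≤ (r + d).choose r)
    (hm : n * (n - t) ^ m < n ^ m) (hmu : m ≤ 2 ^ u) (K : Type) [Field K] [NumberField K]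
    (hk0 : finrank ℚ K = k0) (X : ℝ) (hX : 1 ≤ X) :
    (FS K n X).Finite ∧
      ((FS K n X).ncard : ℝ) ≤ ((((r + u + 1) ^ (d + 2 * u + 2)) ^ (n * (r + u)) *
        (n * (r + u) * (d + 2 * u + 2) + 1) ^ (n * (r + u)) : ℕ) : ℝ) *
        ((2 * Tb k0 n t r u d X + 1) ^ k0) ^ (n * (r + u)) := by
  classical
  set A : Finset (Fin r ⊕ Fin u →₀ ℕ) := (finite_Expo r u (d + 1) (2 * u + 1)).toFinset with hA
  set B : ℕ := (n * (r + u) * (d + 2 * u + 2) + 1) ^ (n * (r + u)) with hBdef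
  obtain ⟨f⟩ := exists_embedding K
  set Γ : Finset K := Box K (Tb k0 n t r u d X) with hΓ
  have hAm : ∀ (s : (Fin n × (Fin r ⊕ Fin u)) → A) i,
      (s i : Fin r ⊕ Fin u →₀ ℕ) ∈ Expo r u (d + 1) (2 * u + 1) := by
    intro s i
    exact (Set.Finite.mem_toFinset (finite_Expo r u (d + 1) (2 * u + 1))).1 (s i).2
  have hZfin : ∀ (s : (Fin n × (Fin r ⊕ Fin u)) → A) (c : Fin n × (Fin r ⊕ Fin u) → ℂ),
      (Zset (fun i => (s i : Fin r ⊕ Fin u →₀ ℕ)) c).Finite := by
    intro s c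
    by_contra hinf
    obtain ⟨S, hS, hSc⟩ := Set.Infinite.exists_subset_card_eq hinf (B + 1)
    have := sel_bound (fun i => (s i : Fin r ⊕ Fin u →₀ ℕ)) (hAm s) c S
      (fun z hz => hS hz)
    omega
  set Zf : ((Fin n × (Fin r ⊕ Fin u)) → A) → (Fin n × (Fin r ⊕ Fin u) → ℂ) →
    Finset (Fin n × (Fin r ⊕ Fin u) → ℂ) := fun s c => (hZfin s c).toFinset with hZf
  have hZc : ∀ s c, (Zf s c).card ≤ B := by
    intro s c
    apply sel_bound (fun i => (s i : Fin r ⊕ Fin u →₀ ℕ)) (hAm s) c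
    intro z hz
    rw [hZf, Set.Finite.mem_toFinset] at hz
    exact hz
  set Φ : (Fin n × (Fin r ⊕ Fin u) → ℂ) → IntermediateField K (AlgebraicClosure K) :=
    fun z => IntermediateField.adjoin K {y | ∃ l, f y = z (⟨0, hn0⟩, l)} with hΦ
  set W : Finset (IntermediateField K (AlgebraicClosure K)) :=
    (Finset.univ : Finset (((Fin n × (Fin r ⊕ Fin u)) → A) ×
      ((Fin n × (Fin r ⊕ Fin u)) → Γ))).biUnion
      (fun p => (Zf p.1 (fun i => f (algebraMap K _ (p.2 i : K)))).image Φ) with hW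
  have hsub : FS K n X ⊆ ↑W := by
    intro L hL
    obtain ⟨s, γ, z, hs, hγ, hz, hadj⟩ := exists_point n r d u m t k0 hn0 hr ht hrd hm hmu X hX
      hk0 f L hL
    rw [Finset.mem_coe, hW, Finset.mem_biUnion]
    refine ⟨(fun i => ⟨s i, ?_⟩, fun i => ⟨γ i, hγ i⟩), Finset.mem_univ _, ?_⟩
    · rw [hA, Set.Finite.mem_toFinset]
      exact hs i
    · rw [Finset.mem_image]
      refine ⟨z, ?_, hadj⟩
      rw [hZf, Set.Finite.mem_toFinset]
      exact hz
  have hWcard : W.card ≤ Fintype.card ((Fin n × (Fin r ⊕ Fin u)) → A)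
      * Γ.card ^ (n * (r + u)) * B := by
    calc W.card ≤ ∑ p : ((Fin n × (Fin r ⊕ Fin u)) → A) × ((Fin n × (Fin r ⊕ Fin u)) → Γ),
          ((Zf p.1 (fun i => f (algebraMap K _ (p.2 i : K)))).image Φ).card :=
            Finset.card_biUnion_le
      _ ≤ ∑ _p : ((Fin n × (Fin r ⊕ Fin u)) → A) × ((Fin n × (Fin r ⊕ Fin u)) → Γ), B :=
          Finset.sum_le_sum fun p _ => Finset.card_image_le.trans (hZc _ _)
      _ = Fintype.card ((Fin n × (Fin r ⊕ Fin u)) → A) * Γ.card ^ (n * (r + u)) * B := by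
          rw [Finset.sum_const, Finset.card_univ, Fintype.card_prod, smul_eq_mul]
          congr 2
          rw [Fintype.card_fun, Fintype.card_coe, Fintype.card_prod, Fintype.card_sum,
            Fintype.card_fin, Fintype.card_fin, Fintype.card_fin]
  have hfin : (FS K n X).Finite := (Finset.finite_toSet W).subset hsub
  refine ⟨hfin, ?_⟩
  have hTb : 0 ≤ Tb k0 n t r u d X := by
    have h1 := one_le_Hf k0 n (n + 1 - t) X hX
    have h2 := one_le_Hf k0 n ((n + 1) / 2) X hX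
    unfold Tb
    positivity
  have hΓc : (Γ.card : ℝ) ≤ (2 * Tb k0 n t r u d X + 1) ^ k0 := by
    have := card_Box K (Tb k0 n t r u d X) hTb
    rw [hk0] at this
    exact this
  have hAc : Fintype.card ((Fin n × (Fin r ⊕ Fin u)) → A) ≤
      ((r + u + 1) ^ (d + 2 * u + 2)) ^ (n * (r + u)) := by
    rw [Fintype.card_fun, Fintype.card_coe, Fintype.card_prod, Fintype.card_sum,
      Fintype.card_fin, Fintype.card_fin, Fintype.card_fin]
    exact Nat.pow_le_pow_left (card_expo r u d) _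
  calc ((FS K n X).ncard : ℝ) ≤ (W.card : ℝ) := by
        have := Set.ncard_le_ncard hsub (Finset.finite_toSet W)
        rw [Set.ncard_coe_finset] at this
        exact_mod_cast this
    _ ≤ (Fintype.card ((Fin n × (Fin r ⊕ Fin u)) → A) * Γ.card ^ (n * (r + u)) * B : ℕ) := by
        exact_mod_cast hWcard
    _ = (Fintype.card ((Fin n × (Fin r ⊕ Fin u)) → A) * B : ℕ) * (Γ.card : ℝ) ^ (n * (r + u)) := by
        push_cast; ring
    _ ≤ ((((r + u + 1) ^ (d + 2 * u + 2)) ^ (n * (r + u)) * B : ℕ) : ℝ)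
        * ((2 * Tb k0 n t r u d X + 1) ^ k0) ^ (n * (r + u)) := by
        apply mul_le_mul
        · exact_mod_cast Nat.mul_le_mul_right B hAc
        · exact pow_le_pow_left₀ (Nat.cast_nonneg _) hΓc _
        · positivity
        · positivity

lemma Tb_pow' (k0 n t r u d : ℕ) (hk0 : 0 < k0) (hn0 : 0 < n) (ht : t ≤ n) (X : ℝ) (hX : 1 ≤ X) :
    ((2 * Tb k0 n t r u d X + 1) ^ k0) ^ (n * (r + u)) ≤
      (3 * n * ((n * ((n * (r + u)) * (d + 1 + (2 * u + 1))) + 1 : ℕ) : ℝ) ^ (d + 2 * u + 2)) ^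
        (k0 * (n * (r + u))) * ((7 : ℝ) ^ (k0 * n)) ^ (2 * Ex n r d u t) * X ^ Ex n r d u t := by
  set c0 : ℕ := n * ((n * (r + u)) * (d + 1 + (2 * u + 1))) + 1 with hc0
  set q1 : ℕ := n + 1 - t with hq1
  set q2 : ℕ := (n + 1) / 2 with hq2
  set M : ℕ := n * (r + u) with hM
  have hq1p : 0 < q1 := by omega
  have hq2p : 0 < q2 := by omega
  set θ : ℝ := M * (((d + 1 : ℕ) : ℝ) / q1 + 2 * ((2 * u + 1 : ℕ) : ℝ) / q2) with hθ
  have hθE : θ = 2 * Ex n r d u t := by
    rw [hθ, Ex, ← hM, ← hq1, ← hq2]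
    have g2 : (q1 : ℝ) ≠ 0 := by exact_mod_cast hq1p.ne'
    have g3 : (q2 : ℝ) ≠ 0 := by exact_mod_cast hq2p.ne'
    field_simp
  set Y : ℝ := 7 ^ (k0 * n) * √X with hY
  have hXs : 1 ≤ √X := by rw [Real.one_le_sqrt]; exact hX
  have hYp : 0 < Y := by positivity
  set H1 := Hf k0 n q1 X with hH1
  set H2 := Hf k0 n q2 X with hH2
  have h1 : 1 ≤ H1 := one_le_Hf _ _ _ X hX
  have h2 : 1 ≤ H2 := one_le_Hf _ _ _ X hX
  have hc : (1 : ℝ) ≤ (c0 : ℝ) := by
    have : 1 ≤ c0 := by rw [hc0]; exact Nat.le_add_left 1 _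
    exact_mod_cast this
  have hn1 : (1 : ℝ) ≤ n := by exact_mod_cast hn0
  have hTb : Tb k0 n t r u d X = n * ((c0 * H1) ^ (d + 1) * (c0 * H2 ^ 2) ^ (2 * u + 1)) := rfl
  have hT1 : 1 ≤ Tb k0 n t r u d X := by
    rw [hTb]
    have e1 : 1 ≤ (c0 * H1) ^ (d + 1) := one_le_pow₀ (by nlinarith)
    have e2 : 1 ≤ (c0 * H2 ^ 2) ^ (2 * u + 1) := by
      apply one_le_pow₀
      have : 1 ≤ H2 ^ 2 := one_le_pow₀ h2
      nlinarith
    have e3 : 1 ≤ (c0 * H1) ^ (d + 1) * (c0 * H2 ^ 2) ^ (2 * u + 1) := by nlinarith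
    nlinarith
  have e4 : (2 * Tb k0 n t r u d X + 1) ≤ (3 * n * (c0 : ℝ) ^ (d + 2 * u + 2))
      * (H1 ^ (d + 1) * (H2 ^ 2) ^ (2 * u + 1)) := by
    calc (2 * Tb k0 n t r u d X + 1) ≤ 3 * Tb k0 n t r u d X := by linarith
      _ = _ := by
        rw [hTb, mul_pow, mul_pow, show d + 2 * u + 2 = (d + 1) + (2 * u + 1) by ring, pow_add]
        ring
  have e5 : (H1 ^ (d + 1) * (H2 ^ 2) ^ (2 * u + 1)) ^ (k0 * M) = Y ^ θ := by
    have f1 : H1 = Y ^ ((1 : ℝ) / (k0 * q1 : ℕ)) := rfl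
    have f2 : H2 = Y ^ ((1 : ℝ) / (k0 * q2 : ℕ)) := rfl
    rw [f1, f2, ← Real.rpow_natCast _ (d + 1), ← Real.rpow_mul hYp.le,
      ← Real.rpow_natCast _ 2, ← Real.rpow_mul hYp.le, ← Real.rpow_natCast _ (2 * u + 1),
      ← Real.rpow_mul hYp.le, ← Real.rpow_add hYp, ← Real.rpow_natCast _ (k0 * M),
      ← Real.rpow_mul hYp.le]
    congr 1
    rw [hθ]
    have g1 : (k0 : ℝ) ≠ 0 := by exact_mod_cast hk0.ne'
    have g2 : (q1 : ℝ) ≠ 0 := by exact_mod_cast hq1p.ne'
    have g3 : (q2 : ℝ) ≠ 0 := by exact_mod_cast hq2p.ne'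
    push_cast
    field_simp
  have e6 : Y ^ θ = ((7 : ℝ) ^ (k0 * n)) ^ (2 * Ex n r d u t) * X ^ Ex n r d u t := by
    rw [hY, Real.mul_rpow (by positivity) (by positivity), Real.sqrt_eq_rpow, ← Real.rpow_mul
      (by linarith), hθE]
    congr 2
    ring
  calc ((2 * Tb k0 n t r u d X + 1) ^ k0) ^ M = (2 * Tb k0 n t r u d X + 1) ^ (k0 * M) := by
        rw [← pow_mul]
    _ ≤ ((3 * n * (c0 : ℝ) ^ (d + 2 * u + 2))
      * (H1 ^ (d + 1) * (H2 ^ 2) ^ (2 * u + 1))) ^ (k0 * M) := by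
        apply pow_le_pow_left₀ (by linarith) e4
    _ = _ := by rw [mul_pow, e5, e6]; ring

end Pool.Agent.L5helper71.Nf
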