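import Mathlib
import Pool.Agent.W301.LinI3
import Pool.Agent.L5helper71.NfCount

set_option autoImplicit false

/-!
The count of the fields of degree `n`, uniform in `n`.
-/

namespace Pool.Agent.L5helper71.Nf

open MvPolynomial Module NumberField Pool.Agent.W301.Lin

lemma RD_le (n r d u t : ℕ) (hn : 1 ≤ n) (ht : t ≤ n) :
    ((r : ℝ) + u) * (d + 2 * u + 2) ≤ 4 * Ex n r d u t := by
  have hn1 : (1 : ℝ) ≤ n := by exact_mod_cast hn
  set q1 : ℕ := n + 1 - t with hq1
  set q2 : ℕ := (n + 1) / 2 with hq2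
  have a1 : 0 < q1 := by omega
  have a2 : 0 < q2 := by omega
  have b1 : (q1 : ℝ) ≤ 2 * n := by
    have : q1 ≤ 2 * n := by omega
    exact_mod_cast this
  have b2 : (q2 : ℝ) ≤ n := by
    have : q2 ≤ n := by omega
    exact_mod_cast this
  have c1 : (0 : ℝ) < q1 := by exact_mod_cast a1
  have c2 : (0 : ℝ) < q2 := by exact_mod_cast a2
  have h1 : ((d : ℝ) + 1) / (4 * n) ≤ ((d + 1 : ℕ) : ℝ) / (2 * (q1 : ℝ)) := by
    push_cast
    apply div_le_div_of_nonneg_left (by positivity) (by positivity)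
    linarith
  have h2 : (2 * (u : ℝ) + 1) / n ≤ ((2 * u + 1 : ℕ) : ℝ) / (q2 : ℝ) := by
    push_cast
    gcongr
  have h3 : (n : ℝ) * (r + u) * (((d : ℝ) + 1) / (4 * n) + (2 * (u : ℝ) + 1) / n) ≤
      Ex n r d u t := by
    unfold Ex
    rw [← hq1, ← hq2]
    push_cast
    push_cast at h1 h2
    gcongr
  have h4 : (n : ℝ) * (r + u) * (((d : ℝ) + 1) / (4 * n) + (2 * (u : ℝ) + 1) / n) =
      (r + u) * ((d + 1) / 4 + (2 * u + 1)) := by
    field_simp
  rw [h4] at h3
  have h5 : (0 : ℝ) ≤ (r : ℝ) + u := by positivity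
  have h6 : ((r : ℝ) + u) * (d + 2 * u + 2) ≤ 4 * ((r + u) * ((d + 1) / 4 + (2 * u + 1))) := by
    have : 4 * (((r : ℝ) + u) * ((d + 1) / 4 + (2 * u + 1))) = (r + u) * (d + 1 + 8 * u + 4) := by
      ring
    rw [this]
    apply mul_le_mul_of_nonneg_left _ h5
    have : (0 : ℝ) ≤ u := Nat.cast_nonneg _
    linarith
  linarith


lemma pow_eq_exp {x : ℝ} (hx : 0 < x) (k : ℕ) : x ^ k = Real.exp (k * Real.log x) := by
  rw [mul_comm, ← Real.rpow_natCast, Real.rpow_def_of_pos hx]

lemma const_le (n r d u t k0 : ℕ) (hn : 1 ≤ n) (hk0 : 1 ≤ k0) (ht : t ≤ n) :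
    ((((r + u + 1) ^ (d + 2 * u + 2)) ^ (n * (r + u)) *
        (n * (r + u) * (d + 2 * u + 2) + 1) ^ (n * (r + u)) : ℕ) : ℝ) *
      ((3 * n * ((n * ((n * (r + u)) * (d + 1 + (2 * u + 1))) + 1 : ℕ) : ℝ) ^ (d + 2 * u + 2)) ^
        (k0 * (n * (r + u))) * ((7 : ℝ) ^ (k0 * n)) ^ (2 * Ex n r d u t)) ≤
      Real.exp (k0 * n * (4 * Ex n r d u t) *
        (3 * Real.log (4 * Ex n r d u t + 1) + 4 * Real.log n + 3)) := by
  have hn1 : (1 : ℝ) ≤ n := by exact_mod_cast hn
  have hk1 : (1 : ℝ) ≤ k0 := by exact_mod_cast hk0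
  have hRD := RD_le n r d u t hn ht
  set E : ℝ := 4 * Ex n r d u t with hE
  set R : ℝ := (r : ℝ) + u with hR
  set D : ℝ := (d : ℝ) + 2 * u + 2 with hD
  have hR0 : 0 ≤ R := by positivity
  have hD2 : 2 ≤ D := by
    have h1 : (0 : ℝ) ≤ d := Nat.cast_nonneg _
    have h2 : (0 : ℝ) ≤ u := Nat.cast_nonneg _
    rw [hD]; linarith
  have hE0 : 0 ≤ E := le_trans (by positivity) hRD
  have hRE : R ≤ E := le_trans (by nlinarith) hRD
  have hlE : 0 ≤ Real.log (E + 1) := Real.log_nonneg (by linarith)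
  have hln : 0 ≤ Real.log n := Real.log_nonneg hn1
  -- the first factor
  have t1 : ((((r + u + 1) ^ (d + 2 * u + 2)) ^ (n * (r + u)) : ℕ) : ℝ) ≤
      Real.exp (n * E * Real.log (E + 1)) := by
    push_cast
    rw [← pow_mul, pow_eq_exp (by positivity)]
    apply Real.exp_le_exp.2
    push_cast
    have h1 : Real.log ((r : ℝ) + u + 1) ≤ Real.log (E + 1) :=
      Real.log_le_log (by positivity) (by rw [← hR]; linarith)
    have h2 : 0 ≤ Real.log ((r : ℝ) + u + 1) := Real.log_nonneg (by rw [← hR]; linarith)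
    calc ((d : ℝ) + 2 * u + 2) * (n * (r + u)) * Real.log ((r : ℝ) + u + 1)
        = n * (R * D) * Real.log ((r : ℝ) + u + 1) := by rw [hR, hD]; ring
      _ ≤ n * E * Real.log (E + 1) := by gcongr
  -- the second factor
  have t2 : (((n * (r + u) * (d + 2 * u + 2) + 1) ^ (n * (r + u)) : ℕ) : ℝ) ≤
      Real.exp (n * E * (Real.log n + Real.log (E + 1))) := by
    push_cast
    rw [pow_eq_exp (by positivity)]
    apply Real.exp_le_exp.2
    push_cast
    have h1 : (n : ℝ) * (r + u) * (d + 2 * u + 2) + 1 ≤ n * (E + 1) := by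
      have : (n : ℝ) * (r + u) * (d + 2 * u + 2) = n * (R * D) := by rw [hR, hD]; ring
      rw [this]
      nlinarith
    have h2 : Real.log ((n : ℝ) * (r + u) * (d + 2 * u + 2) + 1) ≤
        Real.log n + Real.log (E + 1) := by
      rw [← Real.log_mul (by positivity) (by positivity)]
      exact Real.log_le_log (by positivity) h1
    have h3 : 0 ≤ Real.log ((n : ℝ) * (r + u) * (d + 2 * u + 2) + 1) :=
      Real.log_nonneg (by
        have : (0 : ℝ) ≤ (n : ℝ) * (r + u) * (d + 2 * u + 2) := by positivity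
        linarith)
    calc (n : ℝ) * (r + u) * Real.log ((n : ℝ) * (r + u) * (d + 2 * u + 2) + 1)
        = n * R * Real.log ((n : ℝ) * (r + u) * (d + 2 * u + 2) + 1) := by rw [hR]
      _ ≤ n * E * (Real.log n + Real.log (E + 1)) := by gcongr
  -- the third factor
  have t3 : (3 * n * ((n * ((n * (r + u)) * (d + 1 + (2 * u + 1))) + 1 : ℕ) : ℝ) ^
      (d + 2 * u + 2)) ^ (k0 * (n * (r + u))) ≤
      Real.exp (k0 * n * E * (Real.log 3 + Real.log n + (2 * Real.log n + Real.log (E + 1)))) := by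
    set c0 : ℝ := ((n * ((n * (r + u)) * (d + 1 + (2 * u + 1))) + 1 : ℕ) : ℝ) with hc0
    have hc1 : c0 = n * n * (R * D) + 1 := by
      rw [hc0, hR, hD]
      push_cast
      ring
    have hc2 : 1 ≤ c0 := by
      rw [hc1]
      have : 0 ≤ (n : ℝ) * n * (R * D) := by positivity
      linarith
    have hc3 : c0 ≤ n ^ 2 * (E + 1) := by
      rw [hc1]
      have : (n : ℝ) * n * (R * D) ≤ n * n * E := by gcongr
      nlinarith
    have hlc : Real.log c0 ≤ 2 * Real.log n + Real.log (E + 1) := by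
      have h1 : Real.log ((n : ℝ) ^ 2 * (E + 1)) = 2 * Real.log n + Real.log (E + 1) := by
        rw [Real.log_mul (by positivity) (by positivity), Real.log_pow]
        push_cast
        ring
      rw [← h1]
      exact Real.log_le_log (by linarith) hc3
    have hlc0 : 0 ≤ Real.log c0 := Real.log_nonneg hc2
    have hb : (0 : ℝ) < 3 * n * c0 ^ (d + 2 * u + 2) := by positivity
    rw [pow_eq_exp hb, Real.log_mul (by positivity) (by positivity), Real.log_pow,
      Real.log_mul (by norm_num) (by positivity)]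
    apply Real.exp_le_exp.2
    push_cast
    have hl3 : 0 ≤ Real.log 3 := Real.log_nonneg (by norm_num)
    calc (k0 : ℝ) * (n * (r + u)) * (Real.log 3 + Real.log n + (d + 2 * u + 2) * Real.log c0)
        = k0 * n * (R * (Real.log 3 + Real.log n) + R * D * Real.log c0) := by
          rw [hR, hD]; ring
      _ ≤ k0 * n * (E * (Real.log 3 + Real.log n) + E * (2 * Real.log n + Real.log (E + 1))) := by
          gcongr
      _ = _ := by ring
  -- the fourth factor
  have t4 : ((7 : ℝ) ^ (k0 * n)) ^ (2 * Ex n r d u t) ≤ Real.exp (k0 * n * E) := by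
    rw [Real.rpow_def_of_pos (by positivity), Real.log_pow]
    apply Real.exp_le_exp.2
    push_cast
    have h7 : Real.log 7 ≤ 2 := by
      have h1 : Real.log 7 ≤ Real.log (Real.exp 2) := by
        apply Real.log_le_log (by norm_num)
        have h2 := Real.exp_one_gt_d9
        have h3 : Real.exp 2 = Real.exp 1 * Real.exp 1 := by
          rw [← Real.exp_add]; norm_num
        rw [h3]
        nlinarith
      rwa [Real.log_exp] at h1
    have h8 : 2 * Ex n r d u t = E / 2 := by rw [hE]; ring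
    rw [h8]
    have h9 : (0 : ℝ) ≤ k0 * n * E := by positivity
    calc (k0 : ℝ) * n * Real.log 7 * (E / 2) = (k0 * n * E) * (Real.log 7 / 2) := by ring
      _ ≤ (k0 * n * E) * 1 := by
        apply mul_le_mul_of_nonneg_left _ h9
        linarith
      _ = k0 * n * E := by ring
  have h3 : Real.log 3 ≤ 2 := by
    have h1 : Real.log 3 ≤ Real.log (Real.exp 2) := by
      apply Real.log_le_log (by norm_num)
      have h2 := Real.exp_one_gt_d9
      have h3 : Real.exp 2 = Real.exp 1 * Real.exp 1 := by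
        rw [← Real.exp_add]; norm_num
      rw [h3]
      nlinarith
    rwa [Real.log_exp] at h1
  push_cast at t1 t2 ⊢
  push_cast at t3
  calc _ ≤ (Real.exp (n * E * Real.log (E + 1)) *
        Real.exp (n * E * (Real.log n + Real.log (E + 1)))) *
        (Real.exp (k0 * n * E * (Real.log 3 + Real.log n +
          (2 * Real.log n + Real.log (E + 1)))) * Real.exp (k0 * n * E)) := by
        gcongr
    _ = Real.exp (n * E * (Real.log n + 2 * Real.log (E + 1)) +
        k0 * n * E * (Real.log 3 + 3 * Real.log n + Real.log (E + 1) + 1)) := by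
        rw [← Real.exp_add, ← Real.exp_add, ← Real.exp_add]
        congr 1
        ring
    _ ≤ _ := by
        apply Real.exp_le_exp.2
        have h1 : (n : ℝ) * E * (Real.log n + 2 * Real.log (E + 1)) ≤
            k0 * n * E * (Real.log n + 2 * Real.log (E + 1)) := by
          have h2 : 0 ≤ (n : ℝ) * E * (Real.log n + 2 * Real.log (E + 1)) := by positivity
          calc (n : ℝ) * E * (Real.log n + 2 * Real.log (E + 1))
              = 1 * (n * E * (Real.log n + 2 * Real.log (E + 1))) := by ring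
            _ ≤ k0 * (n * E * (Real.log n + 2 * Real.log (E + 1))) := by gcongr
            _ = _ := by ring
        have h2 : (k0 : ℝ) * n * E * (Real.log 3 + 3 * Real.log n + Real.log (E + 1) + 1) ≤
            k0 * n * E * (2 + 3 * Real.log n + Real.log (E + 1) + 1) := by
          gcongr
        calc _ ≤ k0 * n * E * (Real.log n + 2 * Real.log (E + 1)) +
              k0 * n * E * (2 + 3 * Real.log n + Real.log (E + 1) + 1) := add_le_add h1 h2
          _ = _ := by ring

/-- the count with one parameter -/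
theorem card_one (n r d u m t k0 : ℕ) (hn : 1 ≤ n) (hr : 0 < r) (ht : t ≤ n)
    (hrd : (r + 1) * n ≤ (r + d).choose r)
    (hm : n * (n - t) ^ m < n ^ m) (hmu : m ≤ 2 ^ u) (K : Type) [Field K] [NumberField K]
    (hk0 : finrank ℚ K = k0) (X : ℝ) (hX : 1 ≤ X) :
    (FS K n X).Finite ∧
      ((FS K n X).ncard : ℝ) ≤ Real.exp (k0 * n * (4 * Ex n r d u t) *
        (3 * Real.log (4 * Ex n r d u t + 1) + 4 * Real.log n + 3)) * X ^ Ex n r d u t := by
  have hk : 1 ≤ k0 := by rw [← hk0]; exact Module.finrank_pos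
  obtain ⟨h1, h2⟩ := card_FS n r d u m t k0 (by omega) hr ht hrd hm hmu K hk0 X hX
  refine ⟨h1, h2.trans ?_⟩
  have h3 := Tb_pow' k0 n t r u d (by omega) (by omega) ht X hX
  have h4 := const_le n r d u t k0 hn hk ht
  have hXp : 0 ≤ X ^ Ex n r d u t := by positivity
  calc _ ≤ ((((r + u + 1) ^ (d + 2 * u + 2)) ^ (n * (r + u)) *
        (n * (r + u) * (d + 2 * u + 2) + 1) ^ (n * (r + u)) : ℕ) : ℝ) * _ :=
        mul_le_mul_of_nonneg_left h3 (Nat.cast_nonneg _)
    _ = (((((r + u + 1) ^ (d + 2 * u + 2)) ^ (n * (r + u)) *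
        (n * (r + u) * (d + 2 * u + 2) + 1) ^ (n * (r + u)) : ℕ) : ℝ) *
      ((3 * n * ((n * ((n * (r + u)) * (d + 1 + (2 * u + 1))) + 1 : ℕ) : ℝ) ^
        (d + 2 * u + 2)) ^ (k0 * (n * (r + u))) *
        ((7 : ℝ) ^ (k0 * n)) ^ (2 * Ex n r d u t))) * X ^ Ex n r d u t := by ring
    _ ≤ _ := mul_le_mul_of_nonneg_right h4 hXp

end Pool.Agent.L5helper71.Nf
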