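import Mathlib
import Pool.Agent.L5helper71.NfExp

set_option autoImplicit false

/-!
The count of the fields of degree `n`, uniform in `n`, and the count of all number fields.
-/

namespace Pool.Agent.L5helper71.Nf

open MvPolynomial Module NumberField Pool.Agent.W301.Lin

lemma log_two_gt : (0.69 : ℝ) < Real.log 2 := by
  have := Real.log_two_gt_d9
  linarith

/-- parameters for all degrees -/
theorem params (c : ℝ) (hc : 1 / (8 * (Real.log 2) ^ 2) < c) :
    ∃ A : ℝ, 0 ≤ A ∧ ∀ n : ℕ, 2 ≤ n → ∃ r d u m t : ℕ, 0 < r ∧ t ≤ n ∧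
      (r + 1) * n ≤ (r + d).choose r ∧ n * (n - t) ^ m < n ^ m ∧ m ≤ 2 ^ u ∧
      Ex n r d u t ≤ c * (Real.log n) ^ 2 + A := by
  have hc0 : 0 < c := lt_trans (by positivity) hc
  obtain ⟨N, hN⟩ := Filter.eventually_atTop.1 (eventually_good c hc)
  refine ⟨(N : ℝ) * (N + 1), by positivity, fun n hn => ?_⟩
  by_cases h : N ≤ n
  · obtain ⟨r, d, u, m, t, h1, h2, h3, h4, h5, h6⟩ := hN n h
    refine ⟨r, d, u, m, t, h1, h2, h3, h4, h5, h6.trans ?_⟩
    have : (0 : ℝ) ≤ (N : ℝ) * (N + 1) := by positivity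
    linarith
  · push Not at h
    refine ⟨1, 2 * n - 1, 0, 1, n, one_pos, le_rfl, ?_, ?_, by norm_num, ?_⟩
    · rw [Nat.choose_one_right]
      omega
    · simp
      omega
    · have h1 : Ex n 1 (2 * n - 1) 0 n ≤ (n : ℝ) * (n + 1) := by
        unfold Ex
        have e1 : n + 1 - n = 1 := by omega
        have e2 : 2 * n - 1 + 1 = 2 * n := by omega
        have e3 : 1 ≤ (n + 1) / 2 := by omega
        rw [e1, e2]
        have e4 : (1 : ℝ) ≤ (((n + 1) / 2 : ℕ) : ℝ) := by exact_mod_cast e3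
        have e5 : (1 : ℝ) / (((n + 1) / 2 : ℕ) : ℝ) ≤ 1 := by
          rw [div_le_one (by linarith)]
          exact e4
        have e6 : ((n * (1 + 0) : ℕ) : ℝ) = n := by simp
        have e7 : ((2 * n : ℕ) : ℝ) / (2 * ((1 : ℕ) : ℝ)) = n := by
          push_cast
          ring
        have e8 : ((2 * 0 + 1 : ℕ) : ℝ) = 1 := by norm_num
        rw [e6, e7, e8]
        gcongr
      refine h1.trans ?_
      have h2 : (n : ℝ) ≤ N := by exact_mod_cast h.le
      have h3 : 0 ≤ c * (Real.log n) ^ 2 := by positivity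
      have h4 : (n : ℝ) * (n + 1) ≤ N * (N + 1) := by gcongr
      linarith


/-- **The count of the extensions of degree `n`, uniform in `n` and in the base field.** -/
theorem uniform (c : ℝ) (hc : 1 / (8 * (Real.log 2) ^ 2) < c) :
    ∃ A : ℝ, 0 ≤ A ∧ ∀ (K : Type) [Field K] [NumberField K] (n : ℕ), 2 ≤ n → ∀ X : ℝ, 1 ≤ X →
      (FS K n X).Finite ∧ ((FS K n X).ncard : ℝ) ≤
        Real.exp (A * finrank ℚ K * n * (Real.log n) ^ 3) * X ^ (c * (Real.log n) ^ 2 + A) := by
  have hc0 : 0 < c := lt_trans (by positivity) hc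
  have hl2 : (0 : ℝ) < Real.log 2 := by have := log_two_gt; linarith
  obtain ⟨A0, hA0, hp⟩ := params c hc
  set A1 : ℝ := 4 * c + 4 * A0 / (Real.log 2) ^ 2 with hA1
  have hA10 : 0 < A1 := by positivity
  set A2 : ℝ := Real.log (A1 + 1) / Real.log 2 + 2 with hA2
  have hA20 : 0 ≤ A2 := by
    have : 0 ≤ Real.log (A1 + 1) := Real.log_nonneg (by linarith)
    positivity
  refine ⟨A0 + A1 * (3 * A2 + 4 + 3 / Real.log 2), by positivity, ?_⟩
  intro K _ _ n hn X hX
  obtain ⟨r, d, u, m, t, h1, h2, h3, h4, h5, h6⟩ := hp n hn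
  obtain ⟨h7, h8⟩ := card_one n r d u m t (finrank ℚ K) (by omega) h1 h2 h3 h4 h5 K rfl X hX
  refine ⟨h7, h8.trans ?_⟩
  have hn2 : (2 : ℝ) ≤ n := by exact_mod_cast hn
  have hln : Real.log 2 ≤ Real.log n := Real.log_le_log (by norm_num) hn2
  have hln0 : 0 < Real.log n := by linarith
  set E : ℝ := 4 * Ex n r d u t with hE
  have hE0 : 0 ≤ E := by
    have := RD_le n r d u t (by omega) h2
    exact le_trans (by positivity) this
  have hE1 : E ≤ A1 * (Real.log n) ^ 2 := by
    have h9 : A0 ≤ A0 / (Real.log 2) ^ 2 * (Real.log n) ^ 2 := by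
      rw [div_mul_eq_mul_div, le_div_iff₀ (by positivity)]
      gcongr
    calc E ≤ 4 * (c * (Real.log n) ^ 2 + A0) := by rw [hE]; linarith
      _ ≤ 4 * (c * (Real.log n) ^ 2 + A0 / (Real.log 2) ^ 2 * (Real.log n) ^ 2) := by gcongr
      _ = A1 * (Real.log n) ^ 2 := by rw [hA1]; ring
  have hlogn : Real.log n ≤ n := by
    have := Real.log_le_sub_one_of_pos (show (0 : ℝ) < n by linarith)
    linarith
  have hE2 : Real.log (E + 1) ≤ A2 * Real.log n := by
    have h9 : E + 1 ≤ (A1 + 1) * n ^ 2 := by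
      have h10 : (Real.log n) ^ 2 ≤ (n : ℝ) ^ 2 := pow_le_pow_left₀ hln0.le hlogn 2
      have h11 : A1 * (Real.log n) ^ 2 ≤ A1 * (n : ℝ) ^ 2 := by gcongr
      have h12 : (1 : ℝ) ≤ (n : ℝ) ^ 2 := by nlinarith
      nlinarith
    calc Real.log (E + 1) ≤ Real.log ((A1 + 1) * n ^ 2) := Real.log_le_log (by linarith) h9
      _ = Real.log (A1 + 1) + 2 * Real.log n := by
        rw [Real.log_mul (by positivity) (by positivity), Real.log_pow]
        push_cast
        ring
      _ ≤ Real.log (A1 + 1) / Real.log 2 * Real.log n + 2 * Real.log n := by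
        gcongr
        rw [div_mul_eq_mul_div, le_div_iff₀ hl2]
        have : 0 ≤ Real.log (A1 + 1) := Real.log_nonneg (by linarith)
        gcongr
      _ = A2 * Real.log n := by rw [hA2]; ring
  have hE3 : 3 * Real.log (E + 1) + 4 * Real.log n + 3 ≤
      (3 * A2 + 4 + 3 / Real.log 2) * Real.log n := by
    have h9 : 3 ≤ 3 / Real.log 2 * Real.log n := by
      rw [div_mul_eq_mul_div, le_div_iff₀ hl2]
      gcongr
    linarith
  have hlE : 0 ≤ Real.log (E + 1) := Real.log_nonneg (by linarith)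
  apply mul_le_mul
  · apply Real.exp_le_exp.2
    calc (finrank ℚ K : ℝ) * n * E * (3 * Real.log (E + 1) + 4 * Real.log n + 3)
        ≤ (finrank ℚ K : ℝ) * n * (A1 * (Real.log n) ^ 2) *
          ((3 * A2 + 4 + 3 / Real.log 2) * Real.log n) := by gcongr
      _ = (A1 * (3 * A2 + 4 + 3 / Real.log 2)) * finrank ℚ K * n * (Real.log n) ^ 3 := by ring
      _ ≤ (A0 + A1 * (3 * A2 + 4 + 3 / Real.log 2)) * finrank ℚ K * n * (Real.log n) ^ 3 := by
        gcongr
        linarith
  · apply Real.rpow_le_rpow_of_exponent_le hX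
    have : 0 ≤ A1 * (3 * A2 + 4 + 3 / Real.log 2) := by positivity
    linarith
  · positivity
  · positivity

end Pool.Agent.L5helper71.Nf
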