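import Mathlib
import Pool.Agent.L5helper71.NfUni

set_option autoImplicit false

/-!
The count of all number fields.
-/

namespace Pool.Agent.L5helper71.Nf

open MvPolynomial Module NumberField Pool.Agent.W301.Lin

/-- the finite extensions of `K` in the algebraic closure of `K` whose absolute discriminant has
absolute value at most `X` -/
def AllFS (K : Type) [Field K] [NumberField K] (X : ℝ) :
    Set (IntermediateField K (AlgebraicClosure K)) :=
  {L | ∃ h : NumberField L, ((|@NumberField.discr L _ h| : ℤ) : ℝ) ≤ X}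

lemma degree_le {K : Type} [Field K] [NumberField K] {X : ℝ} (hX : 16 ≤ X)
    {L : IntermediateField K (AlgebraicClosure K)} (hL : L ∈ AllFS K X)
    (h2 : 2 ≤ finrank K L) : (finrank ℚ K : ℝ) * finrank K L ≤ 2 * Real.log X := by
  obtain ⟨hNF, hD⟩ := hL
  have : FiniteDimensional K L := Module.Finite.of_restrictScalars_finite ℚ K L
  have hk : 1 ≤ finrank ℚ K := Module.finrank_pos
  set m := finrank ℚ L with hm
  have hmn : m = finrank ℚ K * finrank K L := (Module.finrank_mul_finrank ℚ K L).symm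
  have hm2 : 2 ≤ m := by rw [hmn]; nlinarith
  have h3 := NumberField.abs_discr_ge (K := L) (by omega)
  rw [← hm] at h3
  have h4 : (4 / 9 : ℝ) * (3 * Real.pi / 4) ^ m ≤ X := by
    refine h3.trans ?_
    exact_mod_cast hD
  obtain ⟨j, hj⟩ : ∃ j, m = j + 1 := ⟨m - 1, by omega⟩
  rw [hj] at h4 hmn
  have hpi : (9 / 4 : ℝ) ≤ 3 * Real.pi / 4 := by
    have := Real.pi_gt_three
    linarith
  have h5 : (2 : ℝ) ^ j ≤ X := by
    calc (2 : ℝ) ^ j ≤ (9 / 4 : ℝ) ^ j := by gcongr; norm_num
      _ = (4 / 9 : ℝ) * (9 / 4) ^ (j + 1) := by rw [pow_succ]; ring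
      _ ≤ (4 / 9 : ℝ) * (3 * Real.pi / 4) ^ (j + 1) := by gcongr
      _ ≤ X := h4
  have h6 : (j : ℝ) * Real.log 2 ≤ Real.log X := by
    rw [← Real.log_pow]
    exact Real.log_le_log (by positivity) h5
  have hl : 4 * Real.log 2 ≤ Real.log X := by
    have h7 : Real.log 16 = 4 * Real.log 2 := by
      rw [show (16 : ℝ) = 2 ^ 4 by norm_num, Real.log_pow]
      push_cast
      ring
    rw [← h7]
    exact Real.log_le_log (by norm_num) hX
  have h8 := log_two_gt
  have h9 : (finrank ℚ K : ℝ) * finrank K L = j + 1 := by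
    have : ((j + 1 : ℕ) : ℝ) = ((finrank ℚ K * finrank K L : ℕ) : ℝ) := by rw [← hmn]
    push_cast at this
    linarith
  rw [h9]
  nlinarith

/-- **The number of all number fields of bounded discriminant.** -/
theorem all_degrees : ∃ A : ℝ, 0 ≤ A ∧ ∀ (K : Type) [Field K] [NumberField K] (X : ℝ), 16 ≤ X →
    (AllFS K X).Finite ∧ ((AllFS K X).ncard : ℝ) ≤
      Real.exp (A * Real.log X * (Real.log (Real.log X)) ^ 3) := by
  classical
  have hl2 := log_two_gt
  have hl2' : Real.log 2 < 0.7 := by have := Real.log_two_lt_d9; linarith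
  obtain ⟨A0, hA0, hu⟩ := uniform 1 (by
    rw [div_lt_one (by positivity)]
    nlinarith)
  refine ⟨17 * A0 + 6, by positivity, ?_⟩
  intro K _ _ X hX
  set l := Real.log X with hl
  have hl4 : 4 * Real.log 2 ≤ l := by
    have h7 : Real.log 16 = 4 * Real.log 2 := by
      rw [show (16 : ℝ) = 2 ^ 4 by norm_num, Real.log_pow]
      push_cast
      ring
    rw [← h7]
    exact Real.log_le_log (by norm_num) hX
  have hlpos : 0 < l := by linarith
  have hle : Real.exp 1 ≤ l := by
    have h1 := Real.exp_one_lt_d9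
    have h2 := Real.log_two_gt_d9
    linarith
  set v := Real.log l with hv
  have hv1 : 1 ≤ v := by
    rw [hv, ← Real.log_exp 1]
    exact Real.log_le_log (Real.exp_pos 1) hle
  set k0 := finrank ℚ K with hk0
  have hk1 : 1 ≤ k0 := Module.finrank_pos
  set I : Finset ℕ := (Finset.Icc 2 ⌊2 * l⌋₊).filter (fun n => (k0 : ℝ) * n ≤ 2 * l) with hI
  set W : Finset (IntermediateField K (AlgebraicClosure K)) :=
    insert ⊥ (I.biUnion fun n => if h : (FS K n X).Finite then h.toFinset else ∅) with hW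
  have hX1 : 1 ≤ X := by linarith
  have hsub : AllFS K X ⊆ ↑W := by
    intro L hL
    have hNF : NumberField L := hL.1
    have hfd : FiniteDimensional K L := Module.Finite.of_restrictScalars_finite ℚ K L
    have hpos : 0 < finrank K L := Module.finrank_pos
    rw [Finset.mem_coe, hW, Finset.mem_insert]
    by_cases h1 : finrank K L = 1
    · left
      exact IntermediateField.finrank_eq_one_iff.1 h1
    · right
      have h2 : 2 ≤ finrank K L := by omega
      have h3 := degree_le hX hL h2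
      rw [Finset.mem_biUnion]
      refine ⟨finrank K L, ?_, ?_⟩
      · rw [hI, Finset.mem_filter, Finset.mem_Icc]
        refine ⟨⟨h2, ?_⟩, h3⟩
        apply Nat.le_floor
        have h4 : (1 : ℝ) ≤ k0 := by exact_mod_cast hk1
        have h5 : (0 : ℝ) ≤ finrank K L := Nat.cast_nonneg _
        nlinarith
      · have h4 := (hu K (finrank K L) h2 X hX1).1
        rw [dif_pos h4, Set.Finite.mem_toFinset]
        exact ⟨rfl, hL⟩
  have hfin : (AllFS K X).Finite := (Finset.finite_toSet W).subset hsub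
  refine ⟨hfin, ?_⟩
  set B : ℝ := l * v ^ 3 * (17 * A0 + 4) with hB
  have hterm : ∀ n ∈ I, (((if h : (FS K n X).Finite then h.toFinset else ∅ :
      Finset (IntermediateField K (AlgebraicClosure K)))).card : ℝ) ≤ Real.exp B := by
    intro n hn
    rw [hI, Finset.mem_filter, Finset.mem_Icc] at hn
    obtain ⟨⟨h2, -⟩, h3⟩ := hn
    obtain ⟨h4, h5⟩ := hu K n h2 X hX1
    rw [dif_pos h4, ← Set.ncard_eq_toFinset_card _ h4]
    refine h5.trans ?_
    have hn2 : (2 : ℝ) ≤ n := by exact_mod_cast h2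
    have hn0 : 0 ≤ Real.log n := Real.log_nonneg (by linarith)
    have hk : (1 : ℝ) ≤ k0 := by exact_mod_cast hk1
    have hnl : (n : ℝ) ≤ 2 * l := by nlinarith
    have hlog : Real.log n ≤ 2 * v := by
      calc Real.log n ≤ Real.log (2 * l) := Real.log_le_log (by linarith) hnl
        _ = Real.log 2 + v := Real.log_mul (by norm_num) hlpos.ne'
        _ ≤ 2 * v := by linarith
    have hv2 : v ^ 2 ≤ v ^ 3 := pow_le_pow_right₀ hv1 (by norm_num)
    have hv3 : 1 ≤ v ^ 3 := one_le_pow₀ hv1
    rw [Real.rpow_def_of_pos (by linarith), ← Real.exp_add]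
    apply Real.exp_le_exp.2
    have e1 : A0 * k0 * n * (Real.log n) ^ 3 ≤ A0 * (2 * l) * (2 * v) ^ 3 := by
      have : A0 * k0 * n = A0 * (k0 * n) := by ring
      rw [this]
      gcongr
    have e2 : Real.log X * (1 * (Real.log n) ^ 2 + A0) ≤ l * (1 * (2 * v) ^ 2 + A0) := by
      rw [← hl]
      gcongr
    have e3 : l * (1 * (2 * v) ^ 2 + A0) ≤ l * (4 * v ^ 3 + A0 * v ^ 3) := by
      have : A0 ≤ A0 * v ^ 3 := le_mul_of_one_le_right hA0 hv3
      have h6 : 1 * (2 * v) ^ 2 = 4 * v ^ 2 := by ring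
      rw [h6]
      gcongr
    calc _ ≤ A0 * (2 * l) * (2 * v) ^ 3 + l * (4 * v ^ 3 + A0 * v ^ 3) :=
          add_le_add e1 (e2.trans e3)
      _ = B := by rw [hB]; ring
  have hcard : (I.card : ℝ) ≤ 2 * l := by
    have h1 : I.card ≤ ⌊2 * l⌋₊ := by
      refine (Finset.card_filter_le _ _).trans ?_
      rw [Nat.card_Icc]
      omega
    calc (I.card : ℝ) ≤ (⌊2 * l⌋₊ : ℝ) := by exact_mod_cast h1
      _ ≤ 2 * l := Nat.floor_le (by linarith)
  have hB0 : 0 ≤ B := by positivity
  have hWc : (W.card : ℝ) ≤ 1 + 2 * l * Real.exp B := by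
    have h1 : W.card ≤ 1 + ∑ n ∈ I, (if h : (FS K n X).Finite then h.toFinset else ∅ :
        Finset (IntermediateField K (AlgebraicClosure K))).card := by
      rw [hW, add_comm]
      refine (Finset.card_insert_le _ _).trans ?_
      exact Nat.add_le_add_right Finset.card_biUnion_le 1
    calc (W.card : ℝ) ≤ 1 + ∑ n ∈ I, (((if h : (FS K n X).Finite then h.toFinset else ∅ :
        Finset (IntermediateField K (AlgebraicClosure K)))).card : ℝ) := by exact_mod_cast h1
      _ ≤ 1 + ∑ _n ∈ I, Real.exp B := by gcongr with n hn; exact hterm n hn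
      _ = 1 + I.card * Real.exp B := by rw [Finset.sum_const, nsmul_eq_mul]
      _ ≤ 1 + 2 * l * Real.exp B := by gcongr
  have hexpB : 1 ≤ Real.exp B := Real.one_le_exp hB0
  have hv3 : 1 ≤ v ^ 3 := one_le_pow₀ hv1
  calc ((AllFS K X).ncard : ℝ) ≤ (W.card : ℝ) := by
        have := Set.ncard_le_ncard hsub (Finset.finite_toSet W)
        rw [Set.ncard_coe_finset] at this
        exact_mod_cast this
    _ ≤ 1 + 2 * l * Real.exp B := hWc
    _ ≤ (1 + 2 * l) * Real.exp B := by nlinarith
    _ ≤ Real.exp (2 * l) * Real.exp B := by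
        have : 2 * l + 1 ≤ Real.exp (2 * l) := Real.add_one_le_exp _
        gcongr
        linarith
    _ = Real.exp (2 * l + B) := by rw [Real.exp_add]
    _ ≤ Real.exp ((17 * A0 + 6) * l * v ^ 3) := by
        apply Real.exp_le_exp.2
        rw [hB]
        nlinarith [mul_le_mul_of_nonneg_left hv3 hlpos.le]

end Pool.Agent.L5helper71.Nf
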