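import Mathlib
import Pool.Agent.L5helper71.NfAll

set_option autoImplicit false

/-!
Towers of extensions of bounded degree.
-/

namespace Pool.Agent.L5helper71.Nf

open Module NumberField Pool.Agent.W301.Lin

/-- the extensions of `F` of relative degree `b` inside the algebraic closure of `K`, of
discriminant at most `X` -/
def Over {K : Type} [Field K] [NumberField K] (F : IntermediateField K (AlgebraicClosure K))
    (b : ℕ) (X : ℝ) : Set (IntermediateField K (AlgebraicClosure K)) :=
  {L | F ≤ L ∧ IntermediateField.relfinrank F L = b ∧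
    ∃ h : NumberField L, ((|@NumberField.discr L _ h| : ℤ) : ℝ) ≤ X}

lemma over_card {K : Type} [Field K] [NumberField K]
    (F : IntermediateField K (AlgebraicClosure K)) [hF : NumberField F] (b : ℕ) (X : ℝ)
    (hfin : (FS F b X).Finite) :
    (Over F b X).Finite ∧ (Over F b X).ncard ≤ (FS F b X).ncard := by
  classical
  have halg : Algebra.IsAlgebraic F (AlgebraicClosure K) := Algebra.IsAlgebraic.tower_top (K := K) F
  have hcl : IsAlgClosure F (AlgebraicClosure K) := ⟨inferInstance, halg⟩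
  let e : AlgebraicClosure K ≃ₐ[F] AlgebraicClosure F :=
    IsAlgClosure.equiv F (AlgebraicClosure K) (AlgebraicClosure F)
  let φ : IntermediateField K (AlgebraicClosure K) → IntermediateField F (AlgebraicClosure F) :=
    fun L => if h : F ≤ L then (IntermediateField.extendScalars h).map e.toAlgHom else ⊥
  have hmaps : ∀ L ∈ Over F b X, φ L ∈ FS F b X := by
    rintro L ⟨h1, h2, hNF, h3⟩
    have hφ : φ L = (IntermediateField.extendScalars h1).map e.toAlgHom := dif_pos h1
    rw [hφ]
    let g : IntermediateField.extendScalars h1 ≃ₐ[F]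
        (IntermediateField.extendScalars h1).map e.toAlgHom :=
      IntermediateField.equivMap _ _
    let g0 : L ≃+* IntermediateField.extendScalars h1 := RingEquiv.refl _
    let g1 : L ≃+* (IntermediateField.extendScalars h1).map e.toAlgHom :=
      g0.trans g.toRingEquiv
    have hNF' : NumberField ((IntermediateField.extendScalars h1).map e.toAlgHom) :=
      NumberField.of_ringEquiv _ _ g1
    refine ⟨?_, hNF', ?_⟩
    · rw [← g.toLinearEquiv.finrank_eq, ← h2, IntermediateField.relfinrank_eq_finrank_of_le h1]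
    · rw [← NumberField.discr_eq_discr_of_ringEquiv L g1]
      exact h3
  have hinj : Set.InjOn φ (Over F b X) := by
    rintro L ⟨h1, -⟩ L' ⟨h1', -⟩ heq
    have hφ : φ L = (IntermediateField.extendScalars h1).map e.toAlgHom := dif_pos h1
    have hφ' : φ L' = (IntermediateField.extendScalars h1').map e.toAlgHom := dif_pos h1'
    rw [hφ, hφ'] at heq
    have h4 := IntermediateField.map_injective e.toAlgHom heq
    have h5 := congrArg (IntermediateField.restrictScalars K) h4
    simpa using h5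
  have hfin' : (Over F b X).Finite :=
    Set.Finite.of_finite_image (hfin.subset (Set.image_subset_iff.2 hmaps)) hinj
  exact ⟨hfin', Set.ncard_le_ncard_of_injOn φ hmaps hinj hfin⟩

/-- the discriminant of a subfield -/
lemma discr_pow_le {K : Type} [Field K] [NumberField K]
    (F L : IntermediateField K (AlgebraicClosure K)) [hF : NumberField F] [hL : NumberField L]
    (h : F ≤ L) :
    (NumberField.discr F).natAbs ^ IntermediateField.relfinrank F L ≤
      (NumberField.discr L).natAbs := by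
  have hNF' : NumberField (IntermediateField.extendScalars h) :=
    NumberField.of_ringEquiv _ _ (RingEquiv.refl _ : L ≃+* IntermediateField.extendScalars h)
  have h1 : NumberField.discr L = NumberField.discr (IntermediateField.extendScalars h) :=
    NumberField.discr_eq_discr_of_ringEquiv L
      (RingEquiv.refl _ : L ≃+* IntermediateField.extendScalars h)
  rw [h1, IntermediateField.relfinrank_eq_finrank_of_le h,
    natAbs_discr_eq_absNorm_differentIdeal_mul_natAbs_discr_pow F (𝓞 F)
      (IntermediateField.extendScalars h) (𝓞 (IntermediateField.extendScalars h))]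
  apply Nat.le_mul_of_pos_left
  rw [Nat.pos_iff_ne_zero]
  intro h0
  have h2 := natAbs_discr_eq_absNorm_differentIdeal_mul_natAbs_discr_pow F (𝓞 F)
      (IntermediateField.extendScalars h) (𝓞 (IntermediateField.extendScalars h))
  rw [h0, zero_mul, Int.natAbs_eq_zero] at h2
  exact NumberField.discr_ne_zero _ h2

/-- `L` is obtained from `K` by a tower of extensions of degree at most `m` -/
inductive Tower (K : Type) [Field K] (m : ℕ) :
    IntermediateField K (AlgebraicClosure K) → Prop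
  | bot : Tower K m ⊥
  | step (F L : IntermediateField K (AlgebraicClosure K)) : Tower K m F → F ≤ L →
      1 ≤ IntermediateField.relfinrank F L → IntermediateField.relfinrank F L ≤ m → Tower K m L

lemma tower_pos {K : Type} [Field K] {m : ℕ} {L : IntermediateField K (AlgebraicClosure K)}
    (h : Tower K m L) : 1 ≤ finrank K L := by
  induction h with
  | bot => rw [IntermediateField.finrank_bot]
  | step F L _ h1 h2 _ ih =>
    rw [← IntermediateField.finrank_bot_mul_relfinrank h1]
    exact Nat.mul_pos ih h2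

lemma tower_step {K : Type} [Field K] {m : ℕ} {L : IntermediateField K (AlgebraicClosure K)}
    (h : Tower K m L) (h2 : 2 ≤ finrank K L) :
    ∃ F : IntermediateField K (AlgebraicClosure K), Tower K m F ∧ F ≤ L ∧
      2 ≤ IntermediateField.relfinrank F L ∧ IntermediateField.relfinrank F L ≤ m := by
  induction h with
  | bot => rw [IntermediateField.finrank_bot] at h2; omega
  | step F L hF h1 h3 h4 ih =>
    by_cases h5 : IntermediateField.relfinrank F L = 1
    · have h6 : F = L := le_antisymm h1 (IntermediateField.relfinrank_eq_one_iff.1 h5)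
      subst h6
      exact ih h2
    · exact ⟨F, hF, h1, by omega, h4⟩

/-- the towers of degree `n` and discriminant at most `X` -/
def TS (K : Type) [Field K] [NumberField K] (m n : ℕ) (X : ℝ) :
    Set (IntermediateField K (AlgebraicClosure K)) :=
  {L | Tower K m L ∧ finrank K L = n ∧
    ∃ h : NumberField L, ((|@NumberField.discr L _ h| : ℤ) : ℝ) ≤ X}

lemma sum_inv_sq (m : ℕ) (hm : 1 ≤ m) :
    ∑ b ∈ Finset.Icc 2 m, (1 : ℝ) / (b : ℝ) ^ 2 ≤ 1 - 1 / m := by
  induction m, hm using Nat.le_induction with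
  | base => simp
  | succ k hk ih =>
    rw [Finset.sum_Icc_succ_top (by omega)]
    have hk' : (1 : ℝ) ≤ k := by exact_mod_cast hk
    have h1 : (1 : ℝ) / ((k + 1 : ℕ) : ℝ) ^ 2 ≤ 1 / k - 1 / ((k + 1 : ℕ) : ℝ) := by
      push_cast
      rw [div_sub_div _ _ (by positivity) (by positivity), div_le_div_iff₀ (by positivity)
        (by positivity)]
      nlinarith
    linarith

lemma log_sq_le (b : ℕ) (hb : 1 ≤ b) : (Real.log b) ^ 2 ≤ 2 * b := by
  have hb' : (1 : ℝ) ≤ b := by exact_mod_cast hb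
  have h1 := Real.quadratic_le_exp_of_nonneg (Real.log_nonneg hb')
  rw [Real.exp_log (by linarith)] at h1
  have h2 := Real.log_nonneg hb'
  nlinarith

/-- the inclusion used in the induction -/
lemma ts_subset {K : Type} [Field K] [NumberField K] (m n : ℕ) (hn : 2 ≤ n) (X : ℝ) :
    TS K m n X ⊆ ⋃ b ∈ (Finset.Icc 2 m).filter (fun b => b ∣ n),
      ⋃ F ∈ TS K m (n / b) (X ^ ((1 : ℝ) / b)), Over F b X := by
  rintro L ⟨hT, hd, hNF, hD⟩
  obtain ⟨F, hF, hFL, h1, h2⟩ := tower_step hT (by omega)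
  set b := IntermediateField.relfinrank F L with hb
  have h3 : finrank K F * b = n := by
    rw [← hd]
    exact IntermediateField.finrank_bot_mul_relfinrank hFL
  have hfF : 1 ≤ finrank K F := tower_pos hF
  have hfd : FiniteDimensional K F := Module.finite_of_finrank_pos hfF
  have hNFF : NumberField F := NumberField.of_module_finite K F
  rw [Set.mem_iUnion₂]
  refine ⟨b, ?_, ?_⟩
  · rw [Finset.mem_filter, Finset.mem_Icc]
    exact ⟨⟨h1, h2⟩, ⟨finrank K F, by rw [← h3]; ring⟩⟩
  rw [Set.mem_iUnion₂]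
  refine ⟨F, ⟨hF, ?_, hNFF, ?_⟩, hFL, rfl, hNF, hD⟩
  · rw [← h3, Nat.mul_div_cancel _ (by omega)]
  · have h4 := discr_pow_le F L hFL
    rw [← hb] at h4
    have h5 : ((|NumberField.discr F| : ℤ) : ℝ) ^ b ≤ X := by
      refine le_trans ?_ hD
      have h6 : |NumberField.discr F| ^ b ≤ |NumberField.discr L| := by
        rw [Int.abs_eq_natAbs, Int.abs_eq_natAbs]
        exact_mod_cast h4
      exact_mod_cast h6
    have h7 : (0 : ℝ) ≤ ((|NumberField.discr F| : ℤ) : ℝ) := by
      exact_mod_cast abs_nonneg (NumberField.discr F)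
    have hb0 : (b : ℝ) ≠ 0 := by
      have : b ≠ 0 := by omega
      exact_mod_cast this
    calc ((|NumberField.discr F| : ℤ) : ℝ)
        = (((|NumberField.discr F| : ℤ) : ℝ) ^ b) ^ ((1 : ℝ) / b) := by
          rw [← Real.rpow_natCast, ← Real.rpow_mul h7, mul_one_div_cancel hb0, Real.rpow_one]
      _ ≤ X ^ ((1 : ℝ) / b) := Real.rpow_le_rpow (by positivity) h5 (by positivity)

/-- the arithmetic of one step of the induction -/
lemma step_arith (A c k0 X : ℝ) (hA : 0 ≤ A) (hc : 0 < c) (hk : 0 ≤ k0) (hX : 1 ≤ X)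
    (m b q : ℕ) (hb : 2 ≤ b) (hbm : b ≤ m) :
    ((q : ℝ) ^ 2 * Real.exp (2 * A * k0 * q * (Real.log m) ^ 3) *
        (X ^ ((1 : ℝ) / b)) ^ (c * (Real.log m) ^ 2 + (2 * A + 4 * c))) *
      (Real.exp (A * (k0 * q) * b * (Real.log b) ^ 3) * X ^ (c * (Real.log b) ^ 2 + A)) ≤
    (1 / (b : ℝ) ^ 2) * (((b * q : ℕ) : ℝ) ^ 2 *
      Real.exp (2 * A * k0 * ((b * q : ℕ) : ℝ) * (Real.log m) ^ 3) *
      X ^ (c * (Real.log m) ^ 2 + (2 * A + 4 * c))) := by
  have hb2 : (2 : ℝ) ≤ b := by exact_mod_cast hb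
  have hbm' : (b : ℝ) ≤ m := by exact_mod_cast hbm
  have hl0 : 0 ≤ Real.log b := Real.log_nonneg (by linarith)
  have hlm : Real.log b ≤ Real.log m := Real.log_le_log (by linarith) hbm'
  have hl3 : (Real.log b) ^ 3 ≤ (Real.log m) ^ 3 := pow_le_pow_left₀ hl0 hlm 3
  have hl2 : (Real.log b) ^ 2 ≤ (Real.log m) ^ 2 := pow_le_pow_left₀ hl0 hlm 2
  have hX0 : (0 : ℝ) < X := by linarith
  have hq : (0 : ℝ) ≤ q := Nat.cast_nonneg _
  have h3 : 0 ≤ (Real.log m) ^ 3 := by positivity
  have e1 : Real.exp (2 * A * k0 * q * (Real.log m) ^ 3) *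
      Real.exp (A * (k0 * q) * b * (Real.log b) ^ 3) ≤
      Real.exp (2 * A * k0 * ((b * q : ℕ) : ℝ) * (Real.log m) ^ 3) := by
    rw [← Real.exp_add]
    apply Real.exp_le_exp.2
    push_cast
    have h4 : A * (k0 * q) * b * (Real.log b) ^ 3 ≤ A * (k0 * q) * b * (Real.log m) ^ 3 := by
      gcongr
    have h5 : 0 ≤ A * (k0 * q) * (Real.log m) ^ 3 := by positivity
    nlinarith
  have e2 : (X ^ ((1 : ℝ) / b)) ^ (c * (Real.log m) ^ 2 + (2 * A + 4 * c)) *
      X ^ (c * (Real.log b) ^ 2 + A) ≤ X ^ (c * (Real.log m) ^ 2 + (2 * A + 4 * c)) := by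
    rw [← Real.rpow_mul hX0.le, ← Real.rpow_add hX0]
    apply Real.rpow_le_rpow_of_exponent_le hX
    have h6 := log_sq_le b (by omega)
    have hi : (1 : ℝ) / b ≤ 1 / 2 := by
      rw [div_le_div_iff₀ (by linarith) (by norm_num)]
      linarith
    have hi0 : 0 < (1 : ℝ) / b := by positivity
    have h7 : (1 : ℝ) / b * (Real.log b) ^ 2 ≤ 2 := by
      rw [one_div, inv_mul_le_iff₀ (by linarith)]
      linarith
    have h8 : (1 - (1 : ℝ) / b) * (c * (Real.log b) ^ 2) ≤
        (1 - (1 : ℝ) / b) * (c * (Real.log m) ^ 2) := by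
      apply mul_le_mul_of_nonneg_left _ (by linarith)
      gcongr
    have h9 : (1 / 2 : ℝ) * (2 * A + 4 * c) ≤ (1 - (1 : ℝ) / b) * (2 * A + 4 * c) := by
      apply mul_le_mul_of_nonneg_right _ (by positivity)
      linarith
    have h10 : c * ((1 : ℝ) / b * (Real.log b) ^ 2) ≤ c * 2 := by gcongr
    nlinarith
  have e3 : (q : ℝ) ^ 2 = (1 / (b : ℝ) ^ 2) * ((b * q : ℕ) : ℝ) ^ 2 := by
    push_cast
    field_simp
  calc _ = (q : ℝ) ^ 2 * (Real.exp (2 * A * k0 * q * (Real.log m) ^ 3) *
        Real.exp (A * (k0 * q) * b * (Real.log b) ^ 3)) *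
        ((X ^ ((1 : ℝ) / b)) ^ (c * (Real.log m) ^ 2 + (2 * A + 4 * c)) *
          X ^ (c * (Real.log b) ^ 2 + A)) := by ring
    _ ≤ (q : ℝ) ^ 2 * Real.exp (2 * A * k0 * ((b * q : ℕ) : ℝ) * (Real.log m) ^ 3) *
        X ^ (c * (Real.log m) ^ 2 + (2 * A + 4 * c)) := by gcongr
    _ = _ := by rw [e3]; ring

/-- **The number of towers of degree `n`.** -/
theorem tower_count (c : ℝ) (hc : 1 / (8 * (Real.log 2) ^ 2) < c) :
    ∃ A : ℝ, 0 ≤ A ∧ ∀ (K : Type) [Field K] [NumberField K] (m : ℕ), 2 ≤ m → ∀ n : ℕ, 1 ≤ n →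
      ∀ X : ℝ, 1 ≤ X → (TS K m n X).Finite ∧ ((TS K m n X).ncard : ℝ) ≤
        (n : ℝ) ^ 2 * Real.exp (2 * A * finrank ℚ K * n * (Real.log m) ^ 3) *
          X ^ (c * (Real.log m) ^ 2 + (2 * A + 4 * c)) := by
  classical
  have hc0 : 0 < c := lt_trans (by positivity) hc
  obtain ⟨A, hA, hu⟩ := uniform c hc
  refine ⟨A, hA, ?_⟩
  intro K _ _ m hm n
  induction n using Nat.strong_induction_on with
  | _ n ih =>
  intro hn X hX
  have hX0 : (0 : ℝ) < X := by linarith
  have hm1 : (1 : ℝ) ≤ m := by exact_mod_cast (by omega : 1 ≤ m)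
  have hlm : 0 ≤ Real.log m := Real.log_nonneg hm1
  rcases Nat.lt_or_ge n 2 with h1 | h1
  · have hn1 : n = 1 := by omega
    subst hn1
    have hsub : TS K m 1 X ⊆ {⊥} := by
      rintro L ⟨-, hd, -⟩
      exact IntermediateField.finrank_eq_one_iff.1 hd
    refine ⟨(Set.finite_singleton _).subset hsub, ?_⟩
    have h2 : (TS K m 1 X).ncard ≤ 1 := by
      have := Set.ncard_le_ncard hsub (Set.finite_singleton _)
      rwa [Set.ncard_singleton] at this
    have h3 : (1 : ℝ) ≤ Real.exp (2 * A * finrank ℚ K * (1 : ℕ) * (Real.log m) ^ 3) :=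
      Real.one_le_exp (by positivity)
    have h4 : (1 : ℝ) ≤ X ^ (c * (Real.log m) ^ 2 + (2 * A + 4 * c)) :=
      Real.one_le_rpow hX (by positivity)
    have h5 : ((TS K m 1 X).ncard : ℝ) ≤ 1 := by exact_mod_cast h2
    have h6 := one_le_mul_of_one_le_of_one_le h3 h4
    simp only [Nat.cast_one, one_pow, one_mul] at h6 ⊢
    linarith
  · have hsub := ts_subset (K := K) m n h1 X
    set I := (Finset.Icc 2 m).filter (fun b => b ∣ n) with hI
    -- the sets of the union
    have hone : ∀ b ∈ I, (⋃ F ∈ TS K m (n / b) (X ^ ((1 : ℝ) / b)), Over F b X).Finite ∧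
        ((⋃ F ∈ TS K m (n / b) (X ^ ((1 : ℝ) / b)), Over F b X).ncard : ℝ) ≤
        (1 / (b : ℝ) ^ 2) * ((n : ℝ) ^ 2 *
          Real.exp (2 * A * finrank ℚ K * n * (Real.log m) ^ 3) *
          X ^ (c * (Real.log m) ^ 2 + (2 * A + 4 * c))) := by
      intro b hb
      rw [hI, Finset.mem_filter, Finset.mem_Icc] at hb
      obtain ⟨⟨hb2, hbm⟩, hbn⟩ := hb
      obtain ⟨q, hq⟩ := hbn
      have hq1 : 1 ≤ q := by
        rcases Nat.eq_zero_or_pos q with h | h
        · subst h; omega
        · exact h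
      have hqn : n / b = q := by rw [hq, Nat.mul_div_cancel_left _ (by omega)]
      have hqlt : q < n := by rw [hq]; nlinarith
      rw [hqn]
      have hY : 1 ≤ X ^ ((1 : ℝ) / b) := Real.one_le_rpow hX (by positivity)
      obtain ⟨hf, hcard⟩ := ih q hqlt hq1 (X ^ ((1 : ℝ) / b)) hY
      have hF : ∀ F ∈ TS K m q (X ^ ((1 : ℝ) / b)), (Over F b X).Finite ∧
          ((Over F b X).ncard : ℝ) ≤
            Real.exp (A * ((finrank ℚ K : ℝ) * q) * b * (Real.log b) ^ 3) *
              X ^ (c * (Real.log b) ^ 2 + A) := by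
        rintro F ⟨-, hFd, hNF, -⟩
        obtain ⟨h2, h3⟩ := hu F b hb2 X hX
        obtain ⟨h4, h5⟩ := over_card F b X h2
        refine ⟨h4, ?_⟩
        have h6 : (finrank ℚ F : ℝ) = (finrank ℚ K : ℝ) * q := by
          have h7 : finrank ℚ K * finrank K F = finrank ℚ F := Module.finrank_mul_finrank ℚ K F
          rw [hFd] at h7
          exact_mod_cast h7.symm
        rw [h6] at h3
        exact (by exact_mod_cast h5 : ((Over F b X).ncard : ℝ) ≤ (FS F b X).ncard).trans h3
      have hfin : (⋃ F ∈ TS K m q (X ^ ((1 : ℝ) / b)), Over F b X).Finite :=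
        hf.biUnion fun F hF' => (hF F hF').1
      refine ⟨hfin, ?_⟩
      set M : ℝ := Real.exp (A * ((finrank ℚ K : ℝ) * q) * b * (Real.log b) ^ 3) *
        X ^ (c * (Real.log b) ^ 2 + A) with hM
      have hbound : ((⋃ F ∈ TS K m q (X ^ ((1 : ℝ) / b)), Over F b X).ncard : ℝ) ≤
          ((TS K m q (X ^ ((1 : ℝ) / b))).ncard : ℝ) * M := by
        let W : Finset (IntermediateField K (AlgebraicClosure K)) :=
          hf.toFinset.biUnion fun F => if h : (Over F b X).Finite then h.toFinset else ∅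
        have hW : (⋃ F ∈ TS K m q (X ^ ((1 : ℝ) / b)), Over F b X) ⊆ ↑W := by
          intro L hL
          rw [Set.mem_iUnion₂] at hL
          obtain ⟨F, hF1, hF2⟩ := hL
          rw [Finset.mem_coe, Finset.mem_biUnion]
          refine ⟨F, hf.mem_toFinset.2 hF1, ?_⟩
          rw [dif_pos (hF F hF1).1]
          exact (hF F hF1).1.mem_toFinset.2 hF2
        have h8 : (⋃ F ∈ TS K m q (X ^ ((1 : ℝ) / b)), Over F b X).ncard ≤ W.card := by
          have := Set.ncard_le_ncard hW (Finset.finite_toSet W)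
          rwa [Set.ncard_coe_finset] at this
        have h9 : (W.card : ℝ) ≤ ∑ F ∈ hf.toFinset,
            (((if h : (Over F b X).Finite then h.toFinset else ∅ :
              Finset (IntermediateField K (AlgebraicClosure K)))).card : ℝ) := by
          exact_mod_cast Finset.card_biUnion_le
        calc ((⋃ F ∈ TS K m q (X ^ ((1 : ℝ) / b)), Over F b X).ncard : ℝ) ≤ (W.card : ℝ) := by
              exact_mod_cast h8
          _ ≤ _ := h9
          _ ≤ ∑ _F ∈ hf.toFinset, M := by
              apply Finset.sum_le_sum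
              intro F hF1
              have hF2 := hF F (hf.mem_toFinset.1 hF1)
              rw [dif_pos hF2.1, ← Set.ncard_eq_toFinset_card _ hF2.1]
              exact hF2.2
          _ = ((TS K m q (X ^ ((1 : ℝ) / b))).ncard : ℝ) * M := by
              rw [Finset.sum_const, nsmul_eq_mul, ← Set.ncard_eq_toFinset_card _ hf]
      refine hbound.trans ?_
      have hM0 : 0 ≤ M := by positivity
      refine (mul_le_mul_of_nonneg_right hcard hM0).trans ?_
      have := step_arith A c (finrank ℚ K) X hA hc0 (Nat.cast_nonneg _) hX m b q hb2 hbm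
      rw [← hq] at this
      exact this
    have hfinU : (⋃ b ∈ I, ⋃ F ∈ TS K m (n / b) (X ^ ((1 : ℝ) / b)), Over F b X).Finite :=
      (Finset.finite_toSet I).biUnion fun b hb => (hone b hb).1
    refine ⟨hfinU.subset hsub, ?_⟩
    set P : ℝ := (n : ℝ) ^ 2 * Real.exp (2 * A * finrank ℚ K * n * (Real.log m) ^ 3) *
          X ^ (c * (Real.log m) ^ 2 + (2 * A + 4 * c)) with hP
    have hP0 : 0 ≤ P := by positivity
    let S : ℕ → Set (IntermediateField K (AlgebraicClosure K)) :=
      fun b => ⋃ F ∈ TS K m (n / b) (X ^ ((1 : ℝ) / b)), Over F b X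
    let W : Finset (IntermediateField K (AlgebraicClosure K)) :=
      I.biUnion fun b => if h : (S b).Finite then h.toFinset else ∅
    have hW : TS K m n X ⊆ ↑W := by
      intro L hL
      have hL' := hsub hL
      rw [Set.mem_iUnion₂] at hL'
      obtain ⟨b, hb1, hb2⟩ := hL'
      rw [Finset.mem_coe, Finset.mem_biUnion]
      refine ⟨b, hb1, ?_⟩
      have h2 : (S b).Finite := (hone b hb1).1
      rw [dif_pos h2]
      exact h2.mem_toFinset.2 hb2
    have h8 : (TS K m n X).ncard ≤ W.card := by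
      have := Set.ncard_le_ncard hW (Finset.finite_toSet W)
      rwa [Set.ncard_coe_finset] at this
    have h9 : (W.card : ℝ) ≤ ∑ b ∈ I, (((if h : (S b).Finite then h.toFinset else ∅ :
        Finset (IntermediateField K (AlgebraicClosure K)))).card : ℝ) := by
      exact_mod_cast Finset.card_biUnion_le
    calc ((TS K m n X).ncard : ℝ) ≤ (W.card : ℝ) := by exact_mod_cast h8
      _ ≤ _ := h9
      _ ≤ ∑ b ∈ I, (1 / (b : ℝ) ^ 2) * P := by
          apply Finset.sum_le_sum
          intro b hb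
          have h2 := hone b hb
          have h3 : (S b).Finite := h2.1
          rw [dif_pos h3, ← Set.ncard_eq_toFinset_card _ h3]
          exact h2.2
      _ = (∑ b ∈ I, 1 / (b : ℝ) ^ 2) * P := by rw [Finset.sum_mul]
      _ ≤ 1 * P := by
          apply mul_le_mul_of_nonneg_right _ hP0
          calc ∑ b ∈ I, (1 : ℝ) / (b : ℝ) ^ 2 ≤ ∑ b ∈ Finset.Icc 2 m, (1 : ℝ) / (b : ℝ) ^ 2 :=
                Finset.sum_le_sum_of_subset_of_nonneg (Finset.filter_subset _ _)
                  (fun _ _ _ => by positivity)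
            _ ≤ 1 - (1 : ℝ) / m := sum_inv_sq m (by omega)
            _ ≤ 1 := by
                have : (0 : ℝ) ≤ 1 / m := by positivity
                linarith
      _ = P := one_mul P

/-- all towers of discriminant at most `X` -/
def AllTS (K : Type) [Field K] [NumberField K] (m : ℕ) (X : ℝ) :
    Set (IntermediateField K (AlgebraicClosure K)) :=
  {L | Tower K m L ∧ ∃ h : NumberField L, ((|@NumberField.discr L _ h| : ℤ) : ℝ) ≤ X}

/-- **The number of all towers of extensions of degree at most `m`.** -/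
theorem tower_all : ∃ A : ℝ, 0 ≤ A ∧ ∀ (K : Type) [Field K] [NumberField K] (m : ℕ), 2 ≤ m →
    ∀ X : ℝ, 16 ≤ X → (AllTS K m X).Finite ∧ ((AllTS K m X).ncard : ℝ) ≤
      X ^ (A * (Real.log m) ^ 3) := by
  classical
  have hl2 := log_two_gt
  obtain ⟨A0, hA0, hu⟩ := tower_count 1 (by
    rw [div_lt_one (by positivity)]
    nlinarith)
  refine ⟨11 * A0 + 33, by positivity, ?_⟩
  intro K _ _ m hm X hX
  have hX0 : (0 : ℝ) < X := by linarith
  set l := Real.log X with hl
  have hl4 : 4 * Real.log 2 ≤ l := by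
    have h7 : Real.log 16 = 4 * Real.log 2 := by
      rw [show (16 : ℝ) = 2 ^ 4 by norm_num, Real.log_pow]
      push_cast
      ring
    rw [← h7]
    exact Real.log_le_log (by norm_num) hX
  have hlpos : 0 < l := by linarith
  set v := Real.log m with hv
  have hv1 : Real.log 2 ≤ v := Real.log_le_log (by norm_num) (by exact_mod_cast hm)
  have hv69 : 0.69 ≤ v := by linarith
  set k0 := finrank ℚ K with hk0
  have hk1 : 1 ≤ k0 := Module.finrank_pos
  set I : Finset ℕ := (Finset.Icc 2 ⌊2 * l⌋₊).filter (fun n => (k0 : ℝ) * n ≤ 2 * l) with hI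
  set W : Finset (IntermediateField K (AlgebraicClosure K)) :=
    insert ⊥ (I.biUnion fun n => if h : (TS K m n X).Finite then h.toFinset else ∅) with hW
  have hX1 : 1 ≤ X := by linarith
  have hsub : AllTS K m X ⊆ ↑W := by
    intro L hL
    have hNF : NumberField L := hL.2.1
    have hLA : L ∈ AllFS K X := hL.2
    have hfd : FiniteDimensional K L := Module.Finite.of_restrictScalars_finite ℚ K L
    have hpos : 0 < finrank K L := Module.finrank_pos
    rw [Finset.mem_coe, hW, Finset.mem_insert]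
    by_cases h1 : finrank K L = 1
    · left
      exact IntermediateField.finrank_eq_one_iff.1 h1
    · right
      have h2 : 2 ≤ finrank K L := by omega
      have h3 := degree_le hX hLA h2
      rw [Finset.mem_biUnion]
      refine ⟨finrank K L, ?_, ?_⟩
      · rw [hI, Finset.mem_filter, Finset.mem_Icc]
        refine ⟨⟨h2, ?_⟩, h3⟩
        apply Nat.le_floor
        have h4 : (1 : ℝ) ≤ k0 := by exact_mod_cast hk1
        have h5 : (0 : ℝ) ≤ finrank K L := Nat.cast_nonneg _
        nlinarith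
      · have h4 := (hu K m hm (finrank K L) (by omega) X hX1).1
        rw [dif_pos h4, Set.Finite.mem_toFinset]
        exact ⟨hL.1, rfl, hL.2⟩
  have hfin : (AllTS K m X).Finite := (Finset.finite_toSet W).subset hsub
  refine ⟨hfin, ?_⟩
  set B : ℝ := l * (4 * A0 * v ^ 3 + v ^ 2 + 2 * A0 + 4) with hB
  have hB0 : 0 ≤ B := by positivity
  have hterm : ∀ n ∈ I, (((if h : (TS K m n X).Finite then h.toFinset else ∅ :
      Finset (IntermediateField K (AlgebraicClosure K)))).card : ℝ) ≤
        (2 * l) ^ 2 * Real.exp B := by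
    intro n hn
    rw [hI, Finset.mem_filter, Finset.mem_Icc] at hn
    obtain ⟨⟨h2, -⟩, h3⟩ := hn
    obtain ⟨h4, h5⟩ := hu K m hm n (by omega) X hX1
    rw [dif_pos h4, ← Set.ncard_eq_toFinset_card _ h4]
    refine h5.trans ?_
    have hn2 : (2 : ℝ) ≤ n := by exact_mod_cast h2
    have hk : (1 : ℝ) ≤ k0 := by exact_mod_cast hk1
    have hnl : (n : ℝ) ≤ 2 * l := by nlinarith
    rw [Real.rpow_def_of_pos hX0, mul_assoc, ← Real.exp_add]
    have e0 : (n : ℝ) ^ 2 ≤ (2 * l) ^ 2 := pow_le_pow_left₀ (by positivity) hnl 2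
    have e1 : 2 * A0 * k0 * n * v ^ 3 ≤ 2 * A0 * (2 * l) * v ^ 3 := by
      have : 2 * A0 * k0 * n = 2 * A0 * (k0 * n) := by ring
      rw [this]
      gcongr
    have e2 : 2 * A0 * k0 * n * v ^ 3 + Real.log X * (1 * v ^ 2 + (2 * A0 + 4 * 1)) ≤ B := by
      rw [← hl, hB]
      linarith
    exact mul_le_mul e0 (Real.exp_le_exp.2 e2) (Real.exp_pos _).le (by positivity)
  have hcard : (I.card : ℝ) ≤ 2 * l := by
    have h1 : I.card ≤ ⌊2 * l⌋₊ := by
      refine (Finset.card_filter_le _ _).trans ?_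
      rw [Nat.card_Icc]
      omega
    calc (I.card : ℝ) ≤ (⌊2 * l⌋₊ : ℝ) := by exact_mod_cast h1
      _ ≤ 2 * l := Nat.floor_le (by linarith)
  have hWc : (W.card : ℝ) ≤ 1 + 2 * l * ((2 * l) ^ 2 * Real.exp B) := by
    have h1 : W.card ≤ 1 + ∑ n ∈ I, (if h : (TS K m n X).Finite then h.toFinset else ∅ :
        Finset (IntermediateField K (AlgebraicClosure K))).card := by
      rw [hW, add_comm]
      refine (Finset.card_insert_le _ _).trans ?_
      exact Nat.add_le_add_right Finset.card_biUnion_le 1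
    calc (W.card : ℝ) ≤ 1 + ∑ n ∈ I, (((if h : (TS K m n X).Finite then h.toFinset else ∅ :
        Finset (IntermediateField K (AlgebraicClosure K)))).card : ℝ) := by exact_mod_cast h1
      _ ≤ 1 + ∑ _n ∈ I, (2 * l) ^ 2 * Real.exp B := by gcongr with n hn; exact hterm n hn
      _ = 1 + I.card * ((2 * l) ^ 2 * Real.exp B) := by rw [Finset.sum_const, nsmul_eq_mul]
      _ ≤ 1 + 2 * l * ((2 * l) ^ 2 * Real.exp B) := by gcongr
  have hexpB : 1 ≤ Real.exp B := Real.one_le_exp hB0
  have hw : 1 + 2 * l * ((2 * l) ^ 2 * Real.exp B) ≤ (1 + 2 * l) ^ 3 * Real.exp B := by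
    have h1 : (1 + 2 * l) ^ 3 = 1 + 2 * l * (2 * l) ^ 2 + (3 * (2 * l) + 3 * (2 * l) ^ 2) := by ring
    rw [h1]
    have h2 : 0 ≤ (3 * (2 * l) + 3 * (2 * l) ^ 2) * Real.exp B := by positivity
    nlinarith
  have h3 : 1 ≤ 3.1 * v ^ 3 := by
    have : (0.69 : ℝ) ^ 3 ≤ v ^ 3 := pow_le_pow_left₀ (by norm_num) hv69 3
    nlinarith
  have h4 : v ^ 2 ≤ 1.5 * v ^ 3 := by
    have : 0 ≤ v ^ 2 := by positivity
    nlinarith
  calc ((AllTS K m X).ncard : ℝ) ≤ (W.card : ℝ) := by
        have := Set.ncard_le_ncard hsub (Finset.finite_toSet W)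
        rw [Set.ncard_coe_finset] at this
        exact_mod_cast this
    _ ≤ _ := hWc
    _ ≤ (1 + 2 * l) ^ 3 * Real.exp B := hw
    _ ≤ (Real.exp (2 * l)) ^ 3 * Real.exp B := by
        have : 2 * l + 1 ≤ Real.exp (2 * l) := Real.add_one_le_exp _
        gcongr
        linarith
    _ = Real.exp (6 * l + B) := by
        rw [← Real.exp_nat_mul, ← Real.exp_add]
        congr 1
        push_cast
        ring
    _ ≤ Real.exp (l * ((11 * A0 + 33) * v ^ 3)) := by
        apply Real.exp_le_exp.2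
        rw [hB]
        have h5 : 6 * l + l * (4 * A0 * v ^ 3 + v ^ 2 + 2 * A0 + 4) =
            l * (4 * A0 * v ^ 3 + v ^ 2 + (2 * A0 + 10)) := by ring
        rw [h5]
        apply mul_le_mul_of_nonneg_left _ hlpos.le
        have h6 : (2 * A0 + 10) * 1 ≤ (2 * A0 + 10) * (3.1 * v ^ 3) := by gcongr
        have h7 : 0 ≤ v ^ 3 := by positivity
        have h8 : 0 ≤ A0 * v ^ 3 := by positivity
        nlinarith
    _ = X ^ ((11 * A0 + 33) * v ^ 3) := by rw [Real.rpow_def_of_pos hX0]

/-- the number of towers of degree `n`, final form -/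
theorem tower_degree (c : ℝ) (hc : 1 / (8 * (Real.log 2) ^ 2) < c) :
    ∃ A : ℝ, ∀ (K : Type) [Field K] [NumberField K] (m : ℕ), 2 ≤ m → ∀ n : ℕ, 1 ≤ n →
      ∀ X : ℝ, 1 ≤ X → (TS K m n X).Finite ∧ ((TS K m n X).ncard : ℝ) ≤
        Real.exp (A * finrank ℚ K * n * (Real.log m) ^ 3) * X ^ (c * (Real.log m) ^ 2 + A) := by
  have hc0 : 0 < c := lt_trans (by positivity) hc
  have hl2 := log_two_gt
  obtain ⟨A, hA, h⟩ := tower_count c hc
  refine ⟨2 * A + 4 * c + 7, ?_⟩
  intro K _ _ m hm n hn X hX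
  obtain ⟨h1, h2⟩ := h K m hm n hn X hX
  refine ⟨h1, h2.trans ?_⟩
  have hn1 : (1 : ℝ) ≤ n := by exact_mod_cast hn
  have hk : (1 : ℝ) ≤ finrank ℚ K := by
    have : 0 < finrank ℚ K := Module.finrank_pos
    exact_mod_cast this
  set v := Real.log m with hv
  have hv1 : Real.log 2 ≤ v := Real.log_le_log (by norm_num) (by exact_mod_cast hm)
  have hv69 : 0.69 ≤ v := by linarith
  have h3 : 1 ≤ 3.1 * v ^ 3 := by
    have : (0.69 : ℝ) ^ 3 ≤ v ^ 3 := pow_le_pow_left₀ (by norm_num) hv69 3
    nlinarith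
  have hsq : (n : ℝ) ^ 2 ≤ Real.exp (7 * finrank ℚ K * n * v ^ 3) := by
    have h4 : (n : ℝ) ≤ Real.exp n := by
      have := Real.add_one_le_exp (n : ℝ)
      linarith
    calc (n : ℝ) ^ 2 ≤ (Real.exp n) ^ 2 := by gcongr
      _ = Real.exp (2 * n) := by
          rw [← Real.exp_nat_mul]
          congr 1
      _ ≤ Real.exp (7 * finrank ℚ K * n * v ^ 3) := by
          apply Real.exp_le_exp.2
          have h5 : (n : ℝ) * 1 ≤ (finrank ℚ K * n) * (3.1 * v ^ 3) := by
            apply mul_le_mul _ h3 (by norm_num) (by positivity)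
            nlinarith
          have h6 : (0 : ℝ) ≤ finrank ℚ K * n * v ^ 3 := by positivity
          nlinarith
  have hexp : (n : ℝ) ^ 2 * Real.exp (2 * A * finrank ℚ K * n * v ^ 3) ≤
      Real.exp ((2 * A + 4 * c + 7) * finrank ℚ K * n * v ^ 3) := by
    calc (n : ℝ) ^ 2 * Real.exp (2 * A * finrank ℚ K * n * v ^ 3) ≤
        Real.exp (7 * finrank ℚ K * n * v ^ 3) * Real.exp (2 * A * finrank ℚ K * n * v ^ 3) := by
          gcongr
      _ = Real.exp ((2 * A + 7) * finrank ℚ K * n * v ^ 3) := by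
          rw [← Real.exp_add]
          congr 1
          ring
      _ ≤ _ := by
          apply Real.exp_le_exp.2
          gcongr
          linarith
  have hpow : X ^ (c * v ^ 2 + (2 * A + 4 * c)) ≤ X ^ (c * v ^ 2 + (2 * A + 4 * c + 7)) :=
    Real.rpow_le_rpow_of_exponent_le hX (by linarith)
  exact mul_le_mul hexp hpow (by positivity) (by positivity)

end Pool.Agent.L5helper71.Nf
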