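import Mathlib
import Pool.Agent.L5helper71.NfTow

set_option autoImplicit false

/-!
Extensions whose Galois closure is a `p`-group are towers.
-/

namespace Pool.Agent.L5helper71.Nf

open Module NumberField Pool.Agent.W301.Lin

lemma tower_of_pgroup_aux {K : Type} [Field K] {m p : ℕ} [Fact p.Prime] (hpm : p ≤ m)
    (N : IntermediateField K (AlgebraicClosure K)) [FiniteDimensional K N] [IsGalois K N] {k : ℕ}
    (hN : finrank K N = p ^ k) :
    ∀ j ≤ k, ∀ E : IntermediateField K N, finrank K E = p ^ j →
      Tower K m (IntermediateField.lift E) := by
  have hp : 0 < p := (Fact.out : p.Prime).pos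
  intro j
  induction j with
  | zero =>
    intro _ E hE
    have h1 : E = ⊥ := IntermediateField.finrank_eq_one_iff.1 (by simpa using hE)
    subst h1
    rw [IntermediateField.lift_bot]
    exact Tower.bot
  | succ j ih =>
    intro hj E hE
    have h0 : p ^ k = p ^ (j + 1) * p ^ (k - (j + 1)) := by
      rw [← pow_add]; congr 1; omega
    have h1 : Nat.card E.fixingSubgroup = p ^ (k - (j + 1)) := by
      rw [IsGalois.card_fixingSubgroup_eq_finrank]
      have h2 := Module.finrank_mul_finrank K E N
      rw [hE, hN, h0] at h2
      exact Nat.eq_of_mul_eq_mul_left (by positivity) h2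
    obtain ⟨H, hH, hle⟩ := Sylow.exists_subgroup_card_pow_succ (p := p) (n := k - (j + 1))
      (by
        rw [IsGalois.card_aut_eq_finrank, hN]
        exact pow_dvd_pow _ (by omega)) h1
    have hFE : IntermediateField.fixedField H ≤ E := by
      have h3 : IntermediateField.fixedField H ≤
          IntermediateField.fixedField (IntermediateField.fixingSubgroup E) :=
        IntermediateField.fixedField_antitone hle
      rwa [IsGalois.fixedField_fixingSubgroup] at h3
    have hF : finrank K (IntermediateField.fixedField H) = p ^ j := by
      have h2 := Module.finrank_mul_finrank K (IntermediateField.fixedField H) N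
      rw [IntermediateField.finrank_fixedField_eq_card, hH, hN] at h2
      have h4 : p ^ k = p ^ j * p ^ (k - (j + 1) + 1) := by
        rw [← pow_add]; congr 1; omega
      rw [h4] at h2
      exact Nat.eq_of_mul_eq_mul_right (by positivity) h2
    have hT := ih (by omega) _ hF
    have hlift : IntermediateField.lift (IntermediateField.fixedField H) ≤
        IntermediateField.lift E := by
      intro x hx
      have hxN : x ∈ N := IntermediateField.lift_le _ hx
      exact (IntermediateField.mem_lift (⟨x, hxN⟩ : N)).2
        (hFE ((IntermediateField.mem_lift (⟨x, hxN⟩ : N)).1 hx))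
    have hr : IntermediateField.relfinrank
        (IntermediateField.lift (IntermediateField.fixedField H)) (IntermediateField.lift E) =
          p := by
      have h5 := IntermediateField.finrank_bot_mul_relfinrank hlift
      rw [← (IntermediateField.liftAlgEquiv
        (IntermediateField.fixedField H)).toLinearEquiv.finrank_eq,
        ← (IntermediateField.liftAlgEquiv E).toLinearEquiv.finrank_eq, hF, hE, pow_succ] at h5
      exact Nat.eq_of_mul_eq_mul_left (by positivity) h5
    exact Tower.step _ _ hT hlift (by omega) (by omega)

lemma tower_of_pgroup {K : Type} [Field K] [CharZero K] {m p : ℕ} (hp : p.Prime) (hpm : p ≤ m)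
    (L : IntermediateField K (AlgebraicClosure K)) [FiniteDimensional K L] {k : ℕ}
    (hN : finrank K (IntermediateField.normalClosure K L (AlgebraicClosure K)) = p ^ k) :
    Tower K m L := by
  have : Fact p.Prime := ⟨hp⟩
  set N := IntermediateField.normalClosure K L (AlgebraicClosure K) with hNdef
  have hfd : FiniteDimensional K N := by
    apply Module.finite_of_finrank_pos
    rw [hN]
    exact pow_pos hp.pos _
  have hnor : Normal K N := by rw [hNdef]; infer_instance
  have hgal : IsGalois K N := { }
  have hle : L ≤ N := IntermediateField.le_normalClosure L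
  have h1 : finrank K (IntermediateField.restrict hle) ∣ p ^ k := by
    rw [← hN]
    exact ⟨_, (Module.finrank_mul_finrank K (IntermediateField.restrict hle) N).symm⟩
  obtain ⟨j, hj, h2⟩ := (Nat.dvd_prime_pow hp).1 h1
  have h3 := tower_of_pgroup_aux hpm N hN j hj _ h2
  rwa [IntermediateField.lift_restrict hle] at h3

end Pool.Agent.L5helper71.Nf
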