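import Pool.Agent.Y126.JB.Log
import Pool.Agent.R932.PO.Stm

/-!
# Joint tangent vectors from unipotent elements
-/

set_option autoImplicit false
set_option linter.unusedSectionVars false

open Matrix Filter Topology
open Pool.Agent.Y142.ZO Pool.Agent.Y142.ZS Pool.Agent.Y126.JB Pool.Agent.R932.PO

namespace Pool.Agent.L5helper71.Ss

section
variable {ℓ : ℕ} [hℓ : Fact ℓ.Prime] {N : ℕ}

theorem ell_ne (n : ℕ) : ((ℓ : ℚ_[ℓ]) ^ n) ≠ 0 :=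
  pow_ne_zero _ (by exact_mod_cast hℓ.out.ne_zero)

theorem ell_lim : Tendsto (fun n : ℕ => (ℓ : ℚ_[ℓ]) ^ n) atTop (𝓝 0) :=
  tendsto_pow_atTop_nhds_zero_of_norm_lt_one Padic.norm_p_lt_one

/-- the logarithm of a unipotent matrix is the limit of the difference quotients of its powers -/
theorem lim_unip {u : Matrix (Fin N) (Fin N) ℚ_[ℓ]} {k : ℕ} (hk : 0 < k) (hu : (u - 1) ^ k = 0) :
    Tendsto (fun n : ℕ => ((ℓ : ℚ_[ℓ]) ^ n)⁻¹ • (u ^ (ℓ ^ n) - 1)) atTop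
      (𝓝 (lg ℚ_[ℓ] (u - 1) k)) := by
  let A : ℕ → Matrix (Fin N) (Fin N) ℚ_[ℓ] := fun l => Al ℚ_[ℓ] (u - 1) k l
  let Fc : ℚ_[ℓ] → Matrix (Fin N) (Fin N) ℚ_[ℓ] := fun x =>
    A 1 + ∑ l : Fin k, x ^ ((l : ℕ) + 1) • A ((l : ℕ) + 2)
  have hc : Continuous Fc := by
    show Continuous fun x : ℚ_[ℓ] => A 1 + ∑ l : Fin k, x ^ ((l : ℕ) + 1) • A ((l : ℕ) + 2)
    refine continuous_const.add (continuous_finsetSum _ fun l _ => ?_)
    exact (continuous_pow ((l : ℕ) + 1)).smul continuous_const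
  have h0 : Fc 0 = lg ℚ_[ℓ] (u - 1) k := by
    show A 1 + ∑ l : Fin k, (0 : ℚ_[ℓ]) ^ ((l : ℕ) + 1) • A ((l : ℕ) + 2) = _
    rw [Finset.sum_eq_zero fun l _ => by rw [zero_pow (Nat.succ_ne_zero _), zero_smul], add_zero]
    rfl
  have h1 : ∀ n : ℕ, ((ℓ : ℚ_[ℓ]) ^ n)⁻¹ • (u ^ (ℓ ^ n) - 1) = Fc ((ℓ : ℚ_[ℓ]) ^ n) := by
    intro n
    have h2 := pow_eq (K := ℚ_[ℓ]) (u - 1) hu k (by omega) (ℓ ^ n)
    rw [add_sub_cancel, Fin.sum_univ_succ, Fin.sum_univ_succ] at h2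
    rw [h2]
    have hz := Al_zero (K := ℚ_[ℓ]) (u - 1) hk
    simp only [Fin.val_zero, pow_zero, one_smul, Fin.val_succ, zero_add, pow_one, hz]
    rw [add_sub_cancel_left, smul_add, smul_smul, Nat.cast_pow, inv_mul_cancel₀ (ell_ne n), one_smul,
      Finset.smul_sum]
    show _ = A 1 + ∑ l : Fin k, ((ℓ : ℚ_[ℓ]) ^ n) ^ ((l : ℕ) + 1) • A ((l : ℕ) + 2)
    congr 1
    refine Finset.sum_congr rfl fun l _ => ?_
    rw [smul_smul, pow_succ _ ((l : ℕ) + 1), mul_comm (((ℓ : ℚ_[ℓ]) ^ n) ^ ((l : ℕ) + 1)), ← mul_assoc,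
      inv_mul_cancel₀ (ell_ne n), one_mul]
  rw [funext h1, ← h0]
  exact (hc.tendsto 0).comp ell_lim

/-- the joint tangent vector of an element which is unipotent on one block and trivial on the others -/
theorem jtan_unip {ι : Type} [DecidableEq ι] {N : ι → ℕ} {G : Type} [Group G]
    (r : ∀ i, G →* Matrix (Fin (N i)) (Fin (N i)) ℚ_[ℓ]) (i : ι) (g : G) {k : ℕ} (hk : 0 < k)
    (hu : (r i g - 1) ^ k = 0) (ho : ∀ j, j ≠ i → r j g = 1) :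
    JTan ℓ r (Pi.single i (lg ℚ_[ℓ] (r i g - 1) k)) := by
  refine ⟨fun n => g ^ (ℓ ^ n), fun j => ?_⟩
  by_cases hj : j = i
  · subst hj
    rw [Pi.single_eq_same]
    simp only [map_pow]
    exact lim_unip hk hu
  · rw [Pi.single_eq_of_ne hj]
    simp only [map_pow, ho j hj, one_pow, sub_self, smul_zero]
    exact tendsto_const_nhds

/-- a unipotent similitude is an isometry -/
theorem mult_unip {N : ℕ} (hN : 0 < N) {F : Type} [Field F] {B u : Matrix (Fin N) (Fin N) F}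
    (hB : B.det ≠ 0) {c : F} (hc : uᵀ * B * u = c • B) (hu : IsNilpotent (u - 1)) : c = 1 := by
  -- a fixed vector
  have hdet : (u - 1).det = 0 := by
    have hne : Nonempty (Fin N) := ⟨⟨0, hN⟩⟩
    obtain ⟨k, hk⟩ := hu
    have h1 : (u - 1).det ^ k = 0 := by rw [← det_pow, hk, det_zero]
    exact eq_zero_of_pow_eq_zero h1
  obtain ⟨x, hx0, hx⟩ := Matrix.exists_mulVec_eq_zero_iff.2 hdet
  have hux : u *ᵥ x = x := by
    rw [sub_mulVec, one_mulVec, sub_eq_zero] at hx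
    exact hx
  -- the functional
  set φ : Fin N → F := x ᵥ* B with hφ
  have hφ0 : φ ≠ 0 := by
    intro h
    have h1 : x = 0 := by
      have h2 : IsUnit B.det := isUnit_iff_ne_zero.2 hB
      have h3 : (x ᵥ* B) ᵥ* B⁻¹ = x := by
        rw [vecMul_vecMul, mul_nonsing_inv _ h2, vecMul_one]
      rw [← h3, ← hφ, h, zero_vecMul]
    exact hx0 h1
  have h1 : φ ᵥ* u = c • φ := by
    have h2 : x ᵥ* (uᵀ * B * u) = x ᵥ* (c • B) := by rw [hc]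
    rw [← vecMul_vecMul, ← vecMul_vecMul, vecMul_transpose, hux, vecMul_smul] at h2
    exact h2
  have h2 : φ ᵥ* (u - 1) = (c - 1) • φ := by
    rw [vecMul_sub, h1, vecMul_one, sub_smul, one_smul]
  have h3 : ∀ k : ℕ, φ ᵥ* (u - 1) ^ k = (c - 1) ^ k • φ := by
    intro k
    induction k with
    | zero => rw [pow_zero, vecMul_one, pow_zero, one_smul]
    | succ k ih => rw [pow_succ, ← vecMul_vecMul, ih, smul_vecMul, h2, smul_smul, pow_succ]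
  obtain ⟨k, hk⟩ := hu
  have h4 := h3 k
  rw [hk, vecMul_zero] at h4
  have h5 : (c - 1) ^ k = 0 := (smul_eq_zero.1 h4.symm).resolve_right hφ0
  exact sub_eq_zero.1 (eq_zero_of_pow_eq_zero h5)

/-- the logarithm of a unipotent similitude is in the Lie algebra of the form -/
theorem sp_unip {N : ℕ} {B u : Matrix (Fin N) (Fin N) ℚ_[ℓ]} (hB : uᵀ * B * u = B) {k : ℕ}
    (hk : 0 < k) (hu : (u - 1) ^ k = 0) : SpLie B (lg ℚ_[ℓ] (u - 1) k) := by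
  have hpow : ∀ m : ℕ, (u ^ m)ᵀ * B * u ^ m = B := by
    intro m
    induction m with
    | zero => rw [pow_zero, transpose_one, one_mul, mul_one]
    | succ m ih =>
      have h1 : (u ^ (m + 1))ᵀ * B * u ^ (m + 1) = uᵀ * ((u ^ m)ᵀ * B * u ^ m) * u := by
        rw [pow_succ, transpose_mul]
        noncomm_ring
      rw [h1, ih, hB]
  set Y : ℕ → Matrix (Fin N) (Fin N) ℚ_[ℓ] := fun n => ((ℓ : ℚ_[ℓ]) ^ n)⁻¹ • (u ^ (ℓ ^ n) - 1) with hY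
  have hlim := lim_unip (ℓ := ℓ) hk hu
  have hYρ : ∀ n, u ^ (ℓ ^ n) = 1 + (ℓ : ℚ_[ℓ]) ^ n • Y n := by
    intro n
    rw [hY]
    simp only
    rw [smul_smul, mul_inv_cancel₀ (ell_ne n), one_smul, add_sub_cancel]
  have h0 : ∀ n, (Y n)ᵀ * B + B * Y n + (ℓ : ℚ_[ℓ]) ^ n • ((Y n)ᵀ * B * Y n) = 0 := by
    intro n
    have h1 := hpow (ℓ ^ n)
    rw [hYρ n, transpose_add, transpose_one, transpose_smul] at h1
    have h2 : (ℓ : ℚ_[ℓ]) ^ n • ((Y n)ᵀ * B + B * Y n + (ℓ : ℚ_[ℓ]) ^ n • ((Y n)ᵀ * B * Y n)) = 0 := by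
      have h3 : (1 + (ℓ : ℚ_[ℓ]) ^ n • (Y n)ᵀ) * B * (1 + (ℓ : ℚ_[ℓ]) ^ n • Y n) = B +
          (ℓ : ℚ_[ℓ]) ^ n • ((Y n)ᵀ * B + B * Y n + (ℓ : ℚ_[ℓ]) ^ n • ((Y n)ᵀ * B * Y n)) := by
        simp only [add_mul, mul_add, one_mul, mul_one, smul_mul_assoc, mul_smul_comm, smul_add,
          smul_smul]
        abel
      rw [h3] at h1
      exact left_eq_add.1 h1.symm
    exact (smul_eq_zero.1 h2).resolve_left (ell_ne n)
  set X := lg ℚ_[ℓ] (u - 1) k with hX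
  let Fc : ℚ_[ℓ] × Matrix (Fin N) (Fin N) ℚ_[ℓ] → Matrix (Fin N) (Fin N) ℚ_[ℓ] :=
    fun p => (p.2)ᵀ * B + B * p.2 + p.1 • ((p.2)ᵀ * B * p.2)
  have hc : Continuous Fc := by
    show Continuous fun p : ℚ_[ℓ] × Matrix (Fin N) (Fin N) ℚ_[ℓ] =>
        (p.2)ᵀ * B + B * p.2 + p.1 • ((p.2)ᵀ * B * p.2)
    fun_prop
  have hpair : Tendsto (fun n : ℕ => ((ℓ : ℚ_[ℓ]) ^ n, Y n)) atTop (𝓝 ((0 : ℚ_[ℓ]), X)) :=
    ell_lim.prodMk_nhds hlim
  have hT : Tendsto (fun n : ℕ => Fc ((ℓ : ℚ_[ℓ]) ^ n, Y n)) atTop (𝓝 (Fc ((0 : ℚ_[ℓ]), X))) :=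
    (hc.tendsto ((0 : ℚ_[ℓ]), X)).comp hpair
  have hF0 : (fun n : ℕ => Fc ((ℓ : ℚ_[ℓ]) ^ n, Y n)) = fun _ => 0 := funext h0
  rw [hF0] at hT
  have hT2 : T2Space (Matrix (Fin N) (Fin N) ℚ_[ℓ]) :=
    inferInstanceAs (T2Space (Fin N → Fin N → ℚ_[ℓ]))
  have h5 : Fc ((0 : ℚ_[ℓ]), X) = 0 := tendsto_nhds_unique hT tendsto_const_nhds
  have h6 : Fc ((0 : ℚ_[ℓ]), X) = Xᵀ * B + B * X := by
    show Xᵀ * B + B * X + (0 : ℚ_[ℓ]) • (Xᵀ * B * X) = _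
    rw [zero_smul, add_zero]
  rw [h6] at h5
  exact h5

end

end Pool.Agent.L5helper71.Ss
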