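import Pool.Agent.L5helper71.SsIrr
import Pool.Agent.L5helper71.SsUni
import Pool.Agent.Y126.JB.Core2
import Pool.Agent.R932.PO.JLie

/-!
# The symplectic Lie algebra from one unipotent element, on one block

The block is irreducible for all subgroups of finite index, and there is an element which is trivial on
the other blocks and unipotent on this one; its Jordan blocks have size one or even size, there are
blocks of size one, and exactly one block of some even size.
-/

set_option autoImplicit false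
set_option linter.unusedSectionVars false
set_option linter.style.haveILetI false

open Matrix Filter Topology Module
open Pool.Agent.Y142.ZO Pool.Agent.Y142.ZS Pool.Agent.Y126.JB Pool.Agent.R932.PO

namespace Pool.Agent.L5helper71.Ss

/-- the number of Jordan blocks of size `j` of a unipotent matrix -/
noncomputable def blocks {F : Type} [Field F] {N : ℕ} (u : Matrix (Fin N) (Fin N) F) (j : ℕ) : ℤ :=
  ((u - 1) ^ (j - 1)).rank + ((u - 1) ^ (j + 1)).rank - 2 * ((u - 1) ^ j).rank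

section algebra
variable {F Ω : Type} [Field F] [Field Ω] {N : ℕ}

theorem span_br {E : Type} [Ring E] [Algebra Ω E] {S : Set E}
    (h : ∀ Y ∈ S, ∀ Z ∈ S, Y * Z - Z * Y ∈ Submodule.span Ω S) :
    ∀ Y ∈ Submodule.span Ω S, ∀ Z ∈ Submodule.span Ω S, Y * Z - Z * Y ∈ Submodule.span Ω S := by
  intro Y hY
  induction hY using Submodule.span_induction with
  | mem Y hY =>
    intro Z hZ
    induction hZ using Submodule.span_induction with
    | mem Z hZ => exact h Y hY Z hZ
    | zero => rw [mul_zero, zero_mul, sub_zero]; exact Submodule.zero_mem _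
    | add Z₁ Z₂ _ _ h1 h2 =>
      have e : Y * (Z₁ + Z₂) - (Z₁ + Z₂) * Y = (Y * Z₁ - Z₁ * Y) + (Y * Z₂ - Z₂ * Y) := by
        noncomm_ring
      rw [e]
      exact Submodule.add_mem _ h1 h2
    | smul c Z _ h1 =>
      have e : Y * (c • Z) - (c • Z) * Y = c • (Y * Z - Z * Y) := by
        rw [mul_smul_comm, smul_mul_assoc, smul_sub]
      rw [e]
      exact Submodule.smul_mem _ _ h1
  | zero => intro Z _; rw [mul_zero, zero_mul, sub_zero]; exact Submodule.zero_mem _
  | add Y₁ Y₂ _ _ h1 h2 =>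
    intro Z hZ
    have e : (Y₁ + Y₂) * Z - Z * (Y₁ + Y₂) = (Y₁ * Z - Z * Y₁) + (Y₂ * Z - Z * Y₂) := by
      noncomm_ring
    rw [e]
    exact Submodule.add_mem _ (h1 Z hZ) (h2 Z hZ)
  | smul c Y _ h1 =>
    intro Z hZ
    have e : (c • Y) * Z - Z * (c • Y) = c • (Y * Z - Z * Y) := by
      rw [mul_smul_comm, smul_mul_assoc, smul_sub]
    rw [e]
    exact Submodule.smul_mem _ _ (h1 Z hZ)

/-- descent of membership in a span -/
theorem mem_of_span (f : F →+* Ω) (W : Submodule F (Matrix (Fin N) (Fin N) F))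
    {X : Matrix (Fin N) (Fin N) F}
    (h : X.map f ∈ Submodule.span Ω ((fun Y : Matrix (Fin N) (Fin N) F => Y.map f) '' W)) :
    X ∈ W := by
  classical
  by_contra hX
  obtain ⟨φ, hφX, hφW⟩ := Submodule.exists_le_ker_of_notMem hX
  let Φ : Matrix (Fin N) (Fin N) Ω →ₗ[Ω] Ω :=
    { toFun := fun A => ∑ a, ∑ b, A a b * f (φ (Matrix.single a b 1))
      map_add' := fun A A' => by
        simp only [Matrix.add_apply, add_mul, Finset.sum_add_distrib]
      map_smul' := fun c A => by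
        simp only [Matrix.smul_apply, smul_eq_mul, mul_assoc, RingHom.id_apply, Finset.mul_sum] }
  have hΦ : ∀ Y : Matrix (Fin N) (Fin N) F, Φ (Y.map f) = f (φ Y) := by
    intro Y
    have h1 : Y = ∑ a, ∑ b, Y a b • Matrix.single a b (1 : F) := by
      conv_lhs => rw [Matrix.matrix_eq_sum_single Y]
      refine Finset.sum_congr rfl fun a _ => Finset.sum_congr rfl fun b _ => ?_
      rw [Matrix.smul_single, smul_eq_mul, mul_one]
    have h2 : φ Y = ∑ a, ∑ b, Y a b * φ (Matrix.single a b 1) := by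
      conv_lhs => rw [h1]
      simp only [map_sum, map_smul, smul_eq_mul]
    show ∑ a, ∑ b, (Y.map f) a b * f (φ (Matrix.single a b 1)) = f (φ Y)
    rw [h2]
    simp only [map_sum, map_mul, Matrix.map_apply]
  have h2 : ∀ A ∈ Submodule.span Ω ((fun Y : Matrix (Fin N) (Fin N) F => Y.map f) '' W),
      Φ A = 0 := by
    intro A hA
    induction hA using Submodule.span_induction with
    | mem A hA =>
      obtain ⟨Y, hY, rfl⟩ := hA
      have h3 : φ Y = 0 := hφW hY
      show Φ (Y.map f) = 0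
      rw [hΦ, h3, map_zero]
    | zero => rw [map_zero]
    | add A A' _ _ h1 h2 => rw [map_add, h1, h2, add_zero]
    | smul c A _ h1 => rw [map_smul, h1, smul_zero]
  have h3 := h2 _ h
  rw [hΦ, map_eq_zero] at h3
  exact hφX h3

/-- brackets -/
theorem spLie_br {B X Y : Matrix (Fin N) (Fin N) F} (hX : SpLie B X) (hY : SpLie B Y) :
    SpLie B (X * Y - Y * X) := by
  unfold SpLie at hX hY ⊢
  have h1 : Xᵀ * B = -(B * X) := eq_neg_of_add_eq_zero_left hX
  have h2 : Yᵀ * B = -(B * Y) := eq_neg_of_add_eq_zero_left hY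
  rw [transpose_sub, transpose_mul, transpose_mul, sub_mul, mul_assoc, mul_assoc, h1, h2]
  have h3 : Yᵀ * -(B * X) = -(Yᵀ * B * X) := by noncomm_ring
  have h4 : Xᵀ * -(B * Y) = -(Xᵀ * B * Y) := by noncomm_ring
  rw [h3, h4, h1, h2]
  noncomm_ring

/-- the similitudes act on the Lie algebra of the form -/
theorem spLie_conj {B g h X : Matrix (Fin N) (Fin N) F} (hB : B.det ≠ 0) (hN : 0 < N) {c : F}
    (hg : gᵀ * B * g = c • B) (h1 : g * h = 1) (hX : SpLie B X) : SpLie B (g * X * h) := by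
  have h2 : h * g = 1 := mul_eq_one_comm.1 h1
  have hc0 : c ≠ 0 := by
    rintro rfl
    rw [zero_smul] at hg
    apply hB
    have h3 : B = hᵀ * (gᵀ * B * g) * h := by
      calc B = (g * h)ᵀ * B * (g * h) := by rw [h1, transpose_one, one_mul, mul_one]
        _ = hᵀ * (gᵀ * B * g) * h := by rw [transpose_mul]; noncomm_ring
    have : Nonempty (Fin N) := ⟨⟨0, hN⟩⟩
    rw [h3, hg, mul_zero, zero_mul, det_zero]
  -- `Bg = c h^T B`
  have h3 : B * g = c • (hᵀ * B) := by
    calc B * g = (g * h)ᵀ * B * g := by rw [h1, transpose_one, one_mul]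
      _ = hᵀ * (gᵀ * B * g) := by rw [transpose_mul]; noncomm_ring
      _ = c • (hᵀ * B) := by rw [hg, mul_smul_comm]
  have h4 : gᵀ * B = c • (B * h) := by
    calc gᵀ * B = gᵀ * B * (g * h) := by rw [h1, mul_one]
      _ = (gᵀ * B * g) * h := by noncomm_ring
      _ = c • (B * h) := by rw [hg, smul_mul_assoc]
  unfold SpLie at hX ⊢
  have h5 : (g * X * h)ᵀ * B = hᵀ * Xᵀ * (gᵀ * B) := by
    rw [transpose_mul, transpose_mul]
    noncomm_ring
  have h6 : B * (g * X * h) = (B * g) * X * h := by noncomm_ring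
  rw [h5, h4, h6, h3]
  have h7 : hᵀ * Xᵀ * (c • (B * h)) + c • (hᵀ * B) * X * h = c • (hᵀ * (Xᵀ * B + B * X) * h) := by
    rw [mul_smul_comm, smul_mul_assoc, smul_mul_assoc, ← smul_add]
    congr 1
    noncomm_ring
  rw [h7, hX, mul_zero, zero_mul, smul_zero]

end algebra

section block
variable {ℓ : ℕ} [hℓ : Fact ℓ.Prime] {ι : Type} [Fintype ι] [DecidableEq ι] {N : ι → ℕ}
  {G : Type} [Group G]

/-- the algebraic closure -/
abbrev Om (ℓ : ℕ) [Fact ℓ.Prime] : Type := AlgebraicClosure ℚ_[ℓ]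

/-- the representation over the algebraic closure -/
noncomputable def repO {n : ℕ} (r : G →* Matrix (Fin n) (Fin n) ℚ_[ℓ]) :
    Representation (Om ℓ) G (Fin n → Om ℓ) :=
  ((Matrix.toLinAlgEquiv' (R := Om ℓ) (n := Fin n)).toAlgHom.toRingHom.toMonoidHom.comp
    ((algebraMap ℚ_[ℓ] (Om ℓ)).mapMatrix.toMonoidHom)).comp r

theorem repO_apply {n : ℕ} (r : G →* Matrix (Fin n) (Fin n) ℚ_[ℓ]) (g : G) :
    repO r g = Matrix.toLin' ((r g).map (algebraMap ℚ_[ℓ] (Om ℓ))) := rfl

/-- strong irreducibility over the algebraic closure -/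
theorem si_of {n : ℕ} (hn : 0 < n) (r : G →* Matrix (Fin n) (Fin n) ℚ_[ℓ])
    (hirr : ∀ U : Subgroup G, U.FiniteIndex → ∀ W : Submodule ℚ_[ℓ] (Fin n → ℚ_[ℓ]),
      (∀ g ∈ U, ∀ x ∈ W, r g *ᵥ x ∈ W) → W = ⊥ ∨ W = ⊤)
    (g : G) (hu : IsNilpotent (r g - 1)) (D : ℕ)
    (h1 : finrank ℚ_[ℓ] (KK (Matrix.toLin' (r g - 1)) D) =
      finrank ℚ_[ℓ] (KK (Matrix.toLin' (r g - 1)) (D + 1)) + 1) :
    Pool.Agent.W522.U.SI (repO r) (⊤ : Submodule (Om ℓ) (Fin n → Om ℓ)) := by
  have : Nonempty (Fin n) := ⟨⟨0, hn⟩⟩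
  refine ⟨top_ne_bot, Pool.Agent.W522.U.pot_top, fun W _ hW => ?_⟩
  obtain ⟨Δ, hΔ, hst⟩ := hW
  obtain ⟨m, hm, -, hgm⟩ := Subgroup.exists_pow_mem_of_index_ne_zero hΔ.index_ne_zero g
  refine abs_irr hn (algebraMap ℚ_[ℓ] (Om ℓ)) (r '' Δ) (fun W' hW' => ?_) (fun A hA => ?_) W ?_
  · exact hirr Δ hΔ W' fun h hh x hx => hW' _ ⟨h, hh, rfl⟩ x hx
  · have hsc := comm_scalar (F := ℚ_[ℓ]) (V := Fin n → ℚ_[ℓ]) (Matrix.toLin' '' (r '' Δ))
      (fun W' hW' => hirr Δ hΔ W' fun h hh x hx => hW' _ ⟨_, ⟨h, hh, rfl⟩, rfl⟩ x hx)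
      ((1 + Matrix.toLin' (r g - 1)) ^ m - 1) D ?_ (Matrix.toLin' A) ?_ ?_
    · obtain ⟨c, hc⟩ := hsc
      refine ⟨c, ?_⟩
      have h3 := congrArg LinearMap.toMatrix' hc
      rw [LinearMap.toMatrix'_toLin', map_smul] at h3
      have h4 : LinearMap.toMatrix' (1 : Module.End ℚ_[ℓ] (Fin n → ℚ_[ℓ])) = 1 :=
        LinearMap.toMatrix'_one
      rw [h4] at h3
      exact h3
    · have hnil : IsNilpotent (Matrix.toLin' (r g - 1)) := by
        obtain ⟨k, hk⟩ := hu
        refine ⟨k, ?_⟩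
        rw [← Matrix.toLin'_pow, hk, map_zero]
      rw [pow_blocks hnil hm, pow_blocks hnil hm]
      exact h1
    · rintro _ ⟨_, ⟨h, hh, rfl⟩, rfl⟩
      have h2 := hA (r h) ⟨h, hh, rfl⟩
      rw [Module.End.mul_eq_comp, Module.End.mul_eq_comp, ← Matrix.toLin'_mul, ← Matrix.toLin'_mul, h2]
    · have h2 : (1 + Matrix.toLin' (r g - 1)) ^ m - 1 = Matrix.toLin' (r (g ^ m) - 1) := by
        have h3 : (1 : Module.End ℚ_[ℓ] (Fin n → ℚ_[ℓ])) + Matrix.toLin' (r g - 1) =
            Matrix.toLin' (r g) := by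
          rw [map_sub, Matrix.toLin'_one]
          show (LinearMap.id : (Fin n → ℚ_[ℓ]) →ₗ[ℚ_[ℓ]] _) + (_ - LinearMap.id) = _
          rw [add_sub_cancel]
        rw [h3, ← Matrix.toLin'_pow, ← map_pow r g m, map_sub, Matrix.toLin'_one]
        rfl
      have h3 : A * r (g ^ m) = r (g ^ m) * A := hA _ ⟨g ^ m, hgm, rfl⟩
      have h4 : A * (r (g ^ m) - 1) = (r (g ^ m) - 1) * A := by
        rw [mul_sub, sub_mul, h3, mul_one, one_mul]
      rw [h2, Module.End.mul_eq_comp, Module.End.mul_eq_comp, ← Matrix.toLin'_mul,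
        ← Matrix.toLin'_mul, h4]
  · rintro _ ⟨h, hh, rfl⟩ x hx
    exact hst h hh x hx

/-- the blocks and the ranks of the powers -/
theorem kk_of_rank {F : Type} [Field F] {n : ℕ} (E : Matrix (Fin n) (Fin n) F) (j : ℕ) :
    ((E ^ j).rank : ℤ) - (E ^ (j + 1)).rank = finrank F (KK (Matrix.toLin' E) j) := by
  have h1 := KK_rank (Matrix.toLin' E) j
  rw [← Matrix.toLin'_pow, ← Matrix.toLin'_pow] at h1
  have h2 : ∀ A : Matrix (Fin n) (Fin n) F, A.rank = finrank F (LinearMap.range (Matrix.toLin' A)) :=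
    fun A => rfl
  rw [h2, h2, h1]
  push_cast
  ring

/-- **the Lie algebra of one block** -/
theorem block_full (r : ∀ i, G →* Matrix (Fin (N i)) (Fin (N i)) ℚ_[ℓ]) (i : ι) (hN : 0 < N i)
    {B : Matrix (Fin (N i)) (Fin (N i)) ℚ_[ℓ]} (hB : Bᵀ = -B) (hdet : B.det ≠ 0)
    (κ : G →* ℚ_[ℓ]) (hκ : ∀ g, (r i g)ᵀ * B * r i g = κ g • B)
    (hirr : ∀ U : Subgroup G, U.FiniteIndex → ∀ W : Submodule ℚ_[ℓ] (Fin (N i) → ℚ_[ℓ]),
      (∀ g ∈ U, ∀ x ∈ W, r i g *ᵥ x ∈ W) → W = ⊥ ∨ W = ⊤)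
    (g : G) (ho : ∀ j, j ≠ i → r j g = 1) (hu : IsNilpotent (r i g - 1))
    (hodd : ∀ j, Odd j → 3 ≤ j → blocks (r i g) j = 0) (hone : blocks (r i g) 1 ≠ 0)
    (heven : ∃ j, Even j ∧ blocks (r i g) j = 1) :
    ∀ X, SpLie B X → JTan ℓ r (Pi.single i X) := by
  classical
  have hNe : Nonempty (Fin (N i)) := ⟨⟨0, hN⟩⟩
  set f : ℚ_[ℓ] →+* Om ℓ := algebraMap ℚ_[ℓ] (Om ℓ) with hf
  set n : Matrix (Fin (N i)) (Fin (N i)) ℚ_[ℓ] := r i g - 1 with hn
  obtain ⟨k₀, hk₀⟩ := hu
  -- the even block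
  obtain ⟨j₀, hj₀, hbj⟩ := heven
  have hj2 : 2 ≤ j₀ := by
    rcases Nat.lt_or_ge j₀ 2 with h | h
    · have h0 : j₀ = 0 := by
        obtain ⟨m, hm⟩ := hj₀
        omega
      exfalso
      rw [h0] at hbj
      unfold blocks at hbj
      rw [Nat.zero_sub, zero_add, pow_zero, pow_one, Matrix.rank_one] at hbj
      have h1 := Matrix.rank_le_width (r i g - 1)
      rw [Fintype.card_fin] at hbj
      omega
    · exact h
  obtain ⟨D, rfl⟩ : ∃ D, j₀ = D + 1 := ⟨j₀ - 1, by omega⟩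
  have hD : Odd D := by
    obtain ⟨m, hm⟩ := hj₀
    exact ⟨m - 1, by omega⟩
  -- the nilpotent element
  set k : ℕ := k₀ + 1 with hk
  have hkp : 0 < k := Nat.succ_pos _
  have hnk : n ^ k = 0 := by rw [hk, pow_succ, hk₀, zero_mul]
  set e : Matrix (Fin (N i)) (Fin (N i)) ℚ_[ℓ] := lg ℚ_[ℓ] n k with he
  obtain ⟨V, hV, hVc, heV⟩ := lg_eq (K := ℚ_[ℓ]) n hnk
  have hrk : ∀ j, (e ^ j).rank = (n ^ j).rank := by
    intro j
    rw [he, heV, hVc.mul_pow, Matrix.rank_mul_eq_left_of_isUnit_det]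
    rw [Matrix.det_pow]
    exact ((Matrix.isUnit_iff_isUnit_det _).1 hV).pow j
  have hrkO : ∀ j, ((e.map f) ^ j).rank = (n ^ j).rank := by
    intro j
    have h1 : (e.map f) ^ j = (e ^ j).map f := by
      have h2 := map_pow f.mapMatrix e j
      exact h2.symm
    rw [h1, Pool.Agent.R410.SQ.rank_map_hom, hrk]
  have hkkO : ∀ j, (finrank (Om ℓ) (KK (Matrix.toLin' (e.map f)) j) : ℤ) -
      finrank (Om ℓ) (KK (Matrix.toLin' (e.map f)) (j + 1)) = blocks (r i g) (j + 1) := by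
    intro j
    rw [← kk_of_rank, ← kk_of_rank, hrkO, hrkO, hrkO]
    unfold blocks
    rw [Nat.add_sub_cancel]
    ring
  have hkkQ : ∀ j, (finrank ℚ_[ℓ] (KK (Matrix.toLin' n) j) : ℤ) -
      finrank ℚ_[ℓ] (KK (Matrix.toLin' n) (j + 1)) = blocks (r i g) (j + 1) := by
    intro j
    rw [← kk_of_rank, ← kk_of_rank]
    unfold blocks
    rw [Nat.add_sub_cancel]
    ring
  have hen : IsNilpotent (Matrix.toLin' (e.map f)) := by
    refine ⟨k, ?_⟩
    have h1 : (e.map f) ^ k = 0 := by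
      have h2 : (e.map f) ^ k = (e ^ k).map f := (map_pow f.mapMatrix e k).symm
      rw [h2, he, heV, hVc.mul_pow, hnk, zero_mul, Matrix.map_zero _ (map_zero f)]
    rw [← Matrix.toLin'_pow, h1, map_zero]
  have hkj : ∀ j, Kj (Matrix.toLin' (e.map f)) j = KK (Matrix.toLin' (e.map f)) j := fun j => rfl
  have htyp : Typ2 (Matrix.toLin' (e.map f)) D := by
    refine ⟨hD, hen, ?_, fun j hj hje => ?_, fun h => ?_⟩
    · have h1 := hkkO D
      rw [hbj] at h1
      rw [hkj, hkj]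
      omega
    · have h1 := hkkO j
      rw [hodd (j + 1) hje.add_one (by omega)] at h1
      rw [hkj, hkj]
      symm
      refine Submodule.eq_of_le_of_finrank_le (KK_mono _ _) ?_
      omega
    · have h1 := hkkO 0
      rw [hkj, hkj] at h
      rw [h, sub_self] at h1
      exact hone h1.symm
  -- strong irreducibility
  have hSI : Pool.Agent.W522.U.SI (repO (r i)) (⊤ : Submodule (Om ℓ) (Fin (N i) → Om ℓ)) := by
    refine si_of hN (r i) hirr g ⟨k₀, hk₀⟩ D ?_
    have h1 := hkkQ D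
    rw [hbj] at h1
    show finrank ℚ_[ℓ] (KK (Matrix.toLin' n) D) = finrank ℚ_[ℓ] (KK (Matrix.toLin' n) (D + 1)) + 1
    omega
  -- the Lie algebra
  obtain ⟨𝔤, h𝔤, hbr, hcj⟩ := jlie ℓ ι N G r
  let W0 : Submodule ℚ_[ℓ] (Matrix (Fin (N i)) (Fin (N i)) ℚ_[ℓ]) :=
    { carrier := {X | SpLie B X ∧ Pi.single i X ∈ 𝔤}
      add_mem' := by
        rintro a b ⟨ha, ha'⟩ ⟨hb, hb'⟩
        refine ⟨?_, ?_⟩
        · unfold SpLie at ha hb ⊢
          rw [transpose_add, add_mul, mul_add]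
          calc aᵀ * B + bᵀ * B + (B * a + B * b) = (aᵀ * B + B * a) + (bᵀ * B + B * b) := by abel
            _ = 0 := by rw [ha, hb, add_zero]
        · rw [Pi.single_add]
          exact 𝔤.add_mem ha' hb'
      zero_mem' := by
        refine ⟨?_, ?_⟩
        · unfold SpLie
          rw [transpose_zero, zero_mul, mul_zero, add_zero]
        · rw [Pi.single_zero]
          exact 𝔤.zero_mem
      smul_mem' := by
        rintro c a ⟨ha, ha'⟩
        refine ⟨?_, ?_⟩
        · unfold SpLie at ha ⊢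
          rw [transpose_smul, smul_mul_assoc, mul_smul_comm, ← smul_add, ha, smul_zero]
        · rw [Pi.single_smul]
          exact 𝔤.smul_mem c ha' }
  have hW0br : ∀ X ∈ W0, ∀ Y ∈ W0, X * Y - Y * X ∈ W0 := by
    rintro X ⟨hX, hX'⟩ Y ⟨hY, hY'⟩
    refine ⟨?_, ?_⟩
    · exact spLie_br hX hY
    · have h1 := hbr _ hX' _ hY'
      have h2 : (fun j => (Pi.single i X : ∀ i, Matrix (Fin (N i)) (Fin (N i)) ℚ_[ℓ]) j *
          (Pi.single i Y : ∀ i, Matrix (Fin (N i)) (Fin (N i)) ℚ_[ℓ]) j -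
          (Pi.single i Y : ∀ i, Matrix (Fin (N i)) (Fin (N i)) ℚ_[ℓ]) j *
          (Pi.single i X : ∀ i, Matrix (Fin (N i)) (Fin (N i)) ℚ_[ℓ]) j) =
          Pi.single i (X * Y - Y * X) := by
        funext j
        by_cases hj : j = i
        · subst hj
          rw [Pi.single_eq_same, Pi.single_eq_same, Pi.single_eq_same]
        · rw [Pi.single_eq_of_ne hj, Pi.single_eq_of_ne hj, Pi.single_eq_of_ne hj, mul_zero,
            sub_zero]
      rw [h2] at h1
      exact h1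
  have hinv : ∀ h : G, r i h * r i h⁻¹ = 1 := fun h => by
    rw [← map_mul, mul_inv_cancel, map_one]
  have hW0cj : ∀ h : G, ∀ X ∈ W0, r i h * X * r i h⁻¹ ∈ W0 := by
    rintro h X ⟨hX, hX'⟩
    refine ⟨spLie_conj hdet hN (hκ h) (hinv h) hX, ?_⟩
    have h1 := hcj h _ hX'
    have h2 : (fun j => r j h * (Pi.single i X : ∀ i, Matrix (Fin (N i)) (Fin (N i)) ℚ_[ℓ]) j *
        r j h⁻¹) = Pi.single i (r i h * X * r i h⁻¹) := by
      funext j
      by_cases hj : j = i
      · subst hj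
        rw [Pi.single_eq_same, Pi.single_eq_same]
      · rw [Pi.single_eq_of_ne hj, Pi.single_eq_of_ne hj, mul_zero, zero_mul]
    rw [h2] at h1
    exact h1
  have heW : e ∈ W0 := by
    have hg1 : κ g = 1 := mult_unip hN hdet (hκ g) ⟨k₀, hk₀⟩
    refine ⟨?_, ?_⟩
    · refine sp_unip ?_ hkp hnk
      rw [hκ g, hg1, one_smul]
    · exact (h𝔤 _).2 (jtan_unip r i g hkp hnk ho)
  set Lm : Submodule (Om ℓ) (Matrix (Fin (N i)) (Fin (N i)) (Om ℓ)) :=
    Submodule.span (Om ℓ) ((fun Y : Matrix (Fin (N i)) (Fin (N i)) ℚ_[ℓ] => Y.map f) '' W0) with hLm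
  let L : Submodule (Om ℓ) (End (Om ℓ) (Fin (N i) → Om ℓ)) :=
    Lm.map (Matrix.toLin' (R := Om ℓ) (m := Fin (N i)) (n := Fin (N i))).toLinearMap
  have hmemL : ∀ A, Matrix.toLin' A ∈ L ↔ A ∈ Lm := by
    intro A
    constructor
    · rintro ⟨A', hA', h1⟩
      have h2 : A' = A := Matrix.toLin'.injective h1
      rw [← h2]
      exact hA'
    · intro hA
      exact ⟨A, hA, rfl⟩
  have hLmbr : ∀ A ∈ Lm, ∀ A' ∈ Lm, A * A' - A' * A ∈ Lm := by
    refine span_br ?_
    rintro _ ⟨Y, hY, rfl⟩ _ ⟨Z, hZ, rfl⟩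
    refine Submodule.subset_span ⟨Y * Z - Z * Y, hW0br Y hY Z hZ, ?_⟩
    show (Y * Z - Z * Y).map f = Y.map f * Z.map f - Z.map f * Y.map f
    rw [Matrix.map_sub _ (map_sub f), Matrix.map_mul, Matrix.map_mul]
  have hLmcj : ∀ h : G, ∀ A ∈ Lm, (r i h).map f * A * (r i h⁻¹).map f ∈ Lm := by
    intro h A hA
    induction hA using Submodule.span_induction with
    | mem A hA =>
      obtain ⟨Y, hY, rfl⟩ := hA
      refine Submodule.subset_span ⟨r i h * Y * r i h⁻¹, hW0cj h Y hY, ?_⟩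
      show (r i h * Y * r i h⁻¹).map f = (r i h).map f * Y.map f * (r i h⁻¹).map f
      rw [Matrix.map_mul, Matrix.map_mul]
    | zero => rw [mul_zero, zero_mul]; exact Submodule.zero_mem _
    | add A A' _ _ h1 h2 => rw [mul_add, add_mul]; exact Submodule.add_mem _ h1 h2
    | smul c A _ h1 =>
      rw [mul_smul_comm, smul_mul_assoc]
      exact Submodule.smul_mem _ _ h1
  have hLmsp : ∀ A ∈ Lm, SpLie (B.map f) A := by
    intro A hA
    induction hA using Submodule.span_induction with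
    | mem A hA =>
      obtain ⟨Y, hY, rfl⟩ := hA
      have h1 : SpLie B Y := hY.1
      unfold SpLie at h1 ⊢
      show (Y.map f)ᵀ * B.map f + B.map f * Y.map f = 0
      rw [← Matrix.transpose_map, ← Matrix.map_mul, ← Matrix.map_mul, ← Matrix.map_add _ (map_add f),
        h1, Matrix.map_zero _ (map_zero f)]
    | zero =>
      unfold SpLie
      rw [transpose_zero, zero_mul, mul_zero, add_zero]
    | add A A' _ _ h1 h2 =>
      unfold SpLie at h1 h2 ⊢
      rw [transpose_add, add_mul, mul_add]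
      calc Aᵀ * B.map f + A'ᵀ * B.map f + (B.map f * A + B.map f * A') =
          (Aᵀ * B.map f + B.map f * A) + (A'ᵀ * B.map f + B.map f * A') := by abel
        _ = 0 := by rw [h1, h2, add_zero]
    | smul c A _ h1 =>
      unfold SpLie at h1 ⊢
      rw [transpose_smul, smul_mul_assoc, mul_smul_comm, ← smul_add, h1, smul_zero]
  -- the form
  let ω : (Fin (N i) → Om ℓ) →ₗ[Om ℓ] (Fin (N i) → Om ℓ) →ₗ[Om ℓ] Om ℓ :=
    Matrix.toLinearMap₂' (Om ℓ) (B.map f)
  have hω : ∀ x y, ω x y = x ⬝ᵥ (B.map f) *ᵥ y := fun x y => Matrix.toLinearMap₂'_apply' _ _ _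
  have hBO : (B.map f)ᵀ = -(B.map f) := by
    rw [← Matrix.transpose_map, hB]
    ext a b
    simp
  have hdetO : (B.map f).det ≠ 0 := by
    have h1 : (B.map f).det = f B.det := (RingHom.map_det f B).symm
    rw [h1]
    exact fun h => hdet ((map_eq_zero f).1 h)
  have hswap : ∀ x y, ω x y = -ω y x := by
    intro x y
    rw [hω, hω, dotProduct_mulVec, dotProduct_comm, ← mulVec_transpose, hBO, neg_mulVec,
      dotProduct_neg]
  have halt : ∀ v, ω v v = 0 := by
    intro v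
    have h1 := hswap v v
    have h2 : (2 : Om ℓ) * ω v v = 0 := by linear_combination h1
    exact (mul_eq_zero.1 h2).resolve_left two_ne_zero
  have hnd : ∀ u, (∀ v, ω u v = 0) → u = 0 := by
    intro u h
    have h1 : u ᵥ* (B.map f) = 0 := by
      ext a
      have h2 := h (Pi.single a 1)
      rw [hω, dotProduct_mulVec] at h2
      simpa using h2
    have h2 : IsUnit (B.map f).det := isUnit_iff_ne_zero.2 hdetO
    have h3 : (u ᵥ* (B.map f)) ᵥ* (B.map f)⁻¹ = u := by
      rw [vecMul_vecMul, mul_nonsing_inv _ h2, vecMul_one]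
    rw [← h3, h1, zero_vecMul]
  have hfull := full_of_typ2 (K := Om ℓ) (T := Fin (N i) → Om ℓ) (Γ := G) (R := repO (r i)) (L := L)
    (ω := ω) (χ := (f : ℚ_[ℓ] →* Om ℓ).comp κ) halt hnd
    (fun h u v => by
      rw [hω, hω]
      show ((r i h).map f *ᵥ u) ⬝ᵥ (B.map f) *ᵥ ((r i h).map f *ᵥ v) =
        f (κ h) * (u ⬝ᵥ (B.map f) *ᵥ v)
      have h1 : ((r i h).map f)ᵀ * B.map f * (r i h).map f = f (κ h) • B.map f := by
        rw [← Matrix.transpose_map, ← Matrix.map_mul, ← Matrix.map_mul, hκ h]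
        ext a b
        simp
      have h2 : ((r i h).map f *ᵥ u) ⬝ᵥ (B.map f) *ᵥ ((r i h).map f *ᵥ v) =
          u ⬝ᵥ (((r i h).map f)ᵀ * B.map f * (r i h).map f) *ᵥ v := by
        rw [← mulVec_mulVec, ← mulVec_mulVec, dotProduct_mulVec u, vecMul_transpose]
      rw [h2, h1, smul_mulVec, dotProduct_smul, smul_eq_mul])
    (fun h Y hY => by
      obtain ⟨A, hA, rfl⟩ := hY
      refine ⟨(r i h).map f * A * (r i h⁻¹).map f, hLmcj h A hA, ?_⟩
      show Matrix.toLin' ((r i h).map f * A * (r i h⁻¹).map f) =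
        Matrix.toLin' ((r i h).map f) * Matrix.toLin' A * Matrix.toLin' ((r i h⁻¹).map f)
      rw [Matrix.toLin'_mul, Matrix.toLin'_mul]
      rfl)
    (fun Y hY Z hZ => by
      obtain ⟨A, hA, rfl⟩ := hY
      obtain ⟨A', hA', rfl⟩ := hZ
      refine ⟨A * A' - A' * A, hLmbr A hA A' hA', ?_⟩
      show Matrix.toLin' (A * A' - A' * A) =
        Matrix.toLin' A * Matrix.toLin' A' - Matrix.toLin' A' * Matrix.toLin' A
      rw [map_sub, Matrix.toLin'_mul, Matrix.toLin'_mul]
      rfl)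
    (fun Y hY u w => by
      obtain ⟨A, hA, rfl⟩ := hY
      have h1 := hLmsp A hA
      rw [hω, hω]
      show (A *ᵥ u) ⬝ᵥ (B.map f) *ᵥ w + u ⬝ᵥ (B.map f) *ᵥ (A *ᵥ w) = 0
      have h2 : (A *ᵥ u) ⬝ᵥ (B.map f) *ᵥ w = u ⬝ᵥ (Aᵀ * B.map f) *ᵥ w := by
        rw [← mulVec_mulVec, dotProduct_mulVec u, vecMul_transpose]
      unfold SpLie at h1
      rw [h2, mulVec_mulVec, ← dotProduct_add, ← add_mulVec, h1, zero_mulVec, dotProduct_zero])
    hSI (e := Matrix.toLin' (e.map f))
    ((hmemL _).2 (Submodule.subset_span ⟨e, heW, rfl⟩)) htyp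
  intro X hX
  -- the element as a combination
  have hXL : Matrix.toLin' (X.map f) ∈ L := by
    have hu2 : IsUnit (B.map f).det := isUnit_iff_ne_zero.2 hdetO
    set T : Matrix (Fin (N i)) (Fin (N i)) (Om ℓ) := X.map f * (B.map f)⁻¹ with hT
    have hTB : X.map f = T * B.map f := by
      rw [hT, mul_assoc, nonsing_inv_mul _ hu2, mul_one]
    have hXO : SpLie (B.map f) (X.map f) := by
      unfold SpLie at hX ⊢
      rw [← Matrix.transpose_map, ← Matrix.map_mul, ← Matrix.map_mul, ← Matrix.map_add _ (map_add f),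
        hX, Matrix.map_zero _ (map_zero f)]
    have hTs : Tᵀ = T := by
      have h1 : (X.map f)ᵀ * B.map f + B.map f * X.map f = 0 := hXO
      rw [hTB, transpose_mul, hBO] at h1
      have h2 : B.map f * (T - Tᵀ) * B.map f = 0 := by
        have h3 : B.map f * (T - Tᵀ) * B.map f =
            -(B.map f) * Tᵀ * B.map f + B.map f * (T * B.map f) := by noncomm_ring
        rw [h3]
        exact h1
      have h3 : T - Tᵀ = (B.map f)⁻¹ * (B.map f * (T - Tᵀ) * B.map f) * (B.map f)⁻¹ := by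
        calc T - Tᵀ = ((B.map f)⁻¹ * B.map f) * (T - Tᵀ) * (B.map f * (B.map f)⁻¹) := by
              rw [nonsing_inv_mul _ hu2, mul_nonsing_inv _ hu2, one_mul, mul_one]
          _ = _ := by noncomm_ring
      rw [h2, mul_zero, zero_mul, sub_eq_zero] at h3
      exact h3.symm
    have hsum : Matrix.toLin' (X.map f) = ∑ a, ∑ b, (T a b / 2) •
        Pool.Agent.H204R3.SP.SS ω (Pi.single a 1) (Pi.single b 1) := by
      apply LinearMap.ext
      intro y
      have hωs : ∀ a, ω (Pi.single a 1) y = ((B.map f) *ᵥ y) a := by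
        intro a
        rw [hω, single_one_dotProduct]
      rw [LinearMap.sum_apply]
      simp only [LinearMap.sum_apply, LinearMap.smul_apply, Pool.Agent.H204R3.SP.SS_apply, hωs]
      ext c
      rw [Matrix.toLin'_apply, hTB, ← mulVec_mulVec, Finset.sum_apply]
      simp only [Finset.sum_apply, Pi.smul_apply, Pi.add_apply, smul_eq_mul]
      have h1 : ∀ a b : Fin (N i), T a b / 2 * (((B.map f) *ᵥ y) a * (Pi.single b (1 : Om ℓ) : Fin (N i) → Om ℓ) c +
          ((B.map f) *ᵥ y) b * (Pi.single a (1 : Om ℓ) : Fin (N i) → Om ℓ) c) =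
          (if b = c then T a b / 2 * ((B.map f) *ᵥ y) a else 0) +
          (if a = c then T a b / 2 * ((B.map f) *ᵥ y) b else 0) := by
        intro a b
        by_cases hb : b = c
        · subst hb
          by_cases ha : a = b
          · subst ha
            simp
            ring
          · rw [Pi.single_eq_same, Pi.single_eq_of_ne (Ne.symm ha), if_pos rfl, if_neg ha]
            ring
        · rw [Pi.single_eq_of_ne (Ne.symm hb), if_neg hb]
          by_cases ha : a = c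
          · subst ha
            rw [Pi.single_eq_same, if_pos rfl]
            ring
          · rw [Pi.single_eq_of_ne (Ne.symm ha), if_neg ha]
            ring
      simp only [h1, Finset.sum_add_distrib]
      have h2 : ∑ a, ∑ b, (if b = c then T a b / 2 * ((B.map f) *ᵥ y) a else 0) =
          ∑ a, T c a / 2 * ((B.map f) *ᵥ y) a := by
        refine Finset.sum_congr rfl fun a _ => ?_
        rw [Finset.sum_ite_eq' Finset.univ c, if_pos (Finset.mem_univ _)]
        have h3 := congrFun (congrFun hTs c) a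
        rw [transpose_apply] at h3
        rw [h3]
      have h3 : ∑ a, ∑ b, (if a = c then T a b / 2 * ((B.map f) *ᵥ y) b else 0) =
          ∑ b, T c b / 2 * ((B.map f) *ᵥ y) b := by
        rw [Finset.sum_comm]
        refine Finset.sum_congr rfl fun b _ => ?_
        rw [Finset.sum_ite_eq' Finset.univ c, if_pos (Finset.mem_univ _)]
      rw [h2, h3, ← Finset.sum_add_distrib]
      show ∑ b, T c b * ((B.map f) *ᵥ y) b = _
      refine Finset.sum_congr rfl fun b _ => ?_
      ring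
    rw [hsum]
    exact Submodule.sum_mem _ fun a _ => Submodule.sum_mem _ fun b _ =>
      Submodule.smul_mem _ _ (hfull _ _)
  have h1 : X ∈ W0 := mem_of_span f W0 ((hmemL _).1 hXL)
  exact (h𝔤 _).1 h1.2

end block

end Pool.Agent.L5helper71.Ss
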