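import Pool.Agent.R932.OP.AltB
import Pool.Agent.Y708.ZO.Tan
import Pool.Agent.Y497.ZO.LogPow
import Pool.Agent.L5helper71.SsJor
import Pool.Agent.N171.TG.Sm

/-!
# The Lie algebra of the image of a semisimple representation from the Tate classes of degree four
-/

set_option autoImplicit false
set_option linter.unusedSectionVars false
set_option linter.style.haveILetI false
set_option maxHeartbeats 4000000

open Matrix Polynomial Filter Topology Module
open Pool.Agent.Y142.ZO Pool.Agent.Y142.ZS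
open Pool.Agent.R932.OP
open Pool.Agent.N171.TG hiding rho_inv rho_inv'

namespace Pool.Agent.L5helper71.Ss

section si
variable {ℓ : ℕ} [hℓ : Fact ℓ.Prime] {G : Type} [Group G] [TopologicalSpace G]
  [IsTopologicalGroup G] [CompactSpace G]

/-- strong irreducibility, from the open subgroups -/
theorem si_of_open {n : ℕ} (hn : 0 < n) (r : G →* Matrix (Fin n) (Fin n) ℚ_[ℓ]) (hr : Continuous r)
    (hirr : ∀ U : Subgroup G, IsOpen (U : Set G) → ∀ W : Submodule ℚ_[ℓ] (Fin n → ℚ_[ℓ]),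
      (∀ g ∈ U, ∀ x ∈ W, r g *ᵥ x ∈ W) → W = ⊥ ∨ W = ⊤)
    (hc : ∀ U : Subgroup G, IsOpen (U : Set G) → ∀ A : Matrix (Fin n) (Fin n) ℚ_[ℓ],
      (∀ g ∈ U, A * r g = r g * A) → ∃ c : ℚ_[ℓ], A = c • 1) :
    Pool.Agent.W522.U.SI (repO r) (⊤ : Submodule (Om ℓ) (Fin n → Om ℓ)) := by
  have : Nonempty (Fin n) := ⟨⟨0, hn⟩⟩
  refine ⟨top_ne_bot, Pool.Agent.W522.U.pot_top, fun W _ hW => ?_⟩
  obtain ⟨Δ, hΔ, hst⟩ := hW
  set f : ℚ_[ℓ] →+* Om ℓ := algebraMap ℚ_[ℓ] (Om ℓ) with hf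
  let M : Submodule ℚ_[ℓ] (Matrix (Fin n) (Fin n) ℚ_[ℓ]) :=
    { carrier := {A | ∀ x ∈ W, A.map f *ᵥ x ∈ W}
      add_mem' := fun {A A'} hA hA' x hx => by
        rw [Matrix.map_add _ (map_add f), add_mulVec]
        exact W.add_mem (hA x hx) (hA' x hx)
      zero_mem' := fun x _ => by
        rw [Matrix.map_zero _ (map_zero f), zero_mulVec]
        exact W.zero_mem
      smul_mem' := fun c A hA x hx => by
        have h1 : (c • A).map f = f c • A.map f := by
          ext i j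
          simp
        rw [h1, smul_mulVec]
        exact W.smul_mem _ (hA x hx) }
  have hT2 : T2Space (Matrix (Fin n) (Fin n) ℚ_[ℓ]) :=
    inferInstanceAs (T2Space (Fin n → Fin n → ℚ_[ℓ]))
  have hMc : IsClosed (M : Set (Matrix (Fin n) (Fin n) ℚ_[ℓ])) := M.closed_of_finiteDimensional
  let Δ' : Subgroup G :=
    { carrier := {g | r g ∈ M ∧ r g⁻¹ ∈ M}
      mul_mem' := by
        rintro a b ⟨ha, ha'⟩ ⟨hb, hb'⟩
        refine ⟨fun x hx => ?_, fun x hx => ?_⟩
        · rw [map_mul, Matrix.map_mul, ← mulVec_mulVec]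
          exact ha _ (hb x hx)
        · rw [_root_.mul_inv_rev, map_mul, Matrix.map_mul, ← mulVec_mulVec]
          exact hb' _ (ha' x hx)
      one_mem' := by
        refine ⟨fun x hx => ?_, fun x hx => ?_⟩
        · rw [map_one, Matrix.map_one _ (map_zero f) (map_one f), one_mulVec]
          exact hx
        · rw [inv_one, map_one, Matrix.map_one _ (map_zero f) (map_one f), one_mulVec]
          exact hx
      inv_mem' := by
        rintro a ⟨ha, ha'⟩
        exact ⟨ha', by rw [inv_inv]; exact ha⟩ }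
  have hΔΔ' : Δ ≤ Δ' := fun g hg => ⟨fun x hx => hst g hg x hx,
    fun x hx => hst g⁻¹ (Δ.inv_mem hg) x hx⟩
  have hclosed : IsClosed (Δ' : Set G) := by
    have h1 : (Δ' : Set G) = (r ⁻¹' (M : Set _)) ∩ ((fun g => r g⁻¹) ⁻¹' (M : Set _)) := rfl
    rw [h1]
    exact (hMc.preimage hr).inter (hMc.preimage (hr.comp continuous_inv))
  have hfin : Δ'.FiniteIndex := by
    have := hΔ
    exact Subgroup.finiteIndex_of_le hΔΔ'
  have hopen : IsOpen (Δ' : Set G) := Subgroup.isOpen_of_isClosed_of_finiteIndex Δ' hclosed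
  refine abs_irr hn f (r '' Δ') (fun W' hW' => ?_) (fun A hA => ?_) W ?_
  · exact hirr Δ' hopen W' fun h hh x hx => hW' _ ⟨h, hh, rfl⟩ x hx
  · exact hc Δ' hopen A fun g hg => hA _ ⟨g, hg, rfl⟩
  · rintro _ ⟨h, hh, rfl⟩ x hx
    exact hh.1 x hx

/-- irreducibility from semisimplicity and scalar commutant -/
theorem irr_of_ss {n : ℕ} (r : G →* Matrix (Fin n) (Fin n) ℚ_[ℓ]) (hss : SSu (endRep r) ⊤)
    (hc : ∀ U : Subgroup G, IsOpen (U : Set G) → ∀ A : Matrix (Fin n) (Fin n) ℚ_[ℓ],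
      (∀ g ∈ U, A * r g = r g * A) → ∃ c : ℚ_[ℓ], A = c • 1)
    (U : Subgroup G) (hU : IsOpen (U : Set G)) (W : Submodule ℚ_[ℓ] (Fin n → ℚ_[ℓ]))
    (hW : ∀ g ∈ U, ∀ x ∈ W, r g *ᵥ x ∈ W) : W = ⊥ ∨ W = ⊤ := by
  have hq : Finite (G ⧸ U) := Subgroup.quotient_finite_of_isOpen U hU
  have hfin : U.FiniteIndex := Subgroup.finiteIndex_of_finite_quotient
  obtain ⟨W', hW', hcompl⟩ := hss.finite_index U hfin W hW
  set Pr : (Fin n → ℚ_[ℓ]) →ₗ[ℚ_[ℓ]] (Fin n → ℚ_[ℓ]) :=
    W.subtype ∘ₗ W.projectionOnto W' hcompl with hPr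
  have hid : ∀ x ∈ W, Pr x = x := by
    intro x hx
    exact congrArg Subtype.val (W.projectionOnto_apply_left hcompl ⟨x, hx⟩)
  have hz : ∀ x ∈ W', Pr x = 0 := by
    intro x hx
    exact congrArg Subtype.val ((W.projectionOnto_apply_eq_zero_iff hcompl (x := x)).2 hx)
  have hcomm : ∀ g ∈ U, ∀ x, Pr (r g *ᵥ x) = r g *ᵥ Pr x := by
    intro g hg x
    have hx : x ∈ W ⊔ W' := by rw [hcompl.sup_eq_top]; trivial
    obtain ⟨y, hy, z, hz', rfl⟩ := Submodule.mem_sup.1 hx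
    have hz2 : Pr (r g *ᵥ z) = 0 := hz _ (hW' g hg z hz')
    rw [mulVec_add, map_add, map_add, hid _ (hW g hg y hy), hz2, hid y hy, hz z hz', add_zero,
      add_zero]
  obtain ⟨c, hcA⟩ := hc U hU (LinearMap.toMatrix' Pr) fun g hg => by
    have h1 : Pr ∘ₗ Matrix.toLin' (r g) = Matrix.toLin' (r g) ∘ₗ Pr := by
      apply LinearMap.ext
      intro x
      exact hcomm g hg x
    have h2 := congrArg LinearMap.toMatrix' h1
    rw [LinearMap.toMatrix'_comp, LinearMap.toMatrix'_comp, LinearMap.toMatrix'_toLin'] at h2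
    exact h2
  have hPc : ∀ x, Pr x = c • x := by
    intro x
    have h1 : Pr = Matrix.toLin' (LinearMap.toMatrix' Pr) := (Matrix.toLin'_toMatrix' Pr).symm
    rw [h1, hcA, map_smul, Matrix.toLin'_one]
    rfl
  by_cases h : c = 0
  · left
    rw [eq_bot_iff]
    intro x hx
    rw [Submodule.mem_bot, ← hid x hx, hPc, h, zero_smul]
  · right
    rw [eq_top_iff]
    intro x _
    have h1 : Pr x ∈ W := (W.projectionOnto W' hcompl x).2
    rw [hPc] at h1
    have h2 := W.smul_mem c⁻¹ h1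
    rwa [smul_smul, inv_mul_cancel₀ h, one_smul] at h2

/-- the complement with respect to the trace form of a Lie algebra normalised by a strongly irreducible
group -/
theorem trace_compl {n : ℕ} (r : G →* Matrix (Fin n) (Fin n) ℚ_[ℓ])
    (hSI : Pool.Agent.W522.U.SI (repO r) (⊤ : Submodule (Om ℓ) (Fin n → Om ℓ)))
    {J : Matrix (Fin n) (Fin n) ℚ_[ℓ]} (hdet : J.det ≠ 0)
    (W : Submodule ℚ_[ℓ] (Matrix (Fin n) (Fin n) ℚ_[ℓ]))
    (hcj : ∀ g, ∀ A ∈ W, r g * A * r g⁻¹ ∈ W) (hbr : ∀ A ∈ W, ∀ A' ∈ W, A * A' - A' * A ∈ W)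
    (hsp : ∀ A ∈ W, SpLie J A) :
    ∃ W' : Submodule ℚ_[ℓ] (Matrix (Fin n) (Fin n) ℚ_[ℓ]), IsCompl W W' ∧
      ∀ g, ∀ A ∈ W', r g * A * r g⁻¹ ∈ W' := by
  classical
  set f : ℚ_[ℓ] →+* Om ℓ := algebraMap ℚ_[ℓ] (Om ℓ) with hf
  let TF : LinearMap.BilinForm ℚ_[ℓ] (Matrix (Fin n) (Fin n) ℚ_[ℓ]) :=
    LinearMap.mk₂ ℚ_[ℓ] (fun A A' => (A * A').trace)
      (fun A A' C => by rw [add_mul, trace_add])
      (fun c A C => by rw [smul_mul_assoc, trace_smul])
      (fun A C C' => by rw [mul_add, trace_add])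
      (fun c A C => by rw [mul_smul_comm, trace_smul])
  have hTF : ∀ A A', TF A A' = (A * A').trace := fun _ _ => rfl
  have hTFs : TF.IsSymm := ⟨fun A A' => by rw [hTF, hTF, trace_mul_comm]⟩
  -- nondegenerate on `W`
  have hnd : ∀ y ∈ W, (∀ z ∈ W, (y * z).trace = 0) → y = 0 := by
    intro y hy hyz
    set Lm : Submodule (Om ℓ) (Matrix (Fin n) (Fin n) (Om ℓ)) :=
      Submodule.span (Om ℓ) ((fun Y : Matrix (Fin n) (Fin n) ℚ_[ℓ] => Y.map f) '' W) with hLm
    let L : Submodule (Om ℓ) (End (Om ℓ) (Fin n → Om ℓ)) :=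
      Lm.map (Matrix.toLin' (R := Om ℓ) (m := Fin n) (n := Fin n)).toLinearMap
    have hLmbr : ∀ A ∈ Lm, ∀ A' ∈ Lm, A * A' - A' * A ∈ Lm := by
      refine span_br ?_
      rintro _ ⟨Y, hY, rfl⟩ _ ⟨Z, hZ, rfl⟩
      refine Submodule.subset_span ⟨Y * Z - Z * Y, hbr Y hY Z hZ, ?_⟩
      show (Y * Z - Z * Y).map f = Y.map f * Z.map f - Z.map f * Y.map f
      rw [Matrix.map_sub _ (map_sub f), Matrix.map_mul, Matrix.map_mul]
    have hLmcj : ∀ h : G, ∀ A ∈ Lm, (r h).map f * A * (r h⁻¹).map f ∈ Lm := by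
      intro h A hA
      induction hA using Submodule.span_induction with
      | mem A hA =>
        obtain ⟨Y, hY, rfl⟩ := hA
        refine Submodule.subset_span ⟨r h * Y * r h⁻¹, hcj h Y hY, ?_⟩
        show (r h * Y * r h⁻¹).map f = (r h).map f * Y.map f * (r h⁻¹).map f
        rw [Matrix.map_mul, Matrix.map_mul]
      | zero => rw [mul_zero, zero_mul]; exact Submodule.zero_mem _
      | add A A' _ _ h1 h2 => rw [mul_add, add_mul]; exact Submodule.add_mem _ h1 h2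
      | smul c A _ h1 =>
        rw [mul_smul_comm, smul_mul_assoc]
        exact Submodule.smul_mem _ _ h1
    have hLmsp : ∀ A ∈ Lm, SpLie (J.map f) A := by
      intro A hA
      induction hA using Submodule.span_induction with
      | mem A hA =>
        obtain ⟨Y, hY, rfl⟩ := hA
        have h1 : SpLie J Y := hsp Y hY
        unfold SpLie at h1 ⊢
        show (Y.map f)ᵀ * J.map f + J.map f * Y.map f = 0
        rw [← Matrix.transpose_map, ← Matrix.map_mul, ← Matrix.map_mul,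
          ← Matrix.map_add _ (map_add f), h1, Matrix.map_zero _ (map_zero f)]
      | zero =>
        unfold SpLie
        rw [transpose_zero, zero_mul, mul_zero, add_zero]
      | add A A' _ _ h1 h2 =>
        unfold SpLie at h1 h2 ⊢
        rw [transpose_add, add_mul, mul_add]
        calc Aᵀ * J.map f + A'ᵀ * J.map f + (J.map f * A + J.map f * A') =
            (Aᵀ * J.map f + J.map f * A) + (A'ᵀ * J.map f + J.map f * A') := by abel
          _ = 0 := by rw [h1, h2, add_zero]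
      | smul c A _ h1 =>
        unfold SpLie at h1 ⊢
        rw [transpose_smul, smul_mul_assoc, mul_smul_comm, ← smul_add, h1, smul_zero]
    let ω : (Fin n → Om ℓ) →ₗ[Om ℓ] (Fin n → Om ℓ) →ₗ[Om ℓ] Om ℓ :=
      Matrix.toLinearMap₂' (Om ℓ) (J.map f)
    have hω : ∀ x y, ω x y = x ⬝ᵥ (J.map f) *ᵥ y := fun x y => Matrix.toLinearMap₂'_apply' _ _ _
    have hdetO : (J.map f).det ≠ 0 := by
      have h1 : (J.map f).det = f J.det := (RingHom.map_det f J).symm
      rw [h1]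
      exact fun h => hdet ((map_eq_zero f).1 h)
    have hndω : ∀ u, (∀ v, ω u v = 0) → u = 0 := by
      intro u h
      have h1 : u ᵥ* (J.map f) = 0 := by
        ext a
        have h2 := h (Pi.single a 1)
        rw [hω, dotProduct_mulVec] at h2
        simpa using h2
      have h2 : IsUnit (J.map f).det := isUnit_iff_ne_zero.2 hdetO
      have h3 : (u ᵥ* (J.map f)) ᵥ* (J.map f)⁻¹ = u := by
        rw [vecMul_vecMul, mul_nonsing_inv _ h2, vecMul_one]
      rw [← h3, h1, zero_vecMul]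
    have htrO : ∀ A ∈ Lm, (y.map f * A).trace = 0 := by
      intro A hA
      induction hA using Submodule.span_induction with
      | mem A hA =>
        obtain ⟨Z, hZ, rfl⟩ := hA
        show (y.map f * Z.map f).trace = 0
        rw [← Matrix.map_mul]
        have h3 : ((y * Z).map f).trace = f (y * Z).trace := by
          rw [trace, trace, map_sum]
          rfl
        rw [h3, hyz Z hZ, map_zero]
      | zero => rw [mul_zero, trace_zero]
      | add A A' _ _ h1 h2 => rw [mul_add, trace_add, h1, h2, add_zero]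
      | smul c A _ h1 => rw [mul_smul_comm, trace_smul, h1, smul_zero]
    have hzero : Matrix.toLin' (y.map f) = 0 := by
      refine Pool.Agent.Y126.JB.trace_nondeg (K := Om ℓ) (T := Fin n → Om ℓ) (Γ := G) (R := repO r)
        (L := L) (ω := ω) (fun h Y hY => ?_) (fun Y hY Z hZ => ?_) hSI hndω (fun Y hY u w => ?_)
        (y := Matrix.toLin' (y.map f)) ⟨y.map f, Submodule.subset_span ⟨y, hy, rfl⟩, rfl⟩
        fun z hz => ?_
      · obtain ⟨A, hA, rfl⟩ := hY
        refine ⟨(r h).map f * A * (r h⁻¹).map f, hLmcj h A hA, ?_⟩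
        show Matrix.toLin' ((r h).map f * A * (r h⁻¹).map f) =
          Matrix.toLin' ((r h).map f) * Matrix.toLin' A * Matrix.toLin' ((r h⁻¹).map f)
        rw [Matrix.toLin'_mul, Matrix.toLin'_mul]
        rfl
      · obtain ⟨A, hA, rfl⟩ := hY
        obtain ⟨A', hA', rfl⟩ := hZ
        refine ⟨A * A' - A' * A, hLmbr A hA A' hA', ?_⟩
        show Matrix.toLin' (A * A' - A' * A) =
          Matrix.toLin' A * Matrix.toLin' A' - Matrix.toLin' A' * Matrix.toLin' A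
        rw [map_sub, Matrix.toLin'_mul, Matrix.toLin'_mul]
        rfl
      · obtain ⟨A, hA, rfl⟩ := hY
        have h1 := hLmsp A hA
        rw [hω, hω]
        show (A *ᵥ u) ⬝ᵥ (J.map f) *ᵥ w + u ⬝ᵥ (J.map f) *ᵥ (A *ᵥ w) = 0
        have h2 : (A *ᵥ u) ⬝ᵥ (J.map f) *ᵥ w = u ⬝ᵥ (Aᵀ * J.map f) *ᵥ w := by
          rw [← mulVec_mulVec, dotProduct_mulVec u, vecMul_transpose]
        unfold SpLie at h1
        rw [h2, mulVec_mulVec, ← dotProduct_add, ← add_mulVec, h1, zero_mulVec, dotProduct_zero]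
      · obtain ⟨A, hA, rfl⟩ := hz
        show LinearMap.trace (Om ℓ) (Fin n → Om ℓ) (Matrix.toLin' (y.map f) * Matrix.toLin' A) = 0
        have h1 : Matrix.toLin' (y.map f) * Matrix.toLin' A = Matrix.toLin' (y.map f * A) := by
          rw [Matrix.toLin'_mul]
          rfl
        rw [h1, Matrix.trace_toLin'_eq]
        exact htrO A hA
    have h1 : y.map f = 0 := by
      have h2 := congrArg LinearMap.toMatrix' hzero
      rw [LinearMap.toMatrix'_toLin', map_zero] at h2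
      exact h2
    ext a b
    have h2 := congrFun (congrFun h1 a) b
    rw [Matrix.map_apply, Matrix.zero_apply] at h2
    exact (map_eq_zero f).1 h2
  refine ⟨TF.orthogonal W, ?_, fun g A hA => ?_⟩
  · rw [LinearMap.BilinForm.isCompl_orthogonal_iff_disjoint hTFs.isRefl, Submodule.disjoint_def]
    intro y hy hy'
    refine hnd y hy fun z hz => ?_
    have h1 : TF z y = 0 := hy' z hz
    rw [hTF, trace_mul_comm] at h1
    exact h1
  · intro Z hZ
    have h1 : r g⁻¹ * Z * r g ∈ W := by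
      have h2 := hcj g⁻¹ Z hZ
      rwa [inv_inv] at h2
    have h2 : TF (r g⁻¹ * Z * r g) A = 0 := hA _ h1
    show TF Z (r g * A * r g⁻¹) = 0
    rw [hTF] at h2 ⊢
    have h3 : (Z * (r g * A * r g⁻¹)).trace = (r g⁻¹ * Z * r g * A).trace := by
      have h4 : Z * (r g * A * r g⁻¹) = (Z * r g * A) * r g⁻¹ := by noncomm_ring
      rw [h4, trace_mul_comm]
      congr 1
      noncomm_ring
    rw [h3]
    exact h2

end si

section full
variable {ℓ : ℕ} [Fact ℓ.Prime] {N : ℕ} {G : Type} [Group G] [TopologicalSpace G]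
  [IsTopologicalGroup G] [CompactSpace G]
  {ρ : G →* Matrix (Fin N) (Fin N) ℚ_[ℓ]} {J : Matrix (Fin N) (Fin N) ℚ_[ℓ]}

/-- **the alternative**: a nonzero equivariant subspace of the Lie algebra of `J` is everything -/
theorem alt_of' {ε : ℚ_[ℓ]} (hε : ε * ε = 1) (hJ : Jᵀ = ε • J) (hdet : J.det ≠ 0)
    (h4 : Tate4 ℓ ρ J) (W W' : Submodule ℚ_[ℓ] (Matrix (Fin N) (Fin N) ℚ_[ℓ]))
    (hW : ∀ σ : G, ∀ A ∈ W, ρ σ * A * ρ σ⁻¹ ∈ W) (hc : IsCompl W W')
    (hW' : ∀ σ : G, ∀ A ∈ W', ρ σ * A * ρ σ⁻¹ ∈ W') (hsp : ∀ A ∈ W, SpLie J A) (hne : W ≠ ⊥) :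
    ∀ X, SpLie J X → X ∈ W := by
  set Pr : Matrix (Fin N) (Fin N) ℚ_[ℓ] →ₗ[ℚ_[ℓ]] Matrix (Fin N) (Fin N) ℚ_[ℓ] :=
    W.subtype ∘ₗ W.projectionOnto W' hc with hPr
  have hin : ∀ A, Pr A ∈ W := fun A => (W.projectionOnto W' hc A).2
  have hid : ∀ A ∈ W, Pr A = A := by
    intro A hA
    have h := W.projectionOnto_apply_left hc ⟨A, hA⟩
    exact congrArg Subtype.val h
  have hz : ∀ A ∈ W', Pr A = 0 := by
    intro A hA
    have h := (W.projectionOnto_apply_eq_zero_iff hc (x := A)).2 hA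
    exact congrArg Subtype.val h
  have heq : ∀ σ : G, ∀ A, Pr (ρ σ * A * ρ σ⁻¹) = ρ σ * Pr A * ρ σ⁻¹ := by
    intro σ A
    have hA : A ∈ W ⊔ W' := by rw [hc.sup_eq_top]; trivial
    obtain ⟨B, hB, C, hC, rfl⟩ := Submodule.mem_sup.1 hA
    rw [mul_add, add_mul, map_add, map_add, hid _ (hW σ B hB), hz _ (hW' σ C hC), hid B hB, hz C hC,
      add_zero, add_zero]
  have hφ := h4 (quadF J Pr) ⊤ isOpen_univ fun σ _ c hσ v => quadF_equiv (heq σ) hσ v
  obtain ⟨c, hcX⟩ := three_op hε hJ hdet hφ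
  have hPX : ∀ X, SpLie J X → Pr X = c • X := by
    intro X hX
    apply ext_form hdet
    intro u w
    rw [← opF_quadF hdet, hcX X hX, mul_smul_comm, smul_mulVec, dotProduct_smul, smul_eq_mul]
  obtain ⟨A, hA, hA0⟩ := W.ne_bot_iff.1 hne
  have hc1 : c = 1 := by
    have h1 := hPX A (hsp A hA)
    rw [hid A hA] at h1
    have h3 : (c - 1) • A = 0 := by rw [sub_smul, one_smul, ← h1, sub_self]
    exact sub_eq_zero.1 ((smul_eq_zero.1 h3).resolve_right hA0)
  intro X hX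
  have h1 := hPX X hX
  rw [hc1, one_smul] at h1
  rw [← h1]
  exact hin X

/-- **the Lie algebra of the image contains the Lie algebra of the form, if the Tate classes in the
fourth tensor power are the expected ones and the representation is semisimple** -/
theorem full_of_tate_ss (hρ : Continuous ρ) (hN : 2 ≤ N)
    {ε : ℚ_[ℓ]} (hε : ε = 1 ∨ ε = -1) (hJ : Jᵀ = ε • J) (hdet : J.det ≠ 0)
    (hsim : ∀ g, ∃ c : ℚ_[ℓ], (ρ g)ᵀ * J * ρ g = c • J)
    (h4 : Tate4 ℓ ρ J) (hss : SSu (endRep ρ) ⊤) :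
    ∀ X, SpLie J X → IsTangent ℓ ρ X := by
  classical
  have hTAN : S_TAN := Pool.Agent.Y708.ZO.t
  have hLOG : S_LOG := Pool.Agent.Y497.ZO.log
  have hPOW : S_POW := Pool.Agent.Y497.ZO.pow
  have hεε : ε * ε = 1 := by
    rcases hε with rfl | rfl <;> ring
  obtain ⟨𝔤, h𝔤, hbr, had, -⟩ := hTAN ℓ N G ρ
  let sp : Submodule ℚ_[ℓ] (Matrix (Fin N) (Fin N) ℚ_[ℓ]) :=
    { carrier := {X | SpLie J X}
      add_mem' := by
        intro a b ha hb
        have ha' : aᵀ * J + J * a = 0 := ha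
        have hb' : bᵀ * J + J * b = 0 := hb
        show (a + b)ᵀ * J + J * (a + b) = 0
        rw [transpose_add, add_mul, mul_add, ← add_zero (0 : Matrix (Fin N) (Fin N) ℚ_[ℓ])]
        nth_rewrite 1 [← ha']
        rw [← hb']
        abel
      zero_mem' := by
        show (0 : Matrix (Fin N) (Fin N) ℚ_[ℓ])ᵀ * J + J * 0 = 0
        simp
      smul_mem' := by
        intro c a ha
        have ha' : aᵀ * J + J * a = 0 := ha
        show (c • a)ᵀ * J + J * (c • a) = 0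
        rw [transpose_smul, smul_mul_assoc, mul_smul_comm, ← smul_add, ha', smul_zero] }
  have hspconj : ∀ σ : G, ∀ A, SpLie J A → SpLie J (ρ σ * A * ρ σ⁻¹) := by
    intro σ A hA
    obtain ⟨c, hc⟩ := hsim σ⁻¹
    have hc0 : c ≠ 0 := by
      rintro rfl
      rw [zero_smul] at hc
      apply hdet
      have h5 : J = (ρ σ)ᵀ * ((ρ σ⁻¹)ᵀ * J * ρ σ⁻¹) * ρ σ := by
        calc J = (ρ σ⁻¹ * ρ σ)ᵀ * J * (ρ σ⁻¹ * ρ σ) := by
              rw [rho_inv', transpose_one, one_mul, mul_one]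
          _ = _ := by
            rw [transpose_mul]
            noncomm_ring
      rw [hc, mul_zero, zero_mul] at h5
      rw [h5]
      haveI : Nonempty (Fin N) := ⟨⟨0, by omega⟩⟩
      exact det_zero
    have h3 : (ρ σ⁻¹)ᵀ * J = c • (J * ρ σ) := by
      calc (ρ σ⁻¹)ᵀ * J = (ρ σ⁻¹)ᵀ * J * (ρ σ⁻¹ * ρ σ) := by rw [rho_inv', mul_one]
        _ = c • (J * ρ σ) := by rw [← mul_assoc, hc, smul_mul_assoc]
    have h6 : (ρ σ)ᵀ * J = c⁻¹ • (J * ρ σ⁻¹) := by
      have h7 : (ρ σ)ᵀ * ((ρ σ⁻¹)ᵀ * J) * ρ σ⁻¹ = J * ρ σ⁻¹ := by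
        rw [← mul_assoc, ← transpose_mul, rho_inv', transpose_one, one_mul]
      rw [h3, mul_smul_comm, smul_mul_assoc, mul_assoc, mul_assoc, rho_inv, mul_one] at h7
      rw [← h7, smul_smul, inv_mul_cancel₀ hc0, one_smul]
    unfold SpLie at hA ⊢
    have h8 : Aᵀ * J = -(J * A) := eq_neg_of_add_eq_zero_left hA
    rw [transpose_mul, transpose_mul]
    have h9 : (ρ σ⁻¹)ᵀ * (Aᵀ * (ρ σ)ᵀ) * J = -(J * (ρ σ * A * ρ σ⁻¹)) := by
      calc (ρ σ⁻¹)ᵀ * (Aᵀ * (ρ σ)ᵀ) * J = (ρ σ⁻¹)ᵀ * Aᵀ * ((ρ σ)ᵀ * J) := by noncomm_ring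
        _ = c⁻¹ • ((ρ σ⁻¹)ᵀ * (Aᵀ * J) * ρ σ⁻¹) := by
            rw [h6, mul_smul_comm]
            congr 1
            noncomm_ring
        _ = c⁻¹ • (-(((ρ σ⁻¹)ᵀ * J) * (A * ρ σ⁻¹))) := by
            rw [h8]
            congr 1
            noncomm_ring
        _ = -(J * (ρ σ * A * ρ σ⁻¹)) := by
            rw [h3, smul_mul_assoc, smul_neg, smul_smul, inv_mul_cancel₀ hc0, one_smul]
            congr 1
            noncomm_ring
    rw [h9, neg_add_cancel]
  by_cases hW : 𝔤 ⊓ sp = ⊥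
  · exfalso
    obtain ⟨⟨U, hU, hnear⟩, hpow⟩ := hPOW ℓ N G ρ hρ
    -- the isometries
    let G₁ : Subgroup G :=
      { carrier := {g | (ρ g)ᵀ * J * ρ g = J}
        mul_mem' := by
          intro a b ha hb
          have ha' : (ρ a)ᵀ * J * ρ a = J := ha
          have hb' : (ρ b)ᵀ * J * ρ b = J := hb
          show (ρ (a * b))ᵀ * J * ρ (a * b) = J
          rw [map_mul, transpose_mul]
          calc (ρ b)ᵀ * (ρ a)ᵀ * J * (ρ a * ρ b) = (ρ b)ᵀ * ((ρ a)ᵀ * J * ρ a) * ρ b := by noncomm_ring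
            _ = J := by rw [ha', hb']
        one_mem' := by
          show (ρ 1)ᵀ * J * ρ 1 = J
          rw [map_one, transpose_one, one_mul, mul_one]
        inv_mem' := by
          intro a ha
          have ha' : (ρ a)ᵀ * J * ρ a = J := ha
          show (ρ a⁻¹)ᵀ * J * ρ a⁻¹ = J
          conv_lhs => rw [← ha']
          calc (ρ a⁻¹)ᵀ * ((ρ a)ᵀ * J * ρ a) * ρ a⁻¹ = (ρ a * ρ a⁻¹)ᵀ * J * (ρ a * ρ a⁻¹) := by
                rw [transpose_mul]
                noncomm_ring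
            _ = J := by rw [rho_inv, transpose_one, one_mul, mul_one] }
    have hcomm : ∀ s ∈ U, ∀ u ∈ U, ρ u * ρ s = ρ s * ρ u := by
      intro s hnU u hu
      set κ : G := u * s * u⁻¹ * s⁻¹ with hκ
      have hκU : κ ∈ U := U.mul_mem (U.mul_mem (U.mul_mem hu hnU) (U.inv_mem hu)) (U.inv_mem hnU)
      have hmulc : ∀ (a b : G) (c d : ℚ_[ℓ]), (ρ a)ᵀ * J * ρ a = c • J → (ρ b)ᵀ * J * ρ b = d • J →
          (ρ (a * b))ᵀ * J * ρ (a * b) = (c * d) • J := by
        intro a b c d ha hb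
        rw [map_mul, transpose_mul]
        calc (ρ b)ᵀ * (ρ a)ᵀ * J * (ρ a * ρ b) = (ρ b)ᵀ * ((ρ a)ᵀ * J * ρ a) * ρ b := by noncomm_ring
          _ = (c * d) • J := by rw [ha, mul_smul_comm, smul_mul_assoc, hb, smul_smul]
      have hJ0 : J ≠ 0 := by
        rintro rfl
        haveI : Nonempty (Fin N) := ⟨⟨0, by omega⟩⟩
        exact hdet det_zero
      have huniq : ∀ (a : G) (c d : ℚ_[ℓ]), (ρ a)ᵀ * J * ρ a = c • J → (ρ a⁻¹)ᵀ * J * ρ a⁻¹ = d • J →
          c * d = 1 := by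
        intro a c d ha hb
        have h5 := hmulc a a⁻¹ c d ha hb
        rw [mul_inv_cancel, map_one, transpose_one, one_mul, mul_one] at h5
        have h6 : (c * d - 1) • J = 0 := by rw [sub_smul, one_smul, ← h5, sub_self]
        exact sub_eq_zero.1 ((smul_eq_zero.1 h6).resolve_right hJ0)
      have hκ1 : κ ∈ G₁ := by
        obtain ⟨a, ha⟩ := hsim u
        obtain ⟨a', ha'⟩ := hsim u⁻¹
        obtain ⟨b, hb⟩ := hsim s
        obtain ⟨b', hb'⟩ := hsim s⁻¹
        show (ρ κ)ᵀ * J * ρ κ = J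
        rw [hκ, hmulc _ _ _ _ (hmulc _ _ _ _ (hmulc _ _ _ _ ha hb) ha') hb']
        have h5 : a * b * a' * b' = 1 := by
          linear_combination (b * b') * huniq u a a' ha ha' + huniq _ b b' hb hb'
        rw [h5, one_smul]
      obtain ⟨⟨X, hX, hXker⟩, -⟩ := hLOG ℓ N G₁ (ρ.comp G₁.subtype) ⟨κ, hκ1⟩ (hnear κ hκU)
      have hXsp : SpLie J X := tan_isom (fun g => g.2) hX
      have hXg : X ∈ 𝔤 := by
        obtain ⟨t, ht⟩ := hX
        exact (h𝔤 X).2 ⟨fun n => (t n : G), ht⟩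
      have hX0 : X = 0 := by
        have : X ∈ 𝔤 ⊓ sp := ⟨hXg, hXsp⟩
        rw [hW] at this
        exact this
      have hκρ : ρ κ = 1 := by
        apply Matrix.ext_of_mulVec_single
        intro i
        rw [one_mulVec]
        exact (hXker _).1 (by rw [hX0, zero_mulVec])
      have h5 : κ * (s * u) = u * s := by
        rw [hκ]
        group
      rw [← map_mul, ← map_mul, ← h5, map_mul, hκρ, one_mul]
    have hsc : ∀ s ∈ U, ∃ c : ℚ_[ℓ], ρ s = c • 1 := fun s hs =>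
      scalar_of hN hε hJ hdet h4 hU fun u hu => hcomm s hs u hu
    let i₀ : Fin N := ⟨0, by omega⟩
    let i₁ : Fin N := ⟨1, by omega⟩
    obtain ⟨c, hc⟩ := scalar_of (A := Matrix.single i₀ i₀ 1) hN hε hJ hdet h4 hU fun s hs => by
      obtain ⟨c, hc⟩ := hsc s hs
      rw [hc, smul_mul_assoc, mul_smul_comm, one_mul, mul_one]
    have h01 : i₀ ≠ i₁ := by
      intro h
      have := congrArg Fin.val h
      simp [i₀, i₁] at this
    have e1 := congrFun (congrFun hc i₀) i₀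
    have e2 := congrFun (congrFun hc i₁) i₁
    rw [Matrix.single_apply_same, Matrix.smul_apply, Matrix.one_apply_eq, smul_eq_mul, mul_one] at e1
    rw [Matrix.single_apply_of_ne _ _ _ _ _ (by simp [h01]), Matrix.smul_apply, Matrix.one_apply_eq,
      smul_eq_mul, mul_one, ← e1] at e2
    exact zero_ne_one e2
  · intro X hX
    have hsc : ∀ U : Subgroup G, IsOpen (U : Set G) → ∀ A : Matrix (Fin N) (Fin N) ℚ_[ℓ],
        (∀ g ∈ U, A * ρ g = ρ g * A) → ∃ c : ℚ_[ℓ], A = c • 1 := fun U hU A hA =>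
      scalar_of hN hε hJ hdet h4 hU fun u hu => (hA u hu).symm
    have hirr := irr_of_ss ρ hss hsc
    have hSI := si_of_open (by omega) ρ hρ hirr hsc
    have hst : ∀ σ, ∀ A ∈ 𝔤 ⊓ sp, ρ σ * A * ρ σ⁻¹ ∈ 𝔤 ⊓ sp :=
      fun σ A hA => ⟨had σ A hA.1, hspconj σ A hA.2⟩
    obtain ⟨W', hc, hW'⟩ := trace_compl ρ hSI hdet (𝔤 ⊓ sp) hst
      (fun A hA A' hA' => ⟨hbr A hA.1 A' hA'.1, spLie_br hA.2 hA'.2⟩) (fun A hA => hA.2)
    have := alt_of' hεε hJ hdet h4 (𝔤 ⊓ sp) W' hst hc hW' (fun A hA => hA.2) hW X hX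
    exact (h𝔤 X).1 this.1

end full

end Pool.Agent.L5helper71.Ss
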