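import Pool.Agent.N171.TG.Sm

/-!
# Semisimplicity at every prime from a full joint Lie algebra at one prime

The representation over `ℚ` is an orthogonal sum over a subgroup; at one prime the joint Lie algebra of
the blocks is full. The blocks are alternating, or symmetric with at most one of odd rank.
-/

set_option autoImplicit false
set_option linter.unusedSectionVars false
set_option linter.style.haveILetI false

open Matrix Polynomial Filter Topology NumberField IsDedekindDomain Module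
open Pool.Agent.Y142.ZO Pool.Agent.Y142.ZI Pool.Agent.Y142.ZS
open Pool.Agent.R932.SQ Pool.Agent.R932.PO Pool.Agent.N171.TG

namespace Pool.Agent.L5helper71.Ss

section one
variable {ℓ : ℕ} [hℓ : Fact ℓ.Prime]

/-- the element with the characteristic polynomial `(∏ (X² - c a²)) X^r` -/
theorem one_alt {N : ℕ} {J : Matrix (Fin N) (Fin N) ℚ_[ℓ]} (hJ : Jᵀ = -J) (hdet : J.det ≠ 0) :
    ∃ (n : ℕ) (c : Fin n → ℚ_[ℓ]), (∀ i, c i ≠ 0) ∧ ∀ a : Fin n → ℚ_[ℓ],
      ∃ T : Matrix (Fin N) (Fin N) ℚ_[ℓ], SpLie J T ∧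
        T.charpoly = (∏ i, ((X : ℚ_[ℓ][X]) ^ 2 - C (c i * a i ^ 2))) * X ^ 0 := by
  obtain ⟨n, hn⟩ := Pool.Agent.R932.OP.even_of_alt hJ hdet
  refine ⟨n, fun _ => 1, fun _ => one_ne_zero, fun a => ?_⟩
  have hmon : ∀ i : Fin n, ((X : ℚ_[ℓ][X]) ^ 2 - C (1 * a i ^ 2)).Monic := fun i =>
    monic_X_pow_sub_C _ (by norm_num)
  rw [pow_zero, mul_one]
  exact Pool.Agent.R932.OP.sform ℚ_[ℓ] N J
    (∏ i : Fin n, ((X : ℚ_[ℓ][X]) ^ 2 - C (1 * a i ^ 2))) hJ hdet
    (monic_prod_of_monic _ _ fun i _ => hmon i)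
    (by
      rw [natDegree_prod_of_monic _ _ fun i _ => hmon i,
        Finset.sum_congr rfl fun i _ => natDegree_X_pow_sub_C]
      simp
      omega)
    (by
      rw [prod_comp]
      refine Finset.prod_congr rfl fun i _ => ?_
      simp)

theorem one_sym {N : ℕ} {J : Matrix (Fin N) (Fin N) ℚ_[ℓ]} (hJ : Jᵀ = J) (hdet : J.det ≠ 0) :
    ∃ (n : ℕ) (c : Fin n → ℚ_[ℓ]), (∀ i, c i ≠ 0) ∧ ∀ a : Fin n → ℚ_[ℓ],
      ∃ T : Matrix (Fin N) (Fin N) ℚ_[ℓ], SpLie J T ∧
        T.charpoly = (∏ i, ((X : ℚ_[ℓ][X]) ^ 2 - C (c i * a i ^ 2))) * X ^ (N % 2) := by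
  classical
  obtain ⟨d, hd0, hd⟩ := diagz J hJ hdet (by norm_num)
  obtain ⟨n, hn⟩ : ∃ n : ℕ, N = 2 * n + N % 2 := ⟨N / 2, by omega⟩
  set r := N % 2 with hr
  have hcard : Fintype.card ((Fin 2 × Fin n) ⊕ Fin r) = Fintype.card (Fin N) := by
    simp only [Fintype.card_sum, Fintype.card_prod, Fintype.card_fin]
    omega
  let e : ((Fin 2 × Fin n) ⊕ Fin r) ≃ Fin N := Fintype.equivOfCardEq hcard
  have hcong := hd.trans (Cgr.diag_reindex d e)
  refine ⟨n, fun i => -(d (e (Sum.inl (0, i))) * d (e (Sum.inl (1, i)))),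
    fun i => neg_ne_zero.2 (mul_ne_zero (hd0 _) (hd0 _)), fun a => ?_⟩
  let M : Fin n → Matrix (Fin 2) (Fin 2) ℚ_[ℓ] := fun i =>
    !![0, -(d (e (Sum.inl (1, i))) * a i); d (e (Sum.inl (0, i))) * a i, 0]
  let T' : Matrix ((Fin 2 × Fin n) ⊕ Fin r) ((Fin 2 × Fin n) ⊕ Fin r) ℚ_[ℓ] :=
    fromBlocks (blockDiagonal M) 0 0 0
  have hskew : (diagonal (d ∘ e) * T')ᵀ = -(diagonal (d ∘ e) * T') := by
    ext p q
    rw [transpose_apply, Matrix.neg_apply, diagonal_mul, diagonal_mul]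
    rcases p with ⟨b, i⟩ | p
    · rcases q with ⟨c, j⟩ | q
      · show d (e (Sum.inl (c, j))) * blockDiagonal M (c, j) (b, i) =
          -(d (e (Sum.inl (b, i))) * blockDiagonal M (b, i) (c, j))
        by_cases hij : i = j
        · subst hij
          rw [blockDiagonal_apply_eq, blockDiagonal_apply_eq]
          fin_cases b <;> fin_cases c <;> simp [M] <;> ring
        · rw [blockDiagonal_apply_ne _ _ _ hij, blockDiagonal_apply_ne _ _ _ (Ne.symm hij)]
          simp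
      · show d (e (Sum.inr q)) * 0 = -(d (e (Sum.inl (b, i))) * 0)
        simp
    · rcases q with ⟨c, j⟩ | q
      · show d (e (Sum.inl (c, j))) * 0 = -(d (e (Sum.inr p)) * 0)
        simp
      · show d (e (Sum.inr q)) * 0 = -(d (e (Sum.inr p)) * 0)
        simp
  obtain ⟨T, hT, hTc⟩ := transport hcong T' hskew
  refine ⟨T, ?_, ?_⟩
  · unfold Pool.Agent.Y142.ZO.Skew at hT
    rw [transpose_mul, hJ] at hT
    unfold SpLie
    rw [hT, neg_add_cancel]
  · rw [hTc]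
    show (fromBlocks (blockDiagonal M) 0 0 0).charpoly = _
    rw [charpoly_fromBlocks_zero₂₁, charpoly_blockDiagonal]
    congr 1
    · refine Finset.prod_congr rfl fun i _ => ?_
      rw [charpoly_fin_two]
      simp only [M, trace_fin_two, det_fin_two, of_apply, cons_val', cons_val_zero,
        cons_val_one, cons_val_fin_one]
      rw [add_zero, C_0, zero_mul, sub_zero, zero_mul, zero_sub, sub_eq_add_neg, ← C_neg]
      congr 2
      ring
    · have h2 : (0 : Matrix (Fin r) (Fin r) ℚ_[ℓ]).charpoly = X ^ r := by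
        simp [Matrix.charpoly, Matrix.charmatrix]
      exact h2

/-- elements without isotropic relation in a product of symplectic and orthogonal Lie algebras -/
theorem exists_blk {d : ℕ} {N : Fin d → ℕ} {B : ∀ i, Matrix (Fin (N i)) (Fin (N i)) ℚ_[ℓ]}
    (hB : ∀ i, (B i)ᵀ = -B i ∨ (B i)ᵀ = B i)
    (hodd : ∀ i j, ¬ Even (N i) → ¬ Even (N j) → i = j)
    (hdet : ∀ i, (B i).det ≠ 0) :
    ∃ X : ∀ i, Matrix (Fin (N i)) (Fin (N i)) ℚ_[ℓ], (∀ i, SpLie (B i) (X i)) ∧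
      NoRel (blockDiagonal' X).charpoly 0 := by
  classical
  have hone : ∀ i, ∃ (n : ℕ) (c : Fin n → ℚ_[ℓ]), (∀ k, c k ≠ 0) ∧ ∀ a : Fin n → ℚ_[ℓ],
      ∃ T : Matrix (Fin (N i)) (Fin (N i)) ℚ_[ℓ], SpLie (B i) T ∧
        T.charpoly = (∏ k, ((X : ℚ_[ℓ][X]) ^ 2 - C (c k * a k ^ 2))) * X ^ (N i % 2) := by
    intro i
    rcases hB i with h | h
    · obtain ⟨n, c, hc, hT⟩ := one_alt h (hdet i)
      obtain ⟨m, hm⟩ := Pool.Agent.R932.OP.even_of_alt h (hdet i)
      refine ⟨n, c, hc, ?_⟩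
      have h2 : N i % 2 = 0 := by omega
      rw [h2]
      exact hT
    · exact one_sym h (hdet i)
  choose m c hc hT using hone
  let e : (Σ i, Fin (m i)) ≃ Fin (∑ i, m i) := finSigmaFinEquiv
  obtain ⟨a, ha0, ha⟩ := exists_scales (ℓ := ℓ) (fun k : Fin (∑ i, m i) =>
    c (e.symm k).1 (e.symm k).2) (fun k => hc _ _)
  have hr : ∑ i, N i % 2 ≤ 1 := by
    by_cases hex : ∃ i, ¬ Even (N i)
    · obtain ⟨i, hi⟩ := hex
      rw [Finset.sum_eq_single i]
      · omega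
      · intro j _ hj
        by_contra h
        have h1 : ¬ Even (N j) := by
          rw [Nat.even_iff]
          exact h
        exact hj (hodd j i h1 hi)
      · intro h
        exact absurd (Finset.mem_univ i) h
    · push Not at hex
      rw [Finset.sum_eq_zero fun i _ => Nat.even_iff.1 (hex i)]
      omega
  have hno := noRel_prod (ℓ := ℓ) hr (fun k : Fin (∑ i, m i) =>
    c (e.symm k).1 (e.symm k).2 * a k ^ 2)
    (fun k => mul_ne_zero (hc _ _) (pow_ne_zero _ (ha0 k))) ha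
  choose T hT1 hT2 using fun i => hT i fun k => a (e ⟨i, k⟩)
  refine ⟨T, hT1, ?_⟩
  have h1 : (blockDiagonal' T).charpoly =
      (∏ k, ((X : ℚ_[ℓ][X]) ^ 2 - C (c (e.symm k).1 (e.symm k).2 * a k ^ 2))) *
        X ^ (∑ i, N i % 2) := by
    rw [charpoly_block, Finset.prod_congr rfl fun i _ => hT2 i, Finset.prod_mul_distrib,
      Finset.prod_pow_eq_pow_sum]
    congr 1
    rw [← Equiv.prod_comp e, Fintype.prod_sigma]
    refine Finset.prod_congr rfl fun i _ => Finset.prod_congr rfl fun k _ => ?_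
    rw [Equiv.symm_apply_apply]
  rw [h1]
  exact hno

end one

/-- **semisimplicity at every prime from the full joint Lie algebra at one prime** -/
theorem ss_full {K : Type} [Field K] [NumberField K] (hK : finrank ℚ K = 1)
    {Γ : Type} [Group Γ] (θ : GK K →* Γ) {n w : ℕ} (hw : 0 < w)
    {S : Set (HeightOneSpectrum (𝓞 K))} (hS : S.Finite) (P : HeightOneSpectrum (𝓞 K) → ℤ[X])
    (hP : ∀ v ∉ S, (P v).Monic ∧
      ∀ z : ℂ, aeval z (P v) = 0 → ‖z‖ ^ 2 = (Ideal.absNorm v.asIdeal : ℝ) ^ w)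
    (ρ : ∀ (ℓ : ℕ) [Fact ℓ.Prime], Γ →* Matrix (Fin n) (Fin n) ℚ_[ℓ])
    (hρ : ∀ (ℓ : ℕ) [Fact ℓ.Prime], Continuous ((ρ ℓ).comp θ))
    (J : ∀ (ℓ : ℕ) [Fact ℓ.Prime], Matrix (Fin n) (Fin n) ℚ_[ℓ])
    (hJ : ∀ (ℓ : ℕ) [Fact ℓ.Prime], (J ℓ)ᵀ = J ℓ ∨ (J ℓ)ᵀ = -J ℓ)
    (hdet : ∀ (ℓ : ℕ) [Fact ℓ.Prime], (J ℓ).det ≠ 0)
    (χ : ∀ (ℓ : ℕ) [Fact ℓ.Prime], Γ → ℚ_[ℓ])
    (hχ : ∀ (ℓ : ℕ) [Fact ℓ.Prime] (g : Γ), (ρ ℓ g)ᵀ * J ℓ * ρ ℓ g = χ ℓ g • J ℓ)
    (hfrob : ∀ (ℓ : ℕ) [Fact ℓ.Prime], ∀ v ∉ S, (ℓ : 𝓞 K) ∉ v.asIdeal → ∀ σ : GK K,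
      IsFrobenius v σ → (ρ ℓ (θ σ⁻¹)).charpoly = (P v).map (algebraMap ℤ ℚ_[ℓ]) ∧
      χ ℓ (θ σ⁻¹) = (Ideal.absNorm v.asIdeal : ℚ_[ℓ]) ^ w)
    (p : ℕ) [Fact p.Prime]
    {d : ℕ} {N : Fin d → ℕ} (E : (Σ i, Fin (N i)) ≃ Fin n) (H : Subgroup (GK K))
    (r : ∀ i, H →* Matrix (Fin (N i)) (Fin (N i)) ℚ_[p])
    (B : ∀ i, Matrix (Fin (N i)) (Fin (N i)) ℚ_[p])
    (hr : ∀ h : H, ρ p (θ h) = (blockDiagonal' fun i => r i h).submatrix E.symm E.symm)
    (hB : J p = (blockDiagonal' B).submatrix E.symm E.symm)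
    (hodd : ∀ i j, ¬ Even (N i) → ¬ Even (N j) → i = j)
    (hbig : ∀ X, (∀ i, SpLie (B i) (X i)) → JTan p r X)
    (ℓ : ℕ) [hℓ : Fact ℓ.Prime] (U : Subgroup Γ) (hU : U.FiniteIndex) :
    SSu (endRep (ρ ℓ)) U := by
  classical
  have hdetB : ∀ i, (B i).det ≠ 0 := by
    intro i h0
    apply hdet p
    rw [hB, det_submatrix_equiv_self, det_block]
    exact Finset.prod_eq_zero (Finset.mem_univ i) h0
  have hsB : ∀ i, (B i)ᵀ = -B i ∨ (B i)ᵀ = B i := by
    intro i
    rcases hJ p with h | h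
    · right
      rw [hB, transpose_submatrix, blockDiagonal'_transpose] at h
      have h2 : blockDiagonal' (fun i => (B i)ᵀ) = blockDiagonal' B := by
        ext x y
        have h3 := congrFun (congrFun h (E x)) (E y)
        simpa only [submatrix_apply, Equiv.symm_apply_apply] using h3
      exact congrFun (blockDiagonal'_injective h2) i
    · left
      rw [hB, transpose_submatrix, blockDiagonal'_transpose] at h
      have h2 : blockDiagonal' (fun i => (B i)ᵀ) = blockDiagonal' (-B) := by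
        rw [blockDiagonal'_neg]
        ext x y
        have h3 := congrFun (congrFun h (E x)) (E y)
        simpa only [submatrix_apply, Matrix.neg_apply, Equiv.symm_apply_apply] using h3
      exact congrFun (blockDiagonal'_injective h2) i
  obtain ⟨X, hX, hno⟩ := exists_blk hsB hodd hdetB
  have hj : JTan p r X := hbig X hX
  have htan : IsTangent p ((ρ p).comp θ) ((blockDiagonal' X).submatrix E.symm E.symm) :=
    tangent_block E ((ρ p).comp θ) r (fun h => (h : GK K)) (fun h => hr h) hj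
  have hXJ : ((blockDiagonal' X).submatrix E.symm E.symm)ᵀ * J p +
      J p * (blockDiagonal' X).submatrix E.symm E.symm = (0 : ℚ_[p]) • J p := by
    rw [zero_smul, hB, transpose_submatrix, submatrix_mul_equiv, submatrix_mul_equiv,
      blockDiagonal'_transpose, ← blockDiagonal'_mul, ← blockDiagonal'_mul]
    have h1 : (blockDiagonal' fun i => (X i)ᵀ * B i) + (blockDiagonal' fun i => B i * X i) = 0 := by
      rw [← blockDiagonal'_add, ← blockDiagonal'_zero]
      congr 1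
      funext i
      exact hX i
    ext a b
    have h2 := congrFun (congrFun h1 (E.symm a)) (E.symm b)
    exact h2
  have hno' : NoRel ((blockDiagonal' X).submatrix E.symm E.symm).charpoly 0 := by
    have h1 : ((blockDiagonal' X).submatrix E.symm E.symm).charpoly =
        (blockDiagonal' X).charpoly := Matrix.charpoly_reindex E (blockDiagonal' X)
    rw [h1]
    exact hno
  refine SSu.finite_index (fun M hM => ?_) U hU
  obtain ⟨h1, h2⟩ := semisimple_all hK θ hw hS P hP ρ hρ J hJ hdet χ hχ hfrob p htan hXJ hno' ℓ M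
    (fun g x hx => hM g (Subgroup.mem_top g) x hx)
  exact ⟨_, fun g _ x hx => h2 g x hx, h1⟩

end Pool.Agent.L5helper71.Ss
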