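import Pool.Agent.L5helper71.SsJor
import Pool.Agent.L5helper71.SsBlk

/-!
# Semisimplicity at every prime from one degenerate place and irreducibility at one prime
-/

set_option autoImplicit false
set_option linter.unusedSectionVars false
set_option linter.style.haveILetI false

open Matrix Polynomial Filter Topology NumberField IsDedekindDomain Module
open Pool.Agent.Y142.ZO Pool.Agent.Y142.ZI Pool.Agent.Y142.ZS
open Pool.Agent.R932.SQ Pool.Agent.R932.PO Pool.Agent.N171.TG

namespace Pool.Agent.L5helper71.Ss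

/-- the similitude factor is a character -/
theorem exists_kappa {F : Type} [Field F] {N : ℕ} {H : Type} [Group H]
    (r : H →* Matrix (Fin N) (Fin N) F) {B : Matrix (Fin N) (Fin N) F} (hB0 : B ≠ 0) (c : H → F)
    (hsim : ∀ h, (r h)ᵀ * B * r h = c h • B) : ∃ κ : H →* F, ∀ h, κ h = c h := by
  refine ⟨{ toFun := c, map_one' := ?_, map_mul' := fun g h => ?_ }, fun h => rfl⟩
  · have h1 := hsim 1
    rw [map_one, transpose_one, one_mul, mul_one] at h1
    have h2 : (c 1 - 1) • B = 0 := by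
      rw [sub_smul, one_smul, ← h1, sub_self]
    exact sub_eq_zero.1 ((smul_eq_zero.1 h2).resolve_right hB0)
  · have h1 := hsim (g * h)
    rw [map_mul, transpose_mul] at h1
    have h2 : (r h)ᵀ * (r g)ᵀ * B * (r g * r h) = (r h)ᵀ * ((r g)ᵀ * B * r g) * r h := by
      simp only [Matrix.mul_assoc]
    rw [h2, hsim g, Matrix.mul_smul, Matrix.smul_mul, hsim h, smul_smul] at h1
    have h3 : (c (g * h) - c g * c h) • B = 0 := by
      rw [sub_smul, ← h1, sub_self]
    exact sub_eq_zero.1 ((smul_eq_zero.1 h3).resolve_right hB0)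

/-- the similitude factors of the blocks -/
theorem sim_block {F : Type} [Field F] {n d : ℕ} {N : Fin d → ℕ} (E : (Σ i, Fin (N i)) ≃ Fin n)
    {J M : Matrix (Fin n) (Fin n) F} {m B : ∀ i, Matrix (Fin (N i)) (Fin (N i)) F} {c : F}
    (hM : M = (blockDiagonal' m).submatrix E.symm E.symm)
    (hB : J = (blockDiagonal' B).submatrix E.symm E.symm) (h : Mᵀ * J * M = c • J) (i : Fin d) :
    (m i)ᵀ * B i * m i = c • B i := by
  rw [hM, hB, transpose_submatrix, submatrix_mul_equiv, submatrix_mul_equiv,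
    blockDiagonal'_transpose, ← blockDiagonal'_mul, ← blockDiagonal'_mul] at h
  have h2 : (blockDiagonal' fun i => (m i)ᵀ * B i * m i) = blockDiagonal' (c • B) := by
    rw [blockDiagonal'_smul]
    ext x y
    have h3 := congrFun (congrFun h (E x)) (E y)
    simpa only [submatrix_apply, Equiv.symm_apply_apply, Matrix.smul_apply] using h3
  exact congrFun (blockDiagonal'_injective h2) i

theorem det_of_block {F : Type} [Field F] {n d : ℕ} {N : Fin d → ℕ} (E : (Σ i, Fin (N i)) ≃ Fin n)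
    {J : Matrix (Fin n) (Fin n) F} {B : ∀ i, Matrix (Fin (N i)) (Fin (N i)) F}
    (hB : J = (blockDiagonal' B).submatrix E.symm E.symm) (h : J.det ≠ 0) (i : Fin d) :
    (B i).det ≠ 0 := by
  intro h0
  apply h
  rw [hB, det_submatrix_equiv_self, det_block]
  exact Finset.prod_eq_zero (Finset.mem_univ i) h0

theorem ne_zero_of_det {F : Type} [Field F] {N : ℕ} (hN : 0 < N) {B : Matrix (Fin N) (Fin N) F}
    (h : B.det ≠ 0) : B ≠ 0 := by
  rintro rfl
  have : Nonempty (Fin N) := ⟨⟨0, hN⟩⟩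
  exact h det_zero

/-- the joint Lie algebra is full if each block has its own degeneration -/
theorem jtan_of_deg {ℓ : ℕ} [Fact ℓ.Prime] {d : ℕ} {N : Fin d → ℕ} {G : Type} [Group G]
    (r : ∀ i, G →* Matrix (Fin (N i)) (Fin (N i)) ℚ_[ℓ])
    {B : ∀ i, Matrix (Fin (N i)) (Fin (N i)) ℚ_[ℓ]} (hB : ∀ i, (B i)ᵀ = -B i)
    (hdet : ∀ i, (B i).det ≠ 0) (c : G → ℚ_[ℓ]) (hc : ∀ i g, (r i g)ᵀ * B i * r i g = c g • B i)
    (hirr : ∀ i, ∀ U : Subgroup G, U.FiniteIndex → ∀ W : Submodule ℚ_[ℓ] (Fin (N i) → ℚ_[ℓ]),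
      (∀ g ∈ U, ∀ x ∈ W, r i g *ᵥ x ∈ W) → W = ⊥ ∨ W = ⊤)
    (hdeg : ∀ i, ∃ g : G, (∀ j, j ≠ i → r j g = 1) ∧ IsNilpotent (r i g - 1) ∧
      (∀ j, Odd j → 3 ≤ j → blocks (r i g) j = 0) ∧ blocks (r i g) 1 ≠ 0 ∧
      ∃ j, Even j ∧ blocks (r i g) j = 1)
    (X : ∀ i, Matrix (Fin (N i)) (Fin (N i)) ℚ_[ℓ]) (hX : ∀ i, SpLie (B i) (X i)) : JTan ℓ r X := by
  classical
  obtain ⟨𝔤, h𝔤, -, -⟩ := jlie ℓ (Fin d) N G r
  have h1 : ∀ i, Pi.single i (X i) ∈ 𝔤 := by
    intro i
    obtain ⟨g, ho, hu, hodd, hone, heven⟩ := hdeg i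
    have hN : 0 < N i := by
      by_contra hcon
      have h0 : N i = 0 := by omega
      apply hone
      unfold blocks
      have h2 : ∀ A : Matrix (Fin (N i)) (Fin (N i)) ℚ_[ℓ], A.rank = 0 := by
        intro A
        have h3 := Matrix.rank_le_width A
        omega
      rw [h2, h2, h2]
      norm_num
    obtain ⟨κ, hκ⟩ := exists_kappa (r i) (ne_zero_of_det hN (hdet i)) c (hc i)
    exact (h𝔤 _).2 (block_full r i hN (hB i) (hdet i) κ (fun g => by rw [hκ]; exact hc i g)
      (hirr i) g ho hu hodd hone heven (X i) (hX i))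
  have h2 : X = ∑ i, Pi.single i (X i) := by
    funext i
    rw [Finset.sum_apply, Finset.sum_eq_single i]
    · rw [Pi.single_eq_same]
    · intro j _ hj
      rw [Pi.single_eq_of_ne (Ne.symm hj)]
    · intro h
      exact absurd (Finset.mem_univ i) h
  refine (h𝔤 X).1 ?_
  rw [h2]
  exact 𝔤.sum_mem fun i _ => h1 i

theorem even_blk {F : Type} [Field F] [CharZero F] {N : ℕ} {B : Matrix (Fin N) (Fin N) F}
    (hB : Bᵀ = -B) (hdet : B.det ≠ 0) : Even N := by
  have h1 : B.det = (-1) ^ N * B.det := by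
    conv_lhs => rw [← det_transpose, hB, det_neg, Fintype.card_fin]
  by_contra hodd
  rw [Nat.not_even_iff_odd] at hodd
  rw [hodd.neg_one_pow] at h1
  have h2 : (2 : F) * B.det = 0 := by linear_combination h1
  exact hdet ((mul_eq_zero.1 h2).resolve_left two_ne_zero)

end Pool.Agent.L5helper71.Ss
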