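import Mathlib
import Pool.Agent.R410.SQ.Minors

/-!
# Absolute irreducibility from irreducibility and one Jordan block of its size
-/

set_option autoImplicit false
set_option linter.unusedSectionVars false

open Matrix Module

namespace Pool.Agent.L5helper71.Ss

section density
variable {F : Type} [Field F] {V : Type} [AddCommGroup V] [Module F V] [FiniteDimensional F V]

/-- all endomorphisms are combinations of products of the elements of an irreducible set with scalar
commutant -/
theorem adjoin_top [Nontrivial V] (S : Set (Module.End F V))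
    (hirr : ∀ W : Submodule F V, (∀ A ∈ S, ∀ x ∈ W, A x ∈ W) → W = ⊥ ∨ W = ⊤)
    (hc : ∀ A : Module.End F V, (∀ B ∈ S, A * B = B * A) → ∃ c : F, A = c • 1) :
    Algebra.adjoin F S = ⊤ := by
  classical
  set R := Algebra.adjoin F S with hR
  have hsimple : IsSimpleModule R V := by
    refine { toIsSimpleOrder := { exists_pair_ne := ⟨⊥, ⊤, bot_ne_top⟩, eq_bot_or_eq_top := ?_ } }
    intro W
    have h1 := hirr (W.restrictScalars F) (fun A hA x hx =>
      W.smul_mem (⟨A, Algebra.subset_adjoin hA⟩ : R) hx)
    rcases h1 with h1 | h1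
    · left
      rw [Submodule.restrictScalars_eq_bot_iff] at h1
      exact h1
    · right
      rw [Submodule.restrictScalars_eq_top_iff] at h1
      exact h1
  rw [eq_top_iff]
  intro T _
  have hcomm : ∀ (g : Module.End R V), ∃ c : F, ∀ x, g x = c • x := by
    intro g
    obtain ⟨c, hc'⟩ := hc (g.restrictScalars F) (fun B hB => by
      apply LinearMap.ext
      intro x
      show g ((⟨B, Algebra.subset_adjoin hB⟩ : R) • x) = (⟨B, Algebra.subset_adjoin hB⟩ : R) • g x
      exact map_smul g _ x)
    exact ⟨c, fun x => LinearMap.congr_fun hc' x⟩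
  let f : Module.End (Module.End R V) V :=
    { toFun := fun x => T x
      map_add' := fun x y => map_add T x y
      map_smul' := fun g x => by
        obtain ⟨c, hc'⟩ := hcomm g
        show T (g x) = g (T x)
        rw [hc', hc', map_smul] }
  let b := Module.finBasis F V
  obtain ⟨r, hr⟩ := jacobson_density f (Finset.univ.image b)
  have h2 : T = (r : Module.End F V) := by
    refine b.ext fun i => ?_
    exact hr (b i) (Finset.mem_image_of_mem _ (Finset.mem_univ i))
  rw [h2]
  exact r.2

end density

section mat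
variable {F : Type} [Field F] {N : ℕ} {Ω : Type} [Field Ω]

/-- irreducible with scalar commutant: absolutely irreducible -/
theorem abs_irr (hN : 0 < N) (f : F →+* Ω) (S : Set (Matrix (Fin N) (Fin N) F))
    (hirr : ∀ W : Submodule F (Fin N → F), (∀ A ∈ S, ∀ x ∈ W, A *ᵥ x ∈ W) → W = ⊥ ∨ W = ⊤)
    (hc : ∀ A : Matrix (Fin N) (Fin N) F, (∀ B ∈ S, A * B = B * A) → ∃ c : F, A = c • 1)
    (W' : Submodule Ω (Fin N → Ω)) (h : ∀ A ∈ S, ∀ x ∈ W', A.map f *ᵥ x ∈ W') :
    W' = ⊥ ∨ W' = ⊤ := by
  classical
  have : Nonempty (Fin N) := ⟨⟨0, hN⟩⟩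
  have htop : Algebra.adjoin F (Matrix.toLin' '' S) = ⊤ := by
    refine adjoin_top _ (fun W hW => hirr W fun A hA x hx => ?_) (fun A hA => ?_)
    · exact hW _ ⟨A, hA, rfl⟩ x hx
    · obtain ⟨c, hc'⟩ := hc (LinearMap.toMatrix' A) (fun B hB => by
        have h1 := hA _ ⟨B, hB, rfl⟩
        have h2 := congrArg LinearMap.toMatrix' h1
        rw [LinearMap.toMatrix'_mul, LinearMap.toMatrix'_mul, LinearMap.toMatrix'_toLin'] at h2
        exact h2)
      refine ⟨c, ?_⟩
      have h3 := congrArg Matrix.toLin' hc'
      rw [Matrix.toLin'_toMatrix', map_smul, Matrix.toLin'_one] at h3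
      exact h3
  have hall : ∀ T : Module.End F (Fin N → F), ∀ x ∈ W', (LinearMap.toMatrix' T).map f *ᵥ x ∈ W' := by
    intro T
    have hT : T ∈ Algebra.adjoin F (Matrix.toLin' '' S) := by
      rw [htop]
      trivial
    induction hT using Algebra.adjoin_induction with
    | mem T hT =>
      obtain ⟨A, hA, rfl⟩ := hT
      intro x hx
      rw [LinearMap.toMatrix'_toLin']
      exact h A hA x hx
    | algebraMap r =>
      intro x hx
      have h1 : (LinearMap.toMatrix' (algebraMap F (Module.End F (Fin N → F)) r)).map f *ᵥ x =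
          f r • x := by
        rw [Algebra.algebraMap_eq_smul_one, map_smul]
        have h2 : LinearMap.toMatrix' (1 : Module.End F (Fin N → F)) = 1 := LinearMap.toMatrix'_one
        rw [h2]
        have h3 : (r • (1 : Matrix (Fin N) (Fin N) F)).map f = f r • 1 := by
          ext i j
          rw [Matrix.map_apply, Matrix.smul_apply, Matrix.smul_apply, smul_eq_mul, smul_eq_mul,
            map_mul, Matrix.one_apply, Matrix.one_apply]
          congr 1
          split_ifs <;> simp
        rw [h3, smul_mulVec, one_mulVec]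
      rw [h1]
      exact W'.smul_mem _ hx
    | add T₁ T₂ _ _ h1 h2 =>
      intro x hx
      have h3 : (LinearMap.toMatrix' (T₁ + T₂)).map f *ᵥ x =
          (LinearMap.toMatrix' T₁).map f *ᵥ x + (LinearMap.toMatrix' T₂).map f *ᵥ x := by
        rw [map_add, Matrix.map_add _ (map_add f), add_mulVec]
      rw [h3]
      exact W'.add_mem (h1 x hx) (h2 x hx)
    | mul T₁ T₂ _ _ h1 h2 =>
      intro x hx
      have h3 : (LinearMap.toMatrix' (T₁ * T₂)).map f *ᵥ x =
          (LinearMap.toMatrix' T₁).map f *ᵥ ((LinearMap.toMatrix' T₂).map f *ᵥ x) := by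
        rw [LinearMap.toMatrix'_mul, Matrix.map_mul, mulVec_mulVec]
      rw [h3]
      exact h1 _ (h2 x hx)
  by_cases hbot : W' = ⊥
  · exact Or.inl hbot
  right
  obtain ⟨x, hx, hx0⟩ := W'.ne_bot_iff.1 hbot
  obtain ⟨a, ha⟩ := Function.ne_iff.1 hx0
  have hb : ∀ b : Fin N, (Pi.single b 1 : Fin N → Ω) ∈ W' := by
    intro b
    have h1 := hall (Matrix.toLin' (Matrix.single b a (1 : F))) x hx
    rw [LinearMap.toMatrix'_toLin'] at h1
    have h2 : (Matrix.single b a (1 : F)).map f *ᵥ x = x a • (Pi.single b 1 : Fin N → Ω) := by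
      have h3 : (Matrix.single b a (1 : F)).map f = Matrix.single b a (1 : Ω) := by
        ext i j
        rw [Matrix.map_apply]
        by_cases hij : b = i ∧ a = j
        · obtain ⟨rfl, rfl⟩ := hij
          simp
        · rw [Matrix.single_apply_of_ne _ _ _ _ _ hij, Matrix.single_apply_of_ne _ _ _ _ _ hij,
            map_zero]
      rw [h3]
      ext i
      rw [mulVec, dotProduct, Finset.sum_eq_single a]
      · by_cases hi : i = b
        · subst hi
          simp
        · rw [Matrix.single_apply_of_ne _ _ _ _ _ (fun h => hi h.1.symm), zero_mul,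
            Pi.smul_apply, Pi.single_eq_of_ne hi, smul_zero]
      · intro j _ hj
        rw [Matrix.single_apply_of_ne _ _ _ _ _ (fun h => hj h.2.symm), zero_mul]
      · intro h
        exact absurd (Finset.mem_univ a) h
    rw [h2] at h1
    have h4 := W'.smul_mem (x a)⁻¹ h1
    rwa [smul_smul, inv_mul_cancel₀ ha, one_smul] at h4
  rw [eq_top_iff]
  intro y _
  have h5 : y = ∑ b, y b • (Pi.single b 1 : Fin N → Ω) := pi_eq_sum_univ' y
  rw [h5]
  exact W'.sum_mem fun b _ => W'.smul_mem _ (hb b)

end mat

section comm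
variable {F : Type} [Field F] {V : Type} [AddCommGroup V] [Module F V] [FiniteDimensional F V]

/-- the kernel of `n` in the image of `n ^ j` -/
def KK (n : Module.End F V) (j : ℕ) : Submodule F V := LinearMap.ker n ⊓ LinearMap.range (n ^ j)

theorem KK_mono (n : Module.End F V) (j : ℕ) : KK n (j + 1) ≤ KK n j := by
  rintro x ⟨h1, u, rfl⟩
  refine ⟨h1, n u, ?_⟩
  rw [pow_succ, Module.End.mul_apply]

theorem KK_rank (n : Module.End F V) (j : ℕ) :
    finrank F (LinearMap.range (n ^ j)) =
      finrank F (LinearMap.range (n ^ (j + 1))) + finrank F (KK n j) := by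
  set R := LinearMap.range (n ^ j) with hR
  have h1 := LinearMap.finrank_range_add_finrank_ker (n.domRestrict R)
  have h2 : LinearMap.range (n.domRestrict R) = LinearMap.range (n ^ (j + 1)) := by
    ext v
    constructor
    · rintro ⟨⟨w, x, rfl⟩, rfl⟩
      refine ⟨x, ?_⟩
      rw [pow_succ', Module.End.mul_apply]
      rfl
    · rintro ⟨x, rfl⟩
      refine ⟨⟨(n ^ j) x, x, rfl⟩, ?_⟩
      rw [pow_succ', Module.End.mul_apply]
      rfl
  have h3 := Submodule.finrank_map_subtype_eq R (LinearMap.ker (n.domRestrict R))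
  have h4 : (LinearMap.ker (n.domRestrict R)).map R.subtype = KK n j := by
    ext v
    constructor
    · rintro ⟨w, hw, rfl⟩
      exact ⟨hw, w.2⟩
    · rintro ⟨hv1, hv2⟩
      exact ⟨⟨v, hv2⟩, hv1, rfl⟩
  rw [h4] at h3
  rw [h2] at h1
  omega

/-- the commutant of an irreducible set which has a block of multiplicity one -/
theorem comm_scalar (S : Set (Module.End F V))
    (hirr : ∀ W : Submodule F V, (∀ A ∈ S, ∀ x ∈ W, A x ∈ W) → W = ⊥ ∨ W = ⊤)
    (n : Module.End F V) (D : ℕ) (h1 : finrank F (KK n D) = finrank F (KK n (D + 1)) + 1)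
    (A : Module.End F V) (hA : ∀ B ∈ S, A * B = B * A) (hAn : A * n = n * A) :
    ∃ c : F, A = c • 1 := by
  have hpow : ∀ j, A * n ^ j = n ^ j * A := fun j => (Commute.pow_right hAn j : _)
  have hst : ∀ j, ∀ x ∈ KK n j, A x ∈ KK n j := by
    rintro j x ⟨hx, u, rfl⟩
    refine ⟨?_, A u, ?_⟩
    · have hx' : n ((n ^ j) u) = 0 := hx
      have h2 := LinearMap.congr_fun hAn ((n ^ j) u)
      rw [Module.End.mul_apply, Module.End.mul_apply, hx', map_zero] at h2
      exact h2.symm
    · have h2 := LinearMap.congr_fun (hpow j) u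
      rw [Module.End.mul_apply, Module.End.mul_apply] at h2
      exact h2.symm
  have hlt : KK n (D + 1) < KK n D := by
    refine lt_of_le_of_ne (KK_mono n D) fun h => ?_
    rw [h] at h1
    omega
  obtain ⟨x, hx, hx'⟩ := SetLike.exists_of_lt hlt
  have hsup : KK n D = KK n (D + 1) ⊔ Submodule.span F {x} := by
    symm
    refine Submodule.eq_of_le_of_finrank_le ?_ ?_
    · exact sup_le (KK_mono n D) ((Submodule.span_singleton_le_iff_mem _ _).2 hx)
    · rw [h1]
      refine Submodule.finrank_lt_finrank_of_lt (lt_of_le_of_ne le_sup_left fun h => hx' ?_)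
      rw [h]
      exact Submodule.mem_sup_right (Submodule.mem_span_singleton_self x)
  obtain ⟨y, hy, z, hz, hyz⟩ := Submodule.mem_sup.1 (hsup ▸ hst D x hx)
  obtain ⟨a, rfl⟩ := Submodule.mem_span_singleton.1 hz
  -- `A - a` maps `KK n D` to `KK n (D + 1)`
  have hmap : ∀ v ∈ KK n D, (A - a • (1 : Module.End F V)) v ∈ KK n (D + 1) := by
    intro v hv
    rw [hsup] at hv
    obtain ⟨p, hp, q, hq, rfl⟩ := Submodule.mem_sup.1 hv
    obtain ⟨b, rfl⟩ := Submodule.mem_span_singleton.1 hq
    have e : (A - a • (1 : Module.End F V)) (p + b • x) = (A p - a • p) + b • y := by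
      rw [LinearMap.sub_apply, LinearMap.smul_apply, Module.End.one_apply, map_add, map_smul, ← hyz]
      module
    rw [e]
    exact Submodule.add_mem _ (Submodule.sub_mem _ (hst _ p hp) (Submodule.smul_mem _ _ hp))
      (Submodule.smul_mem _ _ hy)
  have hker : LinearMap.ker (A - a • (1 : Module.End F V)) ≠ ⊥ := by
    intro hbot
    have hinj : Function.Injective ((A - a • (1 : Module.End F V)).restrict
        (p := KK n D) (q := KK n (D + 1)) hmap) := by
      rw [← LinearMap.ker_eq_bot, eq_bot_iff]
      intro v hv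
      rw [LinearMap.mem_ker] at hv
      have h2 : (A - a • (1 : Module.End F V)) (v : V) = 0 := congrArg Subtype.val hv
      have h3 : (v : V) ∈ LinearMap.ker (A - a • (1 : Module.End F V)) := h2
      rw [hbot, Submodule.mem_bot] at h3
      rw [Submodule.mem_bot]
      exact Subtype.ext h3
    have h2 := LinearMap.finrank_le_finrank_of_injective hinj
    omega
  rcases hirr (LinearMap.ker (A - a • (1 : Module.End F V))) (fun B hB v hv => by
      rw [LinearMap.mem_ker] at hv ⊢
      have h2 : (A - a • (1 : Module.End F V)) * B = B * (A - a • (1 : Module.End F V)) := by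
        rw [sub_mul, mul_sub, hA B hB, smul_mul_assoc, mul_smul_comm, one_mul, mul_one]
      have h3 := LinearMap.congr_fun h2 v
      rw [Module.End.mul_apply, Module.End.mul_apply, hv, map_zero] at h3
      exact h3) with h | h
  · exact absurd h hker
  · refine ⟨a, ?_⟩
    rw [LinearMap.ker_eq_top] at h
    exact sub_eq_zero.1 h

/-- multiplication by a commuting unit does not change the blocks -/
theorem KK_unit {n u : Module.End F V} (hu : IsUnit u) (hc : Commute n u) (j : ℕ) :
    KK (n * u) j = KK n j := by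
  obtain ⟨v, rfl⟩ := hu
  have hinj : Function.Injective (v : Module.End F V) := by
    intro x y hxy
    have h1 := congrArg (((v⁻¹ : (Module.End F V)ˣ) : Module.End F V)) hxy
    rw [← Module.End.mul_apply, ← Module.End.mul_apply, Units.inv_mul, Module.End.one_apply,
      Module.End.one_apply] at h1
    exact h1
  unfold KK
  congr 1
  · ext x
    rw [LinearMap.mem_ker, LinearMap.mem_ker, hc.eq, Module.End.mul_apply]
    constructor
    · intro h
      exact hinj (by rw [h, map_zero])
    · intro h
      rw [h, map_zero]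
  · rw [hc.mul_pow]
    ext x
    constructor
    · rintro ⟨y, rfl⟩
      exact ⟨((v : Module.End F V) ^ j) y, rfl⟩
    · rintro ⟨y, rfl⟩
      refine ⟨(((v ^ j)⁻¹ : (Module.End F V)ˣ) : Module.End F V) y, ?_⟩
      rw [← Module.End.mul_apply, mul_assoc, ← Units.val_pow_eq_pow_val, Units.mul_inv, mul_one]

/-- the powers of a unipotent element have the same blocks -/
theorem pow_blocks [CharZero F] {n : Module.End F V} (hn : IsNilpotent n) {m : ℕ} (hm : 0 < m)
    (j : ℕ) : KK ((1 + n) ^ m - 1) j = KK n j := by
  have hex : ∀ m : ℕ, ∃ Q : Module.End F V, Commute n Q ∧ (1 + n) ^ m = 1 + n * Q := by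
    intro m
    induction m with
    | zero => exact ⟨0, Commute.zero_right n, by rw [pow_zero, mul_zero, add_zero]⟩
    | succ m ih =>
      obtain ⟨Q, hQ, h⟩ := ih
      refine ⟨1 + Q + n * Q, ?_, ?_⟩
      · exact ((Commute.one_right n).add_right hQ).add_right ((Commute.refl n).mul_right hQ)
      · rw [pow_succ, h]
        have h2 : Q * n = n * Q := hQ.eq.symm
        calc (1 + n * Q) * (1 + n) = 1 + n + n * Q + n * (Q * n) := by noncomm_ring
          _ = 1 + n * (1 + Q + n * Q) := by rw [h2]; noncomm_ring
  have hsum : ∀ m : ℕ, ∃ Q : Module.End F V, Commute n Q ∧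
      (1 + n) ^ m = 1 + n * ((m : F) • 1 + n * Q) := by
    intro m
    induction m with
    | zero => exact ⟨0, Commute.zero_right n, by
        rw [pow_zero, mul_zero, Nat.cast_zero, zero_smul, add_zero, mul_zero, add_zero]⟩
    | succ m ih =>
      obtain ⟨Q, hQ, h⟩ := ih
      refine ⟨Q + (m : F) • 1 + n * Q, ?_, ?_⟩
      · exact ((hQ).add_right ((Commute.one_right n).smul_right _)).add_right
          ((Commute.refl n).mul_right hQ)
      · rw [pow_succ, h, Nat.cast_succ, add_smul, one_smul]
        have h2 : Q * n = n * Q := hQ.eq.symm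
        have h3 : ((m : F) • (1 : Module.End F V)) * n = n * ((m : F) • (1 : Module.End F V)) := by
          rw [smul_mul_assoc, mul_smul_comm, one_mul, mul_one]
        set M : Module.End F V := (m : F) • 1 with hM
        calc (1 + n * (M + n * Q)) * (1 + n) =
            1 + n + n * (M + n * Q) + n * (M * n + n * (Q * n)) := by noncomm_ring
          _ = 1 + n * (M + 1 + n * (Q + M + n * Q)) := by rw [h2, h3]; noncomm_ring
  obtain ⟨Q, hQ, h⟩ := hsum m
  have hcomm : Commute n ((m : F) • 1 + n * Q) :=
    ((Commute.one_right n).smul_right _).add_right ((Commute.refl n).mul_right hQ)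
  have hunit : IsUnit ((m : F) • (1 : Module.End F V) + n * Q) := by
    have h1 : IsUnit ((m : F) • (1 : Module.End F V)) := by
      have h2 : ((m : F) • (1 : Module.End F V)) = algebraMap F (Module.End F V) (m : F) := by
        rw [Algebra.algebraMap_eq_smul_one]
      rw [h2]
      exact (isUnit_iff_ne_zero.2 (Nat.cast_ne_zero.2 hm.ne')).map _
    have h3 : IsNilpotent (n * Q) := hQ.isNilpotent_mul_right hn
    refine IsNilpotent.isUnit_add_left_of_commute h3 h1 ?_
    exact (Commute.one_right _).smul_right _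
  rw [h, add_sub_cancel_left]
  exact KK_unit hunit hcomm j

end comm

end Pool.Agent.L5helper71.Ss
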