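import Pool.Agent.N171.TG.Sm

/-!
# Semisimplicity at every prime from one element of the image near a tangent vector

The constants depend only on the tangent vector; the representations of the Galois group of `ℚ` may vary.
-/

set_option autoImplicit false
set_option linter.unusedSectionVars false
set_option linter.style.haveILetI false

open Matrix Polynomial Filter Topology NumberField IsDedekindDomain Module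
open Pool.Agent.Y142.ZI Pool.Agent.Y142.ZS
open Pool.Agent.Y142.ZO hiding bil
open Pool.Agent.Y142 (IsoRel)
open Pool.Agent.R932.SQ Pool.Agent.N171.TG

namespace Pool.Agent.L5helper71.Ss

section
variable {ℓ : ℕ} [hℓ : Fact ℓ.Prime] {N : ℕ}

/-- `g` with the multiplier `s` is close to `1 + ℓ ^ k X`, `1 + ℓ ^ k c` -/
def Close (ℓ : ℕ) [Fact ℓ.Prime] {N : ℕ} (X : Matrix (Fin N) (Fin N) ℚ_[ℓ]) (c : ℚ_[ℓ]) (δ : ℝ)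
    (k : ℕ) (g : Matrix (Fin N) (Fin N) ℚ_[ℓ]) (s : ℚ_[ℓ]) : Prop :=
  (∀ a b, ‖((((ℓ : ℚ_[ℓ]) ^ k)⁻¹ • (g - 1)) - X) a b‖ < δ) ∧
    ‖((ℓ : ℚ_[ℓ]) ^ k)⁻¹ * (s - 1) - c‖ < δ

/-- the characteristic polynomials close to a tangent vector without isotropic relation -/
theorem exists_close (hN : 0 < N) {X : Matrix (Fin N) (Fin N) ℚ_[ℓ]} {c : ℚ_[ℓ]}
    (hno : NoRel X.charpoly c) :
    ∃ (δ : ℝ) (k₀ : ℕ), 0 < δ ∧ ∀ (k : ℕ) (g : Matrix (Fin N) (Fin N) ℚ_[ℓ]) (s : ℚ_[ℓ]),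
      k₀ ≤ k → Close ℓ X c δ k g s →
      ∀ (m : Multiset (Lb ℓ)) (n : ℕ), m ≠ 0 → 0 < n →
        m + m.map (fun z => algebraMap ℚ_[ℓ] (Lb ℓ) s / z) ≤
          (g.charpoly.map (algebraMap ℚ_[ℓ] (Lb ℓ))).roots →
        m.prod ^ (2 * n) ≠ (algebraMap ℚ_[ℓ] (Lb ℓ) s) ^ (m.card * n) := by
  obtain ⟨ε, k₁, hε, hkey⟩ := no_rel (charpoly_monic X) hno
  obtain ⟨δ, k₂, hδ, hch⟩ := Pool.Agent.Y737.SS.Chara.t ℓ N hN X ε hε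
  refine ⟨min δ ε, max k₁ k₂, lt_min hδ hε, fun k g s hk hg => ?_⟩
  exact hkey k g.charpoly s ((le_max_left _ _).trans hk) (charpoly_monic _)
    (by rw [charpoly_natDegree_eq_dim, charpoly_natDegree_eq_dim])
    (hch k _ ((le_max_right _ _).trans hk) fun a b => (hg.1 a b).trans_le (min_le_left _ _))
    (hg.2.trans_le (min_le_right _ _))

/-- the multiplier is continuous -/
theorem cont_mult {G : Type} [TopologicalSpace G] {ρ : G → Matrix (Fin N) (Fin N) ℚ_[ℓ]}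
    (hρ : Continuous ρ) {J : Matrix (Fin N) (Fin N) ℚ_[ℓ]} (hJ : J ≠ 0) {χ : G → ℚ_[ℓ]}
    (hχ : ∀ g, (ρ g)ᵀ * J * ρ g = χ g • J) : Continuous χ := by
  obtain ⟨a₀, b₀, hab⟩ : ∃ a b, J a b ≠ 0 := by
    by_contra hcon
    push Not at hcon
    exact hJ (by ext a b; exact hcon a b)
  have hχe : ∀ g, χ g = ((ρ g)ᵀ * J * ρ g) a₀ b₀ / J a₀ b₀ := by
    intro g
    rw [hχ g, Matrix.smul_apply, smul_eq_mul, mul_div_cancel_right₀ _ hab]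
  have h1 : Continuous fun g => ((ρ g)ᵀ * J * ρ g) a₀ b₀ / J a₀ b₀ := by
    refine Continuous.div_const ?_ _
    exact (continuous_apply_apply a₀ b₀).comp
      (((Continuous.matrix_transpose hρ).matrix_mul continuous_const).matrix_mul hρ)
  exact h1.congr fun g => (hχe g).symm

/-- the elements close to a tangent vector form an open set -/
theorem isOpen_close {G : Type} [TopologicalSpace G] {ρ : G → Matrix (Fin N) (Fin N) ℚ_[ℓ]}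
    (hρ : Continuous ρ) {χ : G → ℚ_[ℓ]} (hχ : Continuous χ) (X : Matrix (Fin N) (Fin N) ℚ_[ℓ])
    (c : ℚ_[ℓ]) (δ : ℝ) (k : ℕ) : IsOpen {g | Close ℓ X c δ k (ρ g) (χ g)} := by
  have h3 : {g | Close ℓ X c δ k (ρ g) (χ g)} =
      (⋂ a, ⋂ b, {g | ‖((((ℓ : ℚ_[ℓ]) ^ k)⁻¹ • (ρ g - 1)) - X) a b‖ < δ}) ∩
      {g | ‖((ℓ : ℚ_[ℓ]) ^ k)⁻¹ * (χ g - 1) - c‖ < δ} := by
    ext g
    simp only [Set.mem_inter_iff, Set.mem_iInter]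
    rfl
  rw [h3]
  refine IsOpen.inter ?_ ?_
  · refine isOpen_iInter_of_finite fun a => isOpen_iInter_of_finite fun b => ?_
    have h4 : Continuous fun g => ((((ℓ : ℚ_[ℓ]) ^ k)⁻¹ • (ρ g - 1)) - X) a b := by
      have h5 : Continuous fun g => (((ℓ : ℚ_[ℓ]) ^ k)⁻¹ • (ρ g - 1)) - X := by
        have h7 : Continuous fun g => ρ g - 1 := hρ.sub continuous_const
        have h8 : Continuous fun g => ((ℓ : ℚ_[ℓ]) ^ k)⁻¹ • (ρ g - 1) :=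
          Continuous.const_smul h7 (((ℓ : ℚ_[ℓ]) ^ k)⁻¹)
        exact h8.sub continuous_const
      exact (continuous_apply_apply a b).comp h5
    exact isOpen_lt h4.norm continuous_const
  · exact isOpen_lt ((continuous_const.mul (hχ.sub continuous_const)).sub
      continuous_const).norm continuous_const

theorem elln (n : ℕ) : ((ℓ : ℚ_[ℓ]) ^ n) ≠ 0 :=
  pow_ne_zero _ (by exact_mod_cast hℓ.out.ne_zero)

/-- there are elements close to a tangent vector -/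
theorem exists_of_tangent {G : Type} [Group G] {ρ : G →* Matrix (Fin N) (Fin N) ℚ_[ℓ]}
    {J : Matrix (Fin N) (Fin N) ℚ_[ℓ]} (hJ : J ≠ 0) {χ : G → ℚ_[ℓ]}
    (hχ : ∀ g, (ρ g)ᵀ * J * ρ g = χ g • J) {X : Matrix (Fin N) (Fin N) ℚ_[ℓ]}
    (hX : IsTangent ℓ ρ X) {c : ℚ_[ℓ]} (hc : Xᵀ * J + J * X = c • J) {δ : ℝ} (hδ : 0 < δ) (k₀ : ℕ) :
    ∃ k, k₀ ≤ k ∧ ∃ g, Close ℓ X c δ k (ρ g) (χ g) := by
  obtain ⟨s, hs⟩ := hX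
  obtain ⟨a₀, b₀, hab⟩ : ∃ a b, J a b ≠ 0 := by
    by_contra hcon
    push Not at hcon
    exact hJ (by ext a b; exact hcon a b)
  have hℓt : Tendsto (fun n : ℕ => (ℓ : ℚ_[ℓ]) ^ n) atTop (𝓝 0) :=
    tendsto_pow_atTop_nhds_zero_of_norm_lt_one Padic.norm_p_lt_one
  have hχt : Tendsto (fun n : ℕ => ((ℓ : ℚ_[ℓ]) ^ n)⁻¹ * (χ (s n) - 1)) atTop (𝓝 c) := by
    have h1 : Tendsto (fun n : ℕ => (ℓ : ℚ_[ℓ]) ^ n •
        ((((ℓ : ℚ_[ℓ]) ^ n)⁻¹ • (ρ (s n) - 1))ᵀ * J * (((ℓ : ℚ_[ℓ]) ^ n)⁻¹ • (ρ (s n) - 1))) +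
        ((((ℓ : ℚ_[ℓ]) ^ n)⁻¹ • (ρ (s n) - 1))ᵀ * J + J * (((ℓ : ℚ_[ℓ]) ^ n)⁻¹ • (ρ (s n) - 1))))
        atTop (𝓝 ((0 : ℚ_[ℓ]) • (Xᵀ * J * X) + (Xᵀ * J + J * X))) := by
      have h2 : Tendsto (fun n : ℕ => (((ℓ : ℚ_[ℓ]) ^ n)⁻¹ • (ρ (s n) - 1))ᵀ) atTop (𝓝 Xᵀ) :=
        ((continuous_id.matrix_transpose).tendsto X).comp hs
      have h3 : Tendsto (fun n : ℕ => (((ℓ : ℚ_[ℓ]) ^ n)⁻¹ • (ρ (s n) - 1))ᵀ * J) atTop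
          (𝓝 (Xᵀ * J)) := ((continuous_id.matrix_mul continuous_const).tendsto Xᵀ).comp h2
      have h4 : Tendsto (fun n : ℕ => J * (((ℓ : ℚ_[ℓ]) ^ n)⁻¹ • (ρ (s n) - 1))) atTop
          (𝓝 (J * X)) := ((continuous_const.matrix_mul continuous_id).tendsto X).comp hs
      have h5 : Tendsto (fun n : ℕ => (((ℓ : ℚ_[ℓ]) ^ n)⁻¹ • (ρ (s n) - 1))ᵀ * J *
          (((ℓ : ℚ_[ℓ]) ^ n)⁻¹ • (ρ (s n) - 1))) atTop (𝓝 (Xᵀ * J * X)) := h3.mul hs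
      exact (hℓt.smul h5).add (h3.add h4)
    rw [zero_smul, zero_add, hc] at h1
    have h2 := ((continuous_apply_apply a₀ b₀).tendsto (c • J)).comp h1
    have h3 := h2.div_const (J a₀ b₀)
    rw [Matrix.smul_apply, smul_eq_mul, mul_div_cancel_right₀ _ hab] at h3
    refine h3.congr fun n => ?_
    have h4 : (ℓ : ℚ_[ℓ]) ^ n •
        ((((ℓ : ℚ_[ℓ]) ^ n)⁻¹ • (ρ (s n) - 1))ᵀ * J * (((ℓ : ℚ_[ℓ]) ^ n)⁻¹ • (ρ (s n) - 1))) +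
        ((((ℓ : ℚ_[ℓ]) ^ n)⁻¹ • (ρ (s n) - 1))ᵀ * J + J * (((ℓ : ℚ_[ℓ]) ^ n)⁻¹ • (ρ (s n) - 1))) =
        (((ℓ : ℚ_[ℓ]) ^ n)⁻¹ * (χ (s n) - 1)) • J := by
      have h5 := hχ (s n)
      have h6 : (((ℓ : ℚ_[ℓ]) ^ n)⁻¹ • (ρ (s n) - 1))ᵀ = ((ℓ : ℚ_[ℓ]) ^ n)⁻¹ • ((ρ (s n))ᵀ - 1) := by
        rw [transpose_smul, transpose_sub, transpose_one]
      rw [h6, Matrix.smul_mul, Matrix.smul_mul, Matrix.mul_smul, Matrix.mul_smul, smul_smul,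
        smul_smul, mul_inv_cancel₀ (elln n), one_mul, ← smul_add, ← smul_add, mul_smul]
      congr 1
      rw [sub_smul, one_smul, ← h5]
      noncomm_ring
    show (((ℓ : ℚ_[ℓ]) ^ n •
        ((((ℓ : ℚ_[ℓ]) ^ n)⁻¹ • (ρ (s n) - 1))ᵀ * J * (((ℓ : ℚ_[ℓ]) ^ n)⁻¹ • (ρ (s n) - 1))) +
        ((((ℓ : ℚ_[ℓ]) ^ n)⁻¹ • (ρ (s n) - 1))ᵀ * J +
          J * (((ℓ : ℚ_[ℓ]) ^ n)⁻¹ • (ρ (s n) - 1))) : Matrix (Fin N) (Fin N) ℚ_[ℓ]) a₀ b₀) /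
        J a₀ b₀ = _
    rw [h4, Matrix.smul_apply, smul_eq_mul, mul_div_cancel_right₀ _ hab]
  have h1 : ∀ a b, ∀ᶠ n : ℕ in atTop,
      ‖((((ℓ : ℚ_[ℓ]) ^ n)⁻¹ • (ρ (s n) - 1)) - X) a b‖ < δ := by
    intro a b
    have h2 := ((continuous_apply_apply a b).tendsto X).comp hs
    have h3 := h2.sub_const (X a b)
    rw [sub_self] at h3
    have h4 := h3.norm
    rw [norm_zero] at h4
    exact h4.eventually (gt_mem_nhds hδ)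
  have h2 : ∀ᶠ n : ℕ in atTop, ∀ a b,
      ‖((((ℓ : ℚ_[ℓ]) ^ n)⁻¹ • (ρ (s n) - 1)) - X) a b‖ < δ := by
    rw [eventually_all]
    intro a
    rw [eventually_all]
    exact h1 a
  have h3 : ∀ᶠ n : ℕ in atTop, ‖((ℓ : ℚ_[ℓ]) ^ n)⁻¹ * (χ (s n) - 1) - c‖ < δ := by
    have h4 := (hχt.sub_const c).norm
    rw [sub_self, norm_zero] at h4
    exact h4.eventually (gt_mem_nhds hδ)
  obtain ⟨n, ⟨hn, hn'⟩, hk⟩ := ((h2.and h3).and (eventually_ge_atTop k₀)).exists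
  exact ⟨n, hk, s n, hn, hn'⟩

end

/-- **places without isotropic relation, from one element** -/
theorem place_of_close {K : Type} [Field K] [NumberField K] (hK : finrank ℚ K = 1) (ℓ : ℕ)
    [hℓ : Fact ℓ.Prime] {N w : ℕ} (hN : 0 < N) {X : Matrix (Fin N) (Fin N) ℚ_[ℓ]} {c : ℚ_[ℓ]}
    {δ : ℝ} {k : ℕ}
    (hkey : ∀ (g : Matrix (Fin N) (Fin N) ℚ_[ℓ]) (s : ℚ_[ℓ]), Close ℓ X c δ k g s →
      ∀ (m : Multiset (Lb ℓ)) (n : ℕ), m ≠ 0 → 0 < n →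
        m + m.map (fun z => algebraMap ℚ_[ℓ] (Lb ℓ) s / z) ≤
          (g.charpoly.map (algebraMap ℚ_[ℓ] (Lb ℓ))).roots →
        m.prod ^ (2 * n) ≠ (algebraMap ℚ_[ℓ] (Lb ℓ) s) ^ (m.card * n))
    (ρ : GK K →* Matrix (Fin N) (Fin N) ℚ_[ℓ]) (hρ : Continuous ρ)
    {J : Matrix (Fin N) (Fin N) ℚ_[ℓ]} (hJ : J.det ≠ 0) (χ : GK K → ℚ_[ℓ])
    (hχ : ∀ g, (ρ g)ᵀ * J * ρ g = χ g • J)
    {S : Set (HeightOneSpectrum (𝓞 K))} (hS : S.Finite) (P : HeightOneSpectrum (𝓞 K) → ℤ[X])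
    (hfrob : ∀ v ∉ S, (ℓ : 𝓞 K) ∉ v.asIdeal → ∀ σ : GK K, IsFrobenius v σ →
      (ρ σ⁻¹).charpoly = (P v).map (algebraMap ℤ ℚ_[ℓ]) ∧
      χ σ⁻¹ = (Ideal.absNorm v.asIdeal : ℚ_[ℓ]) ^ w)
    (hcl : ∃ σ : GK K, Close ℓ X c δ k (ρ σ) (χ σ))
    {T : Set (HeightOneSpectrum (𝓞 K))} (hT : T.Finite) :
    ∃ (p : ℕ) (v : HeightOneSpectrum (𝓞 K)), p.Prime ∧ (p : 𝓞 K) ∈ v.asIdeal ∧ v ∉ T ∧ v ∉ S ∧
      ∀ d : ℕ, 0 < d → ¬ IsoRel ℂ ℂ (fun _ : Fin (finrank ℚ K) => P v) (p ^ w) d := by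
  have hJ0 : J ≠ 0 := by
    rintro rfl
    have : Nonempty (Fin N) := ⟨⟨0, hN⟩⟩
    exact hJ det_zero
  have hO := isOpen_close (ℓ := ℓ) hρ (cont_mult hρ hJ0 hχ) X c δ k
  obtain ⟨σ₀, hσ₀⟩ := hcl
  obtain ⟨v, hv, σ, hσ, hσO⟩ := Pool.Agent.Y405.ZO.t K _ hO ⟨σ₀, hσ₀⟩
    _ ((hT.union hS).union (finite_above ℓ hℓ.out))
  have hvT : v ∉ T := fun h => hv (Or.inl (Or.inl h))
  have hvS : v ∉ S := fun h => hv (Or.inl (Or.inr h))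
  have hvℓ : (ℓ : 𝓞 K) ∉ v.asIdeal := fun h => hv (Or.inr h)
  obtain ⟨p, hp, hpv, hpn⟩ := exists_prime hK v
  obtain ⟨hcp, hχv⟩ := hfrob v hvS hvℓ σ hσ
  refine ⟨p, v, hp, hpv, hvT, hvS, fun d hd hrel => ?_⟩
  have h1 := hkey (ρ σ⁻¹) (χ σ⁻¹) hσO
  obtain ⟨Q, n, hn, hQ, hprod⟩ := hrel
  have hfr : finrank ℚ K = 1 := hK
  have hi : 0 < finrank ℚ K := by rw [hfr]; norm_num
  have : Subsingleton (Fin (finrank ℚ K)) := by rw [hfr]; infer_instance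
  rw [Fintype.prod_subsingleton _ ⟨0, hi⟩] at hprod
  obtain ⟨hQm, hQd, hQle⟩ := hQ ⟨0, hi⟩
  set q := Q ⟨0, hi⟩ with hq
  obtain ⟨e⟩ := emb_alg ℓ
  have hsp : algebraMap ℚ_[ℓ] (Lb ℓ) (χ σ⁻¹) = ((p ^ w : ℕ) : Lb ℓ) := by
    rw [hχv, hpn, map_pow, map_natCast, Nat.cast_pow]
  have hcard : (q.aroots ℂ).card = d := by
    rw [← hQd, aroots_def]
    have h2 := (IsAlgClosed.splits (q.map (algebraMap ℂ ℂ))).natDegree_eq_card_roots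
    rw [← h2, natDegree_map]
  refine h1 ((q.aroots ℂ).map e.symm) n ?_ hn ?_ ?_
  · rw [← Multiset.card_pos, Multiset.card_map, hcard]
    exact hd
  · have h2 := Multiset.map_le_map (f := e.symm) hQle
    have h3 : ((P v).aroots ℂ).map e.symm =
        ((ρ σ⁻¹).charpoly.map (algebraMap ℚ_[ℓ] (Lb ℓ))).roots := by
      rw [hcp, Polynomial.map_map, aroots_def]
      have h4 : (P v).map (algebraMap ℤ ℂ) =
          ((P v).map ((algebraMap ℚ_[ℓ] (Lb ℓ)).comp (algebraMap ℤ ℚ_[ℓ]))).map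
            (e : Lb ℓ →+* ℂ) := by
        rw [Polynomial.map_map]
        congr 1
        exact Subsingleton.elim _ _
      rw [h4, (IsAlgClosed.splits _).roots_map, Multiset.map_map]
      have h5 : (e.symm : ℂ → Lb ℓ) ∘ ((e : Lb ℓ →+* ℂ) : Lb ℓ → ℂ) = id := by
        funext x
        exact e.symm_apply_apply x
      rw [h5, Multiset.map_id]
    rw [h3, Multiset.map_add] at h2
    convert h2 using 2
    rw [Multiset.map_map, Multiset.map_map]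
    refine Multiset.map_congr rfl fun z _ => ?_
    simp only [Function.comp_apply]
    rw [map_div₀, map_natCast, hsp]
  · have h2 := congrArg e.symm hprod
    rw [map_pow, map_pow, map_natCast, hfr, mul_one, map_multiset_prod] at h2
    rw [hsp, Multiset.card_map, hcard]
    exact h2

/-- **semisimplicity at every prime from one element** -/
theorem semisimple_near {K : Type} [Field K] [NumberField K] (hK : finrank ℚ K = 1)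
    {Γ : Type} [Group Γ] (θ : GK K →* Γ) {N w : ℕ} (hw : 0 < w)
    {S : Set (HeightOneSpectrum (𝓞 K))} (hS : S.Finite) (P : HeightOneSpectrum (𝓞 K) → ℤ[X])
    (hP : ∀ v ∉ S, (P v).Monic ∧
      ∀ z : ℂ, aeval z (P v) = 0 → ‖z‖ ^ 2 = (Ideal.absNorm v.asIdeal : ℝ) ^ w)
    (ρ : ∀ (ℓ : ℕ) [Fact ℓ.Prime], Γ →* Matrix (Fin N) (Fin N) ℚ_[ℓ])
    (hρ : ∀ (ℓ : ℕ) [Fact ℓ.Prime], Continuous ((ρ ℓ).comp θ))
    (J : ∀ (ℓ : ℕ) [Fact ℓ.Prime], Matrix (Fin N) (Fin N) ℚ_[ℓ])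
    (hJ : ∀ (ℓ : ℕ) [Fact ℓ.Prime], (J ℓ)ᵀ = J ℓ ∨ (J ℓ)ᵀ = -J ℓ)
    (hdet : ∀ (ℓ : ℕ) [Fact ℓ.Prime], (J ℓ).det ≠ 0)
    (χ : ∀ (ℓ : ℕ) [Fact ℓ.Prime], Γ → ℚ_[ℓ])
    (hχ : ∀ (ℓ : ℕ) [Fact ℓ.Prime] (g : Γ), (ρ ℓ g)ᵀ * J ℓ * ρ ℓ g = χ ℓ g • J ℓ)
    (hfrob : ∀ (ℓ : ℕ) [Fact ℓ.Prime], ∀ v ∉ S, (ℓ : 𝓞 K) ∉ v.asIdeal → ∀ σ : GK K,
      IsFrobenius v σ → (ρ ℓ (θ σ⁻¹)).charpoly = (P v).map (algebraMap ℤ ℚ_[ℓ]) ∧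
      χ ℓ (θ σ⁻¹) = (Ideal.absNorm v.asIdeal : ℚ_[ℓ]) ^ w)
    (ℓ₀ : ℕ) [hℓ₀ : Fact ℓ₀.Prime] {X : Matrix (Fin N) (Fin N) ℚ_[ℓ₀]} {c : ℚ_[ℓ₀]} {δ : ℝ} {k : ℕ}
    (hkey : ∀ (g : Matrix (Fin N) (Fin N) ℚ_[ℓ₀]) (s : ℚ_[ℓ₀]), Close ℓ₀ X c δ k g s →
      ∀ (m : Multiset (Lb ℓ₀)) (n : ℕ), m ≠ 0 → 0 < n →
        m + m.map (fun z => algebraMap ℚ_[ℓ₀] (Lb ℓ₀) s / z) ≤
          (g.charpoly.map (algebraMap ℚ_[ℓ₀] (Lb ℓ₀))).roots →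
        m.prod ^ (2 * n) ≠ (algebraMap ℚ_[ℓ₀] (Lb ℓ₀) s) ^ (m.card * n))
    (hcl : ∃ σ : GK K, Close ℓ₀ X c δ k (ρ ℓ₀ (θ σ)) (χ ℓ₀ (θ σ)))
    (ℓ : ℕ) [hℓ : Fact ℓ.Prime]
    (U : Submodule ℚ_[ℓ] (Fin N → ℚ_[ℓ])) (hU : ∀ g : Γ, ∀ x ∈ U, ρ ℓ g *ᵥ x ∈ U) :
    IsCompl U ((bil (J ℓ)).orthogonal U) ∧
      ∀ g : Γ, ∀ x ∈ (bil (J ℓ)).orthogonal U, ρ ℓ g *ᵥ x ∈ (bil (J ℓ)).orthogonal U := by
  have hb : ∀ x y : Fin N → ℚ_[ℓ], bil (J ℓ) x y = x ⬝ᵥ J ℓ *ᵥ y := by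
    intro x y
    exact Matrix.toBilin'_apply' (J ℓ) x y
  have hnd : (bil (J ℓ)).Nondegenerate := by
    unfold bil
    exact LinearMap.BilinForm.nondegenerate_toBilin'_of_det_ne_zero' (J ℓ) (hdet ℓ)
  have hswap : ∀ x y : Fin N → ℚ_[ℓ], x ⬝ᵥ J ℓ *ᵥ y = y ⬝ᵥ (J ℓ)ᵀ *ᵥ x := by
    intro x y
    rw [dotProduct_mulVec, dotProduct_comm, ← mulVec_transpose]
  have hrefl : (bil (J ℓ)).IsRefl := by
    intro x y h
    rw [hb] at h ⊢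
    rw [hswap]
    rcases hJ ℓ with h1 | h1
    · rw [h1]; exact h
    · rw [h1, neg_mulVec, dotProduct_neg, h, neg_zero]
  have hmain := Pool.Agent.Y142.semisimple_A (K := K) (ℓ := ℓ) θ
    (V := Fin N → ℚ_[ℓ]) ((Matrix.toLinAlgEquiv' (R := ℚ_[ℓ]) (n := Fin N)).toMonoidHom.comp (ρ ℓ))
    (fun φ x => ?_) (bil (J ℓ)) hnd hrefl (χ ℓ) (fun g x y => ?_) hw
    (S := S ∪ {v | (ℓ : 𝓞 K) ∈ v.asIdeal}) (hS.union (finite_above ℓ hℓ.out)) P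
    (fun v hv => ⟨(hP v fun h => hv (Or.inl h)).1, (hP v fun h => hv (Or.inl h)).2,
      fun σ hσ => ?_⟩) (fun d hd hdN _ => ?_) U (fun g x hx => hU g x hx)
  · exact ⟨hmain.1, fun g x hx => hmain.2 g hx⟩
  · have h1 : Continuous φ := φ.continuous_of_finiteDimensional
    refine h1.comp ?_
    show Continuous fun g => ρ ℓ (θ g) *ᵥ x
    exact Continuous.matrix_mulVec (hρ ℓ) continuous_const
  · show bil (J ℓ) (ρ ℓ g *ᵥ x) (ρ ℓ g *ᵥ y) = χ ℓ g * bil (J ℓ) x y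
    rw [hb, hb, mulVec_mulVec]
    have h1 : (ρ ℓ g *ᵥ x) ⬝ᵥ (J ℓ * ρ ℓ g) *ᵥ y = x ⬝ᵥ ((ρ ℓ g)ᵀ * J ℓ * ρ ℓ g) *ᵥ y := by
      rw [Matrix.mul_assoc, ← mulVec_mulVec y (ρ ℓ g)ᵀ (J ℓ * ρ ℓ g), dotProduct_mulVec x,
        vecMul_transpose]
    rw [h1, hχ, smul_mulVec, dotProduct_smul, smul_eq_mul]
  · obtain ⟨h1, h2⟩ := hfrob ℓ v (fun h => hv (Or.inl h)) (fun h => hv (Or.inr h)) σ hσ
    refine ⟨?_, h2⟩
    rw [← h1]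
    exact Matrix.charpoly_toLin' _
  · have hN : 0 < N := by
      rw [Module.finrank_fin_fun] at hdN
      omega
    obtain ⟨p, v, hp, hpv, hvT, hvS, hrel⟩ := place_of_close hK ℓ₀ hN hkey ((ρ ℓ₀).comp θ) (hρ ℓ₀)
      (hdet ℓ₀) (fun g => χ ℓ₀ (θ g)) (fun g => hχ ℓ₀ (θ g)) hS P (w := w)
      (fun v hv hvℓ σ hσ => hfrob ℓ₀ v hv hvℓ σ hσ) hcl (finite_above ℓ hℓ.out)
    refine ⟨p, fun _ => v, hp, ?_, fun _ => ⟨hpv, ?_⟩, fun h => hrel d hd h.1⟩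
    · have : Subsingleton (Fin (finrank ℚ K)) := by
        rw [hK]; infer_instance
      exact Function.injective_of_subsingleton _
    · rintro (h | h)
      · exact hvS h
      · exact hvT h

end Pool.Agent.L5helper71.Ss
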