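import Pool.Agent.L5helper71.SsAlt2
import Pool.Agent.R932.PO.Fin
import Pool.Agent.R932.PO.JLie

/-!
# The joint Lie algebra from the Tate classes in the fourth tensor powers
-/

set_option autoImplicit false
set_option linter.unusedSectionVars false
set_option linter.style.haveILetI false

open Matrix Polynomial Filter Topology
open Pool.Agent.Y142.ZO Pool.Agent.Y142.ZI Pool.Agent.Y142.ZS
open Pool.Agent.R932.OP Pool.Agent.R932.EV Pool.Agent.R932.PO

namespace Pool.Agent.L5helper71.Ss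

variable {ℓ : ℕ} [hℓ : Fact ℓ.Prime] {ι : Type} [Fintype ι] [DecidableEq ι] {N : ι → ℕ}
  {G : Type} [Group G] [TopologicalSpace G] [IsTopologicalGroup G] [CompactSpace G]

/-- **the joint Lie algebra is full if the Tate classes of the types `i i j j` are the expected ones
and the representations are semisimple** -/
theorem jtan_of_t4 (r : ∀ i, G →* Matrix (Fin (N i)) (Fin (N i)) ℚ_[ℓ])
    (hr : ∀ i, Continuous (r i)) (B : ∀ i, Matrix (Fin (N i)) (Fin (N i)) ℚ_[ℓ])
    (hB : ∀ i, IsForm (B i)) (hN : ∀ i, 0 < N i) (κ : G →* ℚ_[ℓ])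
    (hκ : ∀ i g, (r i g)ᵀ * B i * r i g = κ g • B i)
    (hT : ∀ a : Fin 4 → ι, a 0 = a 1 → a 2 = a 3 → ∀ T, IsTate r κ a 2 T → Killed B a T)
    (hS : ∀ i, Pool.Agent.N171.TG.SSu (Pool.Agent.N171.TG.endRep (r i)) ⊤) : ∀ X, (∀ i, SpLie (B i) (X i)) → JTan ℓ r X := by
  have hsim : ∀ (i : ι) (g : G), ∃ c, Sim (B i) (r i g) c := fun i g => ⟨_, hκ i g⟩
  have hmult : ∀ (i : ι) (g : G), Sim (B i) (r i g) (κ g ^ ((fun _ : ι => 1) i)) := by
    intro i g
    show (r i g)ᵀ * B i * r i g = κ g ^ 1 • B i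
    rw [pow_one]
    exact hκ i g
  have hone : ∀ i X, SpLie (B i) X → IsTangent ℓ (r i) X := by
    intro i
    have hN2 : 2 ≤ N i := by
      rcases (hB i).1 with h' | h'
      · have := h'.2
        omega
      · obtain ⟨k, hk⟩ := even_of_alt h' (hB i).2
        have := hN i
        omega
    have h4 : Tate4 ℓ (r i) (B i) :=
      tate4_of (ρ := r) (J := B) (κ := κ) (w := fun _ => 1) i (hB i) (hN i) (hmult i)
        fun T hT' => hT (fun _ => i) rfl rfl T hT'
    obtain ⟨ε, hε, hJε⟩ : ∃ ε : ℚ_[ℓ], (ε = 1 ∨ ε = -1) ∧ (B i)ᵀ = ε • B i := by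
      rcases (hB i).1 with h | h
      · exact ⟨1, Or.inl rfl, by rw [one_smul]; exact h.1⟩
      · exact ⟨-1, Or.inr rfl, by rw [neg_one_smul]; exact h⟩
    exact full_of_tate_ss (hr i) hN2 hε hJε (hB i).2 (hsim i) h4 (hS i)
  refine joint_full jlie jlift gour (pair jlie jlift) (ρ := r) hr hB hsim hone ?_
  intro i j hij Θ h1 h2
  exact pair_of (ρ := r) (J := B) (κ := κ) (w := fun _ => 1) i j hij (hB i) (hB j) (hmult i)
    (hmult j) (fun T hT' => hT _ rfl rfl T hT') Θ h1 h2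

end Pool.Agent.L5helper71.Ss
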