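import Pool.Agent.L5helper71.LrgMain

/-!
# The ℓ-adic half of the motivated Mumford-Tate conjecture relative to an arbitrary variety, for
# Jacobians of hyperelliptic curves with large Galois groups

The second equality `G_mot,ℓ (M) = G(r_ℓ (M))°` of the motivated Mumford-Tate conjecture asks that all
Tate classes are motivated (combinations of motivated cycles in the sense of André). Here it is
considered, for `ℓ = 2`, for the motives generated by an arbitrary variety `Z` and by finitely many
varieties `X_i` over a field `K` of characteristic different from two, for example a finitely
generated field `K ⊂ ℂ`; `F` is an algebraically closed extension of `K` (the algebraic closure), and
`W` is a Weil cohomology theory whose coefficients contain `ℚ_2`, with an action of `Gal(F/K)` on the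
cohomology of `Z` and of the `X_i`, for example 2-adic étale cohomology.

Let the `f_i` be finitely many monic separable polynomials over `K` of odd degrees at least seven, such
that the Galois group of `f_i` contains all even permutations of the roots, and for `j ≠ i` some
automorphism of `F` over `K` fixes the roots of `f_j` and moves a root of `f_i`. Let the `X_i` be
varieties of odd dimension `n_i` for which homological and numerical equivalence coincide, and whose
transcendental cohomology (the orthogonal complement of all algebraic classes) is contained in the
middle degree and is a Tate twist of the 2-adic Tate module of the Jacobian of the curve
`y ^ 2 = f_i (x)`. Examples: the hyperelliptic curves `y ^ 2 = f_i (x)` themselves, and the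
odd-dimensional intersections of two quadrics attached to them, of dimension `deg f_i - 2`.

The only assumption on `Z` is the condition **(free)**: the cohomology of `Z` has a lattice `L` over
`ℤ_2`, of rank `d`, which is stable under the Galois group, and for all `i` some automorphism acts
trivially on `L / 2` and moves a root of `f_i` (the field cut out by `L / 2` does not contain the
splitting field of `f_i`); this holds if `2 ^ (d ^ 2 + 1) < (deg f_i)!`.

**Theorem.** The following are equivalent:

* all Tate classes on all products of copies of `Z` are motivated;
* all Tate classes on all varieties dominated by products of copies of `Z` and of the `X_i` (in any
  order, with any action of the Galois group compatible with the projections) are motivated.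

So the second equality for all motives in the tensor category generated by `h(Z)` and the `h(X_i)`
follows from the second equality for the motives in the category generated by `h(Z)` alone. For
abelian motives (where moreover the whole conjecture is equivalent to the conjecture of Mumford and
Tate) this is known by a theorem of Commelin; here `Z` need not be of abelian type.

Proof. The motivated classes span a system of subspaces which contains the algebraic classes and is
stable under products, pull-backs and push-forwards. The action of the Galois group on the two-torsion
of the Jacobian is given by the permutations of the roots (the permutation module modulo 2 restricted
to the subsets of even cardinality); the image of the Galois group in the symplectic group of the Tate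
module is large enough for its Lie algebra over `ℚ_2` to kill all multilinear maps from the
transcendental cohomologies to the cohomology of `Z'` which are equivariant under a subgroup of finite
index and twisted by powers of the cyclotomic character (starting library). Here `Z'` is a product of
copies of `Z`, whose cohomology has the tensor power of the lattice `L` as a stable lattice: an
automorphism which acts trivially on `L / 2` (it exists by the pigeonhole principle in the case
`2 ^ (d ^ 2 + 1) < (deg f_i)!`) acts trivially on the tensor power modulo 2. By the first fundamental
theorem every Tate class on the product of `Z'` and of powers of the `X_i` is a combination of
products of algebraic classes on the powers of the `X_i` with classes on `Z'`, and these are Tate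
classes on `Z'`. Products in arbitrary order are isomorphic to such products. For a dominated variety
`g : T → B`, `g_* w = 1`: `c = g_* (w g^* c)`.
-/

universe u

namespace Pool.Agent.Results.MP_b8862a_ag.TateMotivatedLargeGalois

open Pool.Agent.H914 Pool.Agent.TH125.Gal Pool.Agent.N171.Bq Pool.Agent.L5helper71.Cat Polynomial

/-- **Tate classes and motivated classes on products with Jacobians with large Galois groups.** Let the
`f i` be polynomials with large Galois groups, let the transcendental cohomology of `X i` be a Tate
twist of the Tate module of the Jacobian of `y ^ 2 = f i (x)`, and let `Z` be a variety which satisfies
the condition (free). All Tate classes on all varieties dominated by products of copies of `Z` and of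
the `X i` are motivated if and only if all Tate classes on all products of copies of `Z` are
motivated. -/
theorem result {k : Type u} [Field k] {𝒱 : VarClass k} {ops : CycleOps 𝒱}
    (W : WeilCohomology.{u, 0} ops) [Algebra ℚ_[2] W.K] {K F : Type} [Field K] [Field F]
    [Algebra K F] [IsAlgClosed F] {ι : Type} [Finite ι] (f : ι → K[X]) [∀ i, Branch (f i)]
    (hf : Large F f) (X : ι → GVar W (F ≃ₐ[K] F)) (hX : ∀ i, JacobianVar (f i) (X i))
    (Z : GVar W (F ≃ₐ[K] F)) (hZ : FreeOf Z.act f) :
    AllMotivated (twistChar K F W.K) X Z ↔ BaseMotivated (twistChar K F W.K) Z :=
  all_large hf hX hZ

end Pool.Agent.Results.MP_b8862a_ag.TateMotivatedLargeGalois
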